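import Pool.Agent.TH800.DM.Kt

/-! The block theorem: runs of almost equal gaps. -/

open Complex Filter Topology Set MeasureTheory

namespace Pool.Agent.TH800.DM

open TC (om om_pos om_le_one om_cont)
open SG (ord NZ)
open MS (PX aa gau0 mem_PX)

lemma run_len {L c : ℝ} {n m : ℕ} (hL : 0 < L) (hc : c ≤ 1 / 10) (hm : (0 : ℝ) < m)
    (h : ∑ i ∈ Finset.range m, |L * (ord (n + i + 1) - ord (n + i)) - 2 * Real.pi| ≤ c * m) :
    5 * (m / L) ≤ ord (n + m) - ord n := by
  have hpi3 := Real.pi_gt_three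
  have htel : ∑ i ∈ Finset.range m, (ord (n + i + 1) - ord (n + i)) = ord (n + m) - ord n := by
    have := Finset.sum_range_sub (fun i => ord (n + i)) m
    simp only [add_zero] at this
    rw [← this]
    rfl
  have g1 : |∑ i ∈ Finset.range m, (L * (ord (n + i + 1) - ord (n + i)) - 2 * Real.pi)| ≤
      c * m := (Finset.abs_sum_le_sum_abs _ _).trans h
  rw [Finset.sum_sub_distrib, ← Finset.mul_sum, htel, Finset.sum_const, Finset.card_range,
    nsmul_eq_mul] at g1
  have g2 := (abs_le.1 g1).1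
  have g4 : 5 * m ≤ L * (ord (n + m) - ord n) := by
    have : c * m ≤ 1 / 10 * m := by gcongr
    nlinarith
  rw [← mul_div_assoc, div_le_iff₀ hL]
  linarith

/-- runs with almost equal gaps in a block -/
theorem blk (RH : RiemannHypothesis) : ∃ K c T0 m0 : ℝ, 0 < K ∧ 0 < c ∧ c ≤ 1 / 10 ∧ 10 ≤ T0 ∧
    7 ≤ m0 ∧ ∀ T : ℝ, T0 ≤ T → ∀ m : ℕ, m0 ≤ m → (m : ℝ) ≤ Real.log T → ∀ F : Finset ℕ,
      (∀ n ∈ F, 1 ≤ n ∧ T + 6 * Real.log T ≤ ord n ∧ ord (n + m) ≤ 2 * T - 6 * Real.log T ∧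
        ∑ i ∈ Finset.range m, |Real.log T * (ord (n + i + 1) - ord (n + i)) - 2 * Real.pi| ≤
          c * m) →
      (F.card : ℝ) ≤ K * (1 / m + 1 / Real.log T) * (T * Real.log T) := by
  classical
  obtain ⟨c, ρ, ε0, A1, A2, T1, m0, hc, hc1, hρ, hε, hA1, hA2, hT1, hm0, hkey⟩ := key RH
  obtain ⟨K, T2, hK, hT2, hint⟩ := Fx_int ρ hρ ε0 A1 A2 hε hA1 hA2
  refine ⟨K, c, max T1 T2, m0, hK, hc, hc1, hT1.trans (le_max_left _ _), hm0,
    fun T hT m hm hmL F hF => ?_⟩
  have hTT1 : T1 ≤ T := (le_max_left _ _).trans hT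
  have hTT2 : T2 ≤ T := (le_max_right _ _).trans hT
  have hT10 : 10 ≤ T := hT1.trans hTT1
  have hm7 : (7 : ℝ) ≤ m := hm0.trans hm
  have hmp : (0 : ℝ) < m := by linarith
  have hL7 : 7 ≤ Real.log T := hm7.trans hmL
  have hL0 : 0 < Real.log T := by linarith
  have hkey' : ∀ n ∈ F, ∀ u : ℝ, ord n + 3 / 2 * (m / Real.log T) ≤ u →
      u ≤ ord (n + m) - 3 / 2 * (m / Real.log T) → 1 ≤ Fx ε0 A1 A2 ρ T m u := fun n hn =>
    hkey T hTT1 m hm hmL n (hF n hn).1 (hF n hn).2.1 (hF n hn).2.2.1 (hF n hn).2.2.2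
  have hlen : ∀ n ∈ F, 5 * (m / Real.log T) ≤ ord (n + m) - ord n := fun n hn =>
    run_len hL0 hc1 hmp (hF n hn).2.2.2
  have hΦc : Continuous (Fx ε0 A1 A2 ρ T m) := Fx_cont hL0 hmp
  have hΦ0 : ∀ u, 0 ≤ Fx ε0 A1 A2 ρ T m u := Fx_nonneg hε hA1 hA2 (by linarith) hL0 hmp
  by_cases hne : F.Nonempty
  swap
  · rw [Finset.not_nonempty_iff_eq_empty] at hne
    rw [hne, Finset.card_empty, Nat.cast_zero]
    positivity
  obtain ⟨n1, hn1⟩ := hne
  have hV : T + 6 * Real.log T ≤ 2 * T - 6 * Real.log T := by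
    obtain ⟨a1, a2, a3, a4⟩ := hF n1 hn1
    have := SG.ord_mono a1 (by omega : n1 ≤ n1 + m)
    linarith
  have hΦi := hint T hTT2 m (by linarith) hmL hV
  clear hkey hint
  generalize Fx ε0 A1 A2 ρ T m = Φ at hkey' hΦc hΦ0 hΦi
  have hr0 : 0 < (m : ℝ) / Real.log T := by positivity
  have hcount := LD.count_gen F (fun n => ord n + 3 / 2 * (m / Real.log T))
    (fun n => ord (n + m) - 3 / 2 * (m / Real.log T))
    (T + 6 * Real.log T) (2 * T - 6 * Real.log T) (2 * (m / Real.log T)) (fun t => m * Φ t) hV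
    (continuous_const.mul hΦc)
    (by positivity) (fun n hn => by
      obtain ⟨a1, a2, a3, a4⟩ := hF n hn
      have := hlen n hn
      refine ⟨by linarith, by linarith, ?_⟩
      linarith) (fun t ht1 ht2 => by
      by_cases hfe : (F.filter (fun n => ord n + 3 / 2 * (m / Real.log T) ≤ t ∧
          t ≤ ord (n + m) - 3 / 2 * (m / Real.log T))).Nonempty
      · obtain ⟨n2, hn2⟩ := hfe
        rw [Finset.mem_filter] at hn2
        obtain ⟨hn2F, b1, b2⟩ := hn2
        have h4 := hkey' n2 hn2F t b1 b2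
        have h5 : (F.filter (fun n => ord n + 3 / 2 * (m / Real.log T) ≤ t ∧
            t ≤ ord (n + m) - 3 / 2 * (m / Real.log T))).card ≤ m := by
          apply MS.overlap (t := t)
          intro n hn
          rw [Finset.mem_filter] at hn
          obtain ⟨hnF, b3, b4⟩ := hn
          exact ⟨(hF n hnF).1, by linarith, by linarith⟩
        calc _ ≤ (m : ℝ) * 1 := by rw [mul_one]; exact_mod_cast h5
          _ ≤ m * Φ t := by gcongr
      · rw [Finset.not_nonempty_iff_eq_empty] at hfe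
        rw [hfe, Finset.card_empty, Nat.cast_zero]
        have := hΦ0 t
        positivity)
  rw [intervalIntegral.integral_const_mul] at hcount
  have h8 : (F.card : ℝ) * (2 * (m / Real.log T)) ≤ m * (K * (T * (1 / m + 1 / Real.log T))) :=
    hcount.trans (mul_le_mul_of_nonneg_left hΦi hmp.le)
  have h9 : (F.card : ℝ) ≤ 1 / (2 * (m / Real.log T)) *
      (m * (K * (T * (1 / m + 1 / Real.log T)))) := by
    rw [one_div_mul_eq_div, le_div_iff₀ (by positivity)]
    exact h8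
  refine h9.trans ?_
  have e : 1 / (2 * (m / Real.log T)) * (m * (K * (T * (1 / m + 1 / Real.log T)))) =
      1 / 2 * (K * (1 / m + 1 / Real.log T) * (T * Real.log T)) := by
    field_simp
  rw [e]
  have : 0 ≤ K * (1 / m + 1 / Real.log T) * (T * Real.log T) := by positivity
  linarith

end Pool.Agent.TH800.DM
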