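import Pool.Agent.TH800.DM.Lb
import Pool.Agent.TH800.MS.Ze

/-! The explicit formula with a band limited weight. -/

open Complex Filter Topology Set MeasureTheory
open ArithmeticFunction (vonMangoldt vonMangoldt_nonneg vonMangoldt_apply_prime vonMangoldt_le_log)
open scoped ComplexConjugate

namespace Pool.Agent.TH800.DM

open SP (RHs mu ZZ zs ps bt ppf ppG ppG_nonneg ppG_summable)
open H370 (Zf good_zeta)
open MS (PX aa gau0 mem_PX)

/-- cosine transform -/
noncomputable def Kc (ψ : ℝ → ℝ) (z : ℝ) : ℝ := ∫ α in (0 : ℝ)..1, ψ α * Real.cos (α * z)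

/-- the sum over the zeros -/
noncomputable def Zs (T t : ℝ) (ψ : ℝ → ℝ) : ℝ :=
  ∑ s ∈ Zf riemannZeta T (2 * T), (mu s : ℝ) * Real.exp (-(s.im - t) ^ 2 / 2) *
    Kc ψ (Real.log T * (s.im - t))

/-- the weight -/
noncomputable def Ww (T : ℝ) (ψ : ℝ → ℝ) (u : ℝ) : ℂ :=
  ((ψ (u / Real.log T) / Real.log T : ℝ) : ℂ)

/-- coefficients of the prime sum -/
noncomputable def cw (T : ℝ) (ψ : ℝ → ℝ) (x : ℝ) : ℝ :=
  ∫ u in (0 : ℝ)..Real.log T, ψ (u / Real.log T) / Real.log T * gau0 (u - Real.log x)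

noncomputable def ac (T : ℝ) (ψ : ℝ → ℝ) (p : ℕ) : ℝ := aa p * cw T ψ p

/-- the main term -/
noncomputable def Mm (T : ℝ) (ψ : ℝ → ℝ) : ℝ :=
  ∫ u in (0 : ℝ)..Real.log T, ψ (u / Real.log T) * gau0 u

lemma Ww_cont {ψ : ℝ → ℝ} (hψ : Continuous ψ) (T : ℝ) : Continuous (Ww T ψ) := by
  unfold Ww
  exact Complex.continuous_ofReal.comp ((hψ.comp (by fun_prop)).div_const _)

lemma bt_eq {ψ : ℝ → ℝ} (T x : ℝ) : bt T (Ww T ψ) x = (cw T ψ x : ℂ) := by
  unfold SP.bt cw Ww MS.gau0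
  rw [← intervalIntegral.integral_ofReal, ← intervalIntegral.integral_const_mul]
  refine intervalIntegral.integral_congr fun u _ => ?_
  push_cast
  ring

lemma zs_eq {ψ : ℝ → ℝ} (hψ : Continuous ψ) {T : ℝ} (hT : 1 < T) (t : ℝ) :
    (zs T t (Ww T ψ)).re = Zs T t ψ := by
  have hL : 0 < Real.log T := Real.log_pos hT
  unfold SP.zs Zs SP.ZZ
  rw [H370.finsum_Zf good_zeta (by linarith), Complex.re_sum]
  refine Finset.sum_congr rfl fun s _ => ?_
  have e3 : (mu s : ℂ) * (Real.exp (-(s.im - t) ^ 2 / 2) : ℂ) =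
      (((mu s : ℝ) * Real.exp (-(s.im - t) ^ 2 / 2) : ℝ) : ℂ) := by push_cast; rfl
  rw [e3, Complex.re_ofReal_mul]
  congr 1
  have hint : IntervalIntegrable (fun u : ℝ => Ww T ψ u * cexp (I * ((u * (s.im - t) : ℝ) : ℂ)))
      volume 0 (Real.log T) := by
    apply Continuous.intervalIntegrable
    exact (Ww_cont hψ T).mul (by fun_prop)
  have h1 := Complex.reCLM.intervalIntegral_comp_comm hint
  rw [Complex.reCLM_apply] at h1
  rw [← h1]
  have h2 := intervalIntegral.integral_comp_div (a := 0) (b := Real.log T)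
    (fun α => ψ α * Real.cos (α * (Real.log T * (s.im - t)))) hL.ne'
  rw [zero_div, div_self hL.ne', smul_eq_mul] at h2
  have h3 : Kc ψ (Real.log T * (s.im - t)) = 1 / Real.log T * ∫ x in (0 : ℝ)..Real.log T,
      ψ (x / Real.log T) * Real.cos (x / Real.log T * (Real.log T * (s.im - t))) := by
    rw [h2]
    unfold Kc
    rw [← mul_assoc, one_div, inv_mul_cancel₀ hL.ne', one_mul]
  rw [h3, ← intervalIntegral.integral_const_mul]
  apply intervalIntegral.integral_congr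
  intro u _
  simp only [Complex.reCLM_apply]
  unfold Ww
  rw [Complex.re_ofReal_mul, mul_comm I, Complex.exp_ofReal_mul_I_re]
  have : u / Real.log T * (Real.log T * (s.im - t)) = u * (s.im - t) := by field_simp
  rw [this]
  ring

/-- the explicit formula -/
theorem ex1 (hRH : RHs) : ∃ C T0 : ℝ, 0 < C ∧ 10 ≤ T0 ∧ ∀ T : ℝ, T0 ≤ T → ∀ (ψ : ℝ → ℝ) (B : ℝ),
    Continuous ψ → (∀ α, |ψ α| ≤ B) → ∀ t : ℝ, T + Real.log T ≤ t → t ≤ 2 * T - Real.log T →
    |Zs T t ψ + (ps T t (Ww T ψ)).re - Mm T ψ| ≤ C * (B / Real.log T) := by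
  obtain ⟨C, T0, hC, hT0, h⟩ := LG.EFWm hRH
  refine ⟨C, T0, hC, hT0, fun T hT ψ B hψ hB t ht1 ht2 => ?_⟩
  have hT10 : 10 ≤ T := hT0.trans hT
  have hL : 0 < Real.log T := Real.log_pos (by linarith)
  have h1 := h T hT t ht1 ht2 (Ww T ψ) (B / Real.log T) (Ww_cont hψ T) (fun u _ => by
    unfold Ww
    rw [Complex.norm_real, Real.norm_eq_abs, abs_div, abs_of_pos hL]
    exact div_le_div_of_nonneg_right (hB _) hL.le)
  refine le_trans ?_ h1
  have h2 : ((Real.log T / Real.sqrt (2 * Real.pi) : ℝ) : ℂ) *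
      ∫ u in (0 : ℝ)..Real.log T, Ww T ψ u * (Real.exp (-u ^ 2 / 2) : ℂ) = (Mm T ψ : ℂ) := by
    unfold Mm Ww MS.gau0
    rw [← intervalIntegral.integral_ofReal, ← intervalIntegral.integral_const_mul]
    refine intervalIntegral.integral_congr fun u _ => ?_
    have hLc : (Real.log T : ℂ) ≠ 0 := by exact_mod_cast hL.ne'
    push_cast
    field_simp
  rw [h2, ← zs_eq hψ (by linarith) t]
  have h3 := Complex.abs_re_le_norm (zs T t (Ww T ψ) + ps T t (Ww T ψ) - (Mm T ψ : ℂ))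
  rw [Complex.sub_re, Complex.add_re, Complex.ofReal_re] at h3
  exact h3

lemma cw_le {T : ℝ} (hT : 1 < T) {ψ : ℝ → ℝ} {B : ℝ} (hB : ∀ α, |ψ α| ≤ B) (x : ℝ) :
    |cw T ψ x| ≤ B / Real.log T := by
  have hL : 0 < Real.log T := Real.log_pos hT
  have h1 := SP.bt_le T hT.le (Ww T ψ) (B / Real.log T) (fun u _ => by
    unfold Ww
    rw [Complex.norm_real, Real.norm_eq_abs, abs_div, abs_of_pos hL]
    exact div_le_div_of_nonneg_right (hB _) hL.le) x
  rw [bt_eq, Complex.norm_real, Real.norm_eq_abs] at h1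
  exact h1

lemma ppf_eq (T t : ℝ) (ψ : ℝ → ℝ) {n : ℕ} (hn : 1 ≤ n) :
    ppf T t (Ww T ψ) n = ((vonMangoldt n / Real.sqrt n * cw T ψ n : ℝ) : ℂ) *
      cexp (((t * (-Real.log n) : ℝ) : ℂ) * I) := by
  have hn0 : (0 : ℝ) < n := by exact_mod_cast hn
  have hnc : (n : ℂ) ≠ 0 := by exact_mod_cast hn0.ne'
  unfold SP.ppf
  rw [bt_eq, Complex.cpow_def_of_ne_zero hnc, ← Complex.natCast_log]
  have h1 : (((vonMangoldt n / Real.sqrt n * cw T ψ n : ℝ)) : ℂ) = (vonMangoldt n : ℂ) *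
      cexp ((-(Real.log n / 2) : ℝ) : ℂ) * (cw T ψ n : ℂ) := by
    rw [← ofReal_exp, ← ofReal_mul, ← ofReal_mul, div_eq_mul_inv]
    congr 3
    rw [Real.exp_neg, Real.sqrt_eq_rpow, Real.rpow_def_of_pos hn0]
    congr 2
    ring
  rw [h1]
  have h2 : cexp (((Real.log n : ℝ) : ℂ) * (-(1 / 2) - I * t)) =
      cexp ((-(Real.log n / 2) : ℝ) : ℂ) * cexp (((t * (-Real.log n) : ℝ) : ℂ) * I) := by
    rw [← Complex.exp_add]
    congr 1
    push_cast
    ring
  rw [h2]
  ring

/-- non primes up to `N` -/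
def NP (N : ℕ) : Finset ℕ := (Finset.Icc 1 N).filter (fun n => ¬ n.Prime)

/-- the contribution of the prime powers -/
noncomputable def Rr (T : ℝ) (ψ : ℝ → ℝ) (N : ℕ) (t : ℝ) : ℝ :=
  ‖∑ n ∈ NP N, ((vonMangoldt n / Real.sqrt n * cw T ψ n : ℝ) : ℂ) *
      cexp (((t * (-Real.log n) : ℝ) : ℂ) * I)‖

lemma Rr_cont (T : ℝ) (ψ : ℝ → ℝ) (N : ℕ) : Continuous (Rr T ψ N) := by
  unfold Rr; fun_prop

lemma Rr_nonneg (T : ℝ) (ψ : ℝ → ℝ) (N : ℕ) (t : ℝ) : 0 ≤ Rr T ψ N t := norm_nonneg _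

/-- the prime side -/
theorem ex2 (lam : ℝ) (hl0 : 0 < lam) : ∃ C : ℝ, 0 < C ∧ ∀ T : ℝ, 10 ≤ T →
    ∀ (ψ : ℝ → ℝ) (B : ℝ), (∀ α, |ψ α| ≤ B) → (∀ α, lam ≤ α → ψ α = 0) → ∀ t : ℝ,
    |(ps T t (Ww T ψ)).re - (Fs (PX ⌊Real.exp (2 * (lam * Real.log T))⌋₊) (ac T ψ) t).re| ≤
      Rr T ψ ⌊Real.exp (2 * (lam * Real.log T))⌋₊ t + C * (B / Real.log T) := by
  have hs0 : 0 ≤ ∑' n, ppG (1 / 16) n := tsum_nonneg (ppG_nonneg _)
  refine ⟨4 / lam ^ 2 * (∑' n, ppG (1 / 16) n) + 1, by positivity,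
    fun T hT ψ B hB hψ0 t => ?_⟩
  have hT1 : 1 < T := by linarith
  have hL1 : 1 ≤ Real.log T := by
    rw [Real.le_log_iff_exp_le (by linarith)]
    exact (Real.exp_one_lt_d9.le.trans (by norm_num)).trans hT
  set L := Real.log T with hL
  have hL0 : 0 < L := by linarith
  have hB0 : 0 ≤ B := (abs_nonneg _).trans (hB 0)
  set N := ⌊Real.exp (2 * (lam * L))⌋₊ with hN
  set K := B / L with hK
  have hK0 : 0 ≤ K := by positivity
  have hWK : ∀ u ∈ Set.Icc 0 (Real.log T), ‖Ww T ψ u‖ ≤ K := fun u _ => by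
    unfold Ww
    rw [Complex.norm_real, Real.norm_eq_abs, abs_div, abs_of_pos hL0]
    exact div_le_div_of_nonneg_right (hB _) hL0.le
  have hW0 : ∀ u : ℝ, lam * L ≤ u → Ww T ψ u = 0 := fun u hu => by
    unfold Ww
    rw [hψ0 (u / Real.log T) (by rw [le_div_iff₀ hL0]; exact hu), zero_div, ofReal_zero]
  have hsum := SP.ppf_summable T t hT1.le (Ww T ψ) K hWK
  have hps : ps T t (Ww T ψ) = ∑' n, ppf T t (Ww T ψ) n := rfl
  -- tail
  set f := ppf T t (Ww T ψ) with hf
  have htail : ‖(∑' n, f n) - ∑ n ∈ Finset.Icc 1 N, f n‖ ≤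
      4 / lam ^ 2 * K * ∑' n, ppG (1 / 16) n := by
    have h1 : (∑' n, f n) - ∑ n ∈ Finset.Icc 1 N, f n =
        ∑' n, (f n - if n ∈ Finset.Icc 1 N then f n else 0) := by
      have hs2 : Summable (fun n => if n ∈ Finset.Icc 1 N then f n else 0) := by
        apply summable_of_ne_finset_zero (s := Finset.Icc 1 N)
        intro n hn
        rw [if_neg hn]
      rw [hsum.tsum_sub hs2]
      congr 1
      rw [tsum_eq_sum (s := Finset.Icc 1 N)]
      · exact Finset.sum_congr rfl fun n hn => by rw [if_pos hn]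
      · intro n hn
        rw [if_neg hn]
    rw [h1]
    apply tsum_of_norm_bounded ((ppG_summable (1 / 16) (by norm_num)).hasSum.mul_left _)
    intro n
    have hpp := ppG_nonneg (1 / 16) n
    by_cases hn : n ∈ Finset.Icc 1 N
    · rw [if_pos hn, sub_self, norm_zero]
      positivity
    rw [if_neg hn, sub_zero]
    rcases Nat.eq_zero_or_pos n with h0 | h0
    · subst h0
      rw [hf, SP.ppf_zero, norm_zero]
      positivity
    have hn2 : Real.exp (2 * (lam * L)) < n := by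
      have : ¬ (n ≤ N) := fun h => hn (Finset.mem_Icc.2 ⟨h0, h⟩)
      rw [not_le] at this
      exact (Nat.floor_lt (Real.exp_pos _).le).1 this
    have hlogn : 2 * (lam * L) ≤ Real.log n := by
      rw [Real.le_log_iff_exp_le (by exact_mod_cast h0)]
      exact hn2.le
    have hlL : 0 < lam * L := by positivity
    have h0' : 0 ≤ Real.log n := Real.log_natCast_nonneg n
    calc ‖f n‖ ≤ Real.log n * (n : ℝ) ^ (-(1 / 2) : ℝ) * ‖bt T (Ww T ψ) n‖ :=
          SP.ppf_norm_le T t (Ww T ψ) n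
      _ ≤ Real.log n * (n : ℝ) ^ (-(1 / 2) : ℝ) *
          (K * (4 / lam ^ 2 * Real.exp (-(1 / 16) * (Real.log n) ^ 2))) := by
          apply mul_le_mul_of_nonneg_left _ (by positivity)
          refine (SP.bt_far T hT1.le (Ww T ψ) K (lam * L) hWK hW0 n (by linarith)).trans ?_
          rw [mul_assoc]
          apply mul_le_mul_of_nonneg_left _ hK0
          have h2 : Real.exp (-(Real.log n - lam * L) ^ 2 / 2) ≤
              Real.exp (-(1 / 16) * (Real.log n) ^ 2) * Real.exp (-(lam ^ 2 * L ^ 2 / 4)) := by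
            rw [← Real.exp_add]
            apply Real.exp_le_exp.2
            nlinarith
          have h3 : Real.exp (-(lam ^ 2 * L ^ 2 / 4)) * L ≤ 4 / lam ^ 2 := by
            have h4 := Real.add_one_le_exp (lam ^ 2 * L ^ 2 / 4)
            have h5 : lam ^ 2 * L ^ 2 / 4 ≤ Real.exp (lam ^ 2 * L ^ 2 / 4) := by linarith
            rw [Real.exp_neg]
            have h6 : (Real.exp (lam ^ 2 * L ^ 2 / 4))⁻¹ ≤ (lam ^ 2 * L ^ 2 / 4)⁻¹ :=
              inv_anti₀ (by positivity) h5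
            calc (Real.exp (lam ^ 2 * L ^ 2 / 4))⁻¹ * L ≤ (lam ^ 2 * L ^ 2 / 4)⁻¹ * L := by gcongr
              _ = 4 / lam ^ 2 * (1 / L) := by field_simp
              _ ≤ 4 / lam ^ 2 * 1 := by
                  gcongr
                  rw [div_le_one hL0]
                  exact hL1
              _ = _ := mul_one _
          calc Real.exp (-(Real.log n - lam * L) ^ 2 / 2) * Real.log T ≤
              (Real.exp (-(1 / 16) * (Real.log n) ^ 2) * Real.exp (-(lam ^ 2 * L ^ 2 / 4))) * L := by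
                gcongr
            _ = Real.exp (-(1 / 16) * (Real.log n) ^ 2) * (Real.exp (-(lam ^ 2 * L ^ 2 / 4)) * L) := by
                ring
            _ ≤ Real.exp (-(1 / 16) * (Real.log n) ^ 2) * (4 / lam ^ 2) := by gcongr
            _ = _ := by ring
      _ = _ := by
          unfold SP.ppG
          ring
  have hsplit : ∑ n ∈ Finset.Icc 1 N, f n = (∑ p ∈ PX N, f p) + ∑ n ∈ NP N, f n := by
    unfold MS.PX NP
    rw [Finset.sum_filter_add_sum_filter_not]
  have hP : (∑ p ∈ PX N, f p).re = (Fs (PX N) (ac T ψ) t).re := by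
    unfold Fs
    rw [Complex.re_sum, Complex.re_sum]
    refine Finset.sum_congr rfl fun p hp => ?_
    have hpp := (mem_PX.1 hp).1
    rw [hf, ppf_eq T t ψ hpp.one_lt.le, vonMangoldt_apply_prime hpp, Complex.re_ofReal_mul,
      Complex.re_ofReal_mul, Complex.exp_ofReal_mul_I_re, Complex.exp_ofReal_mul_I_re]
    unfold ac MS.aa
    rw [mul_neg, Real.cos_neg]
  have hR : ‖∑ n ∈ NP N, f n‖ = Rr T ψ N t := by
    unfold Rr
    congr 1
    refine Finset.sum_congr rfl fun n hn => ?_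
    unfold NP at hn
    rw [Finset.mem_filter, Finset.mem_Icc] at hn
    rw [hf, ppf_eq T t ψ hn.1.1]
  have hfin : (ps T t (Ww T ψ)).re - (Fs (PX N) (ac T ψ) t).re =
      ((∑' n, f n) - ∑ n ∈ Finset.Icc 1 N, f n).re + (∑ n ∈ NP N, f n).re := by
    rw [← hP, hps, hsplit, Complex.sub_re, Complex.add_re]
    ring
  rw [hfin]
  have g1 := Complex.abs_re_le_norm ((∑' n, f n) - ∑ n ∈ Finset.Icc 1 N, f n)
  have g2 := Complex.abs_re_le_norm (∑ n ∈ NP N, f n)
  rw [hR] at g2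
  calc _ ≤ |((∑' n, f n) - ∑ n ∈ Finset.Icc 1 N, f n).re| + |(∑ n ∈ NP N, f n).re| := abs_add_le _ _
    _ ≤ 4 / lam ^ 2 * K * (∑' n, ppG (1 / 16) n) + Rr T ψ N t := add_le_add (g1.trans htail) g2
    _ ≤ _ := by nlinarith

/-- mean square of the contribution of the prime powers -/
theorem ex3 (lam : ℝ) (hl0 : 0 < lam) (hl1 : lam < 1 / 8) : ∃ C T0 : ℝ, 0 < C ∧ 10 ≤ T0 ∧
    ∀ T : ℝ, T0 ≤ T → ∀ (ψ : ℝ → ℝ) (B : ℝ), (∀ α, |ψ α| ≤ B) →
    ∫ t in T..(2 * T), Rr T ψ ⌊Real.exp (2 * (lam * Real.log T))⌋₊ t ^ 2 ≤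
      C * (T * (B ^ 2 / Real.log T)) := by
  set S := ∑' n : ℕ, (if n.Prime then 0 else vonMangoldt n / (n : ℝ)) with hS
  have hS0 : 0 ≤ S := tsum_nonneg H385.npr_nonneg
  obtain ⟨T1, hT1⟩ : ∃ T1 : ℝ, ∀ T : ℝ, T1 ≤ T → T ^ 4 * Real.exp (-(T / 2)) ≤ 1 := by
    have h1 := (Real.tendsto_pow_mul_exp_neg_atTop_nhds_zero 4).comp
      (tendsto_id.atTop_div_const (show (0 : ℝ) < 2 by norm_num))
    have h2 := h1.const_mul 16
    rw [mul_zero] at h2
    obtain ⟨T1, hT1⟩ := (h2.eventually_le_const (zero_lt_one)).exists_forall_of_atTop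
    refine ⟨T1, fun T hT => ?_⟩
    have h3 := hT1 T hT
    simp only [Function.comp, id] at h3
    calc T ^ 4 * Real.exp (-(T / 2)) = 16 * ((T / 2) ^ 4 * Real.exp (-(T / 2))) := by ring
      _ ≤ 1 := h3
  refine ⟨4 * (S + 1), max 10 T1, by positivity, le_max_left _ _, fun T hT ψ B hB => ?_⟩
  have hT10 : 10 ≤ T := (le_max_left _ _).trans hT
  have hTe := hT1 T ((le_max_right _ _).trans hT)
  have hT0 : 0 < T := by linarith
  have hL1 : 1 ≤ Real.log T := by
    rw [Real.le_log_iff_exp_le (by linarith)]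
    exact (Real.exp_one_lt_d9.le.trans (by norm_num)).trans hT10
  set L := Real.log T with hL
  have hL0 : 0 < L := by linarith
  have hB0 : 0 ≤ B := (abs_nonneg _).trans (hB 0)
  set N := ⌊Real.exp (2 * (lam * L))⌋₊ with hN
  have hNexp : (N : ℝ) ≤ Real.exp (2 * (lam * L)) := Nat.floor_le (Real.exp_pos _).le
  have hNe : (N : ℝ) ≤ Real.exp (L / 4) := by
    refine hNexp.trans (Real.exp_le_exp.2 ?_)
    nlinarith
  have hN1 : 1 ≤ N := by
    apply Nat.le_floor
    push_cast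
    rw [Real.one_le_exp_iff]
    positivity
  have hN1r : (1 : ℝ) ≤ N := by exact_mod_cast hN1
  have hNr0 : (0 : ℝ) < N := by linarith
  have hN4 : (N : ℝ) ^ 4 ≤ T := by
    calc (N : ℝ) ^ 4 ≤ Real.exp (L / 4) ^ 4 := by gcongr
      _ = T := by
          rw [← Real.exp_nat_mul]
          have : ((4 : ℕ) : ℝ) * (L / 4) = L := by push_cast; ring
          rw [this, hL, Real.exp_log hT0]
  set K := B / L with hK
  have hK0 : 0 ≤ K := by positivity
  have h1 := MS.gm_sep (NP N) (fun n => ((vonMangoldt n / Real.sqrt n * cw T ψ n : ℝ) : ℂ))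
    (fun n => -Real.log n) T (1 / (N : ℝ)) hT0 (by positivity) (fun i hi j hj hij => by
      unfold NP at hi hj
      rw [Finset.mem_filter, Finset.mem_Icc] at hi hj
      have := MS.log_sep hi.1.1 hj.1.1 hij (N := (N : ℝ)) (by exact_mod_cast hi.1.2)
        (by exact_mod_cast hj.1.2)
      have e : -Real.log i - -Real.log j = -(Real.log i - Real.log j) := by ring
      rw [e, abs_neg]
      exact this)
  have h2 : ∀ t, Rr T ψ N t ^ 2 = ‖∑ n ∈ NP N, ((vonMangoldt n / Real.sqrt n * cw T ψ n : ℝ) : ℂ) *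
      cexp (((t * (-Real.log n) : ℝ) : ℂ) * I)‖ ^ 2 := fun t => rfl
  simp_rw [h2]
  refine h1.trans ?_
  have hlog : Real.log N ≤ L := by
    have : Real.log N ≤ Real.log (Real.exp (2 * (lam * L))) := Real.log_le_log hNr0 hNexp
    rw [Real.log_exp] at this
    nlinarith
  have h3 : ∑ n ∈ NP N, ‖((vonMangoldt n / Real.sqrt n * cw T ψ n : ℝ) : ℂ)‖ ^ 2 ≤
      S * (L * K ^ 2) := by
    calc _ ≤ ∑ n ∈ NP N, (if n.Prime then 0 else vonMangoldt n / (n : ℝ)) * (L * K ^ 2) := by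
          refine Finset.sum_le_sum fun n hn => ?_
          unfold NP at hn
          rw [Finset.mem_filter, Finset.mem_Icc] at hn
          rw [if_neg hn.2, Complex.norm_real, Real.norm_eq_abs, sq_abs, mul_pow, div_pow,
            Real.sq_sqrt (Nat.cast_nonneg n)]
          have g1 : vonMangoldt n ≤ L := by
            refine (vonMangoldt_le_log).trans (le_trans (Real.log_le_log ?_ ?_) hlog)
            · exact_mod_cast hn.1.1
            · exact_mod_cast hn.1.2
          have g2 : cw T ψ n ^ 2 ≤ K ^ 2 := by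
            rw [← sq_abs]
            have := cw_le (by linarith : 1 < T) hB (n : ℝ)
            gcongr
          have g3 : 0 ≤ vonMangoldt n := vonMangoldt_nonneg
          have g4 : (0 : ℝ) ≤ n := Nat.cast_nonneg n
          calc vonMangoldt n ^ 2 / n * cw T ψ n ^ 2 = vonMangoldt n / n * (vonMangoldt n *
              cw T ψ n ^ 2) := by ring
            _ ≤ _ := by gcongr
      _ = (∑ n ∈ NP N, (if n.Prime then 0 else vonMangoldt n / (n : ℝ))) * (L * K ^ 2) := by
          rw [Finset.sum_mul]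
      _ ≤ _ := by
          apply mul_le_mul_of_nonneg_right _ (by positivity)
          exact H385.npr_summable.sum_le_tsum _ fun n _ => H385.npr_nonneg n
  have h4 : ∑ n ∈ NP N, ‖((vonMangoldt n / Real.sqrt n * cw T ψ n : ℝ) : ℂ)‖ ≤ K * T := by
    calc _ ≤ ∑ n ∈ NP N, K * N := by
          refine Finset.sum_le_sum fun n hn => ?_
          unfold NP at hn
          rw [Finset.mem_filter, Finset.mem_Icc] at hn
          have hn1 : (1 : ℝ) ≤ n := by exact_mod_cast hn.1.1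
          rw [Complex.norm_real, Real.norm_eq_abs, abs_mul, abs_of_nonneg
            (div_nonneg vonMangoldt_nonneg (Real.sqrt_nonneg _)), mul_comm K]
          have g2 := cw_le (by linarith : 1 < T) hB (n : ℝ)
          have g1 : vonMangoldt n / Real.sqrt n ≤ N := by
            have g3 : vonMangoldt n ≤ N := by
              refine (vonMangoldt_le_log).trans ?_
              have g5 := Real.log_le_sub_one_of_pos (show (0 : ℝ) < n by linarith)
              have : (n : ℝ) ≤ N := by exact_mod_cast hn.1.2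
              linarith
            refine le_trans (div_le_self vonMangoldt_nonneg ?_) g3
            rw [Real.one_le_sqrt]
            exact hn1
          exact mul_le_mul g1 g2 (abs_nonneg _) hNr0.le
      _ ≤ (N : ℝ) * (K * N) := by
          rw [Finset.sum_const, nsmul_eq_mul]
          apply mul_le_mul_of_nonneg_right _ (by positivity)
          have : (NP N).card ≤ N := by
            unfold NP
            refine (Finset.card_filter_le _ _).trans ?_
            rw [Nat.card_Icc]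
            omega
          exact_mod_cast this
      _ = K * (N : ℝ) ^ 2 := by ring
      _ ≤ K * (N : ℝ) ^ 4 := by
          apply mul_le_mul_of_nonneg_left _ hK0
          exact pow_le_pow_right₀ hN1r (by norm_num)
      _ ≤ K * T := by gcongr
  have h5 : (∑ n ∈ NP N, ‖((vonMangoldt n / Real.sqrt n * cw T ψ n : ℝ) : ℂ)‖) ^ 2 *
      Real.exp (-(T ^ 2 * (1 / (N : ℝ)) ^ 2) / 2) ≤ K ^ 2 := by
    have e0 : 0 ≤ ∑ n ∈ NP N, ‖((vonMangoldt n / Real.sqrt n * cw T ψ n : ℝ) : ℂ)‖ :=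
      Finset.sum_nonneg fun _ _ => norm_nonneg _
    have e1 : T ≤ T ^ 2 * (1 / (N : ℝ)) ^ 2 := by
      have : (N : ℝ) ^ 2 ≤ T := le_trans (pow_le_pow_right₀ hN1r (by norm_num)) hN4
      rw [one_div, inv_pow, ← div_eq_mul_inv, le_div_iff₀ (by positivity)]
      nlinarith
    have e2 : Real.exp (-(T ^ 2 * (1 / (N : ℝ)) ^ 2) / 2) ≤ Real.exp (-(T / 2)) := by
      apply Real.exp_le_exp.2
      linarith
    calc _ ≤ (K * T) ^ 2 * Real.exp (-(T / 2)) := by gcongr
      _ = K ^ 2 * (T ^ 2 * Real.exp (-(T / 2))) := by ring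
      _ ≤ K ^ 2 * (T ^ 4 * Real.exp (-(T / 2))) := by
          gcongr
          · linarith
          · norm_num
      _ ≤ K ^ 2 * 1 := by gcongr
      _ = _ := mul_one _
  calc _ ≤ 4 * T * (S * (L * K ^ 2) + K ^ 2) := by gcongr
    _ ≤ 4 * T * (S * (L * K ^ 2) + L * K ^ 2) := by
        gcongr
        exact le_mul_of_one_le_left (sq_nonneg _) hL1
    _ = _ := by
        rw [hK]
        field_simp

end Pool.Agent.TH800.DM
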