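import Pool.Agent.TH800.DM.Xt
import Pool.Agent.TH800.LD.Asm3

/-! Mean one. -/

open Filter Topology Set MeasureTheory

namespace Pool.Agent.TH800.DM

open SG (ord NZ)
open MS (dlt)
open LG.CU (del)

lemma cmp0 {x y : ℝ} (hx : 1 ≤ x) (hxy : x ≤ y) (hy : y ≤ 2 * x) :
    Real.log x * (y - x) ≤ y * Real.log y - x * Real.log x ∧
    y * Real.log y - x * Real.log x ≤ (Real.log x + 2) * (y - x) := by
  have hx0 : 0 < x := by linarith
  have h5 := H370.A3.xlog_aux hx0 hxy
  have h2 : Real.log x ≤ Real.log y := Real.log_le_log hx0 hxy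
  have h3 : Real.log y ≤ Real.log 2 + Real.log x := by
    rw [← Real.log_mul (by norm_num) (by linarith)]
    exact Real.log_le_log (by linarith) hy
  have h4 := Real.log_two_lt_d9
  constructor
  · have e : y * Real.log y - x * Real.log x =
        y * (Real.log y - Real.log x) + (y - x) * Real.log x := by ring
    rw [e]
    have g1 : 0 ≤ y * (Real.log y - Real.log x) := mul_nonneg (by linarith) (by linarith)
    linarith
  · refine h5.trans ?_
    rw [mul_comm]
    apply mul_le_mul_of_nonneg_right _ (by linarith)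
    linarith

lemma del_cmp (RH : RiemannHypothesis) (ε : ℝ) (hε : 0 < ε) : ∃ n0 : ℕ, 1 ≤ n0 ∧
    ∀ k : ℕ, n0 ≤ k → 0 ≤ del k ∧ del k ≤ dlt k ∧ dlt k ≤ del k + ε * del k := by
  have hpi := Real.pi_pos
  have hpi4 := Real.pi_lt_d2
  obtain ⟨A, hA, hsh⟩ := MS.ord_short (MS.rhs_of RH)
  obtain ⟨T3, hT3⟩ : ∃ T3 : ℝ, ∀ T : ℝ, T3 ≤ T → 4 / ε + 2 ≤ Real.log T :=
    (Real.tendsto_log_atTop.eventually_ge_atTop _).exists_forall_of_atTop
  obtain ⟨n1, hn1⟩ := (SG.ord_tendsto.eventually_ge_atTop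
    (max 1000 (max A T3))).exists_forall_of_atTop
  refine ⟨max 1 n1, le_max_left _ _, fun k hk => ?_⟩
  have hk1 : 1 ≤ k := (le_max_left _ _).trans hk
  have hx := hn1 k ((le_max_right _ _).trans hk)
  have hx1 : 1000 ≤ ord k := (le_max_left _ _).trans hx
  have hxA : A ≤ ord k := ((le_max_left _ _).trans (le_max_right _ _)).trans hx
  have hxL := hT3 (ord k) (((le_max_right _ _).trans (le_max_right _ _)).trans hx)
  have hs := hsh k hk1 hxA 1
  push_cast at hs
  have hxy : ord k ≤ ord (k + 1) := SG.ord_mono hk1 (by omega)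
  have hc := cmp0 (by linarith : 1 ≤ ord k) hxy (by linarith)
  have hd1 : 2 * Real.pi * dlt k = ord (k + 1) * Real.log (ord (k + 1)) -
      ord k * Real.log (ord k) := by
    unfold MS.dlt; field_simp
  have hl2 : Real.log (ord k / (2 * Real.pi)) = Real.log (ord k) - Real.log (2 * Real.pi) :=
    Real.log_div (by linarith) (by positivity)
  have hd2 : 2 * Real.pi * del k = (ord (k + 1) - ord k) *
      (Real.log (ord k) - Real.log (2 * Real.pi)) := by
    rw [← hl2]
    unfold LG.CU.del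
    field_simp
  have hl3 : 0 ≤ Real.log (2 * Real.pi) := Real.log_nonneg (by linarith [Real.pi_gt_three])
  have hl4 : Real.log (2 * Real.pi) ≤ 2 := by
    rw [Real.log_le_iff_le_exp (by positivity)]
    have h1 := Real.exp_one_gt_d9
    have h2 : Real.exp 2 = Real.exp 1 * Real.exp 1 := by rw [← Real.exp_add]; norm_num
    rw [h2]
    nlinarith
  have hg : 0 ≤ ord (k + 1) - ord k := by linarith
  have h4e : 0 < 4 / ε := by positivity
  have hv1 : 2 * Real.pi * del k ≤ 2 * Real.pi * dlt k := by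
    rw [hd1, hd2]
    refine le_trans ?_ hc.1
    rw [mul_comm]
    apply mul_le_mul_of_nonneg_right _ hg
    linarith
  have hv2 : 2 * Real.pi * dlt k ≤ 2 * Real.pi * del k + 4 * (ord (k + 1) - ord k) := by
    rw [hd1, hd2]
    refine hc.2.trans ?_
    nlinarith
  have hv3 : 4 * (ord (k + 1) - ord k) ≤ ε * (2 * Real.pi * del k) := by
    rw [hd2]
    have g1 : 4 / ε ≤ Real.log (ord k) - Real.log (2 * Real.pi) := by linarith
    rw [div_le_iff₀ hε] at g1
    nlinarith
  have hdel0 : 0 ≤ 2 * Real.pi * del k := by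
    rw [hd2]
    apply mul_nonneg hg
    linarith
  refine ⟨?_, ?_, ?_⟩
  · exact nonneg_of_mul_nonneg_right hdel0 (by positivity)
  · exact le_of_mul_le_mul_left hv1 (by positivity)
  · have : 2 * Real.pi * dlt k ≤ 2 * Real.pi * (del k + ε * del k) := by
      refine (hv2.trans (add_le_add_right hv3 _)).trans (le_of_eq ?_)
      ring
    exact le_of_mul_le_mul_left this (by positivity)

/-- the normalised gaps have mean one in almost all windows -/
theorem mean (RH : RiemannHypothesis) (ε : ℝ) (hε : 0 < ε) (hε1 : ε ≤ 1) : ∃ K m0 : ℝ, ∃ N0 : ℕ,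
    0 < K ∧ 1 ≤ m0 ∧ 3 ≤ N0 ∧ ∀ N : ℕ, N0 ≤ N → ∀ m : ℕ, m0 ≤ m → (m : ℝ) ≤ 1 / 8 * Real.log N →
      ({n : ℕ | 1 ≤ n ∧ n ≤ N ∧ ε * m ≤ |∑ i ∈ Finset.range m, dlt (n + i) - m|}.ncard : ℝ) ≤
        K * (N * (1 / m)) := by
  obtain ⟨c, hc, m0, hm0, h⟩ := LD.main (MS.rhs_of RH) (ε / 4) (by positivity) (by linarith)
  obtain ⟨n0, hn0, hcmp⟩ := del_cmp RH (ε / 4) (by positivity)
  refine ⟨n0 + 1 / c, max 3 m0, 3, by positivity, (by norm_num : (1 : ℝ) ≤ 3).trans
    (le_max_left _ _), le_rfl, fun N hN m hm hmL => ?_⟩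
  have hN3 : (3 : ℝ) ≤ N := by exact_mod_cast hN
  have hNp : (0 : ℝ) < N := by linarith
  have hm3 : (3 : ℝ) ≤ m := (le_max_left _ _).trans hm
  have hm0' : m0 ≤ m := by exact_mod_cast (le_max_right _ _).trans hm
  have hmp : (0 : ℝ) < m := by linarith
  have hmN : (m : ℝ) ≤ N := by
    have := Real.log_le_sub_one_of_pos hNp
    linarith
  set S := {n : ℕ | 1 ≤ n ∧ n ≤ N ∧ ε * m ≤ |∑ i ∈ Finset.range m, dlt (n + i) - m|} with hS
  set S2 := {n : ℕ | 1 ≤ n ∧ n ≤ N ∧ ε / 4 * m ≤ |∑ i ∈ Finset.range m, del (n + i) - m|} with hS2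
  have hS2f : S2.Finite := (Set.finite_Icc 1 N).subset fun n hn => ⟨hn.1, hn.2.1⟩
  have hsub : S ⊆ Set.Icc 1 n0 ∪ S2 := by
    rintro n ⟨a1, a2, a3⟩
    by_cases hn : n ≤ n0
    · left; exact ⟨a1, hn⟩
    · right
      refine ⟨a1, a2, ?_⟩
      by_contra hcon
      push Not at hcon
      have hs1 : ∑ i ∈ Finset.range m, del (n + i) ≤ ∑ i ∈ Finset.range m, dlt (n + i) :=
        Finset.sum_le_sum fun i _ => (hcmp (n + i) (by omega)).2.1
      have hs2 : ∑ i ∈ Finset.range m, dlt (n + i) ≤ ∑ i ∈ Finset.range m, del (n + i) +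
          ε / 4 * ∑ i ∈ Finset.range m, del (n + i) := by
        rw [Finset.mul_sum, ← Finset.sum_add_distrib]
        exact Finset.sum_le_sum fun i _ => (hcmp (n + i) (by omega)).2.2
      obtain ⟨b1, b2⟩ := abs_lt.1 hcon
      have hs3 : ∑ i ∈ Finset.range m, del (n + i) ≤ 2 * m := by
        have : ε / 4 * m ≤ 1 * m := mul_le_mul_of_nonneg_right (by linarith) hmp.le
        linarith
      have hs4 : ε / 4 * ∑ i ∈ Finset.range m, del (n + i) ≤ ε / 4 * (2 * m) := by gcongr
      have hεm : 0 < ε * m := by positivity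
      have : |∑ i ∈ Finset.range m, dlt (n + i) - m| < ε * m := by
        rw [abs_lt]
        constructor <;> linarith
      linarith
  have hcard : (S.ncard : ℝ) ≤ n0 + S2.ncard := by
    have h1 : S.ncard ≤ (Set.Icc 1 n0).ncard + S2.ncard :=
      (Set.ncard_le_ncard hsub ((Set.finite_Icc _ _).union hS2f)).trans (Set.ncard_union_le _ _)
    have h2 : (Set.Icc 1 n0).ncard = n0 := by
      rw [← Finset.coe_Icc, Set.ncard_coe_finset, Nat.card_Icc]
      omega
    rw [h2] at h1
    exact_mod_cast h1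
  have h1 := h N (by omega) m hm0'
  have h2 : Real.exp (-c * (m * Real.log m)) ≤ 1 / c * (1 / m) := by
    have hlm : 1 ≤ Real.log m := by
      rw [Real.le_log_iff_exp_le hmp]
      exact (Real.exp_one_lt_d9.le.trans (by norm_num)).trans hm3
    have h3 : -c * (m * Real.log m) ≤ -(c * m) := by
      have : c * m * 1 ≤ c * m * Real.log m := by gcongr
      linarith
    have h4 : Real.exp (-c * (m * Real.log m)) ≤ Real.exp (-(c * m)) := Real.exp_le_exp.2 h3
    refine h4.trans ?_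
    rw [Real.exp_neg, one_div_mul_one_div, one_div]
    apply inv_anti₀ (by positivity)
    have := Real.add_one_le_exp (c * m)
    linarith
  have h3 : (n0 : ℝ) ≤ n0 * (N * (1 / m)) := by
    apply le_mul_of_one_le_right (Nat.cast_nonneg _)
    rw [mul_one_div, le_div_iff₀ hmp]
    linarith
  calc (S.ncard : ℝ) ≤ n0 + S2.ncard := hcard
    _ ≤ n0 * (N * (1 / m)) + N * (1 / c * (1 / m)) := by
        have := h1.trans (mul_le_mul_of_nonneg_left h2 hNp.le)
        linarith
    _ = _ := by ring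

end Pool.Agent.TH800.DM
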