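import Pool.Agent.TH800.DM.Tc
import Pool.Agent.TH800.DM.Mn

/-! Final assembly: small and large gaps in almost every window. -/

open Filter Topology Set MeasureTheory

namespace Pool.Agent.TH800.DM

open SG (ord NZ)
open MS (dlt)

/-- indicator of a small gap -/
noncomputable def sm (c x : ℝ) : ℝ := if x < 1 - c then 1 else 0

/-- indicator of a large gap -/
noncomputable def lg (c x : ℝ) : ℝ := if 1 + c < x then 1 else 0

lemma sm_nonneg (c x : ℝ) : 0 ≤ sm c x := by unfold sm; split_ifs <;> norm_num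
lemma lg_nonneg (c x : ℝ) : 0 ≤ lg c x := by unfold lg; split_ifs <;> norm_num

lemma fin_small (f : ℕ → ℝ) (m : ℕ) (c : ℝ) (hc : 0 < c)
    (hf : ∀ i < m, 0 ≤ f i)
    (h1 : c * m < ∑ i ∈ Finset.range m, |f i - 1|)
    (h2 : |∑ i ∈ Finset.range m, f i - m| < c / 4 * m) :
    c / 4 * m < ∑ i ∈ Finset.range m, sm (c / 8) (f i) := by
  have e0 : ∑ i ∈ Finset.range m, (f i - 1) = ∑ i ∈ Finset.range m, f i - m := by
    rw [Finset.sum_sub_distrib, Finset.sum_const, Finset.card_range, nsmul_eq_mul, mul_one]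
  have hterm : ∀ i ∈ Finset.range m, |f i - 1| - (f i - 1) ≤ 2 * (c / 8 + sm (c / 8) (f i)) := by
    intro i hi
    have hfi := hf i (Finset.mem_range.1 hi)
    unfold sm
    split_ifs with h
    · rcases abs_cases (f i - 1) with ⟨h3, h4⟩ | ⟨h3, h4⟩ <;> rw [h3] <;> linarith
    · rcases abs_cases (f i - 1) with ⟨h3, h4⟩ | ⟨h3, h4⟩ <;> rw [h3] <;> linarith
  have h3 := Finset.sum_le_sum hterm
  rw [Finset.sum_sub_distrib, ← Finset.mul_sum, Finset.sum_add_distrib, Finset.sum_const,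
    Finset.card_range, nsmul_eq_mul, e0] at h3
  have h4 := (abs_lt.1 h2).2
  linarith

lemma fin_large (f : ℕ → ℝ) (m : ℕ) (c H : ℝ) (hc : 0 < c) (hH : 1 ≤ H)
    (h1 : c * m < ∑ i ∈ Finset.range m, |f i - 1|)
    (h2 : |∑ i ∈ Finset.range m, f i - m| < c / 4 * m)
    (h3 : ∑ i ∈ Finset.range m, bg (8 * H) (f i) < c / 8 * m) :
    c / (64 * H) * m < ∑ i ∈ Finset.range m, lg (c / 8) (f i) := by
  have hH0 : 0 < H := by linarith
  have e0 : ∑ i ∈ Finset.range m, (f i - 1) = ∑ i ∈ Finset.range m, f i - m := by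
    rw [Finset.sum_sub_distrib, Finset.sum_const, Finset.card_range, nsmul_eq_mul, mul_one]
  have hterm : ∀ i ∈ Finset.range m, |f i - 1| + (f i - 1) ≤
      2 * (c / 8 + 8 * H * lg (c / 8) (f i) + bg (8 * H) (f i)) := by
    intro i hi
    unfold lg bg
    split_ifs with h h5 h5
    · rcases abs_cases (f i - 1) with ⟨h3, h4⟩ | ⟨h3, h4⟩ <;> rw [h3] <;> linarith
    · rcases abs_cases (f i - 1) with ⟨h3, h4⟩ | ⟨h3, h4⟩ <;> rw [h3] <;> linarith
    · rcases abs_cases (f i - 1) with ⟨h3, h4⟩ | ⟨h3, h4⟩ <;> rw [h3] <;> linarith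
    · rcases abs_cases (f i - 1) with ⟨h3, h4⟩ | ⟨h3, h4⟩ <;> rw [h3] <;> linarith
  have h4 := Finset.sum_le_sum hterm
  rw [Finset.sum_add_distrib, ← Finset.mul_sum, Finset.sum_add_distrib, Finset.sum_add_distrib,
    ← Finset.mul_sum, Finset.sum_const, Finset.card_range, nsmul_eq_mul, e0] at h4
  have h5 := (abs_lt.1 h2).1
  have h6 : c / 8 * m < 8 * H * ∑ i ∈ Finset.range m, lg (c / 8) (f i) := by linarith
  have e1 : c / (64 * H) * m = 1 / (8 * H) * (c / 8 * m) := by field_simp; ring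
  have e2 : ∑ i ∈ Finset.range m, lg (c / 8) (f i) =
      1 / (8 * H) * (8 * H * ∑ i ∈ Finset.range m, lg (c / 8) (f i)) := by field_simp
  rw [e1, e2]
  exact mul_lt_mul_of_pos_left h6 (by positivity)

lemma card_union4 (S S1 S2 S3 : Set ℕ) (n0 : ℕ) (h1 : S1.Finite) (h2 : S2.Finite) (h3 : S3.Finite)
    (h : S ⊆ Set.Icc 1 n0 ∪ (S1 ∪ (S2 ∪ S3))) :
    (S.ncard : ℝ) ≤ n0 + (S1.ncard + (S2.ncard + S3.ncard)) := by
  have e1 : S.ncard ≤ (Set.Icc 1 n0 ∪ (S1 ∪ (S2 ∪ S3))).ncard :=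
    Set.ncard_le_ncard h ((Set.finite_Icc _ _).union (h1.union (h2.union h3)))
  have e2 := Set.ncard_union_le (Set.Icc 1 n0) (S1 ∪ (S2 ∪ S3))
  have e3 := Set.ncard_union_le S1 (S2 ∪ S3)
  have e4 := Set.ncard_union_le S2 S3
  have e5 : (Set.Icc 1 n0).ncard = n0 := by
    rw [← Finset.coe_Icc, Set.ncard_coe_finset, Nat.card_Icc]
    omega
  have : S.ncard ≤ n0 + (S1.ncard + (S2.ncard + S3.ncard)) := by omega
  exact_mod_cast this

/-- short windows -/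
theorem comb (RH : RiemannHypothesis) : ∃ c c' K m0 : ℝ, ∃ N0 : ℕ, 0 < c ∧ c ≤ 1 / 10 ∧ 0 < c' ∧
    c' ≤ c ∧ 0 < K ∧ 1 ≤ m0 ∧ 3 ≤ N0 ∧ ∀ N : ℕ, N0 ≤ N → ∀ m : ℕ, m0 ≤ m →
      (m : ℝ) ≤ 1 / 8 * Real.log N →
      ({n : ℕ | 1 ≤ n ∧ n ≤ N ∧ ∑ i ∈ Finset.range m, sm c (dlt (n + i)) ≤ c' * m}.ncard : ℝ) ≤
        K * (N * (1 / m)) ∧
      ({n : ℕ | 1 ≤ n ∧ n ≤ N ∧ ∑ i ∈ Finset.range m, lg c (dlt (n + i)) ≤ c' * m}.ncard : ℝ) ≤
        K * (N * (1 / m)) := by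
  obtain ⟨Ka, c, Ta, ma, hKa, hc, hc1, hTa, hma, ha⟩ := nblk RH
  obtain ⟨K1, N1, hK1, hN1, h1⟩ := short
    (fun m n => ∑ i ∈ Finset.range m, |dlt (n + i) - 1| ≤ c * m) Ka Ta ma hKa hTa hma ha
  obtain ⟨K2, m2, N2, hK2, hm2, hN2, h2⟩ := mean RH (c / 4) (by positivity) (by linarith)
  obtain ⟨C, hC, ht⟩ := ntail RH
  obtain ⟨K3, N3, hK3, hN3, h3⟩ := ht (max 10 (8 * C / c)) (le_max_left _ _)
  obtain ⟨n0, hn0, hcmp⟩ := del_cmp RH 1 one_pos
  set H := max 10 (8 * C / c) with hH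
  have hH10 : 10 ≤ H := le_max_left _ _
  have hH0 : 0 < H := by linarith
  have hHC : C / H ^ 2 ≤ c / 8 := by
    have g1 : 8 * C / c ≤ H := le_max_right _ _
    rw [div_le_iff₀ hc] at g1
    rw [div_le_iff₀ (by positivity)]
    nlinarith
  refine ⟨c / 8, c / (64 * H), n0 + (K1 + (K2 + K3)), max ma m2, max N1 (max N2 N3), by positivity,
    by linarith, by positivity, ?_, by positivity, hma.trans (le_max_left _ _),
    hN1.trans (le_max_left _ _), fun N hN m hm hmL => ?_⟩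
  · apply div_le_div_of_nonneg_left hc.le (by norm_num)
    linarith
  have hNN1 : N1 ≤ N := (le_max_left _ _).trans hN
  have hNN2 : N2 ≤ N := ((le_max_left _ _).trans (le_max_right _ _)).trans hN
  have hNN3 : N3 ≤ N := ((le_max_right _ _).trans (le_max_right _ _)).trans hN
  have hmm1 : ma ≤ m := (le_max_left _ _).trans hm
  have hmm2 : m2 ≤ m := (le_max_right _ _).trans hm
  have hm1 : (1 : ℝ) ≤ m := hma.trans hmm1
  have hmp : (0 : ℝ) < m := by linarith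
  have b1 := h1 N hNN1 m hmm1 hmL
  have b2 := h2 N hNN2 m hmm2 hmL
  have b3 := h3 N hNN3 m hm1 hmL
  have hN3' : (3 : ℝ) ≤ N := by exact_mod_cast hN1.trans hNN1
  have hmN : (m : ℝ) ≤ N := by
    have := Real.log_le_sub_one_of_pos (show (0 : ℝ) < N by linarith)
    linarith
  have b0 : (n0 : ℝ) ≤ n0 * (N * (1 / m)) := by
    apply le_mul_of_one_le_right (Nat.cast_nonneg _)
    rw [mul_one_div, le_div_iff₀ hmp]
    linarith
  have hfin : ∀ P : ℕ → Prop, {n : ℕ | 1 ≤ n ∧ n ≤ N ∧ P n}.Finite := fun P =>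
    (Set.finite_Icc 1 N).subset fun n hn => ⟨hn.1, hn.2.1⟩
  have hkey : ∀ n : ℕ, 1 ≤ n → n ≤ N → n ∉ Set.Icc 1 n0 →
      n ∉ {n : ℕ | 1 ≤ n ∧ n ≤ N ∧ ∑ i ∈ Finset.range m, |dlt (n + i) - 1| ≤ c * m} →
      n ∉ {n : ℕ | 1 ≤ n ∧ n ≤ N ∧ c / 4 * m ≤ |∑ i ∈ Finset.range m, dlt (n + i) - m|} →
      n ∉ {n : ℕ | 1 ≤ n ∧ n ≤ N ∧ (∑ i ∈ Finset.range m, dlt (n + i) ≤ 2 * m ∧
        C / H ^ 2 * m ≤ ∑ i ∈ Finset.range m, bg (8 * H) (dlt (n + i)))} →
      c / (64 * H) * m < ∑ i ∈ Finset.range m, sm (c / 8) (dlt (n + i)) ∧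
      c / (64 * H) * m < ∑ i ∈ Finset.range m, lg (c / 8) (dlt (n + i)) := by
    intro n a1 a2 a0 q1 q2 q3
    have q0 : n0 < n := by
      by_contra hcon
      exact a0 ⟨a1, by omega⟩
    have q1' : c * m < ∑ i ∈ Finset.range m, |dlt (n + i) - 1| := by
      by_contra hcon
      exact q1 ⟨a1, a2, not_lt.1 hcon⟩
    have q2' : |∑ i ∈ Finset.range m, dlt (n + i) - m| < c / 4 * m := by
      by_contra hcon
      exact q2 ⟨a1, a2, not_lt.1 hcon⟩
    have q3' : ∑ i ∈ Finset.range m, bg (8 * H) (dlt (n + i)) < c / 8 * m := by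
      by_contra hcon
      push Not at hcon
      refine q3 ⟨a1, a2, ?_, ?_⟩
      · have := (abs_lt.1 q2').2
        have : c / 4 * m ≤ 1 * m := mul_le_mul_of_nonneg_right (by linarith) hmp.le
        linarith
      · refine le_trans ?_ hcon
        gcongr
    have hf : ∀ i < m, 0 ≤ dlt (n + i) := fun i _ => by
      obtain ⟨g1, g2, g3⟩ := hcmp (n + i) (by omega)
      linarith
    refine ⟨?_, fin_large (fun i => dlt (n + i)) m c H hc (by linarith) q1' q2' q3'⟩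
    refine lt_of_le_of_lt ?_ (fin_small (fun i => dlt (n + i)) m c hc hf q1' q2')
    apply mul_le_mul_of_nonneg_right _ hmp.le
    apply div_le_div_of_nonneg_left hc.le (by norm_num)
    linarith
  have hend : (n0 : ℝ) + (K1 * (N * (1 / m)) + (K2 * (N * (1 / m)) + K3 * (N * (1 / m)))) ≤
      (n0 + (K1 + (K2 + K3))) * (N * (1 / m)) := by
    have e : (n0 + (K1 + (K2 + K3))) * (N * (1 / m)) = n0 * (N * (1 / m)) +
        (K1 * (N * (1 / m)) + (K2 * (N * (1 / m)) + K3 * (N * (1 / m)))) := by ring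
    rw [e]
    linarith
  constructor
  · refine (card_union4 _ _ _ _ n0 (hfin _) (hfin _) (hfin _) (fun n hn => ?_)).trans
      ((add_le_add_right (add_le_add b1 (add_le_add b2 b3)) _).trans hend)
    obtain ⟨a1, a2, a3⟩ := hn
    by_contra hcon
    simp only [Set.mem_union, not_or] at hcon
    obtain ⟨q0, q1, q2, q3⟩ := hcon
    have := (hkey n a1 a2 q0 q1 q2 q3).1
    linarith
  · refine (card_union4 _ _ _ _ n0 (hfin _) (hfin _) (hfin _) (fun n hn => ?_)).trans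
      ((add_le_add_right (add_le_add b1 (add_le_add b2 b3)) _).trans hend)
    obtain ⟨a1, a2, a3⟩ := hn
    by_contra hcon
    simp only [Set.mem_union, not_or] at hcon
    obtain ⟨q0, q1, q2, q3⟩ := hcon
    have := (hkey n a1 a2 q0 q1 q2 q3).2
    linarith

/-- **small and large gaps in almost every window** -/
theorem final (RH : RiemannHypothesis) : ∃ C c : ℝ, 0 < C ∧ 0 < c ∧ c ≤ 1 / 10 ∧
    ∀ N : ℕ, 2 ≤ N → ∀ m : ℕ, 1 ≤ m →
      ({n : ℕ | 1 ≤ n ∧ n ≤ N ∧ (∑ i ∈ Finset.range m, sm c (dlt (n + i)) ≤ c * m ∨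
        ∑ i ∈ Finset.range m, lg c (dlt (n + i)) ≤ c * m)}.ncard : ℝ) ≤
        C * (N * (1 / m + 1 / Real.log N)) := by
  obtain ⟨c, c', K, m0, N0, hc, hc1, hc', hcc, hK, hm0, hN0, h⟩ := comb RH
  obtain ⟨C1, hC1, h1⟩ := ext (fun n => sm c (dlt n)) (fun n => sm_nonneg _ _) c' hc' K m0 N0 hK hm0
    (fun N hN m hm hmL => (h N hN m hm hmL).1)
  obtain ⟨C2, hC2, h2⟩ := ext (fun n => lg c (dlt n)) (fun n => lg_nonneg _ _) c' hc' K m0 N0 hK hm0
    (fun N hN m hm hmL => (h N hN m hm hmL).2)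
  refine ⟨C1 + C2, c' / 4, by positivity, by positivity, by linarith, fun N hN m hm => ?_⟩
  have b1 := h1 N hN m hm
  have b2 := h2 N hN m hm
  have hfin : ∀ P : ℕ → Prop, {n : ℕ | 1 ≤ n ∧ n ≤ N ∧ P n}.Finite := fun P =>
    (Set.finite_Icc 1 N).subset fun n hn => ⟨hn.1, hn.2.1⟩
  have hsub : {n : ℕ | 1 ≤ n ∧ n ≤ N ∧ (∑ i ∈ Finset.range m, sm (c' / 4) (dlt (n + i)) ≤
      c' / 4 * m ∨ ∑ i ∈ Finset.range m, lg (c' / 4) (dlt (n + i)) ≤ c' / 4 * m)} ⊆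
      {n : ℕ | 1 ≤ n ∧ n ≤ N ∧ ∑ i ∈ Finset.range m, sm c (dlt (n + i)) ≤ c' / 4 * m} ∪
      {n : ℕ | 1 ≤ n ∧ n ≤ N ∧ ∑ i ∈ Finset.range m, lg c (dlt (n + i)) ≤ c' / 4 * m} := by
    rintro n ⟨a1, a2, a3 | a3⟩
    · left
      refine ⟨a1, a2, le_trans (Finset.sum_le_sum fun i _ => ?_) a3⟩
      unfold sm
      split_ifs with g1 g2
      · exact le_rfl
      · exact absurd (by linarith) g2
      · exact zero_le_one
      · exact le_rfl
    · right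
      refine ⟨a1, a2, le_trans (Finset.sum_le_sum fun i _ => ?_) a3⟩
      unfold lg
      split_ifs with g1 g2
      · exact le_rfl
      · exact absurd (by linarith) g2
      · exact zero_le_one
      · exact le_rfl
  have h3 := (Set.ncard_le_ncard hsub ((hfin _).union (hfin _))).trans (Set.ncard_union_le _ _)
  have h4 : ({n : ℕ | 1 ≤ n ∧ n ≤ N ∧ (∑ i ∈ Finset.range m, sm (c' / 4) (dlt (n + i)) ≤
      c' / 4 * m ∨ ∑ i ∈ Finset.range m, lg (c' / 4) (dlt (n + i)) ≤ c' / 4 * m)}.ncard : ℝ) ≤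
      {n : ℕ | 1 ≤ n ∧ n ≤ N ∧ ∑ i ∈ Finset.range m, sm c (dlt (n + i)) ≤ c' / 4 * m}.ncard +
      {n : ℕ | 1 ≤ n ∧ n ≤ N ∧ ∑ i ∈ Finset.range m, lg c (dlt (n + i)) ≤ c' / 4 * m}.ncard := by
    exact_mod_cast h3
  linarith

end Pool.Agent.TH800.DM
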