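import Pool.Agent.TH800.MS.Pn
import Pool.Agent.TH800.MS.Gm

/-! Gaussian sums over primes. -/

open Complex Filter Topology Set MeasureTheory

namespace Pool.Agent.TH800.DM

open MS (PX aa gau0 mem_PX gau0_pos gau0_cont gau0_le_one gau0_even)

lemma gw_int {h : ℝ} (hh : 0 < h) : Integrable (fun y : ℝ => Real.exp (-(h ^ 2 * y ^ 2) / 2)) ∧
    ∫ y : ℝ, Real.exp (-(h ^ 2 * y ^ 2) / 2) = Real.sqrt (2 * Real.pi) / h := by
  have e : ∀ y : ℝ, Real.exp (-(h ^ 2 * y ^ 2) / 2) = Real.exp (-(h ^ 2 / 2) * y ^ 2) := fun y => by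
    congr 1; ring
  simp_rw [e]
  refine ⟨integrable_exp_neg_mul_sq (by positivity), ?_⟩
  rw [integral_gaussian]
  have : Real.pi / (h ^ 2 / 2) = 2 * Real.pi / h ^ 2 := by field_simp
  rw [this, Real.sqrt_div (by have := Real.pi_pos; positivity), Real.sqrt_sq hh.le]

lemma gw_low : (1 : ℝ) / 8 ≤ Real.exp (-(1 / 4)) * gau0 (1 / 2) := by
  unfold MS.gau0
  have h1 : 1 - 1 / 4 ≤ Real.exp (-(1 / 4)) := by
    have := Real.add_one_le_exp (-(1 / 4 : ℝ)); linarith
  have h2 : 1 - 1 / 8 ≤ Real.exp (-(1 / 2) ^ 2 / 2) := by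
    have := Real.add_one_le_exp (-(1 / 2 : ℝ) ^ 2 / 2)
    norm_num at this ⊢
    linarith
  have h3 : (1 : ℝ) / 2.6 ≤ 1 / Real.sqrt (2 * Real.pi) := by
    have h4 : Real.sqrt (2 * Real.pi) ≤ 2.6 := by
      rw [Real.sqrt_le_left (by norm_num)]
      have := Real.pi_lt_d2
      nlinarith
    exact one_div_le_one_div_of_le MS.s2pi h4
  calc (1 : ℝ) / 8 ≤ (1 - 1 / 4) * (1 / 2.6 * (1 - 1 / 8)) := by norm_num
    _ ≤ _ := by gcongr

/-- Gaussian majorant by a convolution -/
lemma gw_conv {h : ℝ} (hh : 0 < h) (hh1 : h ≤ 1) (x : ℝ) :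
    Integrable (fun y => Real.exp (-(h ^ 2 * y ^ 2) / 2) * gau0 (x - y)) ∧
    Real.exp (-(h ^ 2 * x ^ 2)) ≤ 8 * ∫ y, Real.exp (-(h ^ 2 * y ^ 2) / 2) * gau0 (x - y) := by
  have hint : Integrable (fun y => Real.exp (-(h ^ 2 * y ^ 2) / 2) * gau0 (x - y)) := by
    refine (gw_int hh).1.mul_bdd (c := 1) ?_ ?_
    · exact (gau0_cont.comp (by fun_prop)).aestronglyMeasurable
    · refine Eventually.of_forall fun y => ?_
      rw [Real.norm_of_nonneg (gau0_pos _).le]
      exact gau0_le_one _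
  refine ⟨hint, ?_⟩
  have hnn : ∀ y, 0 ≤ Real.exp (-(h ^ 2 * y ^ 2) / 2) * gau0 (x - y) := fun y =>
    mul_nonneg (Real.exp_pos _).le (gau0_pos _).le
  have h1 : ∫ y in (x - 1 / 2)..(x + 1 / 2), Real.exp (-(h ^ 2 * y ^ 2) / 2) * gau0 (x - y) ≤
      ∫ y, Real.exp (-(h ^ 2 * y ^ 2) / 2) * gau0 (x - y) := by
    rw [intervalIntegral.integral_of_le (by linarith)]
    exact setIntegral_le_integral hint (Eventually.of_forall hnn)
  have h2 : ∫ y in (x - 1 / 2)..(x + 1 / 2), Real.exp (-(h ^ 2 * x ^ 2)) * (1 / 8) ≤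
      ∫ y in (x - 1 / 2)..(x + 1 / 2), Real.exp (-(h ^ 2 * y ^ 2) / 2) * gau0 (x - y) := by
    apply intervalIntegral.integral_mono_on (by linarith) (continuous_const.intervalIntegrable _ _)
      hint.intervalIntegrable
    intro y hy
    have hz : (x - y) ^ 2 ≤ 1 / 4 := by
      have := hy.1
      have := hy.2
      nlinarith
    have e1 : Real.exp (-(h ^ 2 * x ^ 2)) * Real.exp (-(1 / 4)) ≤
        Real.exp (-(h ^ 2 * y ^ 2) / 2) := by
      rw [← Real.exp_add]
      apply Real.exp_le_exp.2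
      have h3 : y ^ 2 ≤ 2 * x ^ 2 + 2 * (x - y) ^ 2 := by nlinarith [sq_nonneg (2 * x - y)]
      have h4 : h ^ 2 ≤ 1 := by nlinarith
      have h5 : h ^ 2 * y ^ 2 ≤ h ^ 2 * (2 * x ^ 2 + 2 * (x - y) ^ 2) := by gcongr
      have h6 : h ^ 2 * (x - y) ^ 2 ≤ 1 * (1 / 4) := by gcongr
      nlinarith
    have e2 : gau0 (1 / 2) ≤ gau0 (x - y) := by
      unfold MS.gau0
      have := MS.s2pi
      apply mul_le_mul_of_nonneg_left _ (by positivity)
      apply Real.exp_le_exp.2
      nlinarith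
    calc Real.exp (-(h ^ 2 * x ^ 2)) * (1 / 8) ≤
        Real.exp (-(h ^ 2 * x ^ 2)) * (Real.exp (-(1 / 4)) * gau0 (1 / 2)) := by
          have := gw_low
          gcongr
      _ = (Real.exp (-(h ^ 2 * x ^ 2)) * Real.exp (-(1 / 4))) * gau0 (1 / 2) := by ring
      _ ≤ _ := by
          have := gau0_pos (1 / 2)
          gcongr
  rw [intervalIntegral.integral_const, smul_eq_mul] at h2
  have h3 : (x + 1 / 2 - (x - 1 / 2)) * (Real.exp (-(h ^ 2 * x ^ 2)) * (1 / 8)) =
    Real.exp (-(h ^ 2 * x ^ 2)) * (1 / 8) := by ring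
  rw [h3] at h2
  linarith

/-- Gaussian sum over the primes -/
theorem gsum : ∃ C : ℝ, 0 < C ∧ ∀ (N : ℕ) (v h : ℝ), 0 < h → h ≤ 1 →
    ∑ p ∈ PX N, Real.log p / p * Real.exp (-(h ^ 2 * (Real.log p - v) ^ 2)) ≤ C / h := by
  obtain ⟨C, hC, hs⟩ := MS.sum_gau
  have hsp := MS.s2pi
  refine ⟨8 * (C * Real.sqrt (2 * Real.pi)), by positivity, fun N v h hh hh1 => ?_⟩
  have hnn : ∀ p : ℕ, 0 ≤ Real.log p / p := fun p =>
    div_nonneg (Real.log_natCast_nonneg p) (Nat.cast_nonneg p)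
  calc ∑ p ∈ PX N, Real.log p / p * Real.exp (-(h ^ 2 * (Real.log p - v) ^ 2)) ≤
      ∑ p ∈ PX N, 8 * ∫ y, Real.log p / p *
        (Real.exp (-(h ^ 2 * y ^ 2) / 2) * gau0 (Real.log p - v - y)) := by
        refine Finset.sum_le_sum fun p _ => ?_
        rw [integral_const_mul]
        have := (gw_conv hh hh1 (Real.log p - v)).2
        calc _ ≤ Real.log p / p * (8 * ∫ y, Real.exp (-(h ^ 2 * y ^ 2) / 2) *
              gau0 (Real.log p - v - y)) := mul_le_mul_of_nonneg_left this (hnn p)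
          _ = _ := by ring
    _ = 8 * ∫ y, ∑ p ∈ PX N, Real.log p / p *
        (Real.exp (-(h ^ 2 * y ^ 2) / 2) * gau0 (Real.log p - v - y)) := by
        rw [← Finset.mul_sum]
        congr 1
        symm
        apply integral_finsetSum
        intro p _
        exact (gw_conv hh hh1 (Real.log p - v)).1.const_mul _
    _ ≤ 8 * ∫ y, Real.exp (-(h ^ 2 * y ^ 2) / 2) * C := by
        apply mul_le_mul_of_nonneg_left _ (by norm_num)
        apply integral_mono_of_nonneg
        · exact Eventually.of_forall fun y => Finset.sum_nonneg fun p _ =>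
            mul_nonneg (hnn p) (mul_nonneg (Real.exp_pos _).le (gau0_pos _).le)
        · exact (gw_int hh).1.mul_const _
        · refine Eventually.of_forall fun y => ?_
          simp only
          have h2 := hs N (v + y)
          calc ∑ p ∈ PX N, Real.log p / p *
              (Real.exp (-(h ^ 2 * y ^ 2) / 2) * gau0 (Real.log p - v - y)) =
              Real.exp (-(h ^ 2 * y ^ 2) / 2) *
                ∑ p ∈ PX N, Real.log p / p * gau0 (v + y - Real.log p) := by
                rw [Finset.mul_sum]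
                refine Finset.sum_congr rfl fun p _ => ?_
                have : Real.log p - v - y = -(v + y - Real.log p) := by ring
                rw [this, gau0_even]
                ring
            _ ≤ _ := mul_le_mul_of_nonneg_left h2 (Real.exp_pos _).le
    _ = _ := by
        rw [integral_mul_const, (gw_int hh).2]
        ring

/-- the same with coefficients bounded by `K log p / √p` -/
theorem gsumK : ∃ C : ℝ, 0 < C ∧ ∀ (N : ℕ) (a : ℕ → ℝ) (K v h : ℝ), 1 ≤ N → 0 ≤ K → 0 < h → h ≤ 1 →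
    (∀ p ∈ PX N, |a p| ≤ K * aa p) →
    ∑ p ∈ PX N, a p ^ 2 * Real.exp (-(h ^ 2 * (Real.log p - v) ^ 2)) ≤
      C * (K ^ 2 * Real.log N / h) := by
  obtain ⟨C, hC, hs⟩ := gsum
  refine ⟨C, hC, fun N a K v h hN hK hh hh1 ha => ?_⟩
  calc ∑ p ∈ PX N, a p ^ 2 * Real.exp (-(h ^ 2 * (Real.log p - v) ^ 2)) ≤
      ∑ p ∈ PX N, K ^ 2 * Real.log N *
        (Real.log p / p * Real.exp (-(h ^ 2 * (Real.log p - v) ^ 2))) := by
        refine Finset.sum_le_sum fun p hp => ?_
        obtain ⟨hpp, hpN⟩ := mem_PX.1 hp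
        have h1 : Real.log p ≤ Real.log N :=
          Real.log_le_log (by exact_mod_cast hpp.pos) (by exact_mod_cast hpN)
        have h2 := Real.log_natCast_nonneg p
        have h3 : a p ^ 2 ≤ (K * aa p) ^ 2 := by
          rw [← sq_abs (a p)]
          have := ha p hp
          gcongr
        rw [mul_pow, MS.aa_sq] at h3
        have h4 : (0 : ℝ) ≤ p := Nat.cast_nonneg p
        calc a p ^ 2 * Real.exp (-(h ^ 2 * (Real.log p - v) ^ 2)) ≤
            K ^ 2 * (Real.log p ^ 2 / p) * Real.exp (-(h ^ 2 * (Real.log p - v) ^ 2)) := by gcongr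
          _ = K ^ 2 * Real.log p *
            (Real.log p / p * Real.exp (-(h ^ 2 * (Real.log p - v) ^ 2))) := by ring
          _ ≤ _ := by gcongr
    _ = K ^ 2 * Real.log N * ∑ p ∈ PX N,
        (Real.log p / p * Real.exp (-(h ^ 2 * (Real.log p - v) ^ 2))) := by rw [Finset.mul_sum]
    _ ≤ K ^ 2 * Real.log N * (C / h) := by
        apply mul_le_mul_of_nonneg_left (hs N v h hh hh1)
        exact mul_nonneg (sq_nonneg _) (Real.log_natCast_nonneg N)
    _ = _ := by ring

end Pool.Agent.TH800.DM
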