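import Pool.Agent.TH800.DM.Kr
import Pool.Agent.TH800.MS.Sg4

/-! From zeros to indices, and the telescoping argument. -/

open Complex Filter Topology Set MeasureTheory

namespace Pool.Agent.TH800.DM

open SG (ord NZ zmult ZS)
open H370 (Zf good_zeta)
open SP (mu)

lemma re_half (RH : RiemannHypothesis) {s : ℂ} (h0 : riemannZeta s = 0) (him : 0 < s.im) :
    s.re = 1 / 2 := by
  apply RH s h0
  · rintro ⟨n, hn⟩
    rw [hn] at him
    simp at him
  · intro h
    rw [h] at him
    simp at him

lemma zero_at (RH : RiemannHypothesis) {n : ℕ} (hn : 1 ≤ n) :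
    riemannZeta (1 / 2 + I * ord n : ℂ) = 0 := by
  have hpos := SG.ord_pos hn
  have h := SG.ord_count (ord n) hpos
  have hne : {m : ℕ | 1 ≤ m ∧ ord m = ord n}.ncard ≠ 0 := by
    have hfin : {m : ℕ | 1 ≤ m ∧ ord m = ord n}.Finite := by
      refine (Set.finite_Iic (NZ (ord n))).subset ?_
      rintro m ⟨a1, a2⟩
      exact (SG.ord_le_iff a1 _).mp a2.le
    rw [Ne, Set.ncard_eq_zero hfin]
    exact Set.Nonempty.ne_empty ⟨n, hn, rfl⟩
  rw [h] at hne
  obtain ⟨z, hz⟩ := exists_ne_zero_of_finsum_mem_ne_zero hne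
  obtain ⟨⟨a1, a2, a3, a4⟩, -⟩ := hz
  have hzim : 0 < z.im := a4 ▸ hpos
  have hz2 := re_half RH a1 hzim
  have e : (1 / 2 + I * ord n : ℂ) = z := by
    apply Complex.ext
    · simp [hz2]
    · simp [a4]
  rw [e]
  exact a1

lemma mem_J {T : ℝ} {n : ℕ} (hn : 1 ≤ n) :
    n ∈ Finset.Ioc (NZ T) (NZ (2 * T)) ↔ T < ord n ∧ ord n ≤ 2 * T := by
  rw [Finset.mem_Ioc]
  constructor
  · rintro ⟨h1, h2⟩
    refine ⟨?_, (SG.ord_le_iff hn _).mpr h2⟩
    by_contra h
    push Not at h
    have := (SG.ord_le_iff hn _).mp h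
    omega
  · rintro ⟨h1, h2⟩
    refine ⟨?_, (SG.ord_le_iff hn _).mp h2⟩
    by_contra h
    push Not at h
    have := (SG.ord_le_iff hn _).mpr h
    linarith

/-- sums over zeros as sums over indices -/
theorem sum_idx (RH : RiemannHypothesis) {T : ℝ} (hT : 1 ≤ T) (F : ℝ → ℝ) :
    ∑ s ∈ Zf riemannZeta T (2 * T), (mu s : ℝ) * F s.im =
      ∑ n ∈ Finset.Ioc (NZ T) (NZ (2 * T)), F (ord n) := by
  classical
  set J := Finset.Ioc (NZ T) (NZ (2 * T)) with hJ
  have hJ1 : ∀ n ∈ J, 1 ≤ n := fun n hn => by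
    rw [hJ, Finset.mem_Ioc] at hn
    omega
  have hmap : ∀ n ∈ J, (1 / 2 + I * ord n : ℂ) ∈ Zf riemannZeta T (2 * T) := by
    intro n hn
    have h1 := hJ1 n hn
    obtain ⟨h2, h3⟩ := (mem_J h1).1 hn
    rw [H370.mem_Zf good_zeta hT]
    have hre : (1 / 2 + I * ord n : ℂ).re = 1 / 2 := by simp
    have him : (1 / 2 + I * ord n : ℂ).im = ord n := by simp
    refine ⟨by rw [hre]; norm_num, by rw [hre]; norm_num, by rw [him]; exact h2,
      by rw [him]; exact h3, zero_at RH h1⟩
  rw [← Finset.sum_fiberwise_of_maps_to hmap]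
  refine Finset.sum_congr rfl fun s hs => ?_
  obtain ⟨h1, h2, h3, h4⟩ := H370.A3.on_line RH hT hs
  have him : 0 < s.im := by linarith
  have hz : riemannZeta s = 0 := by rw [← h1]; exact h4
  have hre := re_half RH hz him
  have hcard : (J.filter (fun n => (1 / 2 + I * ord n : ℂ) = s)).card = mu s := by
    have h := SG.ord_count s.im him
    have e1 : {z : ℂ | riemannZeta z = 0 ∧ 0 < z.re ∧ z.re < 1 ∧ z.im = s.im} = {s} := by
      ext z
      constructor
      · rintro ⟨a1, a2, a3, a4⟩
        have hz : z.re = 1 / 2 := re_half RH a1 (a4 ▸ him)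
        exact Complex.ext (hz.trans hre.symm) a4
      · rintro rfl
        exact ⟨hz, by rw [hre]; norm_num, by rw [hre]; norm_num, rfl⟩
    rw [e1, finsum_mem_singleton] at h
    have h5 : mu s = zmult s := rfl
    rw [h5, ← h, ← Set.ncard_coe_finset]
    congr 1
    ext n
    simp only [Finset.coe_filter, Set.mem_ofPred_eq]
    constructor
    · rintro ⟨b1, b2⟩
      refine ⟨hJ1 n b1, ?_⟩
      have := congrArg Complex.im b2
      simpa using this
    · rintro ⟨b1, b3⟩
      refine ⟨(mem_J b1).2 ⟨by rw [b3]; exact h2, by rw [b3]; exact h3⟩, ?_⟩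
      rw [b3]
      exact h1
  have hc : ∀ n ∈ J.filter (fun n => (1 / 2 + I * ord n : ℂ) = s), F (ord n) = F s.im := by
    intro n hn
    have := congrArg Complex.im (Finset.mem_filter.1 hn).2
    have h6 : ord n = s.im := by simpa using this
    rw [h6]
  rw [Finset.sum_congr rfl hc, Finset.sum_const, hcard, nsmul_eq_mul]

/-- sums over zeros and sums over a run of ordinates -/
theorem run_sum (RH : RiemannHypothesis) {T t r : ℝ} (hT : 1 ≤ T) {n m : ℕ} (hn : 1 ≤ n)
    (h1 : T < ord n) (h2 : ord (n + m) ≤ 2 * T) (h3 : ord n + r ≤ t) (h4 : t ≤ ord (n + m) - r)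
    (F : ℝ → ℝ) :
    |(∑ s ∈ Zf riemannZeta T (2 * T), (mu s : ℝ) * F s.im) - ∑ i ∈ Finset.range m, F (ord (n + i))| ≤
      ∑ s ∈ Zf riemannZeta T (2 * T), (mu s : ℝ) * (if r ≤ |s.im - t| then |F s.im| else 0) := by
  classical
  rw [sum_idx RH hT F, sum_idx RH hT (fun x => if r ≤ |x - t| then |F x| else 0)]
  set J := Finset.Ioc (NZ T) (NZ (2 * T)) with hJ
  have hsub : Finset.Ico n (n + m) ⊆ J := by
    intro j hj
    rw [Finset.mem_Ico] at hj
    refine (mem_J (by omega)).2 ⟨lt_of_lt_of_le h1 (SG.ord_mono hn hj.1), ?_⟩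
    exact (SG.ord_mono (by omega) hj.2.le).trans h2
  have hre : ∑ i ∈ Finset.range m, F (ord (n + i)) = ∑ j ∈ Finset.Ico n (n + m), F (ord j) := by
    rw [Finset.sum_Ico_eq_sum_range]
    simp
  rw [hre, ← Finset.sum_sdiff hsub, add_sub_cancel_right]
  refine (Finset.abs_sum_le_sum_abs _ _).trans ?_
  have hnn : ∀ j ∈ J, 0 ≤ (if r ≤ |ord j - t| then |F (ord j)| else 0) := fun j _ => by
    split_ifs
    · exact abs_nonneg _
    · exact le_rfl
  calc ∑ j ∈ J \ Finset.Ico n (n + m), |F (ord j)| ≤
      ∑ j ∈ J \ Finset.Ico n (n + m), (if r ≤ |ord j - t| then |F (ord j)| else 0) := by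
        refine Finset.sum_le_sum fun j hj => ?_
        rw [Finset.mem_sdiff, Finset.mem_Ico, not_and_or, not_le, not_lt] at hj
        obtain ⟨hj1, hj2⟩ := hj
        have hj0 : 1 ≤ j := by
          rw [hJ, Finset.mem_Ioc] at hj1
          omega
        rw [if_pos]
        rcases hj2 with h | h
        · have := SG.ord_mono hj0 h.le
          rw [abs_sub_comm]
          exact le_trans (by linarith) (le_abs_self _)
        · have := SG.ord_mono (by omega : 1 ≤ n + m) h
          exact le_trans (by linarith) (le_abs_self _)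
    _ ≤ _ := Finset.sum_le_sum_of_subset_of_nonneg Finset.sdiff_subset fun j hj _ => hnn j hj

/-- contribution of distant zeros -/
noncomputable def Tk (T r t : ℝ) : ℝ :=
  ∑ s ∈ Zf riemannZeta T (2 * T), (mu s : ℝ) *
    (1 / Real.log T ^ 2 * (1 / (r ^ 2 + (s.im - t) ^ 2)))

lemma Tk_cont {T r : ℝ} (hr : 0 < r) : Continuous (Tk T r) := by
  unfold Tk
  refine continuous_finsetSum _ fun s _ => continuous_const.mul (continuous_const.mul
    (continuous_const.div (by fun_prop) ?_))
  intro t
  positivity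

lemma Tk_nonneg (T r t : ℝ) : 0 ≤ Tk T r t := by
  unfold Tk
  refine Finset.sum_nonneg fun s _ => ?_
  positivity

theorem Tk_int : ∃ C T0 : ℝ, 0 < C ∧ 10 ≤ T0 ∧ ∀ T : ℝ, T0 ≤ T → ∀ r : ℝ, 0 < r →
    ∫ t in T..(2 * T), Tk T r t ≤ C * (T / (Real.log T * r)) := by
  obtain ⟨C, T0, hC, hT0, h⟩ := MS.NT_le
  have hpi := Real.pi_pos
  refine ⟨C * Real.pi, T0, by positivity, hT0, fun T hT r hr => ?_⟩
  have hT10 : 10 ≤ T := hT0.trans hT
  have hL : 0 < Real.log T := Real.log_pos (by linarith)
  have hNT := h T hT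
  unfold Tk
  have hcs : ∀ s : ℂ, Continuous fun t : ℝ => (mu s : ℝ) *
      (1 / Real.log T ^ 2 * (1 / (r ^ 2 + (s.im - t) ^ 2))) := fun s =>
    continuous_const.mul (continuous_const.mul (continuous_const.div (by fun_prop)
      (fun t => by positivity)))
  rw [intervalIntegral.integral_finsetSum fun s _ => (hcs s).intervalIntegrable _ _]
  simp only [intervalIntegral.integral_const_mul]
  calc _ ≤ ∑ s ∈ Zf riemannZeta T (2 * T), (mu s : ℝ) * (1 / Real.log T ^ 2 * (Real.pi / r)) := by
        refine Finset.sum_le_sum fun s _ => ?_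
        have := MS.int_tail (r := r) (c := s.im) (a := T) (d := 2 * T) hr
        gcongr
    _ = MS.NT T * (1 / Real.log T ^ 2 * (Real.pi / r)) := by
        unfold MS.NT
        rw [Finset.sum_mul]
    _ ≤ C * (T * Real.log T) * (1 / Real.log T ^ 2 * (Real.pi / r)) := by gcongr
    _ = _ := by field_simp

/-- pointwise bound of the sum over the zeros inside a run -/
theorem pt : ∃ C : ℝ, 0 < C ∧ ∀ (_ : RiemannHypothesis) (T t r : ℝ), 10 ≤ T → 0 < r →
    2 * Real.pi ≤ Real.log T * r → ∀ n m : ℕ, 1 ≤ n → T < ord n → ord (n + m) ≤ 2 * T →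
    ord n + r ≤ t → t ≤ ord (n + m) - r →
    |Zs T t psi| ≤ C * Tk T r t + C * (m / Real.log T ^ 2) + C * (1 / (Real.log T * r) ^ 2) +
      ∑ i ∈ Finset.range m, |Hk (Real.log T * (ord (n + i) - t) + Real.pi +
        (Real.log T * (ord (n + i + 1) - ord (n + i)) - 2 * Real.pi)) -
        Hk (Real.log T * (ord (n + i) - t) + Real.pi)| := by
  obtain ⟨C1, hC1, h1⟩ := Kc_decay
  obtain ⟨C2, hC2, h2⟩ := Hk_decay
  have hpi := Real.pi_pos
  refine ⟨2 * C1 + 8 * C2, by positivity, fun RH T t r hT hr hLr n m hn g1 g2 g3 g4 => ?_⟩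
  have hL : 0 < Real.log T := Real.log_pos (by linarith)
  set L := Real.log T with hLd
  set F : ℝ → ℝ := fun x => Real.exp (-(x - t) ^ 2 / 2) * Kc psi (L * (x - t)) with hF
  have hZ : Zs T t psi = ∑ s ∈ Zf riemannZeta T (2 * T), (mu s : ℝ) * F s.im := by
    unfold Zs
    refine Finset.sum_congr rfl fun s _ => ?_
    simp only [hF]
    ring
  have hrun := run_sum RH (by linarith) hn g1 g2 g3 g4 F
  rw [← hZ] at hrun
  have hFle : ∀ x, |F x| ≤ C1 / (1 + (L * (x - t)) ^ 2) := by
    intro x
    simp only [hF]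
    rw [abs_mul, abs_of_pos (Real.exp_pos _)]
    have e1 : Real.exp (-(x - t) ^ 2 / 2) ≤ 1 := by
      rw [Real.exp_le_one_iff]
      have := sq_nonneg (x - t)
      linarith
    calc _ ≤ 1 * |Kc psi (L * (x - t))| := mul_le_mul_of_nonneg_right e1 (abs_nonneg _)
      _ ≤ _ := by rw [one_mul]; exact h1 _
  have htail : ∑ s ∈ Zf riemannZeta T (2 * T),
      (mu s : ℝ) * (if r ≤ |s.im - t| then |F s.im| else 0) ≤ 2 * C1 * Tk T r t := by
    unfold Tk
    rw [Finset.mul_sum]
    refine Finset.sum_le_sum fun s _ => ?_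
    rw [mul_left_comm]
    apply mul_le_mul_of_nonneg_left _ (Nat.cast_nonneg _)
    split_ifs with hs
    · refine (hFle _).trans ?_
      set x := s.im - t with hx
      have hx2 : r ^ 2 ≤ x ^ 2 := by
        rw [← sq_abs x]
        gcongr
      have hx0 : 0 < x ^ 2 := lt_of_lt_of_le (by positivity) hx2
      calc C1 / (1 + (L * x) ^ 2) ≤ C1 / (L ^ 2 * x ^ 2) := by
            apply div_le_div_of_nonneg_left hC1.le (by positivity)
            nlinarith
        _ ≤ C1 / (L ^ 2 * ((r ^ 2 + x ^ 2) / 2)) := by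
            apply div_le_div_of_nonneg_left hC1.le (by positivity)
            apply mul_le_mul_of_nonneg_left _ (by positivity)
            linarith
        _ = _ := by
            rw [← hLd]
            field_simp
    · positivity
  -- removal of the Gaussian
  have hgau : |∑ i ∈ Finset.range m, F (ord (n + i)) -
      ∑ i ∈ Finset.range m, Kc psi (L * (ord (n + i) - t))| ≤ C1 * (m / L ^ 2) := by
    rw [← Finset.sum_sub_distrib]
    refine (Finset.abs_sum_le_sum_abs _ _).trans ?_
    calc _ ≤ ∑ i ∈ Finset.range m, C1 / L ^ 2 := by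
          refine Finset.sum_le_sum fun i _ => ?_
          simp only [hF]
          set x := ord (n + i) - t with hx
          have e0 : Real.exp (-x ^ 2 / 2) * Kc psi (L * x) - Kc psi (L * x) =
            -((1 - Real.exp (-x ^ 2 / 2)) * Kc psi (L * x)) := by ring
          have e1 : 0 ≤ 1 - Real.exp (-x ^ 2 / 2) := by
            rw [sub_nonneg, Real.exp_le_one_iff]
            have := sq_nonneg x
            linarith
          have e2 : 1 - Real.exp (-x ^ 2 / 2) ≤ x ^ 2 := by
            have := Real.add_one_le_exp (-x ^ 2 / 2)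
            nlinarith [sq_nonneg x]
          rw [e0, abs_neg, abs_mul, abs_of_nonneg e1]
          calc (1 - Real.exp (-x ^ 2 / 2)) * |Kc psi (L * x)| ≤
              x ^ 2 * (C1 / (1 + (L * x) ^ 2)) := by
                have := h1 (L * x)
                gcongr
            _ ≤ C1 / L ^ 2 := by
                rw [← mul_div_assoc, div_le_div_iff₀ (by positivity) (by positivity)]
                nlinarith [hC1.le]
      _ = _ := by
          rw [Finset.sum_const, Finset.card_range, nsmul_eq_mul]
          ring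
  -- telescoping
  have htel : |∑ i ∈ Finset.range m, Kc psi (L * (ord (n + i) - t))| ≤
      (∑ i ∈ Finset.range m, |Hk (L * (ord (n + i) - t) + Real.pi +
        (L * (ord (n + i + 1) - ord (n + i)) - 2 * Real.pi)) -
        Hk (L * (ord (n + i) - t) + Real.pi)|) + 8 * C2 * (1 / (L * r) ^ 2) := by
    have e1 : ∑ i ∈ Finset.range m, Kc psi (L * (ord (n + i) - t)) =
        (∑ i ∈ Finset.range m, (Hk (L * (ord (n + i) - t) + Real.pi) -
          Hk (L * (ord (n + i + 1) - t) - Real.pi))) +
        ∑ i ∈ Finset.range m, (Hk (L * (ord (n + (i + 1)) - t) - Real.pi) -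
          Hk (L * (ord (n + i) - t) - Real.pi)) := by
      rw [← Finset.sum_add_distrib]
      refine Finset.sum_congr rfl fun i _ => ?_
      rw [Kc_diff, ← add_assoc n i 1]
      ring
    rw [e1, Finset.sum_range_sub (fun i => Hk (L * (ord (n + i) - t) - Real.pi))]
    refine (abs_add_le _ _).trans (add_le_add ?_ ?_)
    · refine (Finset.abs_sum_le_sum_abs _ _).trans (le_of_eq ?_)
      refine Finset.sum_congr rfl fun i _ => ?_
      rw [abs_sub_comm]
      congr 3
      ring
    · have hb : ∀ z : ℝ, L * r - Real.pi ≤ |z| → |Hk z| ≤ 4 * C2 * (1 / (L * r) ^ 2) := by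
        intro z hz
        have hLr2 : L * r / 2 ≤ |z| := by linarith
        have hLr0 : 0 < L * r := by positivity
        have h5 : (L * r / 2) ^ 2 ≤ z ^ 2 := by
          rw [← sq_abs z]
          gcongr
        refine (h2 z).trans ?_
        rw [mul_one_div, div_le_div_iff₀ (by positivity) (by positivity)]
        nlinarith
      have b1 : |Hk (L * (ord (n + m) - t) - Real.pi)| ≤ 4 * C2 * (1 / (L * r) ^ 2) := by
        apply hb
        refine le_trans ?_ (le_abs_self _)
        have : L * r ≤ L * (ord (n + m) - t) := by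
          apply mul_le_mul_of_nonneg_left _ hL.le
          linarith
        linarith
      have b2 : |Hk (L * (ord (n + 0) - t) - Real.pi)| ≤ 4 * C2 * (1 / (L * r) ^ 2) := by
        apply hb
        rw [add_zero, ← abs_neg]
        refine le_trans ?_ (le_abs_self _)
        have : L * r ≤ L * (t - ord n) := by
          apply mul_le_mul_of_nonneg_left _ hL.le
          linarith
        nlinarith
      refine (abs_sub _ _).trans ?_
      linarith
  have hTk := Tk_nonneg T r t
  have p1 : 0 ≤ (m : ℝ) / L ^ 2 := by positivity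
  have p2 : 0 ≤ 1 / (L * r) ^ 2 := by positivity
  have hZle : |Zs T t psi| ≤ 2 * C1 * Tk T r t + C1 * (m / L ^ 2) +
      ((∑ i ∈ Finset.range m, |Hk (L * (ord (n + i) - t) + Real.pi +
        (L * (ord (n + i + 1) - ord (n + i)) - 2 * Real.pi)) -
        Hk (L * (ord (n + i) - t) + Real.pi)|) + 8 * C2 * (1 / (L * r) ^ 2)) := by
    have e : Zs T t psi = (Zs T t psi - ∑ i ∈ Finset.range m, F (ord (n + i))) +
        (∑ i ∈ Finset.range m, F (ord (n + i)) -
          ∑ i ∈ Finset.range m, Kc psi (L * (ord (n + i) - t))) +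
        ∑ i ∈ Finset.range m, Kc psi (L * (ord (n + i) - t)) := by ring
    rw [e]
    refine (abs_add_le _ _).trans (add_le_add ((abs_add_le _ _).trans (add_le_add
      (hrun.trans htail) hgau)) htel)
  refine hZle.trans ?_
  nlinarith [mul_nonneg hC1.le hTk, mul_nonneg hC2.le hTk, mul_nonneg hC1.le p1,
    mul_nonneg hC2.le p1, mul_nonneg hC1.le p2, mul_nonneg hC2.le p2]

/-- mean value of the telescoped terms -/
theorem tel_int : ∃ C : ℝ, 0 < C ∧ ∀ L γ D a b : ℝ, 0 < L → a ≤ b →
    ∫ t in a..b, |Hk (L * (γ - t) + Real.pi + D) - Hk (L * (γ - t) + Real.pi)| ≤ C * (|D| / L) := by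
  obtain ⟨C, hC, h⟩ := Hd_decay
  have hpi := Real.pi_pos
  refine ⟨C * Real.pi, by positivity, fun L γ D a b hL hab => ?_⟩
  have hker : ∀ c : ℝ, ∫ t in a..b, C / (1 + (L * (γ - t) + c) ^ 2) ≤ C * Real.pi / L := by
    intro c
    have h1 := MS.int_tail (r := 1 / L) (c := γ + c / L) (a := a) (d := b) (by positivity)
    have e : ∫ t in a..b, C / (1 + (L * (γ - t) + c) ^ 2) =
        C / L ^ 2 * ∫ t in a..b, 1 / ((1 / L) ^ 2 + (γ + c / L - t) ^ 2) := by
      rw [← intervalIntegral.integral_const_mul]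
      refine intervalIntegral.integral_congr fun t _ => ?_
      show C / (1 + (L * (γ - t) + c) ^ 2) = C / L ^ 2 * (1 / ((1 / L) ^ 2 + (γ + c / L - t) ^ 2))
      have e2 : 1 + (L * (γ - t) + c) ^ 2 = L ^ 2 * ((1 / L) ^ 2 + (γ + c / L - t) ^ 2) := by
        field_simp
        ring
      rw [e2]
      have : 0 < (1 / L) ^ 2 + (γ + c / L - t) ^ 2 := by positivity
      field_simp
    rw [e]
    calc C / L ^ 2 * ∫ t in a..b, 1 / ((1 / L) ^ 2 + (γ + c / L - t) ^ 2) ≤
        C / L ^ 2 * (Real.pi / (1 / L)) := by gcongr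
      _ = _ := by field_simp
  have cont : Continuous fun p : ℝ × ℝ => C / (1 + (L * (γ - p.1) + Real.pi + p.2) ^ 2) :=
    continuous_const.div (by fun_prop) (fun p => by positivity)
  have contH : Continuous fun t => |Hk (L * (γ - t) + Real.pi + D) - Hk (L * (γ - t) + Real.pi)| :=
    ((Hk_cont.comp (by fun_prop)).sub (Hk_cont.comp (by fun_prop))).abs
  have hHd : ∀ t, Continuous fun s => |Hd (L * (γ - t) + Real.pi + s)| := fun t =>
    (Hd_cont.comp (by fun_prop)).abs
  have hck : ∀ t, Continuous fun s => C / (1 + (L * (γ - t) + Real.pi + s) ^ 2) := fun t =>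
    cont.comp (by fun_prop : Continuous fun s : ℝ => (t, s))
  rcases le_total 0 D with hD | hD
  · have h2 : ∀ t, |Hk (L * (γ - t) + Real.pi + D) - Hk (L * (γ - t) + Real.pi)| ≤
        ∫ s in (0 : ℝ)..D, C / (1 + (L * (γ - t) + Real.pi + s) ^ 2) := by
      intro t
      rw [Hk_sub]
      refine (intervalIntegral.abs_integral_le_integral_abs hD).trans ?_
      exact intervalIntegral.integral_mono_on hD ((hHd t).intervalIntegrable _ _)
        ((hck t).intervalIntegrable _ _) fun s _ => h _
    have hc2 : Continuous fun t => ∫ s in (0 : ℝ)..D, C / (1 + (L * (γ - t) + Real.pi + s) ^ 2) :=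
      intervalIntegral.continuous_parametric_intervalIntegral_of_continuous' cont 0 D
    calc _ ≤ ∫ t in a..b, ∫ s in (0 : ℝ)..D, C / (1 + (L * (γ - t) + Real.pi + s) ^ 2) :=
          intervalIntegral.integral_mono_on hab (contH.intervalIntegrable _ _)
            (hc2.intervalIntegrable _ _) fun t _ => h2 t
      _ = ∫ s in (0 : ℝ)..D, ∫ t in a..b, C / (1 + (L * (γ - t) + Real.pi + s) ^ 2) :=
          MS.swapI hab hD cont
      _ ≤ ∫ s in (0 : ℝ)..D, C * Real.pi / L := by
          have hc3 : Continuous fun s => ∫ t in a..b, C / (1 + (L * (γ - t) + Real.pi + s) ^ 2) :=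
            intervalIntegral.continuous_parametric_intervalIntegral_of_continuous'
              (f := fun s t => C / (1 + (L * (γ - t) + Real.pi + s) ^ 2))
              (cont.comp continuous_swap) a b
          refine intervalIntegral.integral_mono_on hD (hc3.intervalIntegrable _ _)
            (continuous_const.intervalIntegrable _ _) fun s _ => ?_
          have := hker (Real.pi + s)
          simp_rw [← add_assoc] at this
          exact this
      _ = _ := by
          rw [intervalIntegral.integral_const, smul_eq_mul, abs_of_nonneg hD]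
          ring
  · have h2 : ∀ t, |Hk (L * (γ - t) + Real.pi + D) - Hk (L * (γ - t) + Real.pi)| ≤
        ∫ s in D..(0 : ℝ), C / (1 + (L * (γ - t) + Real.pi + s) ^ 2) := by
      intro t
      rw [Hk_sub, intervalIntegral.integral_symm, abs_neg]
      refine (intervalIntegral.abs_integral_le_integral_abs hD).trans ?_
      exact intervalIntegral.integral_mono_on hD ((hHd t).intervalIntegrable _ _)
        ((hck t).intervalIntegrable _ _) fun s _ => h _
    have hc2 : Continuous fun t => ∫ s in D..(0 : ℝ), C / (1 + (L * (γ - t) + Real.pi + s) ^ 2) :=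
      intervalIntegral.continuous_parametric_intervalIntegral_of_continuous' cont D 0
    calc _ ≤ ∫ t in a..b, ∫ s in D..(0 : ℝ), C / (1 + (L * (γ - t) + Real.pi + s) ^ 2) :=
          intervalIntegral.integral_mono_on hab (contH.intervalIntegrable _ _)
            (hc2.intervalIntegrable _ _) fun t _ => h2 t
      _ = ∫ s in D..(0 : ℝ), ∫ t in a..b, C / (1 + (L * (γ - t) + Real.pi + s) ^ 2) :=
          MS.swapI hab hD cont
      _ ≤ ∫ s in D..(0 : ℝ), C * Real.pi / L := by
          have hc3 : Continuous fun s => ∫ t in a..b, C / (1 + (L * (γ - t) + Real.pi + s) ^ 2) :=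
            intervalIntegral.continuous_parametric_intervalIntegral_of_continuous'
              (f := fun s t => C / (1 + (L * (γ - t) + Real.pi + s) ^ 2))
              (cont.comp continuous_swap) a b
          refine intervalIntegral.integral_mono_on hD (hc3.intervalIntegrable _ _)
            (continuous_const.intervalIntegrable _ _) fun s _ => ?_
          have := hker (Real.pi + s)
          simp_rw [← add_assoc] at this
          exact this
      _ = _ := by
          rw [intervalIntegral.integral_const, smul_eq_mul, abs_of_nonpos hD]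
          ring

end Pool.Agent.TH800.DM
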