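import Pool.Agent.TH800.DM.Ex
import Pool.Agent.TH800.MS.Lln
import Pool.Agent.TH800.MS.Sg2

/-! The kernel. -/

open Complex Filter Topology Set MeasureTheory

namespace Pool.Agent.TH800.DM

/-- integration by parts twice -/
lemma ibp {q q' q'' : ℝ → ℝ} (h1 : ∀ x, HasDerivAt q (q' x) x) (h2 : ∀ x, HasDerivAt q' (q'' x) x)
    (h3 : Continuous q'') {a b : ℝ} (e1 : q a = 0) (e2 : q b = 0) (e3 : q' a = 0) (e4 : q' b = 0)
    (z : ℝ) : z ^ 2 * (∫ x in a..b, q x * Real.sin (x * z)) =
      -∫ x in a..b, q'' x * Real.sin (x * z) ∧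
    z ^ 2 * (∫ x in a..b, q x * Real.cos (x * z)) =
      -∫ x in a..b, q'' x * Real.cos (x * z) := by
  have c1 : Continuous q := continuous_iff_continuousAt.2 fun x => (h1 x).continuousAt
  have ds : ∀ x, HasDerivAt (fun x => Real.sin (x * z)) (Real.cos (x * z) * z) x := fun x => by
    have h := (hasDerivAt_mul_const z (x := x)).sin
    exact h
  have dc : ∀ x, HasDerivAt (fun x => Real.cos (x * z)) (-Real.sin (x * z) * z) x := fun x => by
    have h := (hasDerivAt_mul_const z (x := x)).cos
    exact h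
  have cs : Continuous fun x : ℝ => Real.sin (x * z) := by fun_prop
  have cc : Continuous fun x : ℝ => Real.cos (x * z) := by fun_prop
  constructor
  · have hd : ∀ x ∈ Set.uIcc a b, HasDerivAt
        (fun x => -z * (q x * Real.cos (x * z)) + q' x * Real.sin (x * z))
        (z ^ 2 * (q x * Real.sin (x * z)) + q'' x * Real.sin (x * z)) x := fun x _ => by
      have := (((h1 x).mul (dc x)).const_mul (-z)).add ((h2 x).mul (ds x))
      refine this.congr_deriv ?_
      ring
    have hi : IntervalIntegrable (fun x => z ^ 2 * (q x * Real.sin (x * z)) +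
        q'' x * Real.sin (x * z)) volume a b :=
      ((continuous_const.mul (c1.mul cs)).add (h3.mul cs)).intervalIntegrable _ _
    have h4 := intervalIntegral.integral_eq_sub_of_hasDerivAt hd hi
    have i1 : IntervalIntegrable (fun x => z ^ 2 * (q x * Real.sin (x * z))) volume a b :=
      (continuous_const.mul (c1.mul cs)).intervalIntegrable _ _
    have i2 : IntervalIntegrable (fun x => q'' x * Real.sin (x * z)) volume a b :=
      (h3.mul cs).intervalIntegrable _ _
    rw [intervalIntegral.integral_add i1 i2, intervalIntegral.integral_const_mul, e1, e2, e3, e4]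
      at h4
    linarith
  · have hd : ∀ x ∈ Set.uIcc a b, HasDerivAt
        (fun x => z * (q x * Real.sin (x * z)) + q' x * Real.cos (x * z))
        (z ^ 2 * (q x * Real.cos (x * z)) + q'' x * Real.cos (x * z)) x := fun x _ => by
      have := (((h1 x).mul (ds x)).const_mul z).add ((h2 x).mul (dc x))
      refine this.congr_deriv ?_
      ring
    have hi : IntervalIntegrable (fun x => z ^ 2 * (q x * Real.cos (x * z)) +
        q'' x * Real.cos (x * z)) volume a b :=
      ((continuous_const.mul (c1.mul cc)).add (h3.mul cc)).intervalIntegrable _ _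
    have h4 := intervalIntegral.integral_eq_sub_of_hasDerivAt hd hi
    have i1 : IntervalIntegrable (fun x => z ^ 2 * (q x * Real.cos (x * z))) volume a b :=
      (continuous_const.mul (c1.mul cc)).intervalIntegrable _ _
    have i2 : IntervalIntegrable (fun x => q'' x * Real.cos (x * z)) volume a b :=
      (h3.mul cc).intervalIntegrable _ _
    rw [intervalIntegral.integral_add i1 i2, intervalIntegral.integral_const_mul, e1, e2, e3, e4]
      at h4
    linarith

/-- decay of the transforms -/
lemma decay {q q' q'' : ℝ → ℝ} (h1 : ∀ x, HasDerivAt q (q' x) x)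
    (h2 : ∀ x, HasDerivAt q' (q'' x) x) (h3 : Continuous q'') {a b : ℝ} (hab : a ≤ b)
    (e1 : q a = 0) (e2 : q b = 0) (e3 : q' a = 0) (e4 : q' b = 0) :
    ∃ C : ℝ, 0 < C ∧ (∀ z, |∫ x in a..b, q x * Real.sin (x * z)| ≤ C / (1 + z ^ 2)) ∧
      (∀ z, |∫ x in a..b, q x * Real.cos (x * z)| ≤ C / (1 + z ^ 2)) := by
  have c1 : Continuous q := continuous_iff_continuousAt.2 fun x => (h1 x).continuousAt
  have hb : ∀ (f g : ℝ → ℝ), Continuous f → Continuous g → (∀ x, |g x| ≤ 1) →
      |∫ x in a..b, f x * g x| ≤ ∫ x in a..b, |f x| := by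
    intro f g hf hg hg1
    refine (intervalIntegral.abs_integral_le_integral_abs hab).trans ?_
    apply intervalIntegral.integral_mono_on hab ((hf.mul hg).abs.intervalIntegrable _ _)
      (hf.abs.intervalIntegrable _ _)
    intro x _
    show |f x * g x| ≤ |f x|
    rw [abs_mul]
    exact mul_le_of_le_one_right (abs_nonneg _) (hg1 x)
  set A := ∫ x in a..b, |q x| with hA
  set D := ∫ x in a..b, |q'' x| with hD
  have hA0 : 0 ≤ A := intervalIntegral.integral_nonneg hab fun x _ => abs_nonneg _
  have hD0 : 0 ≤ D := intervalIntegral.integral_nonneg hab fun x _ => abs_nonneg _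
  have key : ∀ (y z : ℝ), |y| ≤ A → z ^ 2 * |y| ≤ D → |y| ≤ (A + D + 1) / (1 + z ^ 2) := by
    intro y z g1 g2
    rw [le_div_iff₀ (by positivity)]
    nlinarith
  refine ⟨A + D + 1, by positivity, fun z => ?_, fun z => ?_⟩
  · have cs : Continuous fun x : ℝ => Real.sin (x * z) := by fun_prop
    apply key _ z (hb q _ c1 cs fun x => Real.abs_sin_le_one _)
    rw [← abs_of_nonneg (sq_nonneg z), ← abs_mul, (ibp h1 h2 h3 e1 e2 e3 e4 z).1, abs_neg]
    exact hb q'' _ h3 cs fun x => Real.abs_sin_le_one _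
  · have cc : Continuous fun x : ℝ => Real.cos (x * z) := by fun_prop
    apply key _ z (hb q _ c1 cc fun x => Real.abs_cos_le_one _)
    rw [← abs_of_nonneg (sq_nonneg z), ← abs_mul, (ibp h1 h2 h3 e1 e2 e3 e4 z).2, abs_neg]
    exact hb q'' _ h3 cc fun x => Real.abs_cos_le_one _

/-- the polynomial bump on `[1/20, 1/10]` -/
noncomputable def qq (α : ℝ) : ℝ := ((α - 1 / 20) * (1 / 10 - α)) ^ 2

/-- the bump -/
noncomputable def chi (α : ℝ) : ℝ := (max 0 ((α - 1 / 20) * (1 / 10 - α))) ^ 2

lemma chi_cont : Continuous chi := by unfold chi; fun_prop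

lemma chi_nonneg (α : ℝ) : 0 ≤ chi α := sq_nonneg _

lemma chi_eq {α : ℝ} (h1 : 1 / 20 ≤ α) (h2 : α ≤ 1 / 10) : chi α = qq α := by
  unfold chi qq
  rw [max_eq_right (mul_nonneg (by linarith) (by linarith))]

lemma chi_zero1 {α : ℝ} (h : α ≤ 1 / 20) : chi α = 0 := by
  unfold chi
  rw [max_eq_left (mul_nonpos_of_nonpos_of_nonneg (by linarith) (by linarith))]
  norm_num

lemma chi_zero2 {α : ℝ} (h : 1 / 10 ≤ α) : chi α = 0 := by
  unfold chi
  rw [max_eq_left (mul_nonpos_of_nonneg_of_nonpos (by linarith) (by linarith))]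
  norm_num

lemma chi_le (α : ℝ) : chi α ≤ 1 := by
  unfold chi
  have h1 : (α - 1 / 20) * (1 / 10 - α) ≤ 1 := by nlinarith [sq_nonneg (α - 3 / 40)]
  have h2 : max 0 ((α - 1 / 20) * (1 / 10 - α)) ≤ 1 := max_le zero_le_one h1
  have h3 : 0 ≤ max 0 ((α - 1 / 20) * (1 / 10 - α)) := le_max_left _ _
  nlinarith

/-- reduction to the polynomial -/
lemma chi_int {g : ℝ → ℝ} (hg : Continuous g) :
    ∫ α in (0 : ℝ)..1, chi α * g α = ∫ α in (1 / 20 : ℝ)..(1 / 10), qq α * g α := by
  have hc : Continuous fun α => chi α * g α := chi_cont.mul hg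
  have i := fun a b : ℝ => hc.intervalIntegrable (μ := volume) a b
  rw [← intervalIntegral.integral_add_adjacent_intervals (i 0 (1 / 20)) (i (1 / 20) 1),
    ← intervalIntegral.integral_add_adjacent_intervals (i (1 / 20) (1 / 10)) (i (1 / 10) 1)]
  have h1 : ∫ α in (0 : ℝ)..(1 / 20), chi α * g α = 0 := by
    have e : ∫ α in (0 : ℝ)..(1 / 20), chi α * g α = ∫ α in (0 : ℝ)..(1 / 20), (0 : ℝ) := by
      apply intervalIntegral.integral_congr
      intro α hα
      rw [Set.uIcc_of_le (by norm_num)] at hα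
      show chi α * g α = 0
      rw [chi_zero1 hα.2, zero_mul]
    rw [e, intervalIntegral.integral_zero]
  have h2 : ∫ α in (1 / 10 : ℝ)..1, chi α * g α = 0 := by
    have e : ∫ α in (1 / 10 : ℝ)..1, chi α * g α = ∫ α in (1 / 10 : ℝ)..1, (0 : ℝ) := by
      apply intervalIntegral.integral_congr
      intro α hα
      rw [Set.uIcc_of_le (by norm_num)] at hα
      show chi α * g α = 0
      rw [chi_zero2 hα.1, zero_mul]
    rw [e, intervalIntegral.integral_zero]
  rw [h1, h2, zero_add, add_zero]
  apply intervalIntegral.integral_congr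
  intro α hα
  rw [Set.uIcc_of_le (by norm_num)] at hα
  show chi α * g α = qq α * g α
  rw [chi_eq hα.1 hα.2]

/-- the primitive kernel -/
noncomputable def Hk (z : ℝ) : ℝ := ∫ α in (0 : ℝ)..1, chi α * Real.sin (α * z)

/-- its derivative -/
noncomputable def Hd (z : ℝ) : ℝ := ∫ α in (0 : ℝ)..1, chi α * (α * Real.cos (α * z))

/-- the weight -/
noncomputable def psi (α : ℝ) : ℝ := 2 * chi α * Real.sin (Real.pi * α)

lemma psi_cont : Continuous psi := by
  unfold psi
  exact (continuous_const.mul chi_cont).mul (by fun_prop)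

lemma psi_le (α : ℝ) : |psi α| ≤ 2 := by
  unfold psi
  rw [abs_mul, abs_mul, abs_of_nonneg (chi_nonneg α), abs_of_pos (two_pos)]
  have h1 := chi_le α
  have h2 := chi_nonneg α
  have h3 := Real.abs_sin_le_one (Real.pi * α)
  calc 2 * chi α * |Real.sin (Real.pi * α)| ≤ 2 * 1 * 1 := by gcongr
    _ = 2 := by norm_num

lemma psi_zero1 {α : ℝ} (h : α ≤ 1 / 20) : psi α = 0 := by unfold psi; rw [chi_zero1 h]; ring
lemma psi_zero2 {α : ℝ} (h : 1 / 10 ≤ α) : psi α = 0 := by unfold psi; rw [chi_zero2 h]; ring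

/-- the kernel is a difference -/
lemma Kc_diff (z : ℝ) : Kc psi z = Hk (z + Real.pi) - Hk (z - Real.pi) := by
  unfold Kc Hk
  have c1 : Continuous fun α : ℝ => chi α * Real.sin (α * (z + Real.pi)) :=
    chi_cont.mul (by fun_prop)
  have c2 : Continuous fun α : ℝ => chi α * Real.sin (α * (z - Real.pi)) :=
    chi_cont.mul (by fun_prop)
  rw [← intervalIntegral.integral_sub (c1.intervalIntegrable _ _) (c2.intervalIntegrable _ _)]
  refine intervalIntegral.integral_congr fun α _ => ?_
  unfold psi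
  have e1 : α * (z + Real.pi) = α * z + Real.pi * α := by ring
  have e2 : α * (z - Real.pi) = α * z - Real.pi * α := by ring
  show 2 * chi α * Real.sin (Real.pi * α) * Real.cos (α * z) =
    chi α * Real.sin (α * (z + Real.pi)) - chi α * Real.sin (α * (z - Real.pi))
  rw [e1, e2, Real.sin_add, Real.sin_sub]
  ring

lemma q_d1 : ∀ x, HasDerivAt qq (2 * ((x - 1 / 20) * (1 / 10 - x)) * (3 / 20 - 2 * x)) x := by
  intro x
  unfold qq
  have h1 : HasDerivAt (fun x : ℝ => (x - 1 / 20) * (1 / 10 - x)) (3 / 20 - 2 * x) x := by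
    have h2 := ((hasDerivAt_id x).sub_const (1 / 20)).mul ((hasDerivAt_id x).const_sub (1 / 10))
    refine h2.congr_deriv ?_
    simp only [id]
    ring
  have h3 := h1.pow 2
  refine h3.congr_deriv ?_
  push_cast
  ring

lemma q_d2 : ∀ x, HasDerivAt (fun x : ℝ => 2 * ((x - 1 / 20) * (1 / 10 - x)) * (3 / 20 - 2 * x))
    (2 * (3 / 20 - 2 * x) ^ 2 - 4 * ((x - 1 / 20) * (1 / 10 - x))) x := by
  intro x
  have h1 : HasDerivAt (fun x : ℝ => (x - 1 / 20) * (1 / 10 - x)) (3 / 20 - 2 * x) x := by
    have h2 := ((hasDerivAt_id x).sub_const (1 / 20)).mul ((hasDerivAt_id x).const_sub (1 / 10))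
    refine h2.congr_deriv ?_
    simp only [id]
    ring
  have h3 : HasDerivAt (fun x : ℝ => 3 / 20 - 2 * x) (-2) x := by
    have h4 := ((hasDerivAt_id x).const_mul 2).const_sub (3 / 20)
    refine h4.congr_deriv ?_
    ring
  have h5 := (h1.const_mul 2).mul h3
  refine h5.congr_deriv ?_
  ring

theorem Hk_decay : ∃ C : ℝ, 0 < C ∧ ∀ z, |Hk z| ≤ C / (1 + z ^ 2) := by
  obtain ⟨C, hC, h, -⟩ := decay q_d1 q_d2 (by fun_prop) (show (1 / 20 : ℝ) ≤ 1 / 10 by norm_num)
    (by unfold qq; norm_num) (by unfold qq; norm_num) (by norm_num) (by norm_num)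
  refine ⟨C, hC, fun z => ?_⟩
  have := h z
  unfold Hk
  rw [chi_int (g := fun α => Real.sin (α * z)) (by fun_prop)]
  exact this

theorem Hd_decay : ∃ C : ℝ, 0 < C ∧ ∀ z, |Hd z| ≤ C / (1 + z ^ 2) := by
  have d1 : ∀ x, HasDerivAt (fun x => qq x * x)
      (2 * ((x - 1 / 20) * (1 / 10 - x)) * (3 / 20 - 2 * x) * x + qq x) x := fun x => by
    have := (q_d1 x).mul (hasDerivAt_id x)
    refine this.congr_deriv ?_
    simp only [id]
    ring
  have d2 : ∀ x, HasDerivAt (fun x : ℝ => 2 * ((x - 1 / 20) * (1 / 10 - x)) * (3 / 20 - 2 * x) * x +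
      qq x) ((2 * (3 / 20 - 2 * x) ^ 2 - 4 * ((x - 1 / 20) * (1 / 10 - x))) * x +
        2 * (2 * ((x - 1 / 20) * (1 / 10 - x)) * (3 / 20 - 2 * x))) x := fun x => by
    have := ((q_d2 x).mul (hasDerivAt_id x)).add (q_d1 x)
    refine this.congr_deriv ?_
    simp only [id]
    ring
  obtain ⟨C, hC, -, h⟩ := decay d1 d2 (by fun_prop) (show (1 / 20 : ℝ) ≤ 1 / 10 by norm_num)
    (by unfold qq; norm_num) (by unfold qq; norm_num) (by unfold qq; norm_num)
    (by unfold qq; norm_num)
  refine ⟨C, hC, fun z => ?_⟩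
  have := h z
  unfold Hd
  rw [chi_int (g := fun α => α * Real.cos (α * z)) (by fun_prop)]
  have e : ∫ α in (1 / 20 : ℝ)..(1 / 10), qq α * (α * Real.cos (α * z)) =
      ∫ α in (1 / 20 : ℝ)..(1 / 10), qq α * α * Real.cos (α * z) := by
    refine intervalIntegral.integral_congr fun α _ => ?_
    ring
  rw [e]
  exact this

lemma Hd_cont : Continuous Hd := by
  unfold Hd
  apply intervalIntegral.continuous_parametric_intervalIntegral_of_continuous' _ 0 1
  show Continuous fun p : ℝ × ℝ => chi p.2 * (p.2 * Real.cos (p.2 * p.1))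
  exact (chi_cont.comp continuous_snd).mul (by fun_prop)

lemma Hk_cont : Continuous Hk := by
  unfold Hk
  apply intervalIntegral.continuous_parametric_intervalIntegral_of_continuous' _ 0 1
  show Continuous fun p : ℝ × ℝ => chi p.2 * Real.sin (p.2 * p.1)
  exact (chi_cont.comp continuous_snd).mul (by fun_prop)

/-- differences of the primitive kernel -/
lemma Hk_sub (w D : ℝ) : Hk (w + D) - Hk w = ∫ s in (0 : ℝ)..D, Hd (w + s) := by
  rcases le_total 0 D with hD | hD
  · have h1 := MS.swapI (a := 0) (b := 1) (c := 0) (d := D) zero_le_one hD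
      (F := fun α s => chi α * (α * Real.cos (α * (w + s)))) (by
        show Continuous fun p : ℝ × ℝ => chi p.1 * (p.1 * Real.cos (p.1 * (w + p.2)))
        exact (chi_cont.comp continuous_fst).mul (by fun_prop))
    have h2 : ∫ s in (0 : ℝ)..D, Hd (w + s) = ∫ α in (0 : ℝ)..1, ∫ s in (0 : ℝ)..D,
        chi α * (α * Real.cos (α * (w + s))) := by
      rw [h1]; rfl
    rw [h2]
    unfold Hk
    have c1 : Continuous fun α : ℝ => chi α * Real.sin (α * (w + D)) := chi_cont.mul (by fun_prop)
    have c2 : Continuous fun α : ℝ => chi α * Real.sin (α * w) := chi_cont.mul (by fun_prop)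
    rw [← intervalIntegral.integral_sub (c1.intervalIntegrable _ _) (c2.intervalIntegrable _ _)]
    refine intervalIntegral.integral_congr fun α _ => ?_
    rw [intervalIntegral.integral_const_mul]
    have h3 : ∫ s in (0 : ℝ)..D, α * Real.cos (α * (w + s)) =
        Real.sin (α * (w + D)) - Real.sin (α * (w + 0)) := by
      apply intervalIntegral.integral_eq_sub_of_hasDerivAt (f := fun s => Real.sin (α * (w + s)))
      · intro s _
        have h4 : HasDerivAt (fun s => α * (w + s)) α s := by
          have := ((hasDerivAt_id s).const_add w).const_mul α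
          refine this.congr_deriv ?_
          ring
        have h5 := h4.sin
        refine h5.congr_deriv ?_
        ring
      · exact (by fun_prop : Continuous fun s : ℝ => α * Real.cos (α * (w + s))).intervalIntegrable _ _
    rw [h3, add_zero]
    ring
  · -- reduce to the first case
    have h1 := MS.swapI (a := 0) (b := 1) (c := D) (d := 0) zero_le_one hD
      (F := fun α s => chi α * (α * Real.cos (α * (w + s)))) (by
        show Continuous fun p : ℝ × ℝ => chi p.1 * (p.1 * Real.cos (p.1 * (w + p.2)))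
        exact (chi_cont.comp continuous_fst).mul (by fun_prop))
    have h2 : ∫ s in D..(0 : ℝ), Hd (w + s) = ∫ α in (0 : ℝ)..1, ∫ s in D..(0 : ℝ),
        chi α * (α * Real.cos (α * (w + s))) := by
      rw [h1]; rfl
    rw [intervalIntegral.integral_symm, h2]
    unfold Hk
    have c1 : Continuous fun α : ℝ => chi α * Real.sin (α * (w + D)) := chi_cont.mul (by fun_prop)
    have c2 : Continuous fun α : ℝ => chi α * Real.sin (α * w) := chi_cont.mul (by fun_prop)
    rw [← intervalIntegral.integral_sub (c1.intervalIntegrable _ _) (c2.intervalIntegrable _ _),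
      ← intervalIntegral.integral_neg]
    refine intervalIntegral.integral_congr fun α _ => ?_
    rw [intervalIntegral.integral_const_mul]
    have h3 : ∫ s in D..(0 : ℝ), α * Real.cos (α * (w + s)) =
        Real.sin (α * (w + 0)) - Real.sin (α * (w + D)) := by
      apply intervalIntegral.integral_eq_sub_of_hasDerivAt (f := fun s => Real.sin (α * (w + s)))
      · intro s _
        have h4 : HasDerivAt (fun s => α * (w + s)) α s := by
          have := ((hasDerivAt_id s).const_add w).const_mul α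
          refine this.congr_deriv ?_
          ring
        have h5 := h4.sin
        refine h5.congr_deriv ?_
        ring
      · exact (by fun_prop : Continuous fun s : ℝ => α * Real.cos (α * (w + s))).intervalIntegrable _ _
    rw [h3, add_zero]
    ring

lemma Kc_cont : Continuous (Kc psi) := by
  have : Kc psi = fun z => Hk (z + Real.pi) - Hk (z - Real.pi) := funext Kc_diff
  rw [this]
  exact (Hk_cont.comp (by fun_prop)).sub (Hk_cont.comp (by fun_prop))

theorem Kc_decay : ∃ C : ℝ, 0 < C ∧ ∀ z, |Kc psi z| ≤ C / (1 + z ^ 2) := by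
  obtain ⟨C, hC, h⟩ := Hk_decay
  refine ⟨C * 50, by positivity, fun z => ?_⟩
  have hpi := Real.pi_lt_d2
  have hpi0 := Real.pi_pos
  have key : ∀ e : ℝ, e ^ 2 ≤ 3.15 ^ 2 → C / (1 + (z + e) ^ 2) ≤ C * 25 / (1 + z ^ 2) := by
    intro e he
    rw [div_le_div_iff₀ (by positivity) (by positivity)]
    have h1 : z ^ 2 ≤ 2 * (z + e) ^ 2 + 2 * e ^ 2 := by nlinarith [sq_nonneg (z + 2 * e)]
    have h2 : 1 + z ^ 2 ≤ 25 * (1 + (z + e) ^ 2) := by
      norm_num at he
      nlinarith [sq_nonneg (z + e)]
    calc C * (1 + z ^ 2) ≤ C * (25 * (1 + (z + e) ^ 2)) := by gcongr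
      _ = _ := by ring
  have k1 := key Real.pi (by nlinarith)
  have k2 := key (-Real.pi) (by nlinarith)
  rw [← sub_eq_add_neg] at k2
  rw [Kc_diff]
  have h1 := h (z + Real.pi)
  have h2 := h (z - Real.pi)
  have h3 := abs_sub (Hk (z + Real.pi)) (Hk (z - Real.pi))
  have e : C * 50 / (1 + z ^ 2) = C * 25 / (1 + z ^ 2) + C * 25 / (1 + z ^ 2) := by ring
  rw [e]
  linarith

end Pool.Agent.TH800.DM
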