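import Pool.Agent.TH800.DM.Ky

/-! The pointwise bound and its average. -/

open Complex Filter Topology Set MeasureTheory

namespace Pool.Agent.TH800.DM

open TC (om om_pos om_le_one om_cont)
open SG (ord NZ)
open MS (PX aa gau0 mem_PX)

/-- the telescoping error -/
noncomputable def Gf (L : ℝ) (n m : ℕ) (t : ℝ) : ℝ :=
  ∑ i ∈ Finset.range m, |Hk (L * (ord (n + i) - t) + Real.pi +
    (L * (ord (n + i + 1) - ord (n + i)) - 2 * Real.pi)) - Hk (L * (ord (n + i) - t) + Real.pi)|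

lemma Gf_t (L : ℝ) (n i : ℕ) : Continuous fun t => |Hk (L * (ord (n + i) - t) + Real.pi +
    (L * (ord (n + i + 1) - ord (n + i)) - 2 * Real.pi)) - Hk (L * (ord (n + i) - t) + Real.pi)| :=
  ((Hk_cont.comp (by fun_prop)).sub (Hk_cont.comp (by fun_prop))).abs

lemma Gf_cont (L : ℝ) (n m : ℕ) : Continuous (Gf L n m) :=
  continuous_finsetSum _ fun i _ => Gf_t L n i

theorem Gf_int : ∃ C : ℝ, 0 < C ∧ ∀ (L : ℝ) (n m : ℕ) (a b : ℝ), 0 < L → a ≤ b →
    ∫ t in a..b, Gf L n m t ≤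
      C / L * ∑ i ∈ Finset.range m, |L * (ord (n + i + 1) - ord (n + i)) - 2 * Real.pi| := by
  obtain ⟨C, hC, h⟩ := tel_int
  refine ⟨C, hC, fun L n m a b hL hab => ?_⟩
  unfold Gf
  rw [intervalIntegral.integral_finsetSum fun i _ => (Gf_t L n i).intervalIntegrable _ _,
    Finset.mul_sum]
  refine Finset.sum_le_sum fun i _ => ?_
  have := h L (ord (n + i)) (L * (ord (n + i + 1) - ord (n + i)) - 2 * Real.pi) a b hL hab
  refine this.trans (le_of_eq ?_)
  ring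

attribute [local irreducible] Bd Wa Rr Tk Zs Fs Hk Hd Mm ac psi chi Gf

theorem ptw (RH : RiemannHypothesis) : ∃ C8 C4 T0 : ℝ, 0 < C8 ∧ 0 < C4 ∧ 10 ≤ T0 ∧
    ∀ T : ℝ, T0 ≤ T → 1 ≤ Real.log T → ∀ (t r κ : ℝ) (n m : ℕ), 0 < r → 0 < κ →
    2 * Real.pi ≤ Real.log T * r → 1 ≤ n →
    T < ord n → ord (n + m) ≤ 2 * T → T + Real.log T ≤ t → t ≤ 2 * T - Real.log T →
    ord n + r ≤ t → t ≤ ord (n + m) - r →
    |(Fs (PX (Nn (Real.log T))) (ac T psi) t).re| ≤
      C4 * Tk T r t + 1 / (4 * κ) * Rr T psi (Nn (Real.log T)) t ^ 2 + Gf (Real.log T) n m t +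
        (κ + (C8 / Real.log T + (C4 * (m / Real.log T ^ 2) + C4 * (1 / (Real.log T * r) ^ 2)))) := by
  obtain ⟨C1, T1, hC1, hT1, h1⟩ := ex1 (MS.rhs_of RH)
  obtain ⟨C2, hC2, h2⟩ := ex2 (1 / 10) (by norm_num)
  obtain ⟨C4, hC4, h4⟩ := pt
  refine ⟨1600 + C1 * 2 + C2 * 2, C4, T1, by positivity, hC4, hT1,
    fun T hT hL1 t r κ n m hr hκ hLr hn hn1 hn2 ht1 ht2 ht3 ht4 => ?_⟩
  have hT10 : 10 ≤ T := hT1.trans hT
  have hL : 0 < Real.log T := by linarith
  have e1 := h1 T hT psi 2 psi_cont psi_le t ht1 ht2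
  have e2 := h2 T hT10 psi 2 psi_le (fun α hα => psi_zero2 hα) t
  have e3 := Mm_small (T := T) hL1
  have e4 := h4 RH T t r hT10 hr hLr n m hn hn1 hn2 ht3 ht4
  change |(SP.ps T t (Ww T psi)).re - (Fs (PX (Nn (Real.log T))) (ac T psi) t).re| ≤
    Rr T psi (Nn (Real.log T)) t + C2 * (2 / Real.log T) at e2
  change |Zs T t psi| ≤ C4 * Tk T r t + C4 * (m / Real.log T ^ 2) + C4 * (1 / (Real.log T * r) ^ 2) +
    ∑ i ∈ Finset.range m, |Hk (Real.log T * (ord (n + i) - t) + Real.pi +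
        (Real.log T * (ord (n + i + 1) - ord (n + i)) - 2 * Real.pi)) -
        Hk (Real.log T * (ord (n + i) - t) + Real.pi)| at e4
  have e4' : |Zs T t psi| ≤ C4 * Tk T r t + C4 * (m / Real.log T ^ 2) +
      C4 * (1 / (Real.log T * r) ^ 2) + Gf (Real.log T) n m t := by
    unfold Gf
    exact e4
  have e5 : |(Fs (PX (Nn (Real.log T))) (ac T psi) t).re| ≤
      |Zs T t psi| + Rr T psi (Nn (Real.log T)) t + (1600 + C1 * 2 + C2 * 2) / Real.log T := by
    have e6 : (1600 + C1 * 2 + C2 * 2) / Real.log T =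
      1600 / Real.log T + C1 * (2 / Real.log T) + C2 * (2 / Real.log T) := by ring
    rw [e6]
    rw [abs_le] at e1 e2 e3
    have := abs_le.1 (le_refl |Zs T t psi|)
    rw [abs_le]
    constructor <;> linarith [e1.1, e1.2, e2.1, e2.2, e3.1, e3.2, this.1, this.2]
  have e7 : Rr T psi (Nn (Real.log T)) t ≤
      κ + 1 / (4 * κ) * Rr T psi (Nn (Real.log T)) t ^ 2 := by
    have : 0 ≤ 1 / (4 * κ) * (Rr T psi (Nn (Real.log T)) t - 2 * κ) ^ 2 := by positivity
    have e8 : 1 / (4 * κ) * (Rr T psi (Nn (Real.log T)) t - 2 * κ) ^ 2 =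
        1 / (4 * κ) * Rr T psi (Nn (Real.log T)) t ^ 2 - Rr T psi (Nn (Real.log T)) t + κ := by
      field_simp; ring
    linarith
  linarith

/-- the averaged bound -/
lemma avg {T L r κ u h δ C4 κ2 X : ℝ} {n m : ℕ} (hr : 0 < r) (hδ : 0 < δ)
    (hp : ∀ t ∈ Set.Icc (u - δ) (u + δ), |(Fs (PX (Nn L)) (ac T psi) t).re| ≤
      C4 * Tk T r t + 1 / (4 * κ) * Rr T psi (Nn L) t ^ 2 + Gf L n m t + κ2)
    (hX : ∫ t in (u - δ)..(u + δ), Gf L n m t ≤ X) :
    ∫ t in (u - δ)..(u + δ), om u h t * |(Fs (PX (Nn L)) (ac T psi) t).re| ≤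
      C4 * Wa (fun t => Tk T r t) δ u + 1 / (4 * κ) * Wa (fun t => Rr T psi (Nn L) t ^ 2) δ u +
        X + 2 * δ * κ2 := by
  have hcR : Continuous fun t => Rr T psi (Nn L) t ^ 2 := (Rr_cont _ _ _).pow 2
  have hcT : Continuous fun t => Tk T r t := Tk_cont hr
  have hGc := Gf_cont L n m
  have hcF : Continuous fun t => om u h t * |(Fs (PX (Nn L)) (ac T psi) t).re| :=
    (om_cont u h).mul (Complex.continuous_re.comp (Fs_cont _ _)).abs
  have cT : Continuous fun t => C4 * Tk T r t := continuous_const.mul hcT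
  have cR : Continuous fun t => 1 / (4 * κ) * Rr T psi (Nn L) t ^ 2 := continuous_const.mul hcR
  have i1 : IntervalIntegrable (fun t => C4 * Tk T r t + 1 / (4 * κ) * Rr T psi (Nn L) t ^ 2)
      volume (u - δ) (u + δ) := (cT.add cR).intervalIntegrable _ _
  have i2 : IntervalIntegrable (fun t => C4 * Tk T r t + 1 / (4 * κ) * Rr T psi (Nn L) t ^ 2 +
      Gf L n m t) volume (u - δ) (u + δ) := ((cT.add cR).add hGc).intervalIntegrable _ _
  have iAll : IntervalIntegrable (fun t => C4 * Tk T r t + 1 / (4 * κ) * Rr T psi (Nn L) t ^ 2 +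
      Gf L n m t + κ2) volume (u - δ) (u + δ) :=
    (((cT.add cR).add hGc).add continuous_const).intervalIntegrable _ _
  have hint := intervalIntegral.integral_mono_on (by linarith : u - δ ≤ u + δ)
    (hcF.intervalIntegrable _ _) iAll (fun t ht =>
      (mul_le_of_le_one_left (abs_nonneg _) (om_le_one _ _ _)).trans (hp t ht))
  refine hint.trans ?_
  rw [intervalIntegral.integral_add i2 (continuous_const.intervalIntegrable _ _),
    intervalIntegral.integral_add i1 (hGc.intervalIntegrable _ _),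
    intervalIntegral.integral_add (cT.intervalIntegrable _ _) (cR.intervalIntegrable _ _),
    intervalIntegral.integral_const_mul, intervalIntegral.integral_const_mul,
    intervalIntegral.integral_const, smul_eq_mul, Wa_eq, Wa_eq]
  have e : (u + δ - (u - δ)) * κ2 = 2 * δ * κ2 := by ring
  rw [e]
  linarith

/-- the key step: runs of almost equal gaps force the exclusion function to be large -/
theorem key (RH : RiemannHypothesis) : ∃ c ρ ε0 A1 A2 T0 m0 : ℝ, 0 < c ∧ c ≤ 1 / 10 ∧ 1 ≤ ρ ∧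
    0 < ε0 ∧ 0 < A1 ∧ 0 < A2 ∧ 10 ≤ T0 ∧ 7 ≤ m0 ∧ ∀ T : ℝ, T0 ≤ T → ∀ m : ℕ, m0 ≤ m →
    (m : ℝ) ≤ Real.log T → ∀ n : ℕ, 1 ≤ n → T + 6 * Real.log T ≤ ord n →
    ord (n + m) ≤ 2 * T - 6 * Real.log T →
    ∑ i ∈ Finset.range m, |Real.log T * (ord (n + i + 1) - ord (n + i)) - 2 * Real.pi| ≤ c * m →
    ∀ u : ℝ, ord n + 3 / 2 * (m / Real.log T) ≤ u → u ≤ ord (n + m) - 3 / 2 * (m / Real.log T) →
    1 ≤ Fx ε0 A1 A2 ρ T m u := by
  obtain ⟨s0, s1, L0, hs0, h01, hL0, hcoef⟩ := coef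
  obtain ⟨c0, ε0, ρ, hc0, hε0, hρ1, hlb⟩ := lb s0 s1 hs0 h01
  obtain ⟨C8, C4, T1, hC8, hC4, hT1, hptw⟩ := ptw RH
  obtain ⟨C6, hC6, h6⟩ := Gf_int
  obtain ⟨T8, hT8⟩ : ∃ T8 : ℝ, ∀ T : ℝ, T8 ≤ T →
      max L0 (max 10 (32 * ρ * (C8 + C4) / c0)) ≤ Real.log T :=
    (Real.tendsto_log_atTop.eventually_ge_atTop _).exists_forall_of_atTop
  have hρ0 : 0 < ρ := by linarith
  refine ⟨min (1 / 10) (c0 / (32 * ρ * C6)), ρ, ε0, 8 * ρ / c0 ^ 2, 2 * C4 / c0, max T1 T8,
    max 7 (32 * ρ * C4 / c0), lt_min (by norm_num) (by positivity), min_le_left _ _, hρ1, hε0,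
    by positivity, by positivity, hT1.trans (le_max_left _ _), le_max_left _ _,
    fun T hT m hm hmL n hn hn1 hn2 hsum u hu1 hu2 => ?_⟩
  have hTT1 : T1 ≤ T := (le_max_left _ _).trans hT
  have hL8 := hT8 T ((le_max_right _ _).trans hT)
  have hT10 : 10 ≤ T := hT1.trans hTT1
  have hLs : L0 ≤ Real.log T := (le_max_left _ _).trans hL8
  have hL10 : 10 ≤ Real.log T := ((le_max_left _ _).trans (le_max_right _ _)).trans hL8
  have hLc : 32 * ρ * (C8 + C4) / c0 ≤ Real.log T :=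
    ((le_max_right _ _).trans (le_max_right _ _)).trans hL8
  have hm7 : (7 : ℝ) ≤ m := (le_max_left _ _).trans hm
  have hmc : 32 * ρ * C4 / c0 ≤ m := (le_max_right _ _).trans hm
  have hc2 : min (1 / 10) (c0 / (32 * ρ * C6)) ≤ c0 / (32 * ρ * C6) := min_le_right _ _
  obtain ⟨hSlow, hSup⟩ := hcoef T (by linarith) hLs
  generalize min (1 / 10) (c0 / (32 * ρ * C6)) = c at hsum hc2
  have hm0 : (0 : ℝ) < m := by linarith
  have hL : 0 < Real.log T := by linarith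
  have hh0 : 0 < (m : ℝ) / (2 * ρ * Real.log T) := by positivity
  by_contra hcon
  push Not at hcon
  have hδ0 : 0 < ρ * ((m : ℝ) / (2 * ρ * Real.log T)) := by positivity
  have w1 := Wa_nonneg (g := fun t => Rr T psi (Nn (Real.log T)) t ^ 2) (fun t => sq_nonneg _)
    hδ0.le u
  have w2 := Wa_nonneg (g := fun t => Tk T (m / Real.log T) t) (fun t => Tk_nonneg _ _ _) hδ0.le u
  unfold Fx at hcon
  have w3 := Bd_nonneg (Nn (Real.log T)) (ac T psi) (m / (2 * ρ * Real.log T)) u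
  have hBdu : Bd (Nn (Real.log T)) (ac T psi) (m / (2 * ρ * Real.log T)) u ≤ ε0 := by
    have : 1 / ε0 * Bd (Nn (Real.log T)) (ac T psi) (m / (2 * ρ * Real.log T)) u ≤ 1 := by
      have g1 : 0 ≤ 8 * ρ / c0 ^ 2 / (m / (2 * ρ * Real.log T)) *
          Wa (fun t => Rr T psi (Nn (Real.log T)) t ^ 2) (ρ * (m / (2 * ρ * Real.log T))) u := by
        positivity
      have g2 : 0 ≤ 2 * C4 / c0 / (m / (2 * ρ * Real.log T)) *
          Wa (fun t => Tk T (m / Real.log T) t) (ρ * (m / (2 * ρ * Real.log T))) u := by positivity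
      linarith
    rw [one_div_mul_eq_div, div_le_one hε0] at this
    exact this
  have hl := hlb _ _ _ u hh0 hSlow hSup hBdu
  have hδr : ρ * ((m : ℝ) / (2 * ρ * Real.log T)) = (m / Real.log T) / 2 := by field_simp
  have hr0 : 0 < (m : ℝ) / Real.log T := by positivity
  have hLr : Real.log T * ((m : ℝ) / Real.log T) = m := by field_simp
  have hr1 : (m : ℝ) / Real.log T ≤ 1 := by rw [div_le_one hL]; exact hmL
  have hp : ∀ t ∈ Set.Icc (u - ρ * ((m : ℝ) / (2 * ρ * Real.log T)))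
      (u + ρ * ((m : ℝ) / (2 * ρ * Real.log T))),
      |(Fs (PX (Nn (Real.log T))) (ac T psi) t).re| ≤
      C4 * Tk T (m / Real.log T) t + 1 / (4 * (c0 / (16 * ρ))) *
        Rr T psi (Nn (Real.log T)) t ^ 2 + Gf (Real.log T) n m t +
        (c0 / (16 * ρ) + (C8 / Real.log T + (C4 * (m / Real.log T ^ 2) + C4 * (1 / (m : ℝ) ^ 2)))) := by
    intro t ht
    have b1 := ht.1
    have b2 := ht.2
    rw [hδr] at b1 b2
    have := hptw T hTT1 (by linarith) t (m / Real.log T) (c0 / (16 * ρ)) n m hr0 (by positivity)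
      (by rw [hLr]; linarith [Real.pi_lt_d2]) hn (by linarith) (by linarith) (by linarith)
      (by linarith) (by linarith) (by linarith)
    rw [hLr] at this
    exact this
  have hG : ∫ t in (u - ρ * ((m : ℝ) / (2 * ρ * Real.log T)))..
      (u + ρ * ((m : ℝ) / (2 * ρ * Real.log T))), Gf (Real.log T) n m t ≤
      C6 / Real.log T * (c * m) := by
    refine (h6 (Real.log T) n m _ _ hL (by linarith)).trans ?_
    exact mul_le_mul_of_nonneg_left hsum (by positivity)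
  have hav := avg (h := m / (2 * ρ * Real.log T)) hr0 hδ0 hp hG
  have H := hl.trans hav
  have hnum := num1 (W1 := Wa (fun t => Tk T (m / Real.log T) t)
      (ρ * (m / (2 * ρ * Real.log T))) u)
    (W2 := Wa (fun t => Rr T psi (Nn (Real.log T)) t ^ 2) (ρ * (m / (2 * ρ * Real.log T))) u)
    (GI := C6 / Real.log T * (c * m)) hc0 hρ1 hC8 hC4 hC6 hL hm7 hmL hLc hmc hc2 rfl rfl le_rfl H
  have e1 : 8 * ρ / c0 ^ 2 / (m / (2 * ρ * Real.log T)) *
      Wa (fun t => Rr T psi (Nn (Real.log T)) t ^ 2) (ρ * (m / (2 * ρ * Real.log T))) u +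
      2 * C4 / c0 / (m / (2 * ρ * Real.log T)) *
      Wa (fun t => Tk T (m / Real.log T) t) (ρ * (m / (2 * ρ * Real.log T))) u =
      2 / (c0 * (m / (2 * ρ * Real.log T))) * (C4 * Wa (fun t => Tk T (m / Real.log T) t)
        (ρ * (m / (2 * ρ * Real.log T))) u + 1 / (4 * (c0 / (16 * ρ))) *
        Wa (fun t => Rr T psi (Nn (Real.log T)) t ^ 2) (ρ * (m / (2 * ρ * Real.log T))) u) := by
    generalize Wa (fun t => Rr T psi (Nn (Real.log T)) t ^ 2) (ρ * (m / (2 * ρ * Real.log T))) u = X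
    generalize Wa (fun t => Tk T (m / Real.log T) t) (ρ * (m / (2 * ρ * Real.log T))) u = Y
    field_simp
    ring
  have e2 : (1 : ℝ) = 2 / (c0 * (m / (2 * ρ * Real.log T))) *
      (c0 * (m / (2 * ρ * Real.log T)) / 2) := by field_simp
  have e3 := mul_le_mul_of_nonneg_left hnum
    (show 0 ≤ 2 / (c0 * (m / (2 * ρ * Real.log T))) by positivity)
  have e4 : 0 ≤ 1 / ε0 * Bd (Nn (Real.log T)) (ac T psi) (m / (2 * ρ * Real.log T)) u := by
    positivity
  linarith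

end Pool.Agent.TH800.DM
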