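import Pool.Agent.TH800.DM.Wn

/-! The exclusion function. -/

open Complex Filter Topology Set MeasureTheory

namespace Pool.Agent.TH800.DM

open TC (om om_pos om_le_one om_cont)
open SG (ord NZ)
open MS (PX aa gau0 mem_PX)

lemma num1 {c0 ρ C8 C4 C6 c L m h δ W1 W2 GI : ℝ} (hc0 : 0 < c0) (hρ : 1 ≤ ρ) (hC8 : 0 < C8)
    (hC4 : 0 < C4) (hC6 : 0 < C6) (hL : 0 < L) (hm : 7 ≤ m) (hmL : m ≤ L)
    (hLc : 32 * ρ * (C8 + C4) / c0 ≤ L) (hmc : 32 * ρ * C4 / c0 ≤ m)
    (hc : c ≤ c0 / (32 * ρ * C6)) (hh : h = m / (2 * ρ * L)) (hδ : δ = ρ * h)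
    (hG : GI ≤ C6 / L * (c * m))
    (H : c0 * h ≤ C4 * W1 + 1 / (4 * (c0 / (16 * ρ))) * W2 + GI +
      2 * δ * (c0 / (16 * ρ) + (C8 / L + (C4 * (m / L ^ 2) + C4 * (1 / m ^ 2))))) :
    c0 * h / 2 ≤ C4 * W1 + 1 / (4 * (c0 / (16 * ρ))) * W2 := by
  have hρ0 : 0 < ρ := by linarith
  have hm0 : 0 < m := by linarith
  have hh0 : 0 < h := by rw [hh]; positivity
  have hδ0 : 0 < δ := by rw [hδ]; positivity
  have n1' : C6 / L * (c * m) ≤ c0 * h / 8 := by
    calc C6 / L * (c * m) ≤ C6 / L * (c0 / (32 * ρ * C6) * m) := by gcongr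
      _ = c0 * h / 16 := by rw [hh]; field_simp; norm_num
      _ ≤ c0 * h / 8 := by
          have : 0 < c0 * h := by positivity
          linarith
  have n2 : 2 * δ * (c0 / (16 * ρ)) ≤ c0 * h / 8 := by
    rw [hδ]
    apply le_of_eq
    field_simp
    norm_num
  have n3 : 2 * δ * (C8 / L + C4 * (m / L ^ 2)) ≤ c0 * h / 16 := by
    have e1 : m / L ^ 2 ≤ 1 / L := by
      rw [div_le_div_iff₀ (by positivity) hL]
      nlinarith
    have e2 : C8 / L + C4 * (m / L ^ 2) ≤ (C8 + C4) / L := by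
      have : C4 * (m / L ^ 2) ≤ C4 * (1 / L) := by gcongr
      have e3 : (C8 + C4) / L = C8 / L + C4 * (1 / L) := by ring
      rw [e3]
      linarith
    have e4 : (C8 + C4) / L ≤ c0 / (32 * ρ) := by
      rw [div_le_div_iff₀ hL (by positivity)]
      rw [div_le_iff₀ hc0] at hLc
      linarith
    calc 2 * δ * (C8 / L + C4 * (m / L ^ 2)) ≤ 2 * δ * (c0 / (32 * ρ)) := by
          have := e2.trans e4
          gcongr
      _ = _ := by rw [hδ]; field_simp; norm_num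
  have n4 : 2 * δ * (C4 * (1 / m ^ 2)) ≤ c0 * h / 16 := by
    have e1 : C4 * (1 / m ^ 2) ≤ c0 / (32 * ρ) := by
      rw [mul_one_div, div_le_div_iff₀ (by positivity) (by positivity)]
      rw [div_le_iff₀ hc0] at hmc
      have g1 : m * c0 * 1 ≤ m * c0 * m := mul_le_mul_of_nonneg_left (by linarith) (by positivity)
      calc C4 * (32 * ρ) = 32 * ρ * C4 := by ring
        _ ≤ m * c0 := hmc
        _ ≤ m * c0 * m := by linarith
        _ = c0 * m ^ 2 := by ring
    calc 2 * δ * (C4 * (1 / m ^ 2)) ≤ 2 * δ * (c0 / (32 * ρ)) := by gcongr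
      _ = _ := by rw [hδ]; field_simp; norm_num
  have hkap : 2 * δ * (c0 / (16 * ρ) + (C8 / L + (C4 * (m / L ^ 2) + C4 * (1 / m ^ 2)))) =
      2 * δ * (c0 / (16 * ρ)) + 2 * δ * (C8 / L + C4 * (m / L ^ 2)) +
      2 * δ * (C4 * (1 / m ^ 2)) := by ring
  rw [hkap] at H
  have hch : 0 < c0 * h := by positivity
  linarith

/-- the exclusion function -/
noncomputable def Fx (ε0 A1 A2 ρ T y u : ℝ) : ℝ :=
  1 / ε0 * Bd (Nn (Real.log T)) (ac T psi) (y / (2 * ρ * Real.log T)) u +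
  A1 / (y / (2 * ρ * Real.log T)) *
    Wa (fun t => Rr T psi (Nn (Real.log T)) t ^ 2) (ρ * (y / (2 * ρ * Real.log T))) u +
  A2 / (y / (2 * ρ * Real.log T)) *
    Wa (fun t => Tk T (y / Real.log T) t) (ρ * (y / (2 * ρ * Real.log T))) u

lemma Fx_cont {ε0 A1 A2 ρ T y : ℝ} (hL : 0 < Real.log T) (hy : 0 < y) :
    Continuous (Fx ε0 A1 A2 ρ T y) := by
  have hcR : Continuous fun t => Rr T psi (Nn (Real.log T)) t ^ 2 := (Rr_cont _ _ _).pow 2
  have hcT : Continuous fun t => Tk T (y / Real.log T) t := Tk_cont (by positivity)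
  unfold Fx
  exact ((continuous_const.mul (Bd_cont _ _ _)).add
    (continuous_const.mul (Wa_cont hcR _))).add (continuous_const.mul (Wa_cont hcT _))

lemma Fx_nonneg {ε0 A1 A2 ρ T y : ℝ} (hε : 0 < ε0) (hA1 : 0 < A1) (hA2 : 0 < A2) (hρ : 0 < ρ)
    (hL : 0 < Real.log T) (hy : 0 < y) (u : ℝ) : 0 ≤ Fx ε0 A1 A2 ρ T y u := by
  unfold Fx
  have hδ : 0 ≤ ρ * (y / (2 * ρ * Real.log T)) := by positivity
  have g1 := Bd_nonneg (Nn (Real.log T)) (ac T psi) (y / (2 * ρ * Real.log T)) u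
  have g2 := Wa_nonneg (g := fun t => Rr T psi (Nn (Real.log T)) t ^ 2) (fun t => sq_nonneg _) hδ u
  have g3 := Wa_nonneg (g := fun t => Tk T (y / Real.log T) t) (fun t => Tk_nonneg _ _ _) hδ u
  positivity

theorem Fx_int (ρ : ℝ) (hρ : 1 ≤ ρ) (ε0 A1 A2 : ℝ) (hε : 0 < ε0) (hA1 : 0 < A1) (hA2 : 0 < A2) :
    ∃ K T0 : ℝ, 0 < K ∧ 10 ≤ T0 ∧ ∀ T : ℝ, T0 ≤ T → ∀ y : ℝ, 1 ≤ y → y ≤ Real.log T →
    T + 6 * Real.log T ≤ 2 * T - 6 * Real.log T →
    ∫ u in (T + 6 * Real.log T)..(2 * T - 6 * Real.log T), Fx ε0 A1 A2 ρ T y u ≤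
      K * (T * (1 / y + 1 / Real.log T)) := by
  obtain ⟨CB, TB, hCB, hTB, hB⟩ := bd_int
  obtain ⟨C3, T3, hC3, hT3, h3⟩ := ex3 (1 / 10) (by norm_num) (by norm_num)
  obtain ⟨C5, T5, hC5, hT5, h5⟩ := Tk_int
  have hρ0 : 0 < ρ := by linarith
  refine ⟨1 / ε0 * (CB * (2 * ρ)) + A1 * (2 * ρ) * (C3 * 4) + A2 * (2 * ρ) * C5,
    max TB (max T3 T5), by positivity, hTB.trans (le_max_left _ _),
    fun T hT y hy1 hyL hV => ?_⟩
  have hTTB : TB ≤ T := (le_max_left _ _).trans hT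
  have hTT3 : T3 ≤ T := ((le_max_left _ _).trans (le_max_right _ _)).trans hT
  have hTT5 : T5 ≤ T := ((le_max_right _ _).trans (le_max_right _ _)).trans hT
  have hT10 : 10 ≤ T := hTB.trans hTTB
  have hTpos : 0 < T := by linarith
  have hL0 : 0 < Real.log T := Real.log_pos (by linarith)
  have hy0 : 0 < y := by linarith
  have hR := h3 T hTT3 psi 2 psi_le
  have hTk := h5 T hTT5 (y / Real.log T) (by positivity)
  set h := y / (2 * ρ * Real.log T) with hh
  have hh0 : 0 < h := by positivity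
  have hh1 : h ≤ 1 := by
    rw [hh, div_le_one (by positivity)]
    nlinarith
  have hBd := hB T hTTB h hh0 hh1
  set L := Real.log T with hL
  set δ := ρ * h with hδ
  have hδy : δ = y / (2 * L) := by rw [hδ, hh]; field_simp
  have hδ0 : 0 < δ := by positivity
  have hδ1 : δ ≤ 6 * L := by
    have h7 : δ ≤ 1 := by
      rw [hδy, div_le_one (by positivity)]
      linarith
    have h8 : 1 ≤ L := by linarith
    linarith
  have hcR : Continuous fun t => Rr T psi (Nn L) t ^ 2 := (Rr_cont _ _ _).pow 2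
  have hcT : Continuous fun t => Tk T (y / L) t := Tk_cont (by positivity)
  have cc1 : Continuous fun u => 1 / ε0 * Bd (Nn L) (ac T psi) h u :=
    continuous_const.mul (Bd_cont _ _ _)
  have cc2 : Continuous fun u => A1 / h * Wa (fun t => Rr T psi (Nn L) t ^ 2) δ u :=
    continuous_const.mul (Wa_cont hcR _)
  have cc3 : Continuous fun u => A2 / h * Wa (fun t => Tk T (y / L) t) δ u :=
    continuous_const.mul (Wa_cont hcT _)
  have j1 : ∫ u in (T + 6 * L)..(2 * T - 6 * L), Bd (Nn L) (ac T psi) h u ≤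
      ∫ u in T..(2 * T), Bd (Nn L) (ac T psi) h u :=
    intervalIntegral.integral_mono_interval (by linarith) hV (by linarith)
      (Filter.Eventually.of_forall fun u => Bd_nonneg _ _ _ _)
      ((Bd_cont _ _ _).intervalIntegrable _ _)
  have j2 := Wa_int (δ := δ) (a := T + 6 * L) (b := 2 * T - 6 * L) (A := T) (B := 2 * T) hcR
    (fun t => sq_nonneg _) hδ0.le hV (by linarith) (by linarith)
  have j3 := Wa_int (δ := δ) (a := T + 6 * L) (b := 2 * T - 6 * L) (A := T) (B := 2 * T) hcT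
    (fun t => Tk_nonneg _ _ _) hδ0.le hV (by linarith) (by linarith)
  have i12 : IntervalIntegrable (fun u => 1 / ε0 * Bd (Nn L) (ac T psi) h u +
    A1 / h * Wa (fun t => Rr T psi (Nn L) t ^ 2) δ u) volume (T + 6 * L) (2 * T - 6 * L) :=
    (cc1.add cc2).intervalIntegrable _ _
  have hFx : ∫ u in (T + 6 * L)..(2 * T - 6 * L), Fx ε0 A1 A2 ρ T y u =
      1 / ε0 * (∫ u in (T + 6 * L)..(2 * T - 6 * L), Bd (Nn L) (ac T psi) h u) +
      A1 / h * (∫ u in (T + 6 * L)..(2 * T - 6 * L), Wa (fun t => Rr T psi (Nn L) t ^ 2) δ u) +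
      A2 / h * ∫ u in (T + 6 * L)..(2 * T - 6 * L), Wa (fun t => Tk T (y / L) t) δ u := by
    rw [← intervalIntegral.integral_const_mul, ← intervalIntegral.integral_const_mul,
      ← intervalIntegral.integral_const_mul,
      ← intervalIntegral.integral_add (cc1.intervalIntegrable _ _) (cc2.intervalIntegrable _ _),
      ← intervalIntegral.integral_add i12 (cc3.intervalIntegrable _ _)]
    rfl
  rw [hFx]
  have q0 : T * (1 / L) ≤ T * (1 / y + 1 / L) := by
    apply mul_le_mul_of_nonneg_left _ hTpos.le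
    have : (0 : ℝ) ≤ 1 / y := by positivity
    linarith
  have q1 : T * (1 / y) ≤ T * (1 / y + 1 / L) := by
    apply mul_le_mul_of_nonneg_left _ hTpos.le
    have : (0 : ℝ) ≤ 1 / L := by positivity
    linarith
  have k1 : 1 / ε0 * ∫ u in (T + 6 * L)..(2 * T - 6 * L), Bd (Nn L) (ac T psi) h u ≤
      1 / ε0 * (CB * (2 * ρ)) * (T * (1 / y + 1 / L)) := by
    rw [mul_assoc]
    apply mul_le_mul_of_nonneg_left _ (by positivity)
    refine (j1.trans hBd).trans ?_
    have e : 1 / (L * h) = 2 * ρ * (1 / y) := by rw [hh]; field_simp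
    rw [e]
    have e2 : 2 * ρ * (1 / y) + 1 / L ≤ 2 * ρ * (1 / y + 1 / L) := by
      have g1 : (0 : ℝ) < 1 / L := by positivity
      have g2 : 1 * (1 / L) ≤ 2 * ρ * (1 / L) := mul_le_mul_of_nonneg_right (by linarith) g1.le
      rw [mul_add]
      linarith
    have e3 : T * (2 * ρ * (1 / y) + 1 / L) ≤ T * (2 * ρ * (1 / y + 1 / L)) :=
      mul_le_mul_of_nonneg_left e2 hTpos.le
    have e4 := mul_le_mul_of_nonneg_left e3 hCB.le
    have e5 : CB * (T * (2 * ρ * (1 / y + 1 / L))) = CB * (2 * ρ) * (T * (1 / y + 1 / L)) := by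
      ring
    rw [← e5]
    refine le_trans (le_of_eq ?_) e4
    ring
  have k2 : A1 / h * ∫ u in (T + 6 * L)..(2 * T - 6 * L), Wa (fun t => Rr T psi (Nn L) t ^ 2) δ u ≤
      A1 * (2 * ρ) * (C3 * 4) * (T * (1 / y + 1 / L)) := by
    calc _ ≤ A1 / h * (2 * δ * (C3 * (T * (2 ^ 2 / L)))) := by
          have : 2 * δ * ∫ t in T..(2 * T), Rr T psi (Nn L) t ^ 2 ≤
              2 * δ * (C3 * (T * (2 ^ 2 / L))) :=
            mul_le_mul_of_nonneg_left hR (by positivity)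
          have := j2.trans this
          gcongr
      _ = A1 * (2 * ρ) * (C3 * 4) * (T * (1 / L)) := by
          rw [hδ]; field_simp; norm_num
      _ ≤ _ := by gcongr
  have k3 : A2 / h * ∫ u in (T + 6 * L)..(2 * T - 6 * L), Wa (fun t => Tk T (y / L) t) δ u ≤
      A2 * (2 * ρ) * C5 * (T * (1 / y + 1 / L)) := by
    calc _ ≤ A2 / h * (2 * δ * (C5 * (T / (L * (y / L))))) := by
          have : 2 * δ * ∫ t in T..(2 * T), Tk T (y / L) t ≤ 2 * δ * (C5 * (T / (L * (y / L)))) := by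
            gcongr
          have := j3.trans this
          gcongr
      _ = A2 * (2 * ρ) * C5 * (T * (1 / y)) := by
          rw [hδ]; field_simp
      _ ≤ _ := by gcongr
  linarith

end Pool.Agent.TH800.DM
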