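import Pool.Agent.TH800.DM.Qm

/-! A lower bound for the local first moment of a prime sum. -/

open Complex Filter Topology Set MeasureTheory
open scoped ComplexConjugate

namespace Pool.Agent.TH800.DM

open TC
open MS (PX aa gau0 mem_PX)

lemma om_bdd {F : ℝ → ℝ} (hF : Continuous F) {M : ℝ} (hM : ∀ t, |F t| ≤ M) {h : ℝ} (hh : 0 < h)
    (u : ℝ) : Integrable (fun t => om u h t * F t) :=
  (om_integrable u h hh).mul_bdd (c := M) hF.aestronglyMeasurable
    (Eventually.of_forall fun t => by rw [Real.norm_eq_abs]; exact hM t)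

lemma Fs_norm (s : Finset ℕ) (c : ℕ → ℝ) (t : ℝ) : ‖Fs s c t‖ ≤ ∑ n ∈ s, |c n| := by
  unfold Fs
  refine (norm_sum_le _ _).trans (Finset.sum_le_sum fun n _ => ?_)
  rw [norm_mul, Complex.norm_exp_ofReal_mul_I, mul_one, Complex.norm_real, Real.norm_eq_abs]

/-- local second moment of the real part -/
lemma re_sq (N : ℕ) (a : ℕ → ℝ) {h : ℝ} (hh : 0 < h) (u : ℝ) :
    ∫ t, om u h t * (Fs (PX N) a t).re ^ 2 = Real.sqrt (2 * Real.pi) * h / 2 *
      ((∑ p ∈ PX N, a p ^ 2) + (OD (PX N) a h u).re + (SD (M2 N) (bb N a) h u).re) := by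
  have e : ∀ t, om u h t * (Fs (PX N) a t).re ^ 2 =
      1 / 2 * (om u h t * ‖Fs (PX N) a t‖ ^ 2) + 1 / 2 * ((om u h t : ℂ) * Fs (M2 N) (bb N a) t).re := by
    intro t
    rw [Complex.re_ofReal_mul, ← P_sq]
    have h1 : ‖Fs (PX N) a t‖ ^ 2 = (Fs (PX N) a t).re ^ 2 + (Fs (PX N) a t).im ^ 2 := by
      rw [← Complex.normSq_eq_norm_sq, Complex.normSq_apply]; ring
    have h2 : (Fs (PX N) a t ^ 2).re = (Fs (PX N) a t).re ^ 2 - (Fs (PX N) a t).im ^ 2 := by
      rw [sq, Complex.mul_re]; ring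
    rw [h1, h2]
    ring
  have f := first_eq (M2 N) (bb N a) hh u
  have g := second_eq (PX N) a hh u
  have hre : ∫ t, ((om u h t : ℂ) * Fs (M2 N) (bb N a) t).re =
      Real.sqrt (2 * Real.pi) * h * (SD (M2 N) (bb N a) h u).re := by
    have h1 := Complex.reCLM.integral_comp_comm f.1
    simp only [Complex.reCLM_apply] at h1
    rw [h1, f.2, Complex.re_ofReal_mul]
  simp_rw [e]
  have i2 : Integrable (fun t => ((om u h t : ℂ) * Fs (M2 N) (bb N a) t).re) := f.1.re
  rw [integral_add ((second_int (PX N) a hh u).const_mul _) (i2.const_mul _), integral_const_mul,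
    integral_const_mul, g, hre]
  ring

/-- local fourth moment -/
lemma fourth (N : ℕ) (a : ℕ → ℝ) {h : ℝ} (hh : 0 < h) (u : ℝ) :
    ∫ t, om u h t * ‖Fs (PX N) a t‖ ^ 4 ≤ Real.sqrt (2 * Real.pi) * h *
      (2 * (∑ p ∈ PX N, a p ^ 2) ^ 2 + ‖OD (M2 N) (bb N a) h u‖) := by
  have e : ∀ t, om u h t * ‖Fs (PX N) a t‖ ^ 4 = om u h t * ‖Fs (M2 N) (bb N a) t‖ ^ 2 := by
    intro t
    rw [← P_sq, norm_pow]
    ring
  simp_rw [e]
  rw [second_eq (M2 N) (bb N a) hh u]
  have := MS.s2pi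
  have h1 := bb_diag N a
  have h2 := Complex.re_le_norm (OD (M2 N) (bb N a) h u)
  apply mul_le_mul_of_nonneg_left _ (by positivity)
  linarith

theorem lb (s0 s1 : ℝ) (hs0 : 0 < s0) (h01 : s0 ≤ s1) : ∃ c0 ε0 ρ : ℝ, 0 < c0 ∧ 0 < ε0 ∧ 1 ≤ ρ ∧
    ∀ (N : ℕ) (a : ℕ → ℝ) (h u : ℝ), 0 < h → s0 ≤ ∑ p ∈ PX N, a p ^ 2 →
    ∑ p ∈ PX N, a p ^ 2 ≤ s1 → Bd N a h u ≤ ε0 →
    c0 * h ≤ ∫ t in (u - ρ * h)..(u + ρ * h), om u h t * |(Fs (PX N) a t).re| := by
  have hs1 : 0 < s1 := lt_of_lt_of_le hs0 h01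
  set A := Real.sqrt (24 * s1 ^ 2 / s0) with hA
  have hA0 : 0 < A := Real.sqrt_pos.2 (by positivity)
  have hA2 : A ^ 2 = 24 * s1 ^ 2 / s0 := Real.sq_sqrt (by positivity)
  set θ := s0 / (16 * A * s1) with hθ
  have hθ0 : 0 < θ := by positivity
  set η := θ * s0 / (16 * A) with hη
  have hη0 : 0 < η := by positivity
  set ρ := 1 + 4 / η with hρ
  have hρ1 : 1 ≤ ρ := by
    have : 0 < 4 / η := by positivity
    linarith
  have hρ0 : 0 < ρ := by linarith
  set e0 := min (s0 / 8) (s1 ^ 2) with he0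
  have he00 : 0 < e0 := lt_min (by positivity) (by positivity)
  have hexp : Real.exp (-(ρ ^ 2) / 4) ≤ η := by
    have h1 : Real.exp (-(ρ ^ 2) / 4) ≤ 4 / ρ ^ 2 := by
      have h2 := Real.add_one_le_exp (ρ ^ 2 / 4)
      have h3 : ρ ^ 2 / 4 ≤ Real.exp (ρ ^ 2 / 4) := by linarith
      rw [neg_div, Real.exp_neg, inv_le_comm₀ (Real.exp_pos _) (by positivity), inv_div]
      exact h3
    refine h1.trans ?_
    have h2 : 4 / η ≤ ρ := by rw [hρ]; linarith
    have h3 : 4 / η ≤ ρ ^ 2 := by nlinarith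
    rw [div_le_iff₀ hη0] at h3
    rw [div_le_iff₀ (by positivity)]
    linarith
  refine ⟨s0 / (8 * A), e0 ^ 2, ρ, by positivity, by positivity, hρ1,
    fun N a h u hh hS1 hS2 hBd => ?_⟩
  set S := ∑ p ∈ PX N, a p ^ 2 with hS
  set P := Fs (PX N) a with hP
  have hPc : Continuous P := Fs_cont _ _
  have hsp := MS.s2pi
  have hsp1 : 1 ≤ Real.sqrt (2 * Real.pi) := by
    rw [Real.one_le_sqrt]; linarith [Real.pi_gt_three]
  set A1 := ∑ n ∈ PX N, |a n| with hA1
  have hPA : ∀ t, ‖P t‖ ≤ A1 := fun t => Fs_norm _ _ t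
  have hA10 : 0 ≤ A1 := Finset.sum_nonneg fun _ _ => abs_nonneg _
  have hre : ∀ t, |(P t).re| ≤ ‖P t‖ := fun t => Complex.abs_re_le_norm _
  have hrec : Continuous fun t => (P t).re := Complex.continuous_re.comp hPc
  -- the excluded quantities
  have b1 : ‖OD (PX N) a h u‖ ≤ e0 := by
    apply le_of_sq_le_sq _ he00.le
    refine le_trans ?_ hBd
    unfold Bd
    have := sq_nonneg ‖SD (M2 N) (bb N a) h u‖
    have := sq_nonneg ‖OD (M2 N) (bb N a) h u‖
    linarith
  have b2 : ‖SD (M2 N) (bb N a) h u‖ ≤ e0 := by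
    apply le_of_sq_le_sq _ he00.le
    refine le_trans ?_ hBd
    unfold Bd
    have := sq_nonneg ‖OD (PX N) a h u‖
    have := sq_nonneg ‖OD (M2 N) (bb N a) h u‖
    linarith
  have b3 : ‖OD (M2 N) (bb N a) h u‖ ≤ e0 := by
    apply le_of_sq_le_sq _ he00.le
    refine le_trans ?_ hBd
    unfold Bd
    have := sq_nonneg ‖OD (PX N) a h u‖
    have := sq_nonneg ‖SD (M2 N) (bb N a) h u‖
    linarith
  have d1 : e0 ≤ s0 / 8 := min_le_left _ _
  have d2 : e0 ≤ s1 ^ 2 := min_le_right _ _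
  have r1 := (abs_le.1 ((Complex.abs_re_le_norm (OD (PX N) a h u)).trans (b1.trans d1)))
  have r2 := (abs_le.1 ((Complex.abs_re_le_norm (SD (M2 N) (bb N a) h u)).trans (b2.trans d1)))
  set σ := Real.sqrt (2 * Real.pi) * h with hσ
  have hσ0 : 0 < σ := by positivity
  -- integrability
  have i1 : Integrable (fun t => om u h t * |(P t).re|) :=
    om_bdd hrec.abs (M := A1) (fun t => by rw [abs_abs]; exact (hre t).trans (hPA t)) hh u
  have i2 : Integrable (fun t => om u h t * (P t).re ^ 2) :=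
    om_bdd (F := fun t => (P t).re ^ 2) (hrec.pow 2) (M := A1 ^ 2) (fun t => by
      rw [abs_pow]
      have := (hre t).trans (hPA t)
      gcongr) hh u
  have i4 : Integrable (fun t => om u h t * ‖P t‖ ^ 4) :=
    om_bdd (F := fun t => ‖P t‖ ^ 4) (hPc.norm.pow 4) (M := A1 ^ 4) (fun t => by
      rw [abs_of_nonneg (by positivity)]
      have := hPA t
      gcongr) hh u
  have i3 : Integrable (fun t => om u h t * ‖P t‖ ^ 2) := second_int (PX N) a hh u
  -- lower bound for the full integral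
  have low : σ * (s0 / (4 * A)) ≤ ∫ t, om u h t * |(P t).re| := by
    have h1 : ∫ t, (1 / A * (om u h t * (P t).re ^ 2) - 1 / A ^ 3 * (om u h t * ‖P t‖ ^ 4)) ≤
        ∫ t, om u h t * |(P t).re| := by
      apply integral_mono ((i2.const_mul _).sub (i4.const_mul _)) i1
      intro t
      show 1 / A * (om u h t * (P t).re ^ 2) - 1 / A ^ 3 * (om u h t * ‖P t‖ ^ 4) ≤
        om u h t * |(P t).re|
      set x := |(P t).re| with hx
      have hx0 : 0 ≤ x := abs_nonneg _
      have hx4 : x ^ 4 ≤ ‖P t‖ ^ 4 := by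
        have := hre t
        gcongr
      have hx2 : (P t).re ^ 2 = x ^ 2 := by rw [hx, sq_abs]
      have h3 : 1 / A * x ^ 2 - 1 / A ^ 3 * x ^ 4 ≤ x := by
        have e : 1 / A * x ^ 2 - 1 / A ^ 3 * x ^ 4 = x * ((x / A) * (1 - (x / A) ^ 2)) := by
          field_simp
        rw [e]
        apply mul_le_of_le_one_right hx0
        set z := x / A with hz
        have hz0 : 0 ≤ z := by positivity
        nlinarith [mul_nonneg hz0 (sq_nonneg (z - 1)), sq_nonneg (z - 1), mul_nonneg hz0 hz0]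
      have h4 : 1 / A ^ 3 * x ^ 4 ≤ 1 / A ^ 3 * ‖P t‖ ^ 4 := by gcongr
      have h5 := (om_pos u h t).le
      rw [hx2]
      calc 1 / A * (om u h t * x ^ 2) - 1 / A ^ 3 * (om u h t * ‖P t‖ ^ 4) =
          om u h t * (1 / A * x ^ 2 - 1 / A ^ 3 * ‖P t‖ ^ 4) := by ring
        _ ≤ om u h t * x := by
            apply mul_le_mul_of_nonneg_left _ h5
            linarith
    rw [integral_sub (i2.const_mul _) (i4.const_mul _), integral_const_mul, integral_const_mul] at h1
    have h2 := re_sq N a hh u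
    have h3 := fourth N a hh u
    rw [← hP, ← hσ, ← hS] at h2 h3
    rw [h2] at h1
    refine le_trans ?_ h1
    have h4 : 1 / A ^ 3 * ∫ t, om u h t * ‖P t‖ ^ 4 ≤ 1 / A ^ 3 * (σ * (3 * s1 ^ 2)) := by
      apply mul_le_mul_of_nonneg_left _ (by positivity)
      refine h3.trans ?_
      apply mul_le_mul_of_nonneg_left _ hσ0.le
      have hS0 : 0 ≤ S := hs0.le.trans hS1
      have : S ^ 2 ≤ s1 ^ 2 := by gcongr
      linarith [b3.trans d2]
    have h5 : 1 / A ^ 3 * (σ * (3 * s1 ^ 2)) = σ * (s0 / (8 * A)) := by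
      have e : 1 / A ^ 3 * (σ * (3 * s1 ^ 2)) = σ / A * (3 * s1 ^ 2 / A ^ 2) := by field_simp
      rw [e, hA2]
      field_simp
      norm_num
    rw [h5] at h4
    have h6 : 1 / A * (σ / 2 * (3 / 4 * s0)) ≤ 1 / A *
        (σ / 2 * (S + (OD (PX N) a h u).re + (SD (M2 N) (bb N a) h u).re)) := by
      apply mul_le_mul_of_nonneg_left _ (by positivity)
      apply mul_le_mul_of_nonneg_left _ (by positivity)
      linarith [r1.1, r2.1]
    have h7 : 1 / A * (σ / 2 * (3 / 4 * s0)) = σ * (3 * s0 / (8 * A)) := by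
      field_simp
      norm_num
    have h8 : σ * (3 * s0 / (8 * A)) - σ * (s0 / (8 * A)) = σ * (s0 / (4 * A)) := by
      field_simp
      norm_num
    linarith
  -- upper bound for the full integral
  have hh2 : 0 < Real.sqrt 2 * h := by positivity
  set J : Set ℝ := Set.Ioc (u - ρ * h) (u + ρ * h) with hJ
  have hJI : Integrable (J.indicator (fun t => om u h t * |(P t).re|)) :=
    i1.indicator measurableSet_Ioc
  have up : ∫ t, om u h t * |(P t).re| ≤
      (∫ t in (u - ρ * h)..(u + ρ * h), om u h t * |(P t).re|) + σ * (s0 / (8 * A)) := by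
    have h1 : ∫ t, om u h t * |(P t).re| ≤ ∫ t, (J.indicator (fun t => om u h t * |(P t).re|) t +
        η / (2 * θ) * om u (Real.sqrt 2 * h) t + θ / 2 * (om u h t * ‖P t‖ ^ 2)) := by
      apply integral_mono i1 ((hJI.add ((om_integrable u _ hh2).const_mul _)).add
        (i3.const_mul _))
      intro t
      show om u h t * |(P t).re| ≤ J.indicator (fun t => om u h t * |(P t).re|) t +
        η / (2 * θ) * om u (Real.sqrt 2 * h) t + θ / 2 * (om u h t * ‖P t‖ ^ 2)
      have h5 := (om_pos u h t).le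
      have h6 := (om_pos u (Real.sqrt 2 * h) t).le
      by_cases ht : t ∈ J
      · rw [Set.indicator_of_mem ht]
        have : 0 ≤ η / (2 * θ) * om u (Real.sqrt 2 * h) t := by positivity
        have : 0 ≤ θ / 2 * (om u h t * ‖P t‖ ^ 2) := by positivity
        linarith
      · rw [Set.indicator_of_notMem ht, zero_add]
        have hfar : (ρ * h) ^ 2 ≤ (t - u) ^ 2 := by
          rw [hJ, Set.mem_Ioc, not_and_or, not_lt, not_le] at ht
          have h7 : 0 < ρ * h := by positivity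
          rcases ht with ht | ht
          · nlinarith
          · nlinarith
        have hom : om u h t ≤ η * om u (Real.sqrt 2 * h) t := by
          have h8 : om u h t ≤ Real.exp (-(ρ ^ 2) / 4) * om u (Real.sqrt 2 * h) t := by
            unfold om
            rw [← Real.exp_add]
            apply Real.exp_le_exp.2
            have h9 : 2 * (Real.sqrt 2 * h) ^ 2 = 4 * h ^ 2 := by
              rw [mul_pow, Real.sq_sqrt (by norm_num)]; ring
            rw [h9]
            have h10 : ρ ^ 2 ≤ (t - u) ^ 2 / h ^ 2 := by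
              rw [le_div_iff₀ (by positivity), ← mul_pow]
              exact hfar
            have h11 : -(t - u) ^ 2 / (2 * h ^ 2) = -((t - u) ^ 2 / h ^ 2) / 2 := by field_simp
            have h12 : -(t - u) ^ 2 / (4 * h ^ 2) = -((t - u) ^ 2 / h ^ 2) / 4 := by field_simp
            rw [h11, h12]
            linarith
          exact h8.trans (mul_le_mul_of_nonneg_right hexp h6)
        have hamgm : |(P t).re| ≤ 1 / (2 * θ) + θ / 2 * ‖P t‖ ^ 2 := by
          refine (hre t).trans ?_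
          have h13 : 0 ≤ (1 / θ) * (1 - θ * ‖P t‖) ^ 2 / 2 := by positivity
          have h14 : (1 / θ) * (1 - θ * ‖P t‖) ^ 2 / 2 = 1 / (2 * θ) - ‖P t‖ + θ / 2 * ‖P t‖ ^ 2 := by
            field_simp
            ring
          linarith
        calc om u h t * |(P t).re| ≤ om u h t * (1 / (2 * θ) + θ / 2 * ‖P t‖ ^ 2) := by gcongr
          _ = 1 / (2 * θ) * om u h t + θ / 2 * (om u h t * ‖P t‖ ^ 2) := by ring
          _ ≤ 1 / (2 * θ) * (η * om u (Real.sqrt 2 * h) t) + θ / 2 * (om u h t * ‖P t‖ ^ 2) := by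
              gcongr
          _ = _ := by ring
    have iA : Integrable (fun t => J.indicator (fun t => om u h t * |(P t).re|) t +
        η / (2 * θ) * om u (Real.sqrt 2 * h) t) := hJI.add ((om_integrable u _ hh2).const_mul _)
    rw [integral_add iA (i3.const_mul _), integral_add hJI ((om_integrable u _ hh2).const_mul _),
      integral_indicator measurableSet_Ioc, integral_const_mul, integral_const_mul,
      om_integral u _ hh2, second_eq (PX N) a hh u] at h1
    rw [intervalIntegral.integral_of_le (by nlinarith)]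
    have h2 : η / (2 * θ) * (Real.sqrt (2 * Real.pi) * (Real.sqrt 2 * h)) ≤ σ * (s0 / (16 * A)) := by
      have h3 : Real.sqrt 2 ≤ 2 := by
        rw [Real.sqrt_le_left (by norm_num)]; norm_num
      have e : η / (2 * θ) * (Real.sqrt (2 * Real.pi) * (Real.sqrt 2 * h)) =
          σ * (s0 / (16 * A)) * (Real.sqrt 2 / 2) := by
        rw [hη, hσ]; field_simp
      rw [e]
      apply mul_le_of_le_one_right (by positivity)
      linarith
    have h4 : θ / 2 * (Real.sqrt (2 * Real.pi) * h * (∑ n ∈ PX N, a n ^ 2 +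
        (OD (PX N) a h u).re)) ≤ σ * (s0 / (16 * A)) := by
      rw [← hS, ← hσ]
      have h5 : S + (OD (PX N) a h u).re ≤ 2 * s1 := by linarith [r1.2]
      calc θ / 2 * (σ * (S + (OD (PX N) a h u).re)) ≤ θ / 2 * (σ * (2 * s1)) := by gcongr
        _ = σ * (s0 / (16 * A)) := by rw [hθ]; field_simp
    have h6 : σ * (s0 / (16 * A)) + σ * (s0 / (16 * A)) = σ * (s0 / (8 * A)) := by
      field_simp; norm_num
    linarith
  have h9 : σ * (s0 / (4 * A)) - σ * (s0 / (8 * A)) = σ * (s0 / (8 * A)) := by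
    field_simp; norm_num
  have h10 : s0 / (8 * A) * h ≤ σ * (s0 / (8 * A)) := by
    have : h ≤ σ := by rw [hσ]; nlinarith
    calc s0 / (8 * A) * h ≤ s0 / (8 * A) * σ := by gcongr
      _ = _ := by ring
  linarith

end Pool.Agent.TH800.DM
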