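import Pool.Agent.TH800.DM.Su

/-! Extension to all window lengths. -/

open Filter Topology Set MeasureTheory

namespace Pool.Agent.TH800.DM

open SG (ord NZ)

lemma triv_card (N : ℕ) (P : ℕ → Prop) : ({n : ℕ | 1 ≤ n ∧ n ≤ N ∧ P n}.ncard : ℝ) ≤ N := by
  have h1 : {n : ℕ | 1 ≤ n ∧ n ≤ N ∧ P n}.ncard ≤ (Set.Icc 1 N).ncard :=
    Set.ncard_le_ncard (fun n hn => ⟨hn.1, hn.2.1⟩) (Set.finite_Icc 1 N)
  rw [← Finset.coe_Icc, Set.ncard_coe_finset, Nat.card_Icc] at h1
  have h2 : {n : ℕ | 1 ≤ n ∧ n ≤ N ∧ P n}.ncard ≤ N := by omega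
  exact_mod_cast h2

/-- long windows from short ones -/
lemma long (X : ℕ → ℝ) (hX : ∀ n, 0 ≤ X n) (c : ℝ) (hc : 0 < c) (K m0 : ℝ) (N0 : ℕ) (hK : 0 < K)
    (hm0 : 1 ≤ m0)
    (h : ∀ N : ℕ, N0 ≤ N → ∀ m : ℕ, m0 ≤ m → (m : ℝ) ≤ 1 / 8 * Real.log N →
      ({n : ℕ | 1 ≤ n ∧ n ≤ N ∧ ∑ i ∈ Finset.range m, X (n + i) ≤ c * m}.ncard : ℝ) ≤
        K * (N * (1 / m))) (N m : ℕ) (hN2 : 2 ≤ N) (hN0 : N0 ≤ N)
    (hN1 : 16 * (m0 + 2) ≤ Real.log N) (hm : 1 / 8 * Real.log N < m) :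
    ({n : ℕ | 1 ≤ n ∧ n ≤ N ∧ ∑ i ∈ Finset.range m, X (n + i) ≤ c / 4 * m}.ncard : ℝ) ≤
      256 * K * (N * (1 / Real.log N)) := by
  classical
  have hN2r : (2 : ℝ) ≤ N := by exact_mod_cast hN2
  have hNp : (0 : ℝ) < N := by linarith
  have hlN : 0 < Real.log N := by linarith
  have hmp : (0 : ℝ) < m := by linarith
  have hm1 : 1 ≤ m := by
    have : 0 < m := by exact_mod_cast hmp
    omega
  set M := max m N with hM
  have hMN : N ≤ M := le_max_right _ _
  have hMm : m ≤ M := le_max_left _ _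
  have hMNr : (N : ℝ) ≤ M := by exact_mod_cast hMN
  have hMp : (0 : ℝ) < M := by linarith
  have hlM : Real.log N ≤ Real.log (2 * M) := Real.log_le_log hNp (by linarith)
  set l := Real.log (2 * M) with hl
  have hl0 : 0 < l := by linarith
  set m' := ⌊1 / 16 * l⌋₊ with hm'
  have g1 : (m' : ℝ) ≤ 1 / 16 * l := Nat.floor_le (by positivity)
  have g2 : 1 / 16 * l < m' + 1 := Nat.lt_floor_add_one _
  have g3 : m0 ≤ m' := by linarith
  have hm'p : (0 : ℝ) < m' := by linarith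
  have hm'1 : 1 ≤ m' := by
    have : 0 < m' := by exact_mod_cast hm'p
    omega
  have g4 : 1 / 32 * l ≤ m' := by linarith
  have g5 : 2 * m' ≤ m := by
    have : (2 * m' : ℝ) < m + 1 := by
      rcases le_total m N with hmn | hmn
      · have e : M = N := max_eq_right hmn
        have e2 : l = Real.log 2 + Real.log N := by
          rw [hl, e, Real.log_mul (by norm_num) (by positivity)]
        have := Real.log_two_lt_d9
        linarith
      · have e : M = m := max_eq_left hmn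
        have e2 : l ≤ 2 * m - 1 := by
          rw [hl, e]
          exact Real.log_le_sub_one_of_pos (by positivity)
        linarith
    have h2 : 2 * m' < m + 1 := by exact_mod_cast this
    omega
  have hB' := h (2 * M) (by omega) m' g3 (by
    push_cast
    rw [← hl]
    linarith)
  set B : Set ℕ := {n : ℕ | 1 ≤ n ∧ n ≤ N ∧ ∑ i ∈ Finset.range m, X (n + i) ≤ c / 4 * m} with hBd
  set B' : Set ℕ := {n : ℕ | 1 ≤ n ∧ n ≤ 2 * M ∧
    ∑ i ∈ Finset.range m', X (n + i) ≤ c * m'} with hBd'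
  have hBf : B.Finite := (Set.finite_Icc 1 N).subset fun n hn => ⟨hn.1, hn.2.1⟩
  have hBf' : B'.Finite := (Set.finite_Icc 1 (2 * M)).subset fun n hn => ⟨hn.1, hn.2.1⟩
  have hd := dcount hBf.toFinset hBf'.toFinset N m (fun n hn => by
      rw [Set.Finite.mem_toFinset] at hn
      rw [Finset.mem_Icc]
      exact ⟨hn.1, hn.2.1⟩) (m / 4) (fun n hn => by
      rw [Set.Finite.mem_toFinset] at hn
      obtain ⟨a1, a2, a3⟩ := hn
      refine (pigeon X hX c hc n m m' hm'1 g5 a3).trans ?_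
      have hsub : (Finset.range m).filter (fun j => ∑ i ∈ Finset.range m', X (n + j + i) ≤ c * m') ⊆
          (Finset.range m).filter (fun j => n + j ∈ hBf'.toFinset) := by
        intro j hj
        rw [Finset.mem_filter, Finset.mem_range] at hj
        rw [Finset.mem_filter, Finset.mem_range, Set.Finite.mem_toFinset]
        exact ⟨hj.1, by omega, by omega, hj.2⟩
      exact_mod_cast Finset.card_le_card hsub)
  rw [← Set.ncard_eq_toFinset_card B hBf, ← Set.ncard_eq_toFinset_card B' hBf'] at hd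
  have hmin : (min (m : ℝ) N) * M = m * N := by
    rcases le_total m N with hmn | hmn
    · have e : M = N := max_eq_right hmn
      have : (m : ℝ) ≤ N := by exact_mod_cast hmn
      rw [e, min_eq_left this]
    · have e : M = m := max_eq_left hmn
      have : (N : ℝ) ≤ m := by exact_mod_cast hmn
      rw [e, min_eq_right this, mul_comm]
  have hmin0 : 0 ≤ min (m : ℝ) N := le_min hmp.le hNp.le
  push_cast at hd hB'
  have e1 : 1 / (m' : ℝ) ≤ 32 * (1 / l) := by
    have : 1 / (m' : ℝ) ≤ 1 / (1 / 32 * l) := one_div_le_one_div_of_le (by positivity) g4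
    refine this.trans (le_of_eq ?_)
    field_simp
  have e2 : (B'.ncard : ℝ) * min (m : ℝ) N ≤ 64 * K * (1 / l) * (m * N) := by
    calc (B'.ncard : ℝ) * min (m : ℝ) N ≤ K * (2 * M * (1 / m')) * min (m : ℝ) N := by gcongr
      _ ≤ K * (2 * M * (32 * (1 / l))) * min (m : ℝ) N := by gcongr
      _ = 64 * K * (1 / l) * (min (m : ℝ) N * M) := by ring
      _ = _ := by rw [hmin]
  have e3 : (B.ncard : ℝ) * (m / 4) ≤ 256 * K * (N * (1 / l)) * (m / 4) := by
    refine (hd.trans e2).trans (le_of_eq ?_)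
    ring
  have e4 : (B.ncard : ℝ) ≤ 256 * K * (N * (1 / l)) := le_of_mul_le_mul_right e3 (by positivity)
  refine e4.trans ?_
  have e5 : 1 / l ≤ 1 / Real.log N := one_div_le_one_div_of_le hlN hlM
  gcongr

/-- extension to all windows -/
theorem ext (X : ℕ → ℝ) (hX : ∀ n, 0 ≤ X n) (c : ℝ) (hc : 0 < c) (K m0 : ℝ) (N0 : ℕ) (hK : 0 < K)
    (hm0 : 1 ≤ m0)
    (h : ∀ N : ℕ, N0 ≤ N → ∀ m : ℕ, m0 ≤ m → (m : ℝ) ≤ 1 / 8 * Real.log N →
      ({n : ℕ | 1 ≤ n ∧ n ≤ N ∧ ∑ i ∈ Finset.range m, X (n + i) ≤ c * m}.ncard : ℝ) ≤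
        K * (N * (1 / m))) :
    ∃ C : ℝ, 0 < C ∧ ∀ N : ℕ, 2 ≤ N → ∀ m : ℕ, 1 ≤ m →
      ({n : ℕ | 1 ≤ n ∧ n ≤ N ∧ ∑ i ∈ Finset.range m, X (n + i) ≤ c / 4 * m}.ncard : ℝ) ≤
        C * (N * (1 / m + 1 / Real.log N)) := by
  obtain ⟨N2, hN2⟩ : ∃ N2 : ℕ, ∀ N : ℕ, N2 ≤ N → 16 * (m0 + 2) ≤ Real.log N := by
    have h1 : Tendsto (fun N : ℕ => Real.log N) atTop atTop :=
      Real.tendsto_log_atTop.comp tendsto_natCast_atTop_atTop
    exact (h1.eventually_ge_atTop _).exists_forall_of_atTop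
  set N3 := max (max N0 N2) 3 with hN3
  have hN33 : 3 ≤ N3 := le_max_right _ _
  have hN33r : (3 : ℝ) ≤ N3 := by exact_mod_cast hN33
  have hlN3 : 0 < Real.log N3 := Real.log_pos (by linarith)
  have hC0 : 0 < Real.log N3 + m0 + 256 * K := by positivity
  refine ⟨Real.log N3 + m0 + 256 * K, hC0, fun N hN m hm => ?_⟩
  have hN2r : (2 : ℝ) ≤ N := by exact_mod_cast hN
  have hNp : (0 : ℝ) < N := by linarith
  have hlN : 0 < Real.log N := Real.log_pos (by linarith)
  have hm1 : (1 : ℝ) ≤ m := by exact_mod_cast hm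
  have hmp : (0 : ℝ) < m := by linarith
  have hinv : 0 < 1 / Real.log N := by positivity
  have hinm : 0 < 1 / (m : ℝ) := by positivity
  have p1 : 0 ≤ (N : ℝ) * (1 / m) := by positivity
  have p2 : 0 ≤ (N : ℝ) * (1 / Real.log N) := by positivity
  have etot : (Real.log N3 + m0 + 256 * K) * (N * (1 / m + 1 / Real.log N)) =
      Real.log N3 * (N * (1 / m)) + m0 * (N * (1 / m)) + 256 * K * (N * (1 / m)) +
      Real.log N3 * (N * (1 / Real.log N)) + m0 * (N * (1 / Real.log N)) +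
      256 * K * (N * (1 / Real.log N)) := by ring
  rw [etot]
  have q1 := mul_nonneg hlN3.le p1
  have q2 := mul_nonneg (by linarith : (0 : ℝ) ≤ m0) p1
  have q3 := mul_nonneg (by positivity : 0 ≤ 256 * K) p1
  have q4 := mul_nonneg hlN3.le p2
  have q5 := mul_nonneg (by linarith : (0 : ℝ) ≤ m0) p2
  have q6 := mul_nonneg (by positivity : 0 ≤ 256 * K) p2
  by_cases hNN : N < N3
  · have h1 : Real.log N ≤ Real.log N3 := Real.log_le_log hNp (by exact_mod_cast hNN.le)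
    have h2 : (N : ℝ) ≤ Real.log N3 * (N * (1 / Real.log N)) := by
      have : Real.log N3 * (N * (1 / Real.log N)) = N * (Real.log N3 / Real.log N) := by ring
      rw [this]
      apply le_mul_of_one_le_right hNp.le
      rw [le_div_iff₀ hlN]
      linarith
    have := triv_card N (fun n => ∑ i ∈ Finset.range m, X (n + i) ≤ c / 4 * m)
    linarith
  push Not at hNN
  have hNN0 : N0 ≤ N := ((le_max_left _ _).trans (le_max_left _ _)).trans hNN
  have hNN2 : N2 ≤ N := ((le_max_right _ _).trans (le_max_left _ _)).trans hNN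
  by_cases hmm : (m : ℝ) < m0
  · have h1 : (N : ℝ) ≤ m0 * (N * (1 / m)) := by
      have e : m0 * (N * (1 / m)) = N * (m0 / m) := by ring
      rw [e]
      apply le_mul_of_one_le_right hNp.le
      rw [le_div_iff₀ hmp]
      linarith
    have := triv_card N (fun n => ∑ i ∈ Finset.range m, X (n + i) ≤ c / 4 * m)
    linarith
  push Not at hmm
  by_cases hmL : (m : ℝ) ≤ 1 / 8 * Real.log N
  · have h1 := h N hNN0 m hmm hmL
    have hfin : {n : ℕ | 1 ≤ n ∧ n ≤ N ∧ ∑ i ∈ Finset.range m, X (n + i) ≤ c * m}.Finite :=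
      (Set.finite_Icc 1 N).subset fun n hn => ⟨hn.1, hn.2.1⟩
    have hsub : {n : ℕ | 1 ≤ n ∧ n ≤ N ∧ ∑ i ∈ Finset.range m, X (n + i) ≤ c / 4 * m} ⊆
        {n : ℕ | 1 ≤ n ∧ n ≤ N ∧ ∑ i ∈ Finset.range m, X (n + i) ≤ c * m} := by
      rintro n ⟨a1, a2, a3⟩
      refine ⟨a1, a2, a3.trans ?_⟩
      have : 0 < c * m := by positivity
      have e : c / 4 * m = c * m / 4 := by ring
      rw [e]
      linarith
    have h2 : ({n : ℕ | 1 ≤ n ∧ n ≤ N ∧ ∑ i ∈ Finset.range m, X (n + i) ≤ c / 4 * m}.ncard : ℝ) ≤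
        {n : ℕ | 1 ≤ n ∧ n ≤ N ∧ ∑ i ∈ Finset.range m, X (n + i) ≤ c * m}.ncard := by
      exact_mod_cast Set.ncard_le_ncard hsub hfin
    have h3 : K * (N * (1 / m)) ≤ 256 * K * (N * (1 / m)) := by
      have := mul_nonneg hK.le p1
      linarith
    linarith
  · push Not at hmL
    have h1 := long X hX c hc K m0 N0 hK hm0 h N m hN hNN0 (hN2 N hNN2) hmL
    linarith

end Pool.Agent.TH800.DM
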