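import Pool.Agent.TH800.DM.Bl
import Pool.Agent.TH800.DM.Xt

/-! The block theorem for the normalised gaps. -/

open Filter Topology Set MeasureTheory

namespace Pool.Agent.TH800.DM

open SG (ord NZ)
open MS (dlt)

lemma cmp {S x y : ℝ} (hS : 1 ≤ S) (hx : S ≤ x) (hxy : x ≤ y) (hy : y ≤ 2 * S) :
    Real.log S * (y - x) ≤ y * Real.log y - x * Real.log x ∧
    y * Real.log y - x * Real.log x ≤ (Real.log S + 2) * (y - x) := by
  have hx0 : 0 < x := by linarith
  have h5 := H370.A3.xlog_aux hx0 hxy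
  have h1 : Real.log S ≤ Real.log x := Real.log_le_log (by linarith) hx
  have h2 : Real.log x ≤ Real.log y := Real.log_le_log hx0 hxy
  have h3 : Real.log y ≤ Real.log 2 + Real.log S := by
    rw [← Real.log_mul (by norm_num) (by linarith)]
    exact Real.log_le_log (by linarith) hy
  have h4 := Real.log_two_lt_d9
  constructor
  · have e : y * Real.log y - x * Real.log x =
        y * (Real.log y - Real.log x) + (y - x) * Real.log x := by ring
    rw [e]
    have g1 : 0 ≤ y * (Real.log y - Real.log x) := mul_nonneg (by linarith) (by linarith)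
    have g2 : (y - x) * Real.log S ≤ (y - x) * Real.log x :=
      mul_le_mul_of_nonneg_left h1 (by linarith)
    linarith
  · refine h5.trans ?_
    rw [mul_comm]
    apply mul_le_mul_of_nonneg_right _ (by linarith)
    linarith

/-- basic facts about a window starting in a block -/
lemma win (RH : RiemannHypothesis) : ∃ T0 : ℝ, 100 ≤ T0 ∧ ∀ T : ℝ, T0 ≤ T → ∀ m : ℕ,
    (m : ℝ) ≤ Real.log T → ∀ n : ℕ, 1 ≤ n → T ≤ ord n → ord n ≤ 3 / 2 * T →
    9 / 10 * T + 6 * Real.log (9 / 10 * T) ≤ ord n ∧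
    ord (n + m) ≤ 2 * (9 / 10 * T) - 6 * Real.log (9 / 10 * T) ∧
    ∀ i : ℕ, i < m → 0 ≤ ord (n + i + 1) - ord (n + i) ∧
      Real.log (9 / 10 * T) * (ord (n + i + 1) - ord (n + i)) ≤ 2 * Real.pi * dlt (n + i) ∧
      2 * Real.pi * dlt (n + i) ≤
        (Real.log (9 / 10 * T) + 2) * (ord (n + i + 1) - ord (n + i)) := by
  have hpi := Real.pi_pos
  obtain ⟨A, hA, hsh⟩ := MS.ord_short (MS.rhs_of RH)
  have hev : ∀ᶠ T : ℝ in atTop, 100 * Real.log T + 100 ≤ T / 10 := by
    have h1 := (Real.isLittleO_log_id_atTop).bound (show (0 : ℝ) < 1 / 2000 by norm_num)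
    filter_upwards [h1, eventually_ge_atTop 2000] with T h2 h3
    have hl0 : 0 ≤ Real.log T := Real.log_nonneg (by linarith)
    simp only [id] at h2
    rw [Real.norm_of_nonneg hl0, Real.norm_of_nonneg (by linarith)] at h2
    linarith
  obtain ⟨T2, hT2⟩ := hev.exists_forall_of_atTop
  refine ⟨max (max 100 A) T2, (le_max_left _ _).trans (le_max_left _ _),
    fun T hT m hmL n hn h1 h2 => ?_⟩
  have hT100 : 100 ≤ T := ((le_max_left _ _).trans (le_max_left _ _)).trans hT
  have hTA : A ≤ T := ((le_max_right _ _).trans (le_max_left _ _)).trans hT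
  have hTT2 := hT2 T ((le_max_right _ _).trans hT)
  have hT0 : 0 < T := by linarith
  have hLST : Real.log (9 / 10 * T) ≤ Real.log T := Real.log_le_log (by positivity) (by linarith)
  have hLS0 : 0 < Real.log (9 / 10 * T) := Real.log_pos (by linarith)
  have hs1 := hsh n hn (by linarith) m
  refine ⟨by linarith, by linarith, fun i hi => ?_⟩
  have g1 : ord n ≤ ord (n + i) := SG.ord_mono hn (by omega)
  have g2 : ord (n + i) ≤ ord (n + i + 1) := SG.ord_mono (by omega) (by omega)
  have g3 : ord (n + i + 1) ≤ ord (n + m) := SG.ord_mono (by omega) (by omega)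
  have e : 2 * Real.pi * dlt (n + i) =
      ord (n + i + 1) * Real.log (ord (n + i + 1)) - ord (n + i) * Real.log (ord (n + i)) := by
    unfold MS.dlt
    field_simp
  have h3 := cmp (S := 9 / 10 * T) (x := ord (n + i)) (y := ord (n + i + 1)) (by linarith)
    (by linarith) g2 (by linarith)
  rw [e]
  exact ⟨by linarith, h3.1, h3.2⟩

/-- almost equal normalised gaps in a block -/
theorem nblk (RH : RiemannHypothesis) : ∃ K c T0 m0 : ℝ, 0 < K ∧ 0 < c ∧ c ≤ 1 / 10 ∧ 10 ≤ T0 ∧
    1 ≤ m0 ∧ ∀ T : ℝ, T0 ≤ T → ∀ m : ℕ, m0 ≤ m → (m : ℝ) ≤ 1 / 2 * Real.log T →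
      ({n : ℕ | 1 ≤ n ∧ T ≤ ord n ∧ ord n ≤ 3 / 2 * T ∧
        ∑ i ∈ Finset.range m, |dlt (n + i) - 1| ≤ c * m}.ncard : ℝ) ≤
        K * (1 / m) * (T * Real.log T) := by
  classical
  have hpi := Real.pi_pos
  have hpi4 := Real.pi_lt_four
  obtain ⟨K, c, T1, m0, hK, hc, hc1, hT1, hm0, h⟩ := blk RH
  obtain ⟨T2, hT2, hwin⟩ := win RH
  obtain ⟨T3, hT3⟩ : ∃ T3 : ℝ, ∀ T : ℝ, T3 ≤ T → max 2 (60 / c + 1) ≤ Real.log T :=
    (Real.tendsto_log_atTop.eventually_ge_atTop _).exists_forall_of_atTop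
  refine ⟨2 * K, c / 16, max (2 * T1) (max T2 T3), m0, by positivity, by positivity, by linarith,
    ?_, by linarith, fun T hT m hm hmL => ?_⟩
  · have : 2 * T1 ≤ max (2 * T1) (max T2 T3) := le_max_left _ _
    linarith
  have hTT1 : 2 * T1 ≤ T := (le_max_left _ _).trans hT
  have hTT2 : T2 ≤ T := ((le_max_left _ _).trans (le_max_right _ _)).trans hT
  have hTT3 := hT3 T (((le_max_right _ _).trans (le_max_right _ _)).trans hT)
  have hT100 : 100 ≤ T := hT2.trans hTT2
  have hT0 : 0 < T := by linarith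
  have hL2 : 2 ≤ Real.log T := (le_max_left _ _).trans hTT3
  have hLc : 60 / c + 1 ≤ Real.log T := (le_max_right _ _).trans hTT3
  have hm7 : (7 : ℝ) ≤ m := hm0.trans hm
  have hmp : (0 : ℝ) < m := by linarith
  have hw := hwin T hTT2 m (by linarith)
  have hLS1 : Real.log T ≤ Real.log (9 / 10 * T) + 1 := by
    have h1 : Real.log T = Real.log (10 / 9) + Real.log (9 / 10 * T) := by
      rw [← Real.log_mul (by norm_num) (by positivity)]
      congr 1
      ring
    have h2 := Real.log_le_sub_one_of_pos (show (0 : ℝ) < 10 / 9 by norm_num)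
    linarith
  have hLS2 : Real.log (9 / 10 * T) ≤ Real.log T := Real.log_le_log (by positivity) (by linarith)
  set S := 9 / 10 * T with hS
  have hS0 : 0 < S := by positivity
  set L := Real.log S with hL
  have hL0 : 0 < L := by linarith
  have hLc2 : 60 / c ≤ L := by linarith
  have hmS : (m : ℝ) ≤ L := by linarith
  set B : Set ℕ := {n : ℕ | 1 ≤ n ∧ T ≤ ord n ∧ ord n ≤ 3 / 2 * T ∧
        ∑ i ∈ Finset.range m, |dlt (n + i) - 1| ≤ c / 16 * m} with hB
  have hBfin : B.Finite := LG.GapAux.fin_ord (3 / 2 * T) B fun n hn => ⟨hn.1, hn.2.2.1⟩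
  rw [Set.ncard_eq_toFinset_card B hBfin]
  have h1 := h S (by linarith) m hm hmS hBfin.toFinset (fun n hn => by
    rw [Set.Finite.mem_toFinset] at hn
    obtain ⟨a1, a2, a3, a4⟩ := hn
    obtain ⟨w1, w2, w3⟩ := hw n a1 a2 a3
    refine ⟨a1, w1, w2, ?_⟩
    have hterm : ∀ i ∈ Finset.range m, |L * (ord (n + i + 1) - ord (n + i)) - 2 * Real.pi| ≤
        2 * Real.pi * |dlt (n + i) - 1| + 4 * Real.pi / L * (|dlt (n + i) - 1| + 1) := by
      intro i hi
      obtain ⟨v1, v2, v3⟩ := w3 i (Finset.mem_range.1 hi)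
      have v4 : ord (n + i + 1) - ord (n + i) ≤ 2 * Real.pi / L * dlt (n + i) := by
        rw [div_mul_eq_mul_div, le_div_iff₀ hL0]
        linarith
      have v5 : dlt (n + i) ≤ |dlt (n + i) - 1| + 1 := by
        have := le_abs_self (dlt (n + i) - 1)
        linarith
      have v6 : 2 * (ord (n + i + 1) - ord (n + i)) ≤
          4 * Real.pi / L * (|dlt (n + i) - 1| + 1) := by
        calc 2 * (ord (n + i + 1) - ord (n + i)) ≤ 2 * (2 * Real.pi / L * dlt (n + i)) := by
              linarith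
          _ ≤ 2 * (2 * Real.pi / L * (|dlt (n + i) - 1| + 1)) := by gcongr
          _ = _ := by ring
      have v7 : 2 * Real.pi * |dlt (n + i) - 1| = |2 * Real.pi * dlt (n + i) - 2 * Real.pi| := by
        rw [← abs_of_pos (show 0 < 2 * Real.pi by positivity), ← abs_mul]
        rw [abs_of_pos (show 0 < 2 * Real.pi by positivity)]
        congr 1
        ring
      rw [v7]
      have v8 := abs_le.1 (le_refl |2 * Real.pi * dlt (n + i) - 2 * Real.pi|)
      rw [abs_le]
      constructor <;> linarith [v8.1, v8.2]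
    have hsum := Finset.sum_le_sum hterm
    rw [Finset.sum_add_distrib, ← Finset.mul_sum, ← Finset.mul_sum, Finset.sum_add_distrib,
      Finset.sum_const, Finset.card_range, nsmul_eq_mul, mul_one] at hsum
    refine hsum.trans ?_
    have u1 : 2 * Real.pi * ∑ i ∈ Finset.range m, |dlt (n + i) - 1| ≤ c / 2 * m := by
      calc 2 * Real.pi * ∑ i ∈ Finset.range m, |dlt (n + i) - 1| ≤ 2 * 4 * (c / 16 * m) := by
            gcongr
        _ = _ := by ring
    have u2 : 4 * Real.pi / L * (∑ i ∈ Finset.range m, |dlt (n + i) - 1| + m) ≤ c / 2 * m := by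
      have u3 : 4 * Real.pi / L ≤ c / 60 * (4 * 4) := by
        rw [div_le_iff₀ hL0]
        rw [div_le_iff₀ hc] at hLc2
        have u4 : 16 ≤ c / 60 * (4 * 4) * L := by
          have e : c / 60 * (4 * 4) * L = 16 / 60 * (L * c) := by ring
          rw [e]
          linarith
        linarith
      have u5 : ∑ i ∈ Finset.range m, |dlt (n + i) - 1| + m ≤ 11 / 10 * m := by
        have : c / 16 * m ≤ 1 / 10 * m := by
          apply mul_le_mul_of_nonneg_right _ hmp.le
          linarith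
        linarith
      have u6 : 0 ≤ ∑ i ∈ Finset.range m, |dlt (n + i) - 1| + m :=
        add_nonneg (Finset.sum_nonneg fun _ _ => abs_nonneg _) hmp.le
      calc 4 * Real.pi / L * (∑ i ∈ Finset.range m, |dlt (n + i) - 1| + m) ≤
          c / 60 * (4 * 4) * (11 / 10 * m) := by gcongr
        _ = (176 / 600) * (c * m) := by ring
        _ ≤ 1 / 2 * (c * m) := by
            apply mul_le_mul_of_nonneg_right (by norm_num) (by positivity)
        _ = _ := by ring
    linarith)
  refine h1.trans ?_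
  have e1 : 1 / L ≤ 1 / (m : ℝ) := one_div_le_one_div_of_le hmp hmS
  calc K * (1 / m + 1 / L) * (S * L) ≤ K * (1 / m + 1 / m) * (T * Real.log T) := by
        gcongr
        linarith
    _ = _ := by ring

/-- dispersion of the normalised gaps, all windows -/
theorem disp (RH : RiemannHypothesis) : ∃ C c : ℝ, 0 < C ∧ 0 < c ∧ c ≤ 1 / 10 ∧
    ∀ N : ℕ, 2 ≤ N → ∀ m : ℕ, 1 ≤ m →
      ({n : ℕ | 1 ≤ n ∧ n ≤ N ∧ ∑ i ∈ Finset.range m, |dlt (n + i) - 1| ≤ c * m}.ncard : ℝ) ≤
        C * (N * (1 / m + 1 / Real.log N)) := by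
  obtain ⟨K, c, T0, m0, hK, hc, hc1, hT0, hm0, h⟩ := nblk RH
  obtain ⟨K', N0, hK', hN0, h2⟩ := short
    (fun m n => ∑ i ∈ Finset.range m, |dlt (n + i) - 1| ≤ c * m) K T0 m0 hK hT0 hm0 h
  obtain ⟨C, hC, h3⟩ := ext (fun n => |dlt n - 1|) (fun n => abs_nonneg _) c hc K' m0 N0 hK' hm0 h2
  exact ⟨C, c / 4, hC, by positivity, by linarith, h3⟩

end Pool.Agent.TH800.DM
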