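import Pool.Agent.TH800.DM.Gw

/-! Gaussian averages of squares of Dirichlet polynomials. -/

open Complex Filter Topology Set MeasureTheory
open scoped ComplexConjugate

namespace Pool.Agent.TH800.DM

open TC
open MS (PX aa gau0 mem_PX)

/-- a Dirichlet polynomial -/
noncomputable def Fs (s : Finset ℕ) (c : ℕ → ℝ) (t : ℝ) : ℂ :=
  ∑ n ∈ s, (c n : ℂ) * cexp (((t * Real.log n : ℝ) : ℂ) * I)

/-- off-diagonal part of the local second moment -/
noncomputable def OD (s : Finset ℕ) (c : ℕ → ℝ) (h u : ℝ) : ℂ :=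
  ∑ x ∈ (s ×ˢ s).filter (fun x => x.1 ≠ x.2),
    ((c x.1 * c x.2 * Real.exp (-(h ^ 2 * (Real.log x.1 - Real.log x.2) ^ 2) / 2) : ℝ) : ℂ) *
      cexp (((u * (Real.log x.1 - Real.log x.2) : ℝ) : ℂ) * I)

/-- local first moment -/
noncomputable def SD (s : Finset ℕ) (c : ℕ → ℝ) (h u : ℝ) : ℂ :=
  ∑ n ∈ s, ((c n * Real.exp (-(h ^ 2 * Real.log n ^ 2) / 2) : ℝ) : ℂ) *
      cexp (((u * Real.log n : ℝ) : ℂ) * I)

lemma Fs_cont (s : Finset ℕ) (c : ℕ → ℝ) : Continuous (Fs s c) := by unfold Fs; fun_prop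

lemma OD_cont (s : Finset ℕ) (c : ℕ → ℝ) (h : ℝ) : Continuous (OD s c h) := by
  unfold OD; fun_prop

lemma SD_cont (s : Finset ℕ) (c : ℕ → ℝ) (h : ℝ) : Continuous (SD s c h) := by
  unfold SD; fun_prop

lemma first_eq (s : Finset ℕ) (c : ℕ → ℝ) {h : ℝ} (hh : 0 < h) (u : ℝ) :
    Integrable (fun t => (om u h t : ℂ) * Fs s c t) ∧
    ∫ t, (om u h t : ℂ) * Fs s c t = ((Real.sqrt (2 * Real.pi) * h : ℝ) : ℂ) * SD s c h u := by
  have e : ∀ t : ℝ, (om u h t : ℂ) * Fs s c t = ∑ n ∈ s, (c n : ℂ) *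
      ((om u h t : ℂ) * cexp (((t * Real.log n : ℝ) : ℂ) * I)) := by
    intro t
    unfold Fs
    rw [Finset.mul_sum]
    refine Finset.sum_congr rfl fun n _ => ?_
    ring
  have hint : ∀ n ∈ s, Integrable (fun t : ℝ => (c n : ℂ) *
      ((om u h t : ℂ) * cexp (((t * Real.log n : ℝ) : ℂ) * I))) := fun n _ =>
    ((gau u h (Real.log n) hh).1).const_mul _
  simp_rw [e]
  refine ⟨integrable_finsetSum _ hint, ?_⟩
  rw [integral_finsetSum _ hint]
  unfold SD
  rw [Finset.mul_sum]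
  refine Finset.sum_congr rfl fun n _ => ?_
  rw [integral_const_mul, (gau u h (Real.log n) hh).2]
  push_cast
  ring

lemma Fs_sq (s : Finset ℕ) (c : ℕ → ℝ) (t : ℝ) : ((‖Fs s c t‖ ^ 2 : ℝ) : ℂ) =
    ∑ x ∈ s ×ˢ s, ((c x.1 * c x.2 : ℝ) : ℂ) *
      cexp (((t * (Real.log x.1 - Real.log x.2) : ℝ) : ℂ) * I) := by
  rw [ofReal_pow, ← Complex.mul_conj']
  unfold Fs
  rw [map_sum, Finset.sum_mul_sum, Finset.sum_product]
  refine Finset.sum_congr rfl fun i _ => Finset.sum_congr rfl fun j _ => ?_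
  rw [map_mul, ← Complex.exp_conj, map_mul, conj_I, conj_ofReal, conj_ofReal]
  have : cexp (((t * (Real.log i - Real.log j) : ℝ) : ℂ) * I) =
      cexp (((t * Real.log i : ℝ) : ℂ) * I) * cexp (((t * Real.log j : ℝ) : ℂ) * -I) := by
    rw [← Complex.exp_add]
    congr 1
    push_cast
    ring
  rw [this]
  push_cast
  ring

lemma second_int (s : Finset ℕ) (c : ℕ → ℝ) {h : ℝ} (hh : 0 < h) (u : ℝ) :
    Integrable (fun t => om u h t * ‖Fs s c t‖ ^ 2) := by
  have hB : ∀ t, ‖Fs s c t‖ ^ 2 ≤ (∑ n ∈ s, |c n|) ^ 2 := by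
    intro t
    have h1 : ‖Fs s c t‖ ≤ ∑ n ∈ s, |c n| := by
      unfold Fs
      refine (norm_sum_le _ _).trans (Finset.sum_le_sum fun n _ => ?_)
      rw [norm_mul, Complex.norm_exp_ofReal_mul_I, mul_one, Complex.norm_real, Real.norm_eq_abs]
    gcongr
  refine (om_integrable u h hh).mul_bdd (c := (∑ n ∈ s, |c n|) ^ 2)
    ((Fs_cont s c).norm.pow 2).aestronglyMeasurable (Eventually.of_forall fun t => ?_)
  rw [Real.norm_of_nonneg (by positivity)]
  exact hB t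

lemma second_eq (s : Finset ℕ) (c : ℕ → ℝ) {h : ℝ} (hh : 0 < h) (u : ℝ) :
    ∫ t, om u h t * ‖Fs s c t‖ ^ 2 =
      Real.sqrt (2 * Real.pi) * h * ((∑ n ∈ s, c n ^ 2) + (OD s c h u).re) := by
  have e : ∀ t : ℝ, ((om u h t * ‖Fs s c t‖ ^ 2 : ℝ) : ℂ) = ∑ x ∈ s ×ˢ s,
      ((c x.1 * c x.2 : ℝ) : ℂ) *
      ((om u h t : ℂ) * cexp (((t * (Real.log x.1 - Real.log x.2) : ℝ) : ℂ) * I)) := by
    intro t
    rw [ofReal_mul, Fs_sq, Finset.mul_sum]
    refine Finset.sum_congr rfl fun x _ => ?_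
    ring
  have hint : ∀ x ∈ s ×ˢ s, Integrable (fun t : ℝ => ((c x.1 * c x.2 : ℝ) : ℂ) *
      ((om u h t : ℂ) * cexp (((t * (Real.log x.1 - Real.log x.2) : ℝ) : ℂ) * I))) := fun x _ =>
    ((gau u h (Real.log x.1 - Real.log x.2) hh).1).const_mul _
  have h1 : ((∫ t, om u h t * ‖Fs s c t‖ ^ 2 : ℝ) : ℂ) =
      ((Real.sqrt (2 * Real.pi) * h : ℝ) : ℂ) * (((∑ n ∈ s, c n ^ 2 : ℝ) : ℂ) + OD s c h u) := by
    rw [← integral_complex_ofReal]
    simp_rw [e]
    rw [integral_finsetSum _ hint]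
    have h2 : ∀ x ∈ s ×ˢ s, ∫ t : ℝ, ((c x.1 * c x.2 : ℝ) : ℂ) *
      ((om u h t : ℂ) * cexp (((t * (Real.log x.1 - Real.log x.2) : ℝ) : ℂ) * I)) =
      ((Real.sqrt (2 * Real.pi) * h : ℝ) : ℂ) * (((c x.1 * c x.2 *
        Real.exp (-(h ^ 2 * (Real.log x.1 - Real.log x.2) ^ 2) / 2) : ℝ) : ℂ) *
      cexp (((u * (Real.log x.1 - Real.log x.2) : ℝ) : ℂ) * I)) := by
      intro x _
      rw [integral_const_mul, (gau u h (Real.log x.1 - Real.log x.2) hh).2]
      push_cast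
      ring
    rw [Finset.sum_congr rfl h2, ← Finset.mul_sum]
    congr 1
    rw [← Finset.sum_filter_add_sum_filter_not (s ×ˢ s) (fun x => x.1 = x.2)]
    congr 1
    · rw [Finset.sum_filter, Finset.sum_product]
      simp only
      have h3 : ∀ i ∈ s, (∑ j ∈ s, if i = j then (((c i * c j *
        Real.exp (-(h ^ 2 * (Real.log i - Real.log j) ^ 2) / 2) : ℝ) : ℂ) *
        cexp (((u * (Real.log i - Real.log j) : ℝ) : ℂ) * I)) else 0) = ((c i ^ 2 : ℝ) : ℂ) := by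
        intro i hi
        rw [Finset.sum_ite_eq, if_pos hi]
        simp [sq]
      rw [Finset.sum_congr rfl h3]
      push_cast
      rfl
  have h2 := congrArg Complex.re h1
  rw [ofReal_re, Complex.re_ofReal_mul, Complex.add_re, ofReal_re] at h2
  exact h2

/-- coincidences -/
noncomputable def Ph (s : Finset ℕ) (h : ℝ) (m k : ℕ) : ℝ :=
  ∑ n ∈ s.filter (fun n => n ≠ m ∧ ∃ j ∈ s, m * k = j * n),
    Real.exp (-(h ^ 2 * (Real.log m - Real.log n) ^ 2))

/-- coincidences, after the inequality between the arithmetic and the geometric mean -/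
lemma coin (s : Finset ℕ) (hs : ∀ n ∈ s, 1 ≤ n) (b : ℕ → ℝ) (h : ℝ) :
    ∑ x ∈ (s ×ˢ s).filter (fun x => x.1 ≠ x.2), ∑ y ∈ s ×ˢ s,
      (if x.1 * y.2 = y.1 * x.2 then b x.1 * b x.2 * (b y.1 * b y.2) *
        Real.exp (-(h ^ 2 * (Real.log x.1 - Real.log x.2) ^ 2)) else 0) ≤
    ∑ m ∈ s, ∑ k ∈ s, b m ^ 2 * b k ^ 2 * Ph s h m k := by
  classical
  set E : ℕ → ℕ → ℝ := fun m n => Real.exp (-(h ^ 2 * (Real.log m - Real.log n) ^ 2)) with hE
  have hEs : ∀ m n, E m n = E n m := fun m n => by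
    simp only [hE]; congr 2; ring
  have hE0 : ∀ m n, 0 ≤ E m n := fun m n => (Real.exp_pos _).le
  set U : ℝ := ∑ m ∈ s, ∑ n ∈ s, ∑ m' ∈ s, ∑ n' ∈ s,
    (if m ≠ n ∧ m * n' = m' * n then b m ^ 2 * b n' ^ 2 * E m n else 0) with hU
  have h1 : ∑ x ∈ (s ×ˢ s).filter (fun x => x.1 ≠ x.2), ∑ y ∈ s ×ˢ s,
      (if x.1 * y.2 = y.1 * x.2 then b x.1 * b x.2 * (b y.1 * b y.2) *
        Real.exp (-(h ^ 2 * (Real.log x.1 - Real.log x.2) ^ 2)) else 0) =
      ∑ m ∈ s, ∑ n ∈ s, ∑ m' ∈ s, ∑ n' ∈ s,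
        (if m ≠ n ∧ m * n' = m' * n then b m * b n * (b m' * b n') * E m n else 0) := by
    rw [Finset.sum_filter, Finset.sum_product]
    refine Finset.sum_congr rfl fun m _ => Finset.sum_congr rfl fun n _ => ?_
    simp only
    by_cases hmn : m ≠ n
    · rw [if_pos hmn, Finset.sum_product]
      refine Finset.sum_congr rfl fun m' _ => Finset.sum_congr rfl fun n' _ => ?_
      simp only [hmn, ne_eq, not_false_eq_true, true_and, hE]
    · rw [if_neg hmn]
      symm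
      apply Finset.sum_eq_zero
      intro m' _
      apply Finset.sum_eq_zero
      intro n' _
      rw [if_neg (by tauto)]
  rw [h1]
  -- AM-GM
  have h2 : ∑ m ∈ s, ∑ n ∈ s, ∑ m' ∈ s, ∑ n' ∈ s,
        (if m ≠ n ∧ m * n' = m' * n then b m * b n * (b m' * b n') * E m n else 0) ≤
      1 / 2 * U + 1 / 2 * ∑ m ∈ s, ∑ n ∈ s, ∑ m' ∈ s, ∑ n' ∈ s,
        (if m ≠ n ∧ m * n' = m' * n then b n ^ 2 * b m' ^ 2 * E m n else 0) := by
    rw [hU]
    simp only [Finset.mul_sum, ← Finset.sum_add_distrib]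
    refine Finset.sum_le_sum fun m _ => Finset.sum_le_sum fun n _ =>
      Finset.sum_le_sum fun m' _ => Finset.sum_le_sum fun n' _ => ?_
    split_ifs
    · have h3 : b m * b n' * (b n * b m') ≤ ((b m * b n') ^ 2 + (b n * b m') ^ 2) / 2 := by
        nlinarith [sq_nonneg (b m * b n' - b n * b m')]
      have := mul_le_mul_of_nonneg_right h3 (hE0 m n)
      nlinarith
    · simp
  have h3 : ∑ m ∈ s, ∑ n ∈ s, ∑ m' ∈ s, ∑ n' ∈ s,
        (if m ≠ n ∧ m * n' = m' * n then b n ^ 2 * b m' ^ 2 * E m n else 0) = U := by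
    rw [hU, Finset.sum_comm]
    refine Finset.sum_congr rfl fun n _ => Finset.sum_congr rfl fun m _ => ?_
    rw [Finset.sum_comm]
    refine Finset.sum_congr rfl fun n' _ => Finset.sum_congr rfl fun m' _ => ?_
    have : (m ≠ n ∧ m * n' = m' * n) ↔ (n ≠ m ∧ n * m' = n' * m) := by
      constructor
      · rintro ⟨a1, a2⟩
        exact ⟨a1.symm, by rw [mul_comm n m', ← a2, mul_comm]⟩
      · rintro ⟨a1, a2⟩
        exact ⟨a1.symm, by rw [mul_comm m n', ← a2, mul_comm]⟩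
    simp only [this, hEs m n]
  rw [h3] at h2
  refine h2.trans ?_
  have h4 : 1 / 2 * U + 1 / 2 * U = U := by ring
  rw [h4, hU]
  refine Finset.sum_le_sum fun m hm => ?_
  have h5 : ∑ n ∈ s, ∑ m' ∈ s, ∑ n' ∈ s,
      (if m ≠ n ∧ m * n' = m' * n then b m ^ 2 * b n' ^ 2 * E m n else 0) =
      ∑ n' ∈ s, ∑ n ∈ s, ∑ m' ∈ s,
      (if m ≠ n ∧ m * n' = m' * n then b m ^ 2 * b n' ^ 2 * E m n else 0) := by
    have : ∀ n ∈ s, ∑ m' ∈ s, ∑ n' ∈ s,
      (if m ≠ n ∧ m * n' = m' * n then b m ^ 2 * b n' ^ 2 * E m n else 0) =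
      ∑ n' ∈ s, ∑ m' ∈ s,
      (if m ≠ n ∧ m * n' = m' * n then b m ^ 2 * b n' ^ 2 * E m n else 0) := fun n _ =>
      Finset.sum_comm
    rw [Finset.sum_congr rfl this, Finset.sum_comm]
  rw [h5]
  refine Finset.sum_le_sum fun k hk => ?_
  unfold Ph
  rw [Finset.mul_sum, Finset.sum_filter]
  refine Finset.sum_le_sum fun n hn => ?_
  have hn1 := hs n hn
  by_cases hc : n ≠ m ∧ ∃ j ∈ s, m * k = j * n
  · rw [if_pos hc]
    obtain ⟨c1, j, hj, c2⟩ := hc
    have h6 : ∀ m' ∈ s, (if m ≠ n ∧ m * k = m' * n then b m ^ 2 * b k ^ 2 * E m n else 0) ≤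
        (if m' = j then b m ^ 2 * b k ^ 2 * E m n else 0) := by
      intro m' _
      have hnn : 0 ≤ b m ^ 2 * b k ^ 2 * E m n := by
        have := hE0 m n
        positivity
      by_cases hd : m ≠ n ∧ m * k = m' * n
      · have : m' = j := by
          have h7 : m' * n = j * n := by rw [← hd.2, c2]
          exact Nat.eq_of_mul_eq_mul_right (by omega) h7
        rw [if_pos hd, if_pos this]
      · rw [if_neg hd]
        split_ifs
        · exact hnn
        · exact le_rfl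
    refine (Finset.sum_le_sum h6).trans ?_
    rw [Finset.sum_ite_eq', if_pos hj]
  · rw [if_neg hc]
    apply le_of_eq
    apply Finset.sum_eq_zero
    intro m' hm'
    rw [if_neg]
    rintro ⟨d1, d2⟩
    exact hc ⟨d1.symm, m', hm', d2⟩

/-- mean square of the off-diagonal part -/
theorem od_ms (s : Finset ℕ) (hs : ∀ n ∈ s, 1 ≤ n) (c : ℕ → ℝ) (h T X : ℝ) (hT : 0 < T)
    (hX : 0 < X) (hsX : ∀ n ∈ s, (n : ℝ) ≤ X) :
    ∫ u in T..(2 * T), ‖OD s c h u‖ ^ 2 ≤
      4 * T * ((∑ m ∈ s, ∑ k ∈ s, c m ^ 2 * c k ^ 2 * Ph s h m k) +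
        (∑ n ∈ s, |c n|) ^ 4 * Real.exp (-(T ^ 2 * (1 / X ^ 2) ^ 2) / 2)) := by
  classical
  set O := (s ×ˢ s).filter (fun x => x.1 ≠ x.2) with hO
  set w : ℕ × ℕ → ℝ := fun x =>
    Real.exp (-(h ^ 2 * (Real.log x.1 - Real.log x.2) ^ 2) / 2) with hw
  have hw0 : ∀ x, 0 ≤ w x := fun x => (Real.exp_pos _).le
  have hw1 : ∀ x, w x ≤ 1 := fun x => by
    simp only [hw]
    rw [Real.exp_le_one_iff]
    have : 0 ≤ h ^ 2 * (Real.log x.1 - Real.log x.2) ^ 2 := by positivity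
    linarith
  have h1 := MS.gm O (fun x => ((c x.1 * c x.2 * w x : ℝ) : ℂ))
    (fun x => Real.log x.1 - Real.log x.2) T hT
  have h2 : ∀ u, ‖OD s c h u‖ ^ 2 = ‖∑ x ∈ O, ((c x.1 * c x.2 * w x : ℝ) : ℂ) *
      cexp (((u * (Real.log x.1 - Real.log x.2) : ℝ) : ℂ) * I)‖ ^ 2 := fun u => rfl
  simp_rw [h2]
  refine h1.trans ?_
  apply mul_le_mul_of_nonneg_left _ (by positivity)
  have hn : ∀ x : ℕ × ℕ, ‖((c x.1 * c x.2 * w x : ℝ) : ℂ)‖ = |c x.1| * |c x.2| * w x := fun x => by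
    rw [Complex.norm_real, Real.norm_eq_abs, abs_mul, abs_mul, abs_of_nonneg (hw0 x)]
  simp_rw [hn]
  set ε := Real.exp (-(T ^ 2 * (1 / X ^ 2) ^ 2) / 2) with hε
  have hterm : ∀ x ∈ O, ∀ y ∈ O, |c x.1| * |c x.2| * w x * (|c y.1| * |c y.2| * w y) *
      Real.exp (-(T ^ 2 * (Real.log x.1 - Real.log x.2 - (Real.log y.1 - Real.log y.2)) ^ 2) / 2) ≤
      (if x.1 * y.2 = y.1 * x.2 then |c x.1| * |c x.2| * (|c y.1| * |c y.2|) *
        Real.exp (-(h ^ 2 * (Real.log x.1 - Real.log x.2) ^ 2)) else 0) +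
      |c x.1| * |c x.2| * (|c y.1| * |c y.2|) * ε := by
    intro x hx y hy
    rw [hO, Finset.mem_filter, Finset.mem_product] at hx hy
    obtain ⟨⟨x1, x2⟩, x3⟩ := hx
    obtain ⟨⟨y1, y2⟩, y3⟩ := hy
    have a1 := hs _ x1
    have a2 := hs _ x2
    have a3 := hs _ y1
    have a4 := hs _ y2
    have p1 : (0 : ℝ) < (x.1 : ℝ) := by exact_mod_cast a1
    have p2 : (0 : ℝ) < (x.2 : ℝ) := by exact_mod_cast a2
    have p3 : (0 : ℝ) < (y.1 : ℝ) := by exact_mod_cast a3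
    have p4 : (0 : ℝ) < (y.2 : ℝ) := by exact_mod_cast a4
    have hcc : 0 ≤ |c x.1| * |c x.2| * (|c y.1| * |c y.2|) := by positivity
    have hε0 : 0 ≤ ε := (Real.exp_pos _).le
    by_cases heq : x.1 * y.2 = y.1 * x.2
    · rw [if_pos heq]
      have hr : (x.1 : ℝ) * y.2 = y.1 * x.2 := by exact_mod_cast heq
      have hl := congrArg Real.log hr
      rw [Real.log_mul p1.ne' p4.ne', Real.log_mul p3.ne' p2.ne'] at hl
      have hd : Real.log x.1 - Real.log x.2 = Real.log y.1 - Real.log y.2 := by linarith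
      have hww : w x * w y = Real.exp (-(h ^ 2 * (Real.log x.1 - Real.log x.2) ^ 2)) := by
        simp only [hw]
        rw [← hd, ← Real.exp_add]
        congr 1
        ring
      have he : Real.exp (-(T ^ 2 * (Real.log x.1 - Real.log x.2 -
          (Real.log y.1 - Real.log y.2)) ^ 2) / 2) = 1 := by
        rw [hd]; simp
      rw [he, ← hww]
      have : 0 ≤ |c x.1| * |c x.2| * (|c y.1| * |c y.2|) * ε := by positivity
      nlinarith
    · rw [if_neg heq, zero_add]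
      have hsep := MS.log_sep (a := x.1 * y.2) (b := y.1 * x.2) (Nat.mul_pos a1 a4)
        (Nat.mul_pos a3 a2) heq (N := X ^ 2)
        (by push_cast; rw [sq]; exact mul_le_mul (hsX _ x1) (hsX _ y2) p4.le hX.le)
        (by push_cast; rw [sq]; exact mul_le_mul (hsX _ y1) (hsX _ x2) p2.le hX.le)
      push_cast at hsep
      rw [Real.log_mul p1.ne' p4.ne', Real.log_mul p3.ne' p2.ne'] at hsep
      have h3 : (1 / X ^ 2) ^ 2 ≤ (Real.log x.1 - Real.log x.2 -
          (Real.log y.1 - Real.log y.2)) ^ 2 := by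
        rw [← sq_abs (Real.log x.1 - Real.log x.2 - _)]
        have e : Real.log x.1 - Real.log x.2 - (Real.log y.1 - Real.log y.2) =
          Real.log x.1 + Real.log y.2 - (Real.log y.1 + Real.log x.2) := by ring
        rw [e]
        gcongr
      have h4 : Real.exp (-(T ^ 2 * (Real.log x.1 - Real.log x.2 -
          (Real.log y.1 - Real.log y.2)) ^ 2) / 2) ≤ ε := by
        apply Real.exp_le_exp.2
        have : T ^ 2 * (1 / X ^ 2) ^ 2 ≤ T ^ 2 * (Real.log x.1 - Real.log x.2 -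
          (Real.log y.1 - Real.log y.2)) ^ 2 := by gcongr
        linarith
      calc _ ≤ |c x.1| * |c x.2| * 1 * (|c y.1| * |c y.2| * 1) * ε := by
            have := hw0 x
            have := hw0 y
            have := hw1 x
            have := hw1 y
            gcongr
        _ = _ := by ring
  calc _ ≤ ∑ x ∈ O, ∑ y ∈ O, ((if x.1 * y.2 = y.1 * x.2 then
      |c x.1| * |c x.2| * (|c y.1| * |c y.2|) *
        Real.exp (-(h ^ 2 * (Real.log x.1 - Real.log x.2) ^ 2)) else 0) +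
      |c x.1| * |c x.2| * (|c y.1| * |c y.2|) * ε) :=
        Finset.sum_le_sum fun x hx => Finset.sum_le_sum fun y hy => hterm x hx y hy
    _ ≤ ∑ x ∈ O, ∑ y ∈ s ×ˢ s, ((if x.1 * y.2 = y.1 * x.2 then
      |c x.1| * |c x.2| * (|c y.1| * |c y.2|) *
        Real.exp (-(h ^ 2 * (Real.log x.1 - Real.log x.2) ^ 2)) else 0) +
      |c x.1| * |c x.2| * (|c y.1| * |c y.2|) * ε) := by
        refine Finset.sum_le_sum fun x _ => ?_
        apply Finset.sum_le_sum_of_subset_of_nonneg (Finset.filter_subset _ _)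
        intro y _ _
        have hε0 : 0 ≤ ε := (Real.exp_pos _).le
        split_ifs <;> positivity
    _ = (∑ x ∈ O, ∑ y ∈ s ×ˢ s, (if x.1 * y.2 = y.1 * x.2 then
      |c x.1| * |c x.2| * (|c y.1| * |c y.2|) *
        Real.exp (-(h ^ 2 * (Real.log x.1 - Real.log x.2) ^ 2)) else 0)) +
      ∑ x ∈ O, ∑ y ∈ s ×ˢ s, |c x.1| * |c x.2| * (|c y.1| * |c y.2|) * ε := by
        simp_rw [Finset.sum_add_distrib]
    _ ≤ (∑ m ∈ s, ∑ k ∈ s, c m ^ 2 * c k ^ 2 * Ph s h m k) +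
        (∑ n ∈ s, |c n|) ^ 4 * ε := by
        apply add_le_add
        · have := coin s hs (fun n => |c n|) h
          simp only [sq_abs] at this
          exact this
        · have hε0 : 0 ≤ ε := (Real.exp_pos _).le
          calc ∑ x ∈ O, ∑ y ∈ s ×ˢ s, |c x.1| * |c x.2| * (|c y.1| * |c y.2|) * ε ≤
              ∑ x ∈ s ×ˢ s, ∑ y ∈ s ×ˢ s, |c x.1| * |c x.2| * (|c y.1| * |c y.2|) * ε := by
                apply Finset.sum_le_sum_of_subset_of_nonneg (Finset.filter_subset _ _)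
                intro x _ _
                exact Finset.sum_nonneg fun y _ => by positivity
            _ = (∑ x ∈ s ×ˢ s, |c x.1| * |c x.2|) * (∑ y ∈ s ×ˢ s, |c y.1| * |c y.2|) * ε := by
                rw [Finset.sum_mul_sum, Finset.sum_mul]
                refine Finset.sum_congr rfl fun x _ => ?_
                rw [Finset.sum_mul]
            _ = _ := by
                have : ∑ x ∈ s ×ˢ s, |c x.1| * |c x.2| = (∑ n ∈ s, |c n|) ^ 2 := by
                  rw [sq, Finset.sum_mul_sum, Finset.sum_product]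
                rw [this]
                ring

end Pool.Agent.TH800.DM
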