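import Pool.Agent.TH800.DM.Od

/-! Local second and fourth moments of a prime sum. -/

open Complex Filter Topology Set MeasureTheory
open scoped ComplexConjugate

namespace Pool.Agent.TH800.DM

open TC
open MS (PX aa gau0 mem_PX)

/-- products of two primes -/
def M2 (N : ℕ) : Finset ℕ := (PX N ×ˢ PX N).image (fun x => x.1 * x.2)

/-- fibre -/
def fib (N n : ℕ) : Finset (ℕ × ℕ) := (PX N ×ˢ PX N).filter (fun x => x.1 * x.2 = n)

/-- coefficients of the square -/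
noncomputable def bb (N : ℕ) (a : ℕ → ℝ) (n : ℕ) : ℝ := ∑ x ∈ fib N n, a x.1 * a x.2

lemma M2_mem {N n : ℕ} (h : n ∈ M2 N) : ∃ u v, u ∈ PX N ∧ v ∈ PX N ∧ u * v = n := by
  unfold M2 at h
  rw [Finset.mem_image] at h
  obtain ⟨x, hx, rfl⟩ := h
  rw [Finset.mem_product] at hx
  exact ⟨x.1, x.2, hx.1, hx.2, rfl⟩

lemma PX_pos {N p : ℕ} (h : p ∈ PX N) : 0 < p := (mem_PX.1 h).1.pos

lemma M2_pos {N n : ℕ} (h : n ∈ M2 N) : 1 ≤ n := by
  obtain ⟨u, v, hu, hv, rfl⟩ := M2_mem h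
  exact Nat.mul_pos (PX_pos hu) (PX_pos hv)

lemma M2_le {N n : ℕ} (h : n ∈ M2 N) : (n : ℝ) ≤ (N : ℝ) ^ 2 := by
  obtain ⟨u, v, hu, hv, rfl⟩ := M2_mem h
  have h1 := (mem_PX.1 hu).2
  have h2 := (mem_PX.1 hv).2
  have : u * v ≤ N ^ 2 := by rw [sq]; exact Nat.mul_le_mul h1 h2
  exact_mod_cast this

lemma fib_sum (N : ℕ) {R : Type*} [AddCommMonoid R] (f : ℕ × ℕ → R) :
    ∑ n ∈ M2 N, ∑ x ∈ fib N n, f x = ∑ x ∈ PX N ×ˢ PX N, f x := by
  unfold fib
  apply Finset.sum_fiberwise_of_maps_to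
  intro x hx
  exact Finset.mem_image_of_mem _ hx

lemma P_sq (N : ℕ) (a : ℕ → ℝ) (t : ℝ) : Fs (PX N) a t ^ 2 = Fs (M2 N) (bb N a) t := by
  unfold Fs
  rw [sq, Finset.sum_mul_sum, ← Finset.sum_product', ← fib_sum]
  refine Finset.sum_congr rfl fun n _ => ?_
  unfold bb
  rw [ofReal_sum, Finset.sum_mul]
  refine Finset.sum_congr rfl fun x hx => ?_
  unfold fib at hx
  rw [Finset.mem_filter, Finset.mem_product] at hx
  obtain ⟨⟨h1, h2⟩, h3⟩ := hx
  have p1 : (x.1 : ℝ) ≠ 0 := by exact_mod_cast (PX_pos h1).ne'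
  have p2 : (x.2 : ℝ) ≠ 0 := by exact_mod_cast (PX_pos h2).ne'
  rw [← h3]
  have hl : Real.log ((x.1 * x.2 : ℕ) : ℝ) = Real.log x.1 + Real.log x.2 := by
    push_cast
    exact Real.log_mul p1 p2
  rw [hl]
  have : cexp (((t * (Real.log x.1 + Real.log x.2) : ℝ) : ℂ) * I) =
      cexp (((t * Real.log x.1 : ℝ) : ℂ) * I) * cexp (((t * Real.log x.2 : ℝ) : ℂ) * I) := by
    rw [← Complex.exp_add]
    congr 1
    push_cast
    ring
  rw [this, ofReal_mul (a x.1)]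
  ring

lemma fib_card (N n : ℕ) : (fib N n).card ≤ 2 := by
  classical
  by_cases h : (fib N n).Nonempty
  · obtain ⟨y, hy⟩ := h
    unfold fib at hy
    rw [Finset.mem_filter, Finset.mem_product] at hy
    obtain ⟨⟨h1, h2⟩, h3⟩ := hy
    have p1 := (mem_PX.1 h1).1
    have p2 := (mem_PX.1 h2).1
    have hsub : fib N n ⊆ {(y.1, y.2), (y.2, y.1)} := by
      intro x hx
      unfold fib at hx
      rw [Finset.mem_filter, Finset.mem_product] at hx
      obtain ⟨⟨g1, g2⟩, g3⟩ := hx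
      have q1 := (mem_PX.1 g1).1
      have q2 := (mem_PX.1 g2).1
      have e : x.1 * x.2 = y.1 * y.2 := by rw [g3, h3]
      have hd : x.1 ∣ y.1 * y.2 := ⟨x.2, e.symm⟩
      rw [Finset.mem_insert, Finset.mem_singleton]
      rcases (q1.dvd_mul).1 hd with h | h
      · have h5 := (Nat.prime_dvd_prime_iff_eq q1 p1).1 h
        left
        rw [h5] at e
        have := Nat.eq_of_mul_eq_mul_left p1.pos e
        exact Prod.ext h5 this
      · have h5 := (Nat.prime_dvd_prime_iff_eq q1 p2).1 h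
        right
        rw [h5, mul_comm y.1] at e
        have := Nat.eq_of_mul_eq_mul_left p2.pos e
        exact Prod.ext h5 this
    exact (Finset.card_le_card hsub).trans Finset.card_le_two
  · rw [Finset.not_nonempty_iff_eq_empty] at h
    rw [h]
    simp

lemma bb_sq (N : ℕ) (a : ℕ → ℝ) (n : ℕ) :
    bb N a n ^ 2 ≤ 2 * ∑ x ∈ fib N n, a x.1 ^ 2 * a x.2 ^ 2 := by
  unfold bb
  have h1 := sq_sum_le_card_mul_sum_sq (s := fib N n) (f := fun x => a x.1 * a x.2)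
  have h2 : ((fib N n).card : ℝ) ≤ 2 := by exact_mod_cast fib_card N n
  have h3 : 0 ≤ ∑ x ∈ fib N n, (a x.1 * a x.2) ^ 2 := Finset.sum_nonneg fun _ _ => sq_nonneg _
  calc _ ≤ ((fib N n).card : ℝ) * ∑ x ∈ fib N n, (a x.1 * a x.2) ^ 2 := h1
    _ ≤ 2 * ∑ x ∈ fib N n, (a x.1 * a x.2) ^ 2 := mul_le_mul_of_nonneg_right h2 h3
    _ = _ := by simp_rw [mul_pow]

lemma prod_sum (N : ℕ) (f g : ℕ → ℝ) :
    ∑ x ∈ PX N ×ˢ PX N, f x.1 * g x.2 = (∑ p ∈ PX N, f p) * ∑ p ∈ PX N, g p := by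
  rw [Finset.sum_mul_sum, Finset.sum_product]

lemma bb_diag (N : ℕ) (a : ℕ → ℝ) :
    ∑ n ∈ M2 N, bb N a n ^ 2 ≤ 2 * (∑ p ∈ PX N, a p ^ 2) ^ 2 := by
  calc ∑ n ∈ M2 N, bb N a n ^ 2 ≤ ∑ n ∈ M2 N, 2 * ∑ x ∈ fib N n, a x.1 ^ 2 * a x.2 ^ 2 :=
        Finset.sum_le_sum fun n _ => bb_sq N a n
    _ = _ := by
        rw [← Finset.mul_sum, fib_sum, prod_sum N (fun p => a p ^ 2) (fun p => a p ^ 2), sq]

lemma bb_abs (N : ℕ) (a : ℕ → ℝ) :
    ∑ n ∈ M2 N, |bb N a n| ≤ (∑ p ∈ PX N, |a p|) ^ 2 := by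
  calc ∑ n ∈ M2 N, |bb N a n| ≤ ∑ n ∈ M2 N, ∑ x ∈ fib N n, |a x.1| * |a x.2| := by
        refine Finset.sum_le_sum fun n _ => ?_
        unfold bb
        refine (Finset.abs_sum_le_sum_abs _ _).trans (Finset.sum_le_sum fun x _ => ?_)
        rw [abs_mul]
    _ = _ := by
        rw [fib_sum, prod_sum N (fun p => |a p|) (fun p => |a p|), sq]

lemma sd_sum (N : ℕ) (a : ℕ → ℝ) (h B : ℝ)
    (hB : ∀ v, ∑ p ∈ PX N, a p ^ 2 * Real.exp (-(h ^ 2 * (Real.log p - v) ^ 2)) ≤ B) :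
    ∑ n ∈ M2 N, bb N a n ^ 2 * Real.exp (-(h ^ 2 * Real.log n ^ 2)) ≤
      2 * ((∑ p ∈ PX N, a p ^ 2) * B) := by
  calc ∑ n ∈ M2 N, bb N a n ^ 2 * Real.exp (-(h ^ 2 * Real.log n ^ 2)) ≤
      ∑ n ∈ M2 N, 2 * ∑ x ∈ fib N n, a x.1 ^ 2 * a x.2 ^ 2 *
        Real.exp (-(h ^ 2 * (Real.log x.2 + Real.log x.1) ^ 2)) := by
        refine Finset.sum_le_sum fun n _ => ?_
        have h1 := mul_le_mul_of_nonneg_right (bb_sq N a n)
          (Real.exp_pos (-(h ^ 2 * Real.log n ^ 2))).le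
        refine h1.trans (le_of_eq ?_)
        rw [mul_assoc, Finset.sum_mul]
        congr 1
        refine Finset.sum_congr rfl fun x hx => ?_
        unfold fib at hx
        rw [Finset.mem_filter, Finset.mem_product] at hx
        obtain ⟨⟨h1, h2⟩, h3⟩ := hx
        have p1 : (x.1 : ℝ) ≠ 0 := by exact_mod_cast (PX_pos h1).ne'
        have p2 : (x.2 : ℝ) ≠ 0 := by exact_mod_cast (PX_pos h2).ne'
        rw [← h3]
        push_cast
        rw [Real.log_mul p1 p2, add_comm (Real.log x.1)]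
    _ = 2 * ∑ p ∈ PX N, a p ^ 2 * ∑ q ∈ PX N, a q ^ 2 *
        Real.exp (-(h ^ 2 * (Real.log q + Real.log p) ^ 2)) := by
        rw [← Finset.mul_sum, fib_sum, Finset.sum_product]
        congr 1
        refine Finset.sum_congr rfl fun p _ => ?_
        rw [Finset.mul_sum]
        refine Finset.sum_congr rfl fun q _ => ?_
        ring
    _ ≤ 2 * ∑ p ∈ PX N, a p ^ 2 * B := by
        apply mul_le_mul_of_nonneg_left _ (by norm_num)
        refine Finset.sum_le_sum fun p _ => ?_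
        apply mul_le_mul_of_nonneg_left _ (sq_nonneg _)
        have := hB (-Real.log p)
        simp only [sub_neg_eq_add] at this
        exact this
    _ = _ := by rw [← Finset.sum_mul]

/-- coincidences for primes -/
lemma Ph_P {N m k : ℕ} (hm : m ∈ PX N) (hk : k ∈ PX N) (h : ℝ) :
    Ph (PX N) h m k ≤ Real.exp (-(h ^ 2 * (Real.log m - Real.log k) ^ 2)) := by
  classical
  unfold Ph
  have p1 := (mem_PX.1 hm).1
  have p2 := (mem_PX.1 hk).1
  have hsub : (PX N).filter (fun n => n ≠ m ∧ ∃ j ∈ PX N, m * k = j * n) ⊆ {k} := by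
    intro n hn
    rw [Finset.mem_filter] at hn
    obtain ⟨h1, h2, j, hj, h3⟩ := hn
    have q := (mem_PX.1 h1).1
    rw [Finset.mem_singleton]
    have hd : n ∣ m * k := ⟨j, by rw [h3, mul_comm]⟩
    rcases (q.dvd_mul).1 hd with h | h
    · exact absurd ((Nat.prime_dvd_prime_iff_eq q p1).1 h) h2
    · exact (Nat.prime_dvd_prime_iff_eq q p2).1 h
  refine (Finset.sum_le_sum_of_subset_of_nonneg hsub fun n _ _ => (Real.exp_pos _).le).trans ?_
  rw [Finset.sum_singleton]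

lemma two_of_four {u v j x1 x2 x3 x4 : ℕ} (hu : u.Prime) (hv : v.Prime) (h1 : x1.Prime)
    (h2 : x2.Prime) (h3 : x3.Prime) (h4 : x4.Prime) (h : x1 * x2 * (x3 * x4) = j * (u * v)) :
    u * v = x1 * x2 ∨ u * v = x1 * x3 ∨ u * v = x1 * x4 ∨ u * v = x2 * x3 ∨ u * v = x2 * x4 ∨
      u * v = x3 * x4 := by
  have hd : u ∣ x1 * x2 * (x3 * x4) := ⟨j * v, by rw [h]; ring⟩
  have key : ∀ {a b c w : ℕ}, a.Prime → b.Prime → c.Prime → w.Prime → w ∣ a * (b * c) →
      w = a ∨ w = b ∨ w = c := by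
    intro a b c w ha hb hc hw hd
    rcases (hw.dvd_mul).1 hd with h | h
    · exact Or.inl ((Nat.prime_dvd_prime_iff_eq hw ha).1 h)
    · rcases (hw.dvd_mul).1 h with h | h
      · exact Or.inr (Or.inl ((Nat.prime_dvd_prime_iff_eq hw hb).1 h))
      · exact Or.inr (Or.inr ((Nat.prime_dvd_prime_iff_eq hw hc).1 h))
  have hu4 : u = x1 ∨ u = x2 ∨ u = x3 ∨ u = x4 := by
    rcases (hu.dvd_mul).1 hd with h | h
    · rcases (hu.dvd_mul).1 h with h | h
      · exact Or.inl ((Nat.prime_dvd_prime_iff_eq hu h1).1 h)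
      · exact Or.inr (Or.inl ((Nat.prime_dvd_prime_iff_eq hu h2).1 h))
    · rcases (hu.dvd_mul).1 h with h | h
      · exact Or.inr (Or.inr (Or.inl ((Nat.prime_dvd_prime_iff_eq hu h3).1 h)))
      · exact Or.inr (Or.inr (Or.inr ((Nat.prime_dvd_prime_iff_eq hu h4).1 h)))
  rcases hu4 with rfl | rfl | rfl | rfl
  · have e : x2 * (x3 * x4) = j * v := by
      apply Nat.eq_of_mul_eq_mul_left hu.pos
      rw [← mul_assoc, h]; ring
    have hv3 := key h2 h3 h4 hv ⟨j, by rw [e]; ring⟩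
    rcases hv3 with rfl | rfl | rfl <;> simp
  · have e : x1 * (x3 * x4) = j * v := by
      apply Nat.eq_of_mul_eq_mul_left hu.pos
      have : u * (x1 * (x3 * x4)) = x1 * u * (x3 * x4) := by ring
      rw [this, h]; ring
    have hv3 := key h1 h3 h4 hv ⟨j, by rw [e]; ring⟩
    rcases hv3 with rfl | rfl | rfl
    · left; ring
    · tauto
    · tauto
  · have e : x1 * (x2 * x4) = j * v := by
      apply Nat.eq_of_mul_eq_mul_left hu.pos
      have : u * (x1 * (x2 * x4)) = x1 * x2 * (u * x4) := by ring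
      rw [this, h]; ring
    have hv3 := key h1 h2 h4 hv ⟨j, by rw [e]; ring⟩
    rcases hv3 with rfl | rfl | rfl
    · right; left; ring
    · right; right; right; left; ring
    · tauto
  · have e : x1 * (x2 * x3) = j * v := by
      apply Nat.eq_of_mul_eq_mul_left hu.pos
      have : u * (x1 * (x2 * x3)) = x1 * x2 * (x3 * u) := by ring
      rw [this, h]; ring
    have hv3 := key h1 h2 h3 hv ⟨j, by rw [e]; ring⟩
    rcases hv3 with rfl | rfl | rfl
    · right; right; left; ring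
    · right; right; right; right; left; ring
    · right; right; right; right; right; ring

/-- coincidences for products of two primes -/
lemma Ph_M {N : ℕ} {x y : ℕ × ℕ} (hx : x ∈ PX N ×ˢ PX N) (hy : y ∈ PX N ×ˢ PX N) (h : ℝ) :
    Ph (M2 N) h (x.1 * x.2) (y.1 * y.2) ≤
      Real.exp (-(h ^ 2 * (Real.log y.1 - Real.log x.2) ^ 2)) +
      Real.exp (-(h ^ 2 * (Real.log y.2 - Real.log x.2) ^ 2)) +
      Real.exp (-(h ^ 2 * (Real.log y.1 - Real.log x.1) ^ 2)) +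
      Real.exp (-(h ^ 2 * (Real.log y.2 - Real.log x.1) ^ 2)) +
      Real.exp (-(h ^ 2 * (Real.log y.1 - (Real.log x.1 + Real.log x.2 - Real.log y.2)) ^ 2)) := by
  classical
  rw [Finset.mem_product] at hx hy
  obtain ⟨a1, a2⟩ := hx
  obtain ⟨a3, a4⟩ := hy
  have r1 : (x.1 : ℝ) ≠ 0 := by exact_mod_cast (PX_pos a1).ne'
  have r2 : (x.2 : ℝ) ≠ 0 := by exact_mod_cast (PX_pos a2).ne'
  have r3 : (y.1 : ℝ) ≠ 0 := by exact_mod_cast (PX_pos a3).ne'
  have r4 : (y.2 : ℝ) ≠ 0 := by exact_mod_cast (PX_pos a4).ne'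
  set E : ℕ → ℝ := fun n =>
    Real.exp (-(h ^ 2 * (Real.log ((x.1 * x.2 : ℕ) : ℝ) - Real.log n) ^ 2)) with hE
  have hE0 : ∀ n, 0 ≤ E n := fun n => (Real.exp_pos _).le
  have hlm : Real.log ((x.1 * x.2 : ℕ) : ℝ) = Real.log x.1 + Real.log x.2 := by
    push_cast; rw [Real.log_mul r1 r2]
  have e1 : E (x.1 * y.1) = Real.exp (-(h ^ 2 * (Real.log y.1 - Real.log x.2) ^ 2)) := by
    simp only [hE]
    rw [hlm]
    push_cast
    rw [Real.log_mul r1 r3]
    congr 2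
    ring
  have e2 : E (x.1 * y.2) = Real.exp (-(h ^ 2 * (Real.log y.2 - Real.log x.2) ^ 2)) := by
    simp only [hE]
    rw [hlm]
    push_cast
    rw [Real.log_mul r1 r4]
    congr 2
    ring
  have e3 : E (x.2 * y.1) = Real.exp (-(h ^ 2 * (Real.log y.1 - Real.log x.1) ^ 2)) := by
    simp only [hE]
    rw [hlm]
    push_cast
    rw [Real.log_mul r2 r3]
    congr 2
    ring
  have e4 : E (x.2 * y.2) = Real.exp (-(h ^ 2 * (Real.log y.2 - Real.log x.1) ^ 2)) := by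
    simp only [hE]
    rw [hlm]
    push_cast
    rw [Real.log_mul r2 r4]
    congr 2
    ring
  have e5 : E (y.1 * y.2) = Real.exp (-(h ^ 2 *
      (Real.log y.1 - (Real.log x.1 + Real.log x.2 - Real.log y.2)) ^ 2)) := by
    simp only [hE]
    rw [hlm]
    push_cast
    rw [Real.log_mul r3 r4]
    congr 2
    ring
  rw [← e1, ← e2, ← e3, ← e4, ← e5]
  set G : Finset ℕ := (M2 N).filter (fun n => n ≠ x.1 * x.2 ∧ ∃ j ∈ M2 N,
    x.1 * x.2 * (y.1 * y.2) = j * n) with hG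
  have hPh : Ph (M2 N) h (x.1 * x.2) (y.1 * y.2) = ∑ n ∈ G, E n := rfl
  rw [hPh]
  have hpt : ∀ n ∈ G, E n ≤ (if n = x.1 * y.1 then E (x.1 * y.1) else 0) +
      (if n = x.1 * y.2 then E (x.1 * y.2) else 0) + (if n = x.2 * y.1 then E (x.2 * y.1) else 0) +
      (if n = x.2 * y.2 then E (x.2 * y.2) else 0) +
      (if n = y.1 * y.2 then E (y.1 * y.2) else 0) := by
    intro n hn
    rw [hG, Finset.mem_filter] at hn
    obtain ⟨h1, h2, j, hj, h3⟩ := hn
    obtain ⟨u, v, hu, hv, rfl⟩ := M2_mem h1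
    have i1 : 0 ≤ (if u * v = x.1 * y.1 then E (x.1 * y.1) else 0) := by
      split_ifs; exacts [hE0 _, le_rfl]
    have i2 : 0 ≤ (if u * v = x.1 * y.2 then E (x.1 * y.2) else 0) := by
      split_ifs; exacts [hE0 _, le_rfl]
    have i3 : 0 ≤ (if u * v = x.2 * y.1 then E (x.2 * y.1) else 0) := by
      split_ifs; exacts [hE0 _, le_rfl]
    have i4 : 0 ≤ (if u * v = x.2 * y.2 then E (x.2 * y.2) else 0) := by
      split_ifs; exacts [hE0 _, le_rfl]
    have i5 : 0 ≤ (if u * v = y.1 * y.2 then E (y.1 * y.2) else 0) := by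
      split_ifs; exacts [hE0 _, le_rfl]
    rcases two_of_four (mem_PX.1 hu).1 (mem_PX.1 hv).1 (mem_PX.1 a1).1 (mem_PX.1 a2).1
      (mem_PX.1 a3).1 (mem_PX.1 a4).1 h3 with h4 | h4 | h4 | h4 | h4 | h4
    · exact absurd h4 h2
    · rw [if_pos h4, ← h4]; rw [← h4] at *; linarith
    · rw [if_pos h4, ← h4]; rw [← h4] at *; linarith
    · rw [if_pos h4, ← h4]; rw [← h4] at *; linarith
    · rw [if_pos h4, ← h4]; rw [← h4] at *; linarith
    · rw [if_pos h4, ← h4]; rw [← h4] at *; linarith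
  have hite : ∀ k : ℕ, ∑ n ∈ G, (if n = k then E k else 0) ≤ E k := by
    intro k
    rw [Finset.sum_ite_eq']
    split_ifs
    exacts [le_rfl, hE0 _]
  refine (Finset.sum_le_sum hpt).trans ?_
  simp only [Finset.sum_add_distrib]
  have j1 := hite (x.1 * y.1)
  have j2 := hite (x.1 * y.2)
  have j3 := hite (x.2 * y.1)
  have j4 := hite (x.2 * y.2)
  have j5 := hite (y.1 * y.2)
  linarith

end Pool.Agent.TH800.DM
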