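import Pool.Agent.TH800.DM.Qd

/-! A lower bound for the local first moment of a prime sum. -/

open Complex Filter Topology Set MeasureTheory
open scoped ComplexConjugate

namespace Pool.Agent.TH800.DM

open TC
open MS (PX aa gau0 mem_PX)

lemma co_P (N : ℕ) (a : ℕ → ℝ) (h B : ℝ)
    (hB : ∀ v, ∑ p ∈ PX N, a p ^ 2 * Real.exp (-(h ^ 2 * (Real.log p - v) ^ 2)) ≤ B) :
    ∑ m ∈ PX N, ∑ k ∈ PX N, a m ^ 2 * a k ^ 2 * Ph (PX N) h m k ≤
      (∑ p ∈ PX N, a p ^ 2) * B := by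
  rw [Finset.sum_mul]
  refine Finset.sum_le_sum fun m hm => ?_
  calc ∑ k ∈ PX N, a m ^ 2 * a k ^ 2 * Ph (PX N) h m k ≤
      ∑ k ∈ PX N, a m ^ 2 * (a k ^ 2 *
        Real.exp (-(h ^ 2 * (Real.log k - Real.log m) ^ 2))) := by
        refine Finset.sum_le_sum fun k hk => ?_
        have h1 := Ph_P hm hk h
        have e : (Real.log k - Real.log m) ^ 2 = (Real.log m - Real.log k) ^ 2 := by ring
        rw [e, ← mul_assoc]
        gcongr
    _ = a m ^ 2 * ∑ k ∈ PX N, a k ^ 2 *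
        Real.exp (-(h ^ 2 * (Real.log k - Real.log m) ^ 2)) := by rw [Finset.mul_sum]
    _ ≤ _ := mul_le_mul_of_nonneg_left (hB _) (sq_nonneg _)

lemma pat1 (N : ℕ) (a : ℕ → ℝ) (h B : ℝ)
    (hB : ∀ v, ∑ p ∈ PX N, a p ^ 2 * Real.exp (-(h ^ 2 * (Real.log p - v) ^ 2)) ≤ B)
    (v : ℕ → ℝ) : ∑ y ∈ PX N ×ˢ PX N, a y.1 ^ 2 * a y.2 ^ 2 *
      Real.exp (-(h ^ 2 * (Real.log y.1 - v y.2) ^ 2)) ≤ (∑ p ∈ PX N, a p ^ 2) * B := by
  rw [Finset.sum_product_right, Finset.sum_mul]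
  refine Finset.sum_le_sum fun q _ => ?_
  simp only
  calc ∑ p ∈ PX N, a p ^ 2 * a q ^ 2 * Real.exp (-(h ^ 2 * (Real.log p - v q) ^ 2)) =
      a q ^ 2 * ∑ p ∈ PX N, a p ^ 2 * Real.exp (-(h ^ 2 * (Real.log p - v q) ^ 2)) := by
        rw [Finset.mul_sum]
        refine Finset.sum_congr rfl fun p _ => ?_
        ring
    _ ≤ _ := mul_le_mul_of_nonneg_left (hB _) (sq_nonneg _)

lemma pat2 (N : ℕ) (a : ℕ → ℝ) (h B : ℝ)
    (hB : ∀ v, ∑ p ∈ PX N, a p ^ 2 * Real.exp (-(h ^ 2 * (Real.log p - v) ^ 2)) ≤ B)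
    (v : ℝ) : ∑ y ∈ PX N ×ˢ PX N, a y.1 ^ 2 * a y.2 ^ 2 *
      Real.exp (-(h ^ 2 * (Real.log y.2 - v) ^ 2)) ≤ (∑ p ∈ PX N, a p ^ 2) * B := by
  rw [Finset.sum_product, Finset.sum_mul]
  refine Finset.sum_le_sum fun q _ => ?_
  simp only
  calc ∑ p ∈ PX N, a q ^ 2 * a p ^ 2 * Real.exp (-(h ^ 2 * (Real.log p - v) ^ 2)) =
      a q ^ 2 * ∑ p ∈ PX N, a p ^ 2 * Real.exp (-(h ^ 2 * (Real.log p - v) ^ 2)) := by
        rw [Finset.mul_sum]
        refine Finset.sum_congr rfl fun p _ => ?_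
        ring
    _ ≤ _ := mul_le_mul_of_nonneg_left (hB _) (sq_nonneg _)

lemma co_M (N : ℕ) (a : ℕ → ℝ) (h B : ℝ)
    (hB : ∀ v, ∑ p ∈ PX N, a p ^ 2 * Real.exp (-(h ^ 2 * (Real.log p - v) ^ 2)) ≤ B) :
    ∑ m ∈ M2 N, ∑ k ∈ M2 N, bb N a m ^ 2 * bb N a k ^ 2 * Ph (M2 N) h m k ≤
      20 * ((∑ p ∈ PX N, a p ^ 2) ^ 3 * B) := by
  classical
  set S := ∑ p ∈ PX N, a p ^ 2 with hS
  have hS0 : 0 ≤ S := Finset.sum_nonneg fun _ _ => sq_nonneg _
  set A : ℕ × ℕ → ℝ := fun x => a x.1 ^ 2 * a x.2 ^ 2 with hA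
  have hA0 : ∀ x, 0 ≤ A x := fun x => by simp only [hA]; positivity
  have hPh0 : ∀ m k, 0 ≤ Ph (M2 N) h m k := fun m k =>
    Finset.sum_nonneg fun _ _ => (Real.exp_pos _).le
  have hAS : ∑ x ∈ PX N ×ˢ PX N, A x = S ^ 2 := by
    simp only [hA]
    rw [prod_sum N (fun p => a p ^ 2) (fun p => a p ^ 2), sq S]
  calc ∑ m ∈ M2 N, ∑ k ∈ M2 N, bb N a m ^ 2 * bb N a k ^ 2 * Ph (M2 N) h m k ≤
      ∑ m ∈ M2 N, ∑ k ∈ M2 N, (2 * ∑ x ∈ fib N m, A x) * (2 * ∑ y ∈ fib N k, A y) *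
        Ph (M2 N) h m k := by
        refine Finset.sum_le_sum fun m _ => Finset.sum_le_sum fun k _ => ?_
        have h1 := bb_sq N a m
        have h2 := bb_sq N a k
        have h3 := hPh0 m k
        have h4 : 0 ≤ ∑ x ∈ fib N m, A x := Finset.sum_nonneg fun x _ => hA0 x
        apply mul_le_mul_of_nonneg_right _ h3
        exact mul_le_mul h1 h2 (sq_nonneg _) (by positivity)
    _ = 4 * ∑ m ∈ M2 N, ∑ x ∈ fib N m, ∑ k ∈ M2 N, ∑ y ∈ fib N k,
        A x * A y * Ph (M2 N) h (x.1 * x.2) (y.1 * y.2) := by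
        conv_rhs => rw [Finset.mul_sum]
        refine Finset.sum_congr rfl fun m _ => ?_
        have e0 : ∑ x ∈ fib N m, ∑ k ∈ M2 N, ∑ y ∈ fib N k,
            A x * A y * Ph (M2 N) h (x.1 * x.2) (y.1 * y.2) =
            ∑ k ∈ M2 N, ∑ x ∈ fib N m, ∑ y ∈ fib N k,
            A x * A y * Ph (M2 N) h (x.1 * x.2) (y.1 * y.2) := Finset.sum_comm
        conv_rhs => rw [e0, Finset.mul_sum]
        refine Finset.sum_congr rfl fun k _ => ?_
        have e : (2 * ∑ x ∈ fib N m, A x) * (2 * ∑ y ∈ fib N k, A y) * Ph (M2 N) h m k =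
          4 * (((∑ x ∈ fib N m, A x) * (∑ y ∈ fib N k, A y)) * Ph (M2 N) h m k) := by ring
        rw [e, Finset.sum_mul_sum, Finset.sum_mul]
        congr 1
        refine Finset.sum_congr rfl fun x hx => ?_
        rw [Finset.sum_mul]
        refine Finset.sum_congr rfl fun y hy => ?_
        unfold fib at hx hy
        rw [(Finset.mem_filter.1 hx).2, (Finset.mem_filter.1 hy).2]
    _ = 4 * ∑ x ∈ PX N ×ˢ PX N, ∑ y ∈ PX N ×ˢ PX N,
        A x * A y * Ph (M2 N) h (x.1 * x.2) (y.1 * y.2) := by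
        rw [fib_sum]
        congr 1
        refine Finset.sum_congr rfl fun x _ => ?_
        rw [fib_sum]
    _ ≤ 4 * ∑ x ∈ PX N ×ˢ PX N, A x * (5 * (S * B)) := by
        apply mul_le_mul_of_nonneg_left _ (by norm_num)
        refine Finset.sum_le_sum fun x hx => ?_
        calc ∑ y ∈ PX N ×ˢ PX N, A x * A y * Ph (M2 N) h (x.1 * x.2) (y.1 * y.2) ≤
            ∑ y ∈ PX N ×ˢ PX N, A x * (A y *
              Real.exp (-(h ^ 2 * (Real.log y.1 - Real.log x.2) ^ 2)) +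
              A y * Real.exp (-(h ^ 2 * (Real.log y.2 - Real.log x.2) ^ 2)) +
              A y * Real.exp (-(h ^ 2 * (Real.log y.1 - Real.log x.1) ^ 2)) +
              A y * Real.exp (-(h ^ 2 * (Real.log y.2 - Real.log x.1) ^ 2)) +
              A y * Real.exp (-(h ^ 2 * (Real.log y.1 -
                (Real.log x.1 + Real.log x.2 - Real.log y.2)) ^ 2))) := by
              refine Finset.sum_le_sum fun y hy => ?_
              have h1 := Ph_M hx hy h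
              have h2 := hA0 x
              have h3 := hA0 y
              calc _ ≤ A x * A y * _ := mul_le_mul_of_nonneg_left h1 (mul_nonneg h2 h3)
                _ = _ := by ring
          _ = A x * (∑ y ∈ PX N ×ˢ PX N, A y *
              Real.exp (-(h ^ 2 * (Real.log y.1 - Real.log x.2) ^ 2)) +
              ∑ y ∈ PX N ×ˢ PX N, A y *
                Real.exp (-(h ^ 2 * (Real.log y.2 - Real.log x.2) ^ 2)) +
              ∑ y ∈ PX N ×ˢ PX N, A y *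
                Real.exp (-(h ^ 2 * (Real.log y.1 - Real.log x.1) ^ 2)) +
              ∑ y ∈ PX N ×ˢ PX N, A y *
                Real.exp (-(h ^ 2 * (Real.log y.2 - Real.log x.1) ^ 2)) +
              ∑ y ∈ PX N ×ˢ PX N, A y * Real.exp (-(h ^ 2 * (Real.log y.1 -
                (Real.log x.1 + Real.log x.2 - Real.log y.2)) ^ 2))) := by
              rw [← Finset.mul_sum]
              simp only [Finset.sum_add_distrib]
          _ ≤ _ := by
              apply mul_le_mul_of_nonneg_left _ (hA0 x)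
              have g1 := pat1 N a h B hB (fun _ => Real.log x.2)
              have g2 := pat2 N a h B hB (Real.log x.2)
              have g3 := pat1 N a h B hB (fun _ => Real.log x.1)
              have g4 := pat2 N a h B hB (Real.log x.1)
              have g5 := pat1 N a h B hB (fun q => Real.log x.1 + Real.log x.2 - Real.log q)
              rw [← hS] at g1 g2 g3 g4 g5
              simp only [hA]
              linarith
    _ = _ := by
        rw [← Finset.sum_mul, hAS]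
        ring

/-- pointwise bound for the quantities to be excluded -/
noncomputable def Bd (N : ℕ) (a : ℕ → ℝ) (h u : ℝ) : ℝ :=
  ‖OD (PX N) a h u‖ ^ 2 + ‖SD (M2 N) (bb N a) h u‖ ^ 2 + ‖OD (M2 N) (bb N a) h u‖ ^ 2

lemma Bd_cont (N : ℕ) (a : ℕ → ℝ) (h : ℝ) : Continuous (Bd N a h) :=
  (((OD_cont _ _ _).norm.pow 2).add ((SD_cont _ _ _).norm.pow 2)).add ((OD_cont _ _ _).norm.pow 2)

lemma Bd_nonneg (N : ℕ) (a : ℕ → ℝ) (h u : ℝ) : 0 ≤ Bd N a h u := by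
  unfold Bd; positivity

theorem Bd_ms (N : ℕ) (hN : 1 ≤ N) (a : ℕ → ℝ) (h B T : ℝ) (hT : 0 < T) (hB0 : 0 ≤ B)
    (hB : ∀ v, ∑ p ∈ PX N, a p ^ 2 * Real.exp (-(h ^ 2 * (Real.log p - v) ^ 2)) ≤ B)
    (s1 A1 : ℝ) (hs1 : ∑ p ∈ PX N, a p ^ 2 ≤ s1) (hA1 : ∑ p ∈ PX N, |a p| ≤ A1) (hA11 : 1 ≤ A1) :
    ∫ u in T..(2 * T), Bd N a h u ≤
      4 * T * ((3 * s1 + 20 * s1 ^ 3) * B +
        3 * A1 ^ 8 * Real.exp (-(T ^ 2 * (1 / ((N : ℝ) ^ 2) ^ 2) ^ 2) / 2)) := by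
  have hN1 : (1 : ℝ) ≤ N := by exact_mod_cast hN
  have hN0 : (0 : ℝ) < N := by linarith
  set S := ∑ p ∈ PX N, a p ^ 2 with hS
  have hS0 : 0 ≤ S := Finset.sum_nonneg fun _ _ => sq_nonneg _
  set ε := Real.exp (-(T ^ 2 * (1 / ((N : ℝ) ^ 2) ^ 2) ^ 2) / 2) with hε
  have hε0 : 0 < ε := Real.exp_pos _
  have hεle : Real.exp (-(T ^ 2 * (1 / (N : ℝ) ^ 2) ^ 2) / 2) ≤ ε := by
    apply Real.exp_le_exp.2
    have h1 : 1 / ((N : ℝ) ^ 2) ^ 2 ≤ 1 / (N : ℝ) ^ 2 := by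
      apply one_div_le_one_div_of_le (by positivity)
      have : (1 : ℝ) ≤ (N : ℝ) ^ 2 := by nlinarith
      nlinarith
    have h2 : T ^ 2 * (1 / ((N : ℝ) ^ 2) ^ 2) ^ 2 ≤ T ^ 2 * (1 / (N : ℝ) ^ 2) ^ 2 := by gcongr
    linarith
  have habs0 : 0 ≤ ∑ p ∈ PX N, |a p| := Finset.sum_nonneg fun _ _ => abs_nonneg _
  have h1 : ∫ u in T..(2 * T), ‖OD (PX N) a h u‖ ^ 2 ≤ 4 * T * (s1 * B + A1 ^ 8 * ε) := by
    refine (od_ms (PX N) (fun n hn => (mem_PX.1 hn).1.one_lt.le) a h T N hT hN0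
      (fun n hn => by exact_mod_cast (mem_PX.1 hn).2)).trans ?_
    apply mul_le_mul_of_nonneg_left _ (by positivity)
    apply add_le_add
    · exact (co_P N a h B hB).trans (mul_le_mul_of_nonneg_right hs1 hB0)
    · have : (∑ n ∈ PX N, |a n|) ^ 4 ≤ A1 ^ 8 := by
        calc (∑ n ∈ PX N, |a n|) ^ 4 ≤ A1 ^ 4 := by gcongr
          _ ≤ A1 ^ 8 := pow_le_pow_right₀ hA11 (by norm_num)
      gcongr
  have hbb := bb_abs N a
  have hbb0 : 0 ≤ ∑ n ∈ M2 N, |bb N a n| := Finset.sum_nonneg fun _ _ => abs_nonneg _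
  have hbb2 : ∑ n ∈ M2 N, |bb N a n| ≤ A1 ^ 2 := hbb.trans (by gcongr)
  have h3 : ∫ u in T..(2 * T), ‖OD (M2 N) (bb N a) h u‖ ^ 2 ≤
      4 * T * (20 * s1 ^ 3 * B + A1 ^ 8 * ε) := by
    refine (od_ms (M2 N) (fun n hn => M2_pos hn) (bb N a) h T ((N : ℝ) ^ 2) hT (by positivity)
      (fun n hn => M2_le hn)).trans ?_
    apply mul_le_mul_of_nonneg_left _ (by positivity)
    apply add_le_add
    · refine (co_M N a h B hB).trans ?_
      have : S ^ 3 ≤ s1 ^ 3 := by gcongr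
      calc 20 * (S ^ 3 * B) ≤ 20 * (s1 ^ 3 * B) := by gcongr
        _ = _ := by ring
    · have : (∑ n ∈ M2 N, |bb N a n|) ^ 4 ≤ A1 ^ 8 := by
        calc (∑ n ∈ M2 N, |bb N a n|) ^ 4 ≤ (A1 ^ 2) ^ 4 := by gcongr
          _ = A1 ^ 8 := by ring
      gcongr
  have h2 : ∫ u in T..(2 * T), ‖SD (M2 N) (bb N a) h u‖ ^ 2 ≤
      4 * T * (2 * s1 * B + A1 ^ 8 * ε) := by
    have := MS.gm_sep (M2 N) (fun n => ((bb N a n * Real.exp (-(h ^ 2 * Real.log n ^ 2) / 2) : ℝ) : ℂ))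
      (fun n => Real.log n) T (1 / (N : ℝ) ^ 2) hT (by positivity) (fun i hi j hj hij =>
        MS.log_sep (M2_pos hi) (M2_pos hj) hij (M2_le hi) (M2_le hj))
    have e : ∀ u, ‖SD (M2 N) (bb N a) h u‖ ^ 2 = ‖∑ n ∈ M2 N,
      ((bb N a n * Real.exp (-(h ^ 2 * Real.log n ^ 2) / 2) : ℝ) : ℂ) *
        cexp (((u * Real.log n : ℝ) : ℂ) * I)‖ ^ 2 := fun u => rfl
    simp_rw [e]
    refine this.trans ?_
    apply mul_le_mul_of_nonneg_left _ (by positivity)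
    apply add_le_add
    · have e2 : ∀ n : ℕ, ‖((bb N a n * Real.exp (-(h ^ 2 * Real.log n ^ 2) / 2) : ℝ) : ℂ)‖ ^ 2 =
          bb N a n ^ 2 * Real.exp (-(h ^ 2 * Real.log n ^ 2)) := by
        intro n
        rw [Complex.norm_real, Real.norm_eq_abs, sq_abs, mul_pow, ← Real.exp_nat_mul]
        congr 2
        push_cast
        ring
      simp_rw [e2]
      refine (sd_sum N a h B hB).trans ?_
      calc 2 * (S * B) ≤ 2 * (s1 * B) := by gcongr
        _ = _ := by ring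
    · have e3 : ∑ n ∈ M2 N, ‖((bb N a n * Real.exp (-(h ^ 2 * Real.log n ^ 2) / 2) : ℝ) : ℂ)‖ ≤
          A1 ^ 2 := by
        refine le_trans (Finset.sum_le_sum fun n _ => ?_) hbb2
        rw [Complex.norm_real, Real.norm_eq_abs, abs_mul]
        apply mul_le_of_le_one_right (abs_nonneg _)
        rw [abs_of_pos (Real.exp_pos _), Real.exp_le_one_iff]
        have : 0 ≤ h ^ 2 * Real.log n ^ 2 := by positivity
        linarith
      have e4 : 0 ≤ ∑ n ∈ M2 N,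
          ‖((bb N a n * Real.exp (-(h ^ 2 * Real.log n ^ 2) / 2) : ℝ) : ℂ)‖ :=
        Finset.sum_nonneg fun _ _ => norm_nonneg _
      have e5 : (∑ n ∈ M2 N,
          ‖((bb N a n * Real.exp (-(h ^ 2 * Real.log n ^ 2) / 2) : ℝ) : ℂ)‖) ^ 2 ≤ A1 ^ 8 := by
        calc _ ≤ (A1 ^ 2) ^ 2 := by gcongr
          _ = A1 ^ 4 := by ring
          _ ≤ A1 ^ 8 := pow_le_pow_right₀ hA11 (by norm_num)
      gcongr
  have c1 : Continuous fun u => ‖OD (PX N) a h u‖ ^ 2 := (OD_cont _ _ _).norm.pow 2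
  have c2 : Continuous fun u => ‖SD (M2 N) (bb N a) h u‖ ^ 2 := (SD_cont _ _ _).norm.pow 2
  have c3 : Continuous fun u => ‖OD (M2 N) (bb N a) h u‖ ^ 2 := (OD_cont _ _ _).norm.pow 2
  have hsum : ∫ u in T..(2 * T), Bd N a h u = (∫ u in T..(2 * T), ‖OD (PX N) a h u‖ ^ 2) +
      (∫ u in T..(2 * T), ‖SD (M2 N) (bb N a) h u‖ ^ 2) +
      ∫ u in T..(2 * T), ‖OD (M2 N) (bb N a) h u‖ ^ 2 := by
    unfold Bd
    have i12 : IntervalIntegrable (fun u => ‖OD (PX N) a h u‖ ^ 2 +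
        ‖SD (M2 N) (bb N a) h u‖ ^ 2) volume T (2 * T) := (c1.add c2).intervalIntegrable _ _
    rw [← intervalIntegral.integral_add (c1.intervalIntegrable _ _) (c2.intervalIntegrable _ _),
      ← intervalIntegral.integral_add i12 (c3.intervalIntegrable _ _)]
  rw [hsum]
  calc _ ≤ 4 * T * (s1 * B + A1 ^ 8 * ε) + 4 * T * (2 * s1 * B + A1 ^ 8 * ε) +
      4 * T * (20 * s1 ^ 3 * B + A1 ^ 8 * ε) := by linarith
    _ = _ := by ring

end Pool.Agent.TH800.DM
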