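import Pool.Agent.TH800.DM.Kr

/-! Size of the coefficients. -/

open Complex Filter Topology Set MeasureTheory

namespace Pool.Agent.TH800.DM

open MS (PX aa gau0 mem_PX gau0_pos gau0_cont)

/-- upper bound for the sum of the squares -/
theorem sum_up : ∃ C : ℝ, 0 < C ∧ ∀ (T : ℝ) (ψ : ℝ → ℝ) (B : ℝ) (N : ℕ), 10 ≤ T → 1 ≤ N →
    Real.log N ≤ Real.log T → (∀ α, |ψ α| ≤ B) →
    ∑ p ∈ PX N, ac T ψ p ^ 2 ≤ C * B ^ 2 := by
  obtain ⟨C, hC, h⟩ := MS.sum_aa
  refine ⟨1 + 2 * C, by positivity, fun T ψ B N hT hN hNL hB => ?_⟩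
  have hL1 : 1 ≤ Real.log T := by
    rw [Real.le_log_iff_exp_le (by linarith)]
    exact (Real.exp_one_lt_d9.le.trans (by norm_num)).trans hT
  set L := Real.log T with hL
  have h1 := (abs_le.1 (h N hN)).2
  have hlN := Real.log_natCast_nonneg N
  have h2 : ∑ p ∈ PX N, aa p ^ 2 ≤ (1 + 2 * C) * L ^ 2 := by
    have a1 : Real.log N ^ 2 ≤ L ^ 2 := pow_le_pow_left₀ hlN hNL 2
    have a2 : C * (Real.log N + 1) ≤ C * (2 * L ^ 2) := by
      apply mul_le_mul_of_nonneg_left _ hC.le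
      nlinarith
    have a3 := sq_nonneg L
    linarith
  calc ∑ p ∈ PX N, ac T ψ p ^ 2 ≤ ∑ p ∈ PX N, (B / L) ^ 2 * aa p ^ 2 := by
        refine Finset.sum_le_sum fun p _ => ?_
        unfold ac
        rw [mul_pow, mul_comm]
        apply mul_le_mul_of_nonneg_right _ (sq_nonneg _)
        rw [← sq_abs]
        have := cw_le (by linarith : 1 < T) hB (p : ℝ)
        gcongr
    _ = (B / L) ^ 2 * ∑ p ∈ PX N, aa p ^ 2 := by rw [Finset.mul_sum]
    _ ≤ (B / L) ^ 2 * ((1 + 2 * C) * L ^ 2) := by gcongr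
    _ = _ := by field_simp

lemma PX_mono {M N : ℕ} (h : M ≤ N) : PX M ⊆ PX N := by
  intro p hp
  rw [mem_PX] at hp ⊢
  exact ⟨hp.1, hp.2.trans h⟩

lemma psi_low {α : ℝ} (h1 : 11 / 200 ≤ α) (h2 : α ≤ 19 / 200) : 1 / 10 ^ 11 ≤ psi α := by
  unfold psi
  rw [chi_eq (by linarith) (by linarith)]
  unfold qq
  have h3 : (1 : ℝ) / 200 * (1 / 200) ≤ (α - 1 / 20) * (1 / 10 - α) := by
    apply mul_le_mul (by linarith) (by linarith) (by norm_num) (by linarith)
  have h4 : ((1 : ℝ) / 200 * (1 / 200)) ^ 2 ≤ ((α - 1 / 20) * (1 / 10 - α)) ^ 2 := by gcongr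
  have h5 : (1 : ℝ) / 10 ≤ Real.sin (Real.pi * α) := by
    have h6 := Real.mul_le_sin (x := Real.pi * α) (by have := Real.pi_pos; nlinarith) (by
      have := Real.pi_pos
      nlinarith)
    have h7 : 2 / Real.pi * (Real.pi * α) = 2 * α := by
      have := Real.pi_pos
      field_simp
    rw [h7] at h6
    linarith
  calc (1 : ℝ) / 10 ^ 11 ≤ 2 * ((1 : ℝ) / 200 * (1 / 200)) ^ 2 * (1 / 10) := by norm_num
    _ ≤ _ := by gcongr

lemma psi_nonneg {α : ℝ} (h0 : 0 ≤ α) : 0 ≤ psi α := by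
  by_cases h : α ≤ 1
  · unfold psi
    have h1 := chi_nonneg α
    have h2 : 0 ≤ Real.sin (Real.pi * α) := by
      apply Real.sin_nonneg_of_nonneg_of_le_pi
      · have := Real.pi_pos; positivity
      · have := Real.pi_pos; nlinarith
    positivity
  · rw [psi_zero2 (by linarith)]

/-- lower bound for the coefficients -/
lemma cw_low {T x : ℝ} (hL : 200 ≤ Real.log T) (h1 : 3 / 50 * Real.log T ≤ Real.log x)
    (h2 : Real.log x ≤ 9 / 100 * Real.log T) :
    1 / 10 ^ 12 / Real.log T ≤ cw T psi x := by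
  set L := Real.log T with hLd
  have hL0 : 0 < L := by linarith
  unfold cw
  rw [← hLd]
  set y := Real.log x with hy
  have hc : Continuous fun u : ℝ => psi (u / L) / L * gau0 (u - y) :=
    ((psi_cont.comp (by fun_prop)).div_const _).mul (gau0_cont.comp (by fun_prop))
  have i := fun a b : ℝ => hc.intervalIntegrable (μ := volume) a b
  have hy1 : 0 ≤ y - 1 := by linarith
  have hy2 : y + 1 ≤ L := by linarith
  have hnn : ∀ u, 0 ≤ u → 0 ≤ psi (u / L) / L * gau0 (u - y) := fun u hu =>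
    mul_nonneg (div_nonneg (psi_nonneg (by positivity)) hL0.le) (gau0_pos _).le
  rw [← intervalIntegral.integral_add_adjacent_intervals (i 0 (y - 1)) (i (y - 1) L),
    ← intervalIntegral.integral_add_adjacent_intervals (i (y - 1) (y + 1)) (i (y + 1) L)]
  have g1 : 0 ≤ ∫ u in (0 : ℝ)..(y - 1), psi (u / L) / L * gau0 (u - y) :=
    intervalIntegral.integral_nonneg hy1 fun u hu => hnn u hu.1
  have g2 : 0 ≤ ∫ u in (y + 1)..L, psi (u / L) / L * gau0 (u - y) :=
    intervalIntegral.integral_nonneg hy2 fun u hu => hnn u (by linarith [hu.1])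
  have g3 : ∫ u in (y - 1)..(y + 1), (1 / 10 ^ 12 / L / 2 : ℝ) ≤
      ∫ u in (y - 1)..(y + 1), psi (u / L) / L * gau0 (u - y) := by
    apply intervalIntegral.integral_mono_on (by linarith) (continuous_const.intervalIntegrable _ _)
      (i _ _)
    intro u hu
    have hu1 : 11 / 200 ≤ u / L := by
      rw [le_div_iff₀ hL0]
      linarith [hu.1]
    have hu2 : u / L ≤ 19 / 200 := by
      rw [div_le_iff₀ hL0]
      linarith [hu.2]
    have h3 := psi_low hu1 hu2
    have h4 : (1 : ℝ) / 8 ≤ gau0 (u - y) := by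
      unfold MS.gau0
      have h5 : (u - y) ^ 2 ≤ 1 := by
        have := hu.1
        have := hu.2
        nlinarith
      have h6 : 1 - 1 / 2 ≤ Real.exp (-(u - y) ^ 2 / 2) := by
        have := Real.add_one_le_exp (-(u - y) ^ 2 / 2)
        linarith
      have h7 : (1 : ℝ) / 2.6 ≤ 1 / Real.sqrt (2 * Real.pi) := by
        have h4 : Real.sqrt (2 * Real.pi) ≤ 2.6 := by
          rw [Real.sqrt_le_left (by norm_num)]
          have := Real.pi_lt_d2
          nlinarith
        exact one_div_le_one_div_of_le MS.s2pi h4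
      calc (1 : ℝ) / 8 ≤ 1 / 2.6 * (1 - 1 / 2) := by norm_num
        _ ≤ _ := by gcongr
    calc (1 / 10 ^ 12 / L / 2 : ℝ) ≤ 1 / 10 ^ 11 / L * (1 / 8) := by
          rw [div_div, div_div, div_mul_eq_mul_div, div_le_div_iff₀ (by positivity) (by positivity)]
          nlinarith
      _ ≤ _ := by gcongr
  rw [intervalIntegral.integral_const, smul_eq_mul] at g3
  have e : (y + 1 - (y - 1)) * (1 / 10 ^ 12 / L / 2 : ℝ) = 1 / 10 ^ 12 / L := by ring
  rw [e] at g3
  linarith

/-- lower bound for the sum of the squares -/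
theorem sum_low : ∃ c L0 : ℝ, 0 < c ∧ ∀ T : ℝ, L0 ≤ Real.log T →
    c ≤ ∑ p ∈ PX ⌊Real.exp (2 * (1 / 10 * Real.log T))⌋₊, ac T psi p ^ 2 := by
  obtain ⟨C, hC, h⟩ := MS.sum_aa
  refine ⟨(1 / 10 ^ 12) ^ 2 * (1 / 1000), max 200 (1000 * (1 + C)), by positivity,
    fun T hT => ?_⟩
  have hL2 : 200 ≤ Real.log T := (le_max_left _ _).trans hT
  have hL3 : 1000 * (1 + C) ≤ Real.log T := (le_max_right _ _).trans hT
  set L := Real.log T with hL
  have hL0 : 0 < L := by linarith
  set N1 := ⌊Real.exp (3 / 50 * L)⌋₊ with hN1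
  set N2 := ⌊Real.exp (9 / 100 * L)⌋₊ with hN2
  set N := ⌊Real.exp (2 * (1 / 10 * L))⌋₊ with hN
  have hN12 : N1 ≤ N2 := Nat.floor_mono (Real.exp_le_exp.2 (by linarith))
  have hN2N : N2 ≤ N := Nat.floor_mono (Real.exp_le_exp.2 (by linarith))
  have hN1p : 1 ≤ N1 := by
    apply Nat.le_floor
    push_cast
    rw [Real.one_le_exp_iff]
    positivity
  have hN2p : 1 ≤ N2 := hN1p.trans hN12
  have u1 : Real.log N1 ≤ 3 / 50 * L := by
    have : Real.log N1 ≤ Real.log (Real.exp (3 / 50 * L)) :=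
      Real.log_le_log (by exact_mod_cast hN1p) (Nat.floor_le (Real.exp_pos _).le)
    rwa [Real.log_exp] at this
  have u2 : 9 / 100 * L - 1 ≤ Real.log N2 := by
    rw [Real.le_log_iff_exp_le (by exact_mod_cast hN2p)]
    have h1 : Real.exp (9 / 100 * L) < N2 + 1 := Nat.lt_floor_add_one _
    have h2 : Real.exp (9 / 100 * L - 1) * 2 ≤ Real.exp (9 / 100 * L) := by
      have : Real.exp (9 / 100 * L) = Real.exp (9 / 100 * L - 1) * Real.exp 1 := by
        rw [← Real.exp_add]; congr 1; ring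
      rw [this]
      have h3 := Real.add_one_le_exp (1 : ℝ)
      have := Real.exp_pos (9 / 100 * L - 1)
      nlinarith
    have h3 : 1 ≤ Real.exp (9 / 100 * L - 1) := by
      rw [Real.one_le_exp_iff]; linarith
    linarith
  have u3 : Real.log N2 ≤ 9 / 100 * L := by
    have : Real.log N2 ≤ Real.log (Real.exp (9 / 100 * L)) :=
      Real.log_le_log (by exact_mod_cast hN2p) (Nat.floor_le (Real.exp_pos _).le)
    rwa [Real.log_exp] at this
  have v1 := (abs_le.1 (h N1 hN1p)).2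
  have v2 := (abs_le.1 (h N2 hN2p)).1
  have hl1 := Real.log_natCast_nonneg N1
  have hdiff : 1 / 1000 * L ^ 2 ≤ ∑ p ∈ PX N2 \ PX N1, aa p ^ 2 := by
    have e := Finset.sum_sdiff (f := fun p => aa p ^ 2) (PX_mono hN12)
    have w1 : (9 / 100 * L - 1) ^ 2 ≤ Real.log N2 ^ 2 := by
      apply pow_le_pow_left₀ (by linarith) u2
    have w2 : Real.log N1 ^ 2 ≤ (3 / 50 * L) ^ 2 := pow_le_pow_left₀ hl1 u1 2
    have w3 : C * (Real.log N2 + 1) ≤ C * (9 / 100 * L + 1) := by gcongr
    have w4 : C * (Real.log N1 + 1) ≤ C * (3 / 50 * L + 1) := by gcongr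
    have w5 : C * L ≤ 1 / 1000 * L ^ 2 := by nlinarith
    nlinarith
  have hsub : PX N2 \ PX N1 ⊆ PX N := (Finset.sdiff_subset).trans (PX_mono hN2N)
  calc (1 / 10 ^ 12) ^ 2 * (1 / 1000) = (1 / 10 ^ 12 / L) ^ 2 * (1 / 1000 * L ^ 2) := by
        field_simp
    _ ≤ (1 / 10 ^ 12 / L) ^ 2 * ∑ p ∈ PX N2 \ PX N1, aa p ^ 2 := by gcongr
    _ = ∑ p ∈ PX N2 \ PX N1, (1 / 10 ^ 12 / L) ^ 2 * aa p ^ 2 := by rw [Finset.mul_sum]
    _ ≤ ∑ p ∈ PX N2 \ PX N1, ac T psi p ^ 2 := by
        refine Finset.sum_le_sum fun p hp => ?_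
        rw [Finset.mem_sdiff, mem_PX, mem_PX] at hp
        obtain ⟨⟨hp1, hp2⟩, hp3⟩ := hp
        have hpN1 : N1 < p := by
          by_contra hcon
          exact hp3 ⟨hp1, by omega⟩
        have hp0 : (0 : ℝ) < p := by exact_mod_cast hp1.pos
        have l1 : 3 / 50 * L ≤ Real.log p := by
          rw [Real.le_log_iff_exp_le hp0]
          exact ((Nat.floor_lt (Real.exp_pos _).le).1 hpN1).le
        have l2 : Real.log p ≤ 9 / 100 * L := by
          refine le_trans (Real.log_le_log hp0 ?_) u3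
          exact_mod_cast hp2
        have h3 := cw_low hL2 l1 l2
        unfold ac
        rw [mul_pow, mul_comm]
        have : 0 < 1 / 10 ^ 12 / L := by positivity
        rw [hL] at this
        gcongr
    _ ≤ _ := Finset.sum_le_sum_of_subset_of_nonneg hsub fun p _ _ => sq_nonneg _

/-- the main term -/
lemma Mm_small {T : ℝ} (hL : 1 ≤ Real.log T) : |Mm T psi| ≤ 1600 / Real.log T := by
  set L := Real.log T with hLd
  have hL0 : 0 < L := by linarith
  unfold Mm
  rw [← hLd]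
  have hc : Continuous fun u : ℝ => psi (u / L) * gau0 u :=
    (psi_cont.comp (by fun_prop)).mul gau0_cont
  have h1 : ‖∫ u in (0 : ℝ)..L, psi (u / L) * gau0 u‖ ≤ 1600 / L ^ 2 * |L - 0| := by
    apply intervalIntegral.norm_integral_le_of_norm_le_const
    intro u hu
    rw [Set.uIoc_of_le hL0.le] at hu
    rw [Real.norm_eq_abs, abs_mul, abs_of_pos (gau0_pos u)]
    by_cases h : u / L ≤ 1 / 20
    · rw [psi_zero1 h, abs_zero, zero_mul]
      positivity
    · push Not at h
      rw [lt_div_iff₀ hL0] at h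
      have h2 : gau0 u ≤ 800 / L ^ 2 := by
        unfold MS.gau0
        have h3 := SP.pp_inv_sqrt_le
        have h4 : Real.exp (-u ^ 2 / 2) ≤ 800 / L ^ 2 := by
          have h5 := Real.add_one_le_exp (u ^ 2 / 2)
          have h6 : L ^ 2 / 800 ≤ Real.exp (u ^ 2 / 2) := by nlinarith
          rw [neg_div, Real.exp_neg, inv_le_comm₀ (Real.exp_pos _) (by positivity), inv_div]
          exact h6
        calc _ ≤ 1 * (800 / L ^ 2) := by gcongr
          _ = _ := one_mul _
      calc |psi (u / L)| * gau0 u ≤ 2 * (800 / L ^ 2) := by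
            have := psi_le (u / L)
            have := (gau0_pos u).le
            gcongr
        _ = _ := by ring
  rw [Real.norm_eq_abs, sub_zero, abs_of_pos hL0] at h1
  refine h1.trans (le_of_eq ?_)
  field_simp

end Pool.Agent.TH800.DM
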