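import Pool.Agent.TH800.MS.Sg5

/-! Summation over the blocks and passage from short to long windows. -/

open Filter Topology Set MeasureTheory

namespace Pool.Agent.TH800.DM

open SG (ord NZ)

lemma sqrt_le : ∀ N : ℕ, 2 ≤ N → (N : ℝ) ^ (1 / 2 : ℝ) ≤ 2 * (N * (1 / Real.log N)) := by
  intro N hN
  have hN2 : (2 : ℝ) ≤ N := by exact_mod_cast hN
  have hNp : (0 : ℝ) < N := by linarith
  have hl := Real.log_pos (show (1 : ℝ) < N by linarith)
  have h1 := Real.log_le_rpow_div hNp.le (show (0 : ℝ) < 1 / 2 by norm_num)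
  have h2 : (N : ℝ) ^ (1 / 2 : ℝ) * (N : ℝ) ^ (1 / 2 : ℝ) = N := by
    rw [← Real.rpow_add hNp]
    norm_num
  have h3 : 2 * ((N : ℝ) * (1 / Real.log N)) = 2 * N / Real.log N := by ring
  rw [h3, le_div_iff₀ hl]
  have h4 : 0 ≤ (N : ℝ) ^ (1 / 2 : ℝ) := by positivity
  have h5 : Real.log N ≤ 2 * (N : ℝ) ^ (1 / 2 : ℝ) := by
    have : (N : ℝ) ^ (1 / 2 : ℝ) / (1 / 2) = 2 * (N : ℝ) ^ (1 / 2 : ℝ) := by ring
    linarith
  nlinarith

/-- summation over the blocks -/
theorem short (P : ℕ → ℕ → Prop) (K T0 m0 : ℝ) (hK : 0 < K) (hT0 : 10 ≤ T0) (hm0 : 1 ≤ m0)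
    (hblock : ∀ T : ℝ, T0 ≤ T → ∀ m : ℕ, m0 ≤ m → (m : ℝ) ≤ 1 / 2 * Real.log T →
      ({n : ℕ | 1 ≤ n ∧ T ≤ ord n ∧ ord n ≤ 3 / 2 * T ∧ P m n}.ncard : ℝ) ≤
        K * (1 / m) * (T * Real.log T)) :
    ∃ K' : ℝ, ∃ N0 : ℕ, 0 < K' ∧ 3 ≤ N0 ∧ ∀ N : ℕ, N0 ≤ N → ∀ m : ℕ,
      m0 ≤ m → (m : ℝ) ≤ 1 / 8 * Real.log N →
      ({n : ℕ | 1 ≤ n ∧ n ≤ N ∧ P m n}.ncard : ℝ) ≤ K' * (N * (1 / m)) := by
  obtain ⟨K2, hK2, hsq⟩ := MS.NZ_sq
  obtain ⟨c1, T2, hc1, hT2, hlow⟩ := LG.GapAux.NZ_low
  obtain ⟨N1, hN1⟩ := (SG.ord_tendsto.eventually_ge_atTop (3 * T2 + 3)).exists_forall_of_atTop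
  refine ⟨3 * K * (3 * (2 / c1)) + K2 * (4 * (T0 ^ 2 + 1)), max N1 3, by positivity,
    le_max_right _ _, fun N hN m hm hmL => ?_⟩
  have hNN1 : N1 ≤ N := (le_max_left _ _).trans hN
  have hN3 : 3 ≤ N := (le_max_right _ _).trans hN
  have hN3r : (3 : ℝ) ≤ N := by exact_mod_cast hN3
  have hN0 : (0 : ℝ) < N := by linarith
  have hlN : 0 < Real.log N := Real.log_pos (by linarith)
  set Y := ord N with hY
  have hY1 : 3 * T2 + 3 ≤ Y := hN1 N hNN1
  have hYpos : 0 < Y := by linarith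
  have hm0' : (0 : ℝ) < m := by linarith
  set T1 := max T0 (Real.exp (2 * m)) with hT1
  have hT110 : 10 ≤ T1 := hT0.trans (le_max_left _ _)
  have h1 := LG.CU.sum_blocks (P m)
    (K * (1 / m)) T1 (by positivity) hT110 (fun T hT => by
      apply hblock T ((le_max_left _ _).trans hT) m hm
      have h2 : Real.exp (2 * m) ≤ T := (le_max_right _ _).trans hT
      have h3 : 2 * m ≤ Real.log T := by
        rw [Real.le_log_iff_exp_le (by linarith [Real.exp_pos (2 * (m : ℝ))])]
        exact h2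
      linarith) (2 * T1) le_rfl Y (by linarith)
  set S : Set ℕ := {n : ℕ | 1 ≤ n ∧ n ≤ N ∧ P m n} with hS
  set S1 : Set ℕ := Set.Icc 1 (NZ (2 * T1)) with hS1
  set S2 : Set ℕ := {n : ℕ | 1 ≤ n ∧ 2 * T1 < ord n ∧ ord n ≤ Y ∧ P m n} with hS2
  have hsub : S ⊆ S1 ∪ S2 := by
    rintro n ⟨a1, a2, a3⟩
    by_cases hc : ord n ≤ 2 * T1
    · left
      rw [hS1, Set.mem_Icc]
      exact ⟨a1, (SG.ord_le_iff a1 _).mp hc⟩
    · right
      exact ⟨a1, not_le.1 hc, SG.ord_mono a1 a2, a3⟩
  have hfin2 : S2.Finite := LG.GapAux.fin_ord Y _ (fun n hn => ⟨hn.1, hn.2.2.1⟩)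
  have hcard1 : S1.ncard = NZ (2 * T1) := by
    rw [hS1, ← Finset.coe_Icc, Set.ncard_coe_finset, Nat.card_Icc]
    omega
  have h2 : S.ncard ≤ NZ (2 * T1) + S2.ncard := by
    rw [← hcard1]
    exact (Set.ncard_le_ncard hsub ((Set.finite_Icc _ _).union hfin2)).trans
      (Set.ncard_union_le _ _)
  have h2r : (S.ncard : ℝ) ≤ NZ (2 * T1) + S2.ncard := by exact_mod_cast h2
  -- small ordinates
  have hT1sq : T1 ^ 2 ≤ (T0 ^ 2 + 1) * (N : ℝ) ^ (1 / 2 : ℝ) := by
    have hN1' : 1 ≤ (N : ℝ) ^ (1 / 2 : ℝ) := Real.one_le_rpow (by linarith) (by norm_num)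
    have h3 : Real.exp (2 * m) ^ 2 ≤ (N : ℝ) ^ (1 / 2 : ℝ) := by
      rw [← Real.exp_nat_mul, Real.rpow_def_of_pos hN0]
      apply Real.exp_le_exp.2
      push_cast
      linarith
    rcases le_total T0 (Real.exp (2 * m)) with h4 | h4
    · rw [hT1, max_eq_right h4]
      refine h3.trans ?_
      have : 0 ≤ T0 ^ 2 := sq_nonneg _
      nlinarith
    · rw [hT1, max_eq_left h4]
      have : 0 ≤ T0 ^ 2 := sq_nonneg _
      nlinarith
  have hsm : (N : ℝ) ^ (1 / 2 : ℝ) ≤ N * (1 / m) := by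
    refine (sqrt_le N (by omega)).trans ?_
    have h4 : 1 / Real.log N ≤ 1 / 8 * (1 / m) := by
      rw [one_div_mul_one_div, one_div_le_one_div hlN (by positivity)]
      linarith
    calc 2 * ((N : ℝ) * (1 / Real.log N)) ≤ 2 * (N * (1 / 8 * (1 / m))) := by gcongr
      _ = 1 / 4 * (N * (1 / m)) := by ring
      _ ≤ 1 * (N * (1 / m)) := by gcongr; norm_num
      _ = _ := one_mul _
  have h3 : (NZ (2 * T1) : ℝ) ≤ K2 * (4 * (T0 ^ 2 + 1)) * (N * (1 / m)) := by
    calc (NZ (2 * T1) : ℝ) ≤ K2 * (2 * T1) ^ 2 := hsq _ (by linarith)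
      _ = K2 * 4 * T1 ^ 2 := by ring
      _ ≤ K2 * 4 * ((T0 ^ 2 + 1) * (N : ℝ) ^ (1 / 2 : ℝ)) := by gcongr
      _ ≤ K2 * 4 * ((T0 ^ 2 + 1) * (N * (1 / m))) := by gcongr
      _ = _ := by ring
  -- large ordinates
  have h4 := hlow (Y / 3) (by linarith)
  have h5 : NZ (2 * (Y / 3)) < N := by
    by_contra hcon
    push Not at hcon
    have h5 : ord N ≤ 2 * (Y / 3) := (SG.ord_le_iff (by omega) _).mpr hcon
    rw [← hY] at h5
    linarith
  have h6 : (NZ (2 * (Y / 3)) : ℝ) ≤ N := by exact_mod_cast h5.le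
  have h7 : Real.log Y ≤ 2 * Real.log (Y / 3) := by
    have h7 : Y ≤ (Y / 3) ^ 2 := by nlinarith
    have h8 := Real.log_le_log hYpos h7
    rw [Real.log_pow] at h8
    push_cast at h8
    exact h8
  have h9 : Y * Real.log Y ≤ 3 * (2 / c1) * N := by
    have h10 : c1 * (Y / 3 * Real.log (Y / 3)) ≤ N := h4.trans h6
    have h11 : Y * Real.log Y ≤ Y * (2 * Real.log (Y / 3)) := mul_le_mul_of_nonneg_left h7 hYpos.le
    have h12 : Y * (2 * Real.log (Y / 3)) = 3 * (2 / c1) * (c1 * (Y / 3 * Real.log (Y / 3))) := by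
      field_simp
    rw [h12] at h11
    refine h11.trans (mul_le_mul_of_nonneg_left h10 (by positivity))
  have h10 : (S2.ncard : ℝ) ≤ 3 * K * (3 * (2 / c1)) * (N * (1 / m)) := by
    calc (S2.ncard : ℝ) ≤ 3 * (K * (1 / m)) * (Y * Real.log Y) := h1
      _ ≤ 3 * (K * (1 / m)) * (3 * (2 / c1) * N) := by gcongr
      _ = _ := by ring
  calc (S.ncard : ℝ) ≤ K2 * (4 * (T0 ^ 2 + 1)) * (N * (1 / m)) +
      3 * K * (3 * (2 / c1)) * (N * (1 / m)) := h2r.trans (add_le_add h3 h10)
    _ = _ := by ring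

/-- a window with a small sum contains many short windows with small sums -/
lemma pigeon (X : ℕ → ℝ) (hX : ∀ n, 0 ≤ X n) (c : ℝ) (hc : 0 < c) (n m m' : ℕ) (hm' : 1 ≤ m')
    (h2 : 2 * m' ≤ m) (h : ∑ i ∈ Finset.range m, X (n + i) ≤ c / 4 * m) :
    (m : ℝ) / 4 ≤ (((Finset.range m).filter
      (fun j => ∑ i ∈ Finset.range m', X (n + j + i) ≤ c * m')).card : ℝ) := by
  classical
  have hm0 : (0 : ℝ) < m := by
    have : 0 < m := by omega
    exact_mod_cast this
  have hm'0 : (0 : ℝ) < m' := by exact_mod_cast hm'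
  set R := Finset.range (m - m' + 1) with hR
  set G := R.filter (fun j => ∑ i ∈ Finset.range m', X (n + j + i) ≤ c * m') with hG
  set J := R.filter (fun j => ¬ ∑ i ∈ Finset.range m', X (n + j + i) ≤ c * m') with hJ
  have hsum : ∑ j ∈ R, ∑ i ∈ Finset.range m', X (n + j + i) ≤
      m' * ∑ i ∈ Finset.range m, X (n + i) := by
    rw [Finset.sum_comm]
    calc ∑ i ∈ Finset.range m', ∑ j ∈ R, X (n + j + i) ≤
        ∑ i ∈ Finset.range m', ∑ k ∈ Finset.range m, X (n + k) := by
          refine Finset.sum_le_sum fun i hi => ?_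
          rw [Finset.mem_range] at hi
          have e : ∑ j ∈ R, X (n + j + i) = ∑ k ∈ R.image (fun j => j + i), X (n + k) := by
            rw [Finset.sum_image (fun a _ b _ h => by
              have h' : a + i = b + i := h
              omega)]
            refine Finset.sum_congr rfl fun j _ => ?_
            rw [add_assoc]
          rw [e]
          apply Finset.sum_le_sum_of_subset_of_nonneg
          · intro k hk
            rw [Finset.mem_image] at hk
            obtain ⟨j, hj, rfl⟩ := hk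
            rw [hR, Finset.mem_range] at hj
            rw [Finset.mem_range]
            omega
          · intro k _ _
            exact hX _
      _ = _ := by rw [Finset.sum_const, Finset.card_range, nsmul_eq_mul]
  have hJc : (J.card : ℝ) * (c * m') ≤ ∑ j ∈ R, ∑ i ∈ Finset.range m', X (n + j + i) := by
    calc (J.card : ℝ) * (c * m') = ∑ j ∈ J, c * m' := by
          rw [Finset.sum_const, nsmul_eq_mul]
      _ ≤ ∑ j ∈ J, ∑ i ∈ Finset.range m', X (n + j + i) := by
          refine Finset.sum_le_sum fun j hj => ?_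
          rw [hJ, Finset.mem_filter] at hj
          exact (not_le.1 hj.2).le
      _ ≤ _ := by
          apply Finset.sum_le_sum_of_subset_of_nonneg (Finset.filter_subset _ _)
          intro j _ _
          exact Finset.sum_nonneg fun i _ => hX _
  have hJ2 : (J.card : ℝ) ≤ m / 4 := by
    have h3 : (J.card : ℝ) * (c * m') ≤ m / 4 * (c * m') := by
      calc (J.card : ℝ) * (c * m') ≤ m' * ∑ i ∈ Finset.range m, X (n + i) := hJc.trans hsum
        _ ≤ m' * (c / 4 * m) := by gcongr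
        _ = _ := by ring
    exact le_of_mul_le_mul_right h3 (by positivity)
  have hcard : (G.card : ℝ) + J.card = m - m' + 1 := by
    have := Finset.card_filter_add_card_filter_not (s := R)
      (fun j => ∑ i ∈ Finset.range m', X (n + j + i) ≤ c * m')
    rw [← hG, ← hJ, hR, Finset.card_range] at this
    have h4 : ((G.card + J.card : ℕ) : ℝ) = ((m - m' + 1 : ℕ) : ℝ) := by exact_mod_cast this
    push_cast [Nat.cast_sub (by omega : m' ≤ m)] at h4
    linarith
  have hm2 : (2 : ℝ) * m' ≤ m := by exact_mod_cast h2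
  have hsub : G ⊆ (Finset.range m).filter
      (fun j => ∑ i ∈ Finset.range m', X (n + j + i) ≤ c * m') := by
    intro j hj
    rw [hG, Finset.mem_filter, hR, Finset.mem_range] at hj
    rw [Finset.mem_filter, Finset.mem_range]
    exact ⟨by omega, hj.2⟩
  have h5 : (G.card : ℝ) ≤ ((Finset.range m).filter
      (fun j => ∑ i ∈ Finset.range m', X (n + j + i) ≤ c * m')).card := by
    exact_mod_cast Finset.card_le_card hsub
  linarith

/-- double counting -/
lemma dcount (B B' : Finset ℕ) (N m : ℕ) (hB : ∀ n ∈ B, n ∈ Finset.Icc 1 N) (q : ℝ)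
    (h : ∀ n ∈ B, q ≤ (((Finset.range m).filter (fun j => n + j ∈ B')).card : ℝ)) :
    (B.card : ℝ) * q ≤ B'.card * min m N := by
  classical
  have h1 : (B.card : ℝ) * q ≤
      ∑ n ∈ B, (((Finset.range m).filter (fun j => n + j ∈ B')).card : ℝ) := by
    calc (B.card : ℝ) * q = ∑ n ∈ B, q := by rw [Finset.sum_const, nsmul_eq_mul]
      _ ≤ _ := Finset.sum_le_sum h
  set S := (B ×ˢ Finset.range m).filter (fun x => x.1 + x.2 ∈ B') with hS
  have h2 : ∑ n ∈ B, ((Finset.range m).filter (fun j => n + j ∈ B')).card = S.card := by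
    rw [hS, Finset.card_filter, Finset.sum_product]
    refine Finset.sum_congr rfl fun n _ => ?_
    rw [Finset.card_filter]
  have h3 : S.card = ∑ b ∈ B', (S.filter (fun x => x.1 + x.2 = b)).card := by
    apply Finset.card_eq_sum_card_fiberwise
    intro x hx
    rw [hS] at hx
    exact (Finset.mem_filter.1 hx).2
  have h4 : ∀ b ∈ B', (S.filter (fun x => x.1 + x.2 = b)).card ≤ m := by
    intro b _
    calc _ ≤ (Finset.range m).card := by
          apply Finset.card_le_card_of_injOn (fun x => x.2)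
          · intro x hx
            simp only [Finset.coe_filter, Set.mem_ofPred_eq, hS, Finset.mem_filter,
              Finset.mem_product] at hx
            exact hx.1.1.2
          · intro x hx y hy hxy
            simp only [Finset.coe_filter, Set.mem_ofPred_eq] at hx hy
            have hxy' : x.2 = y.2 := hxy
            ext
            · omega
            · exact hxy'
      _ = m := Finset.card_range m
  have h5 : ∀ b ∈ B', (S.filter (fun x => x.1 + x.2 = b)).card ≤ N := by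
    intro b _
    calc _ ≤ (Finset.Icc 1 N).card := by
          apply Finset.card_le_card_of_injOn (fun x => x.1)
          · intro x hx
            simp only [Finset.coe_filter, Set.mem_ofPred_eq, hS, Finset.mem_filter,
              Finset.mem_product] at hx
            exact hB _ hx.1.1.1
          · intro x hx y hy hxy
            simp only [Finset.coe_filter, Set.mem_ofPred_eq] at hx hy
            have hxy' : x.1 = y.1 := hxy
            ext
            · exact hxy'
            · omega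
      _ = N := by rw [Nat.card_Icc]; omega
  have h6 : S.card ≤ B'.card * min m N := by
    rw [h3]
    calc _ ≤ ∑ b ∈ B', min m N := Finset.sum_le_sum fun b hb => le_min (h4 b hb) (h5 b hb)
      _ = _ := by rw [Finset.sum_const, smul_eq_mul]
  have h7 : ∑ n ∈ B, (((Finset.range m).filter (fun j => n + j ∈ B')).card : ℝ) = S.card := by
    exact_mod_cast h2
  rw [h7] at h1
  refine h1.trans ?_
  exact_mod_cast h6

end Pool.Agent.TH800.DM
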