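import Pool.Agent.TH800.DM.Fi

/-! The tail, final form. -/

open Filter Topology Set MeasureTheory

namespace Pool.Agent.TH800.DM

open SG (ord NZ)
open MS (dlt)

/-- the mass of the gaps larger than `H` in almost every window -/
theorem tail (RH : RiemannHypothesis) : ∃ C : ℝ, 0 < C ∧ ∀ H : ℝ, 1 ≤ H → ∃ K : ℝ, 0 < K ∧
    ∀ N : ℕ, 2 ≤ N → ∀ m : ℕ, 1 ≤ m → (m : ℝ) ≤ 1 / 8 * Real.log N →
      ({n : ℕ | 1 ≤ n ∧ n ≤ N ∧
        C / H ^ 2 * m ≤ ∑ i ∈ Finset.range m, bg H (dlt (n + i))}.ncard : ℝ) ≤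
        K * (N * (1 / m)) := by
  obtain ⟨C, hC, ht⟩ := ntail RH
  refine ⟨64 * C + 12800, by linarith, fun H hH => ?_⟩
  obtain ⟨K1, N1, hK1, hN1, h1⟩ := ht (max 10 (H / 8)) (le_max_left _ _)
  obtain ⟨K2, m2, N2, hK2, hm2, hN2, h2⟩ := mean RH 1 one_pos le_rfl
  obtain ⟨n0, hn0, hcmp⟩ := del_cmp RH 1 one_pos
  have hH0 : 0 < H := by linarith
  refine ⟨n0 + (K1 + K2) + m2 + (N1 + N2), by positivity, fun N hN m hm hmL => ?_⟩
  have hN2r : (2 : ℝ) ≤ N := by exact_mod_cast hN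
  have hNp : (0 : ℝ) < N := by linarith
  have hm1 : (1 : ℝ) ≤ m := by exact_mod_cast hm
  have hmp : (0 : ℝ) < m := by linarith
  have hmN : (m : ℝ) ≤ N := by
    have := Real.log_le_sub_one_of_pos (show (0 : ℝ) < N by linarith)
    linarith
  have hNm : 1 ≤ (N : ℝ) * (1 / m) := by
    rw [mul_one_div, le_div_iff₀ hmp]
    linarith
  have p0 : 0 ≤ (N : ℝ) * (1 / m) := by positivity
  have p1 : 0 ≤ (n0 : ℝ) * (N * (1 / m)) := by positivity
  have p2 : 0 ≤ (K1 + K2) * (N * (1 / m)) := by positivity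
  have p3 : 0 ≤ m2 * (N * (1 / m)) := by positivity
  have p4 : 0 ≤ ((N1 : ℝ) + N2) * (N * (1 / m)) := by positivity
  have etot : (n0 + (K1 + K2) + m2 + (N1 + N2)) * (N * (1 / m)) = n0 * (N * (1 / m)) +
      (K1 + K2) * (N * (1 / m)) + m2 * (N * (1 / m)) + ((N1 : ℝ) + N2) * (N * (1 / m)) := by ring
  rw [etot]
  have htriv := triv_card N (fun n => (64 * C + 12800) / H ^ 2 * m ≤
    ∑ i ∈ Finset.range m, bg H (dlt (n + i)))
  by_cases hNN : N < max N1 N2
  · have e1 : (N : ℝ) ≤ ((N1 : ℝ) + N2) * (N * (1 / m)) := by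
      have e2 : (N : ℝ) ≤ (N1 : ℝ) + N2 := by
        have : N ≤ N1 + N2 := by omega
        exact_mod_cast this
      calc (N : ℝ) ≤ ((N1 : ℝ) + N2) * 1 := by linarith
        _ ≤ _ := by gcongr
    linarith
  push Not at hNN
  have hNN1 : N1 ≤ N := (le_max_left _ _).trans hNN
  have hNN2 : N2 ≤ N := (le_max_right _ _).trans hNN
  by_cases hmm : (m : ℝ) < m2
  · have e1 : (N : ℝ) ≤ m2 * (N * (1 / m)) := by
      have e : m2 * (N * (1 / m)) = N * (m2 / m) := by ring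
      rw [e]
      apply le_mul_of_one_le_right hNp.le
      rw [le_div_iff₀ hmp]
      linarith
    linarith
  push Not at hmm
  have b1 := h1 N hNN1 m hm1 hmL
  have b2 := h2 N hNN2 m hmm hmL
  have b0 : (n0 : ℝ) ≤ n0 * (N * (1 / m)) := by
    apply le_mul_of_one_le_right (Nat.cast_nonneg _)
    exact hNm
  have hfin : ∀ P : ℕ → Prop, {n : ℕ | 1 ≤ n ∧ n ≤ N ∧ P n}.Finite := fun P =>
    (Set.finite_Icc 1 N).subset fun n hn => ⟨hn.1, hn.2.1⟩
  have hc := card_union4 {n : ℕ | 1 ≤ n ∧ n ≤ N ∧ (64 * C + 12800) / H ^ 2 * m ≤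
      ∑ i ∈ Finset.range m, bg H (dlt (n + i))}
    {n : ℕ | 1 ≤ n ∧ n ≤ N ∧ (∑ i ∈ Finset.range m, dlt (n + i) ≤ 2 * m ∧
        C / (max 10 (H / 8)) ^ 2 * m ≤ ∑ i ∈ Finset.range m,
          bg (8 * max 10 (H / 8)) (dlt (n + i)))}
    {n : ℕ | 1 ≤ n ∧ n ≤ N ∧ 1 * m ≤ |∑ i ∈ Finset.range m, dlt (n + i) - m|}
    ∅ n0 (hfin _) (hfin _) Set.finite_empty
    (fun n hn => by
      obtain ⟨a1, a2, a3⟩ := hn
      by_cases q0 : n ≤ n0
      · exact Or.inl ⟨a1, q0⟩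
      refine Or.inr ?_
      by_cases q2 : 1 * (m : ℝ) ≤ |∑ i ∈ Finset.range m, dlt (n + i) - m|
      · exact Or.inr (Or.inl ⟨a1, a2, q2⟩)
      refine Or.inl ⟨a1, a2, ?_⟩
      push Not at q2
      have q3 := (abs_lt.1 q2).2
      have q4 : ∑ i ∈ Finset.range m, dlt (n + i) < 2 * m := by linarith
      refine ⟨q4.le, ?_⟩
      have hf : ∀ i ∈ Finset.range m, 0 ≤ dlt (n + i) := fun i _ => by
        obtain ⟨g1, g2, g3⟩ := hcmp (n + i) (by omega)
        linarith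
      have q5 : ∑ i ∈ Finset.range m, bg H (dlt (n + i)) ≤ ∑ i ∈ Finset.range m, dlt (n + i) :=
        Finset.sum_le_sum fun i hi => bg_le (hf i hi)
      rcases le_total H 80 with hH80 | hH80
      · exfalso
        have g1 : 2 ≤ (64 * C + 12800) / H ^ 2 := by
          rw [le_div_iff₀ (by positivity)]
          nlinarith
        have g2 : 2 * (m : ℝ) ≤ (64 * C + 12800) / H ^ 2 * m := by gcongr
        linarith
      · have g1 : max 10 (H / 8) = H / 8 := max_eq_right (by linarith)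
        rw [g1]
        have g2 : 8 * (H / 8) = H := by ring
        rw [g2]
        refine le_trans ?_ a3
        have g3 : C / (H / 8) ^ 2 = 64 * C / H ^ 2 := by field_simp; norm_num
        rw [g3]
        gcongr
        linarith)
  rw [Set.ncard_empty, Nat.cast_zero, add_zero] at hc
  linarith

end Pool.Agent.TH800.DM
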