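import Pool.Agent.TH800.DM.Tm

/-! The tail of the gap distribution: the block theorem. -/

open Complex Filter Topology Set MeasureTheory

namespace Pool.Agent.TH800.DM

open H370 (Zf)
open TC (om om_pos om_le_one om_cont)
open SG (ord NZ)
open MS (PX aa gau0 mem_PX)

/-- large gaps -/
noncomputable def bg (r x : ℝ) : ℝ := if r < x then x else 0

lemma bg_le {r x : ℝ} (hx : 0 ≤ x) : bg r x ≤ x := by
  unfold bg; split_ifs <;> linarith

lemma bg_nonneg {r x : ℝ} (hx : 0 ≤ x) : 0 ≤ bg r x := by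
  unfold bg; split_ifs <;> linarith

lemma tel (n m : ℕ) : ∑ i ∈ Finset.range m, (ord (n + i + 1) - ord (n + i)) =
    ord (n + m) - ord n := by
  have := Finset.sum_range_sub (fun i => ord (n + i)) m
  simp only [add_zero] at this
  rw [← this]
  rfl

lemma gap_nonneg {n : ℕ} (hn : 1 ≤ n) (i : ℕ) : 0 ≤ ord (n + i + 1) - ord (n + i) := by
  have := SG.ord_mono (by omega : 1 ≤ n + i) (by omega : n + i ≤ n + i + 1)
  linarith

/-- the mass of the large gaps -/
theorem mass (RH : RiemannHypothesis) (H : ℝ) (hH : 1 ≤ H) : ∃ T0 : ℝ, 10 ≤ T0 ∧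
    ∀ T : ℝ, T0 ≤ T → ∀ n m : ℕ, 1 ≤ n → T + Real.log T ≤ ord n →
    ord (n + m) ≤ 2 * T - Real.log T →
    1 / 2304 * ∑ i ∈ Finset.range m, bg (8 * Real.pi * H / Real.log T)
      (ord (n + i + 1) - ord (n + i)) ≤ ∫ t in (ord n)..(ord (n + m)), gH H T t := by
  obtain ⟨T0, hT0, h⟩ := gap_low RH H hH
  refine ⟨T0, hT0, fun T hT n m hn h1 h2 => ?_⟩
  have hL : 0 < Real.log T := Real.log_pos (by linarith)
  have hpi := Real.pi_pos
  have hg := gH_cont H T
  have hadj := intervalIntegral.sum_integral_adjacent_intervals (a := fun i => ord (n + i)) (n := m)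
    (f := gH H T) (μ := volume) (fun k _ => hg.intervalIntegrable _ _)
  simp only [add_zero] at hadj
  rw [← hadj, Finset.mul_sum]
  refine Finset.sum_le_sum fun i hi => ?_
  rw [Finset.mem_range] at hi
  have g1 : ord n ≤ ord (n + i) := SG.ord_mono hn (by omega)
  have g2 : ord (n + i) ≤ ord (n + i + 1) := SG.ord_mono (by omega) (by omega)
  have g3 : ord (n + i + 1) ≤ ord (n + m) := SG.ord_mono (by omega) (by omega)
  show _ ≤ ∫ x in ord (n + i)..ord (n + i + 1), gH H T x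
  unfold bg
  split_ifs with hc
  · set r := 2 * Real.pi * H / Real.log T with hr
    have hr0 : 0 < r := by rw [hr]; positivity
    have hr4 : 8 * Real.pi * H / Real.log T = 4 * r := by rw [hr]; ring
    rw [hr4] at hc
    have h3 : ∫ x in (ord (n + i) + r)..(ord (n + i + 1) - r), (1 / 1152 : ℝ) ≤
        ∫ x in (ord (n + i) + r)..(ord (n + i + 1) - r), gH H T x := by
      apply intervalIntegral.integral_mono_on_of_le_Ioo (by linarith)
        (continuous_const.intervalIntegrable _ _) (hg.intervalIntegrable _ _)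
      intro x hx
      exact h T hT x (n + i) (by omega) (by linarith [hx.1]) (by linarith [hx.2]) hx.1 hx.2
    rw [intervalIntegral.integral_const, smul_eq_mul] at h3
    have h4 : ∫ x in (ord (n + i) + r)..(ord (n + i + 1) - r), gH H T x ≤
        ∫ x in ord (n + i)..ord (n + i + 1), gH H T x :=
      intervalIntegral.integral_mono_interval (by linarith) (by linarith) (by linarith)
        (Filter.Eventually.of_forall fun u => gH_nonneg _ _ _) (hg.intervalIntegrable _ _)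
    linarith
  · rw [mul_zero]
    exact intervalIntegral.integral_nonneg g2 fun u _ => gH_nonneg _ _ _

/-- local second moment of a prime sum -/
lemma loc (s : Finset ℕ) (c : ℕ → ℝ) {h : ℝ} (hh : 0 < h) (u : ℝ) :
    ∫ t in (u - h)..(u + h), ‖Fs s c t‖ ^ 2 ≤ 6 * h * ((∑ n ∈ s, c n ^ 2) + ‖OD s c h u‖) := by
  have hc : Continuous fun t => ‖Fs s c t‖ ^ 2 := (Fs_cont _ _).norm.pow 2
  have hco : Continuous fun t => om u h t * ‖Fs s c t‖ ^ 2 := (om_cont u h).mul hc
  have hc2 : Continuous fun t => 2 * (om u h t * ‖Fs s c t‖ ^ 2) := continuous_const.mul hco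
  have h1 : ∫ t in (u - h)..(u + h), ‖Fs s c t‖ ^ 2 ≤
      ∫ t in (u - h)..(u + h), 2 * (om u h t * ‖Fs s c t‖ ^ 2) := by
    refine intervalIntegral.integral_mono_on (by linarith) (hc.intervalIntegrable _ _)
      (hc2.intervalIntegrable _ _) fun t ht => ?_
    have g1 : 1 / 2 ≤ om u h t := by
      unfold TC.om
      have g2 : (t - u) ^ 2 ≤ h ^ 2 := by
        apply sq_le_sq'
        · linarith [ht.1]
        · linarith [ht.2]
      have g3 : (t - u) ^ 2 / (2 * h ^ 2) ≤ 1 / 2 := by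
        rw [div_le_iff₀ (by positivity)]
        linarith
      have g4 := Real.add_one_le_exp (-(t - u) ^ 2 / (2 * h ^ 2))
      have g5 : -(t - u) ^ 2 / (2 * h ^ 2) = -((t - u) ^ 2 / (2 * h ^ 2)) := by ring
      rw [g5] at g4 ⊢
      linarith
    have g6 : 0 ≤ ‖Fs s c t‖ ^ 2 := by positivity
    nlinarith
  rw [intervalIntegral.integral_const_mul] at h1
  have h2 : ∫ t in (u - h)..(u + h), om u h t * ‖Fs s c t‖ ^ 2 ≤
      ∫ t, om u h t * ‖Fs s c t‖ ^ 2 := by
    rw [intervalIntegral.integral_of_le (by linarith)]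
    exact setIntegral_le_integral (second_int s c hh u)
      (Eventually.of_forall fun t => mul_nonneg (om_pos _ _ _).le (by positivity))
  rw [second_eq s c hh u] at h2
  have s1 : Real.sqrt (2 * Real.pi) ≤ 3 := by
    rw [Real.sqrt_le_left (by norm_num)]
    have := Real.pi_lt_d2
    linarith
  have h3 : (OD s c h u).re ≤ ‖OD s c h u‖ := Complex.re_le_norm _
  have h4 : 0 ≤ ∑ n ∈ s, c n ^ 2 := Finset.sum_nonneg fun _ _ => sq_nonneg _
  have h5 : Real.sqrt (2 * Real.pi) * h * ((∑ n ∈ s, c n ^ 2) + (OD s c h u).re) ≤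
      3 * h * ((∑ n ∈ s, c n ^ 2) + ‖OD s c h u‖) := by
    have h6 : (∑ n ∈ s, c n ^ 2) + (OD s c h u).re ≤ (∑ n ∈ s, c n ^ 2) + ‖OD s c h u‖ := by
      linarith
    have h7 : 0 ≤ (∑ n ∈ s, c n ^ 2) + ‖OD s c h u‖ := by positivity
    calc _ ≤ Real.sqrt (2 * Real.pi) * h * ((∑ n ∈ s, c n ^ 2) + ‖OD s c h u‖) := by gcongr
      _ ≤ _ := by gcongr
  linarith

/-- the exclusion function for the tail -/
noncomputable def Ft (C H T y u : ℝ) : ℝ :=
  4 * (H ^ 2 / C) ^ 2 * ‖OD (PX (NH H (Real.log T))) (ac T (sl H))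
    (8 * Real.pi * y / Real.log T) u‖ ^ 2 +
  H ^ 2 / (3 * C) / (8 * Real.pi * y / Real.log T) *
    Wa (fun t => Rr T (sl H) (NH H (Real.log T)) t ^ 2) (8 * Real.pi * y / Real.log T) u

lemma Ft_cont (C H T y : ℝ) : Continuous (Ft C H T y) := by
  have hcR : Continuous fun t => Rr T (sl H) (NH H (Real.log T)) t ^ 2 := (Rr_cont _ _ _).pow 2
  unfold Ft
  exact (continuous_const.mul ((OD_cont _ _ _).norm.pow 2)).add
    (continuous_const.mul (Wa_cont hcR _))

lemma Ft_nonneg {C H T y : ℝ} (hC : 0 < C) (hL : 0 < Real.log T) (hy : 0 < y) (u : ℝ) :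
    0 ≤ Ft C H T y u := by
  have hpi := Real.pi_pos
  have hδ : 0 ≤ 8 * Real.pi * y / Real.log T := by positivity
  have g2 := Wa_nonneg (g := fun t => Rr T (sl H) (NH H (Real.log T)) t ^ 2)
    (fun t => sq_nonneg _) hδ u
  unfold Ft
  positivity

/-- windows with too much mass in the large gaps -/
theorem tkey (RH : RiemannHypothesis) : ∃ C : ℝ, 1 ≤ C ∧ ∀ H : ℝ, 10 ≤ H → ∃ T0 : ℝ, 10 ≤ T0 ∧
    ∀ T : ℝ, T0 ≤ T → ∀ m : ℕ, 1 ≤ m → ∀ n : ℕ, 1 ≤ n → T + Real.log T ≤ ord n →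
    ord (n + m) ≤ 2 * T - Real.log T → ord (n + m) - ord n ≤ 8 * Real.pi * m / Real.log T →
    27648 * (C / H ^ 2) * (8 * Real.pi * m / Real.log T) ≤
      ∑ i ∈ Finset.range m, bg (8 * Real.pi * H / Real.log T) (ord (n + i + 1) - ord (n + i)) →
    ∀ u : ℝ, ord n ≤ u → u ≤ ord (n + m) → 1 ≤ Ft C H T m u := by
  obtain ⟨C, hC, hsq⟩ := ach_sq
  refine ⟨C, hC, fun H hH => ?_⟩
  obtain ⟨T1, hT1, hmass⟩ := mass RH H (by linarith)
  obtain ⟨T8, hT8⟩ : ∃ T8 : ℝ, ∀ T : ℝ, T8 ≤ T → H ≤ Real.log T :=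
    (Real.tendsto_log_atTop.eventually_ge_atTop _).exists_forall_of_atTop
  refine ⟨max T1 T8, hT1.trans (le_max_left _ _),
    fun T hT m hm n hn h1 h2 h3 h4 u hu1 hu2 => ?_⟩
  have hTT1 : T1 ≤ T := (le_max_left _ _).trans hT
  have hHL := hT8 T ((le_max_right _ _).trans hT)
  have hT10 : 10 ≤ T := hT1.trans hTT1
  have hL : 0 < Real.log T := by linarith
  have hH0 : 0 < H := by linarith
  have hC0 : 0 < C := by linarith
  have hpi := Real.pi_pos
  have hm1 : (1 : ℝ) ≤ m := by exact_mod_cast hm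
  have hms := hmass T hTT1 n m hn h1 h2
  have hS := hsq H hH T (by linarith) hHL
  have hh0 : 0 < 8 * Real.pi * m / Real.log T := by positivity
  unfold Ft
  generalize 8 * Real.pi * m / Real.log T = h at h3 h4 hh0
  have hloc := loc (PX (NH H (Real.log T))) (ac T (sl H)) hh0 u
  have hcF : Continuous fun t => ‖Fs (PX (NH H (Real.log T))) (ac T (sl H)) t‖ ^ 2 :=
    (Fs_cont _ _).norm.pow 2
  have hcR : Continuous fun t => Rr T (sl H) (NH H (Real.log T)) t ^ 2 := (Rr_cont _ _ _).pow 2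
  have hint : ∫ t in (ord n)..(ord (n + m)), gH H T t ≤
      (∫ t in (u - h)..(u + h), ‖Fs (PX (NH H (Real.log T))) (ac T (sl H)) t‖ ^ 2) +
      Wa (fun t => Rr T (sl H) (NH H (Real.log T)) t ^ 2) h u := by
    have g1 : ∫ t in (ord n)..(ord (n + m)), gH H T t ≤ ∫ t in (u - h)..(u + h), gH H T t :=
      intervalIntegral.integral_mono_interval (by linarith) (by linarith) (by linarith)
        (Filter.Eventually.of_forall fun u => gH_nonneg _ _ _) ((gH_cont H T).intervalIntegrable _ _)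
    refine g1.trans (le_of_eq ?_)
    rw [Wa_eq]
    unfold gH
    rw [intervalIntegral.integral_add (hcF.intervalIntegrable _ _) (hcR.intervalIntegrable _ _)]
  have hOD0 := norm_nonneg (OD (PX (NH H (Real.log T))) (ac T (sl H)) h u)
  generalize ‖OD (PX (NH H (Real.log T))) (ac T (sl H)) h u‖ = X at hloc hOD0
  generalize Wa (fun t => Rr T (sl H) (NH H (Real.log T)) t ^ 2) h u = W at hint
  have hC2 : 0 < C / H ^ 2 := by positivity
  have e1 : 12 * (C / H ^ 2) * h ≤ 6 * h * (C / H ^ 2 + X) + W := by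
    have g1 : 6 * h * ((∑ n ∈ PX (NH H (Real.log T)), ac T (sl H) n ^ 2) + X) ≤
        6 * h * (C / H ^ 2 + X) := by gcongr
    have g2 : 1 / 2304 * (27648 * (C / H ^ 2) * h) = 12 * (C / H ^ 2) * h := by ring
    linarith
  have e2 : 1 ≤ H ^ 2 / C * X + H ^ 2 / (6 * C) / h * W := by
    have g1 : 6 * (C / H ^ 2) * h ≤ 6 * h * X + W := by linarith
    have g2 := mul_le_mul_of_nonneg_left g1 (show 0 ≤ H ^ 2 / (6 * C) / h by positivity)
    have g3 : H ^ 2 / (6 * C) / h * (6 * (C / H ^ 2) * h) = 1 := by field_simp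
    have g4 : H ^ 2 / (6 * C) / h * (6 * h * X + W) = H ^ 2 / C * X + H ^ 2 / (6 * C) / h * W := by
      field_simp
    rw [g3, g4] at g2
    exact g2
  have e3 : 4 * (H ^ 2 / C) ^ 2 * X ^ 2 + H ^ 2 / (3 * C) / h * W =
      4 * (H ^ 2 / C * X) ^ 2 + 2 * (H ^ 2 / (6 * C) / h * W) := by
    field_simp
    ring
  rw [e3]
  nlinarith [sq_nonneg (H ^ 2 / C * X - 1 / 4)]

/-- mean value of the exclusion function -/
theorem Ft_int (C H : ℝ) (hC : 1 ≤ C) (hH : 10 ≤ H) : ∃ K T0 : ℝ, 0 < K ∧ 10 ≤ T0 ∧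
    ∀ T : ℝ, T0 ≤ T → ∀ y : ℝ, 1 ≤ y → y ≤ Real.log T →
    T + 6 * Real.log T ≤ 2 * T - 6 * Real.log T →
    ∫ u in (T + 6 * Real.log T)..(2 * T - 6 * Real.log T), Ft C H T y u ≤
      K * (T * (1 / y + 1 / Real.log T)) := by
  obtain ⟨CO, TO, hCO, hTO, hO⟩ := odh_int
  have hH0 : 0 < H := by linarith
  obtain ⟨C3, T3, hC3, hT3, h3⟩ := ex3 (1 / H) (by positivity) (by
    rw [div_lt_div_iff₀ hH0 (by norm_num)]; linarith)
  obtain ⟨T8, hT8⟩ : ∃ T8 : ℝ, ∀ T : ℝ, T8 ≤ T → H ≤ Real.log T :=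
    (Real.tendsto_log_atTop.eventually_ge_atTop _).exists_forall_of_atTop
  have hpi := Real.pi_pos
  have hpi3 := Real.pi_gt_three
  have hpi4 := Real.pi_lt_d2
  refine ⟨4 * (H ^ 2 / C) ^ 2 * CO + H ^ 2 / (3 * C) * (2 * C3), max TO (max T3 T8), by positivity,
    hTO.trans (le_max_left _ _), fun T hT y hy1 hyL hV => ?_⟩
  have hTTO : TO ≤ T := (le_max_left _ _).trans hT
  have hTT3 : T3 ≤ T := ((le_max_left _ _).trans (le_max_right _ _)).trans hT
  have hHL := hT8 T (((le_max_right _ _).trans (le_max_right _ _)).trans hT)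
  have hT10 : 10 ≤ T := hTO.trans hTTO
  have hTpos : 0 < T := by linarith
  have hL0 : 0 < Real.log T := by linarith
  have hy0 : 0 < y := by linarith
  have hR := h3 T hTT3 (sl H) 1 (sl_le hH0.le)
  change ∫ t in T..(2 * T), Rr T (sl H) (NH H (Real.log T)) t ^ 2 ≤ C3 * (T * (1 ^ 2 / Real.log T))
    at hR
  have hh0 : 0 < 8 * Real.pi * y / Real.log T := by positivity
  have hh1 : 8 * Real.pi * y / Real.log T ≤ 30 := by
    rw [div_le_iff₀ hL0]
    nlinarith
  have hBd := hO H hH T hTTO hHL _ hh0 hh1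
  have e1 : 1 / (Real.log T * (8 * Real.pi * y / Real.log T)) ≤ 1 / y := by
    have : Real.log T * (8 * Real.pi * y / Real.log T) = 8 * Real.pi * y := by field_simp
    rw [this]
    apply one_div_le_one_div_of_le hy0
    nlinarith
  unfold Ft
  generalize 8 * Real.pi * y / Real.log T = h at hh0 hh1 hBd e1
  have hcR : Continuous fun t => Rr T (sl H) (NH H (Real.log T)) t ^ 2 := (Rr_cont _ _ _).pow 2
  have hcO : Continuous fun u => ‖OD (PX (NH H (Real.log T))) (ac T (sl H)) h u‖ ^ 2 :=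
    (OD_cont _ _ _).norm.pow 2
  have cc1 : Continuous fun u => 4 * (H ^ 2 / C) ^ 2 *
      ‖OD (PX (NH H (Real.log T))) (ac T (sl H)) h u‖ ^ 2 := continuous_const.mul hcO
  have cc2 : Continuous fun u => H ^ 2 / (3 * C) / h *
      Wa (fun t => Rr T (sl H) (NH H (Real.log T)) t ^ 2) h u :=
    continuous_const.mul (Wa_cont hcR _)
  rw [intervalIntegral.integral_add (cc1.intervalIntegrable _ _) (cc2.intervalIntegrable _ _),
    intervalIntegral.integral_const_mul, intervalIntegral.integral_const_mul]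
  have j1 : ∫ u in (T + 6 * Real.log T)..(2 * T - 6 * Real.log T),
      ‖OD (PX (NH H (Real.log T))) (ac T (sl H)) h u‖ ^ 2 ≤
      ∫ u in T..(2 * T), ‖OD (PX (NH H (Real.log T))) (ac T (sl H)) h u‖ ^ 2 :=
    intervalIntegral.integral_mono_interval (by linarith) hV (by linarith)
      (Filter.Eventually.of_forall fun u => by positivity) (hcO.intervalIntegrable _ _)
  have j2 := Wa_int (δ := h) (a := T + 6 * Real.log T) (b := 2 * T - 6 * Real.log T) (A := T)
    (B := 2 * T) hcR (fun t => sq_nonneg _) hh0.le hV (by linarith) (by linarith)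
  have q0 : T * (1 / Real.log T) ≤ T * (1 / y + 1 / Real.log T) := by
    apply mul_le_mul_of_nonneg_left _ hTpos.le
    have : (0 : ℝ) ≤ 1 / y := by positivity
    linarith
  have k1 : 4 * (H ^ 2 / C) ^ 2 * ∫ u in (T + 6 * Real.log T)..(2 * T - 6 * Real.log T),
      ‖OD (PX (NH H (Real.log T))) (ac T (sl H)) h u‖ ^ 2 ≤
      4 * (H ^ 2 / C) ^ 2 * CO * (T * (1 / y + 1 / Real.log T)) := by
    rw [mul_assoc (4 * (H ^ 2 / C) ^ 2) CO]
    apply mul_le_mul_of_nonneg_left _ (by positivity)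
    refine (j1.trans hBd).trans ?_
    gcongr
  have k2 : H ^ 2 / (3 * C) / h * ∫ u in (T + 6 * Real.log T)..(2 * T - 6 * Real.log T),
      Wa (fun t => Rr T (sl H) (NH H (Real.log T)) t ^ 2) h u ≤
      H ^ 2 / (3 * C) * (2 * C3) * (T * (1 / y + 1 / Real.log T)) := by
    calc _ ≤ H ^ 2 / (3 * C) / h * (2 * h * (C3 * (T * (1 ^ 2 / Real.log T)))) := by
          have g1 := j2.trans (mul_le_mul_of_nonneg_left hR (by positivity : (0 : ℝ) ≤ 2 * h))
          gcongr
      _ = H ^ 2 / (3 * C) * (2 * C3) * (T * (1 / Real.log T)) := by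
          field_simp
      _ ≤ _ := by gcongr
  linarith

end Pool.Agent.TH800.DM
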