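import Pool.Agent.TH800.DM.Tb
import Pool.Agent.TH800.DM.Nb

/-! The tail of the gap distribution: counting. -/

open Filter Topology Set MeasureTheory

namespace Pool.Agent.TH800.DM

open SG (ord NZ)
open MS (dlt)

/-- windows with too much mass in the large gaps, in a block -/
theorem tblk (RH : RiemannHypothesis) : ∃ C : ℝ, 1 ≤ C ∧ ∀ H : ℝ, 10 ≤ H → ∃ K T0 : ℝ, 0 < K ∧
    10 ≤ T0 ∧ ∀ T : ℝ, T0 ≤ T → ∀ m : ℕ, 1 ≤ m → (m : ℝ) ≤ Real.log T → ∀ F : Finset ℕ,
      (∀ n ∈ F, 1 ≤ n ∧ T + 6 * Real.log T ≤ ord n ∧ ord (n + m) ≤ 2 * T - 6 * Real.log T ∧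
        ord (n + m) - ord n ≤ 8 * Real.pi * m / Real.log T ∧
        27648 * (C / H ^ 2) * (8 * Real.pi * m / Real.log T) ≤ ∑ i ∈ Finset.range m,
          bg (8 * Real.pi * H / Real.log T) (ord (n + i + 1) - ord (n + i))) →
      (F.card : ℝ) ≤ K * (1 / m + 1 / Real.log T) * (T * Real.log T) := by
  classical
  obtain ⟨C, hC, hk⟩ := tkey RH
  refine ⟨C, hC, fun H hH => ?_⟩
  obtain ⟨T1, hT1, hkey⟩ := hk H hH
  obtain ⟨K, T2, hK, hT2, hint⟩ := Ft_int C H hC hH
  have hH0 : 0 < H := by linarith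
  have hC0 : 0 < C := by linarith
  have hpi := Real.pi_pos
  have hκ0 : 0 < 27648 * (C / H ^ 2) := by positivity
  generalize 27648 * (C / H ^ 2) = κ at hkey hκ0
  refine ⟨K * (1 / (4 * Real.pi * κ)), max T1 T2, by positivity, hT1.trans (le_max_left _ _),
    fun T hT m hm hmL F hF => ?_⟩
  have hTT1 : T1 ≤ T := (le_max_left _ _).trans hT
  have hTT2 : T2 ≤ T := (le_max_right _ _).trans hT
  have hT10 : 10 ≤ T := hT1.trans hTT1
  have hm1 : (1 : ℝ) ≤ m := by exact_mod_cast hm
  have hmp : (0 : ℝ) < m := by linarith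
  have hL0 : 0 < Real.log T := by linarith
  have hkey' : ∀ n ∈ F, ∀ u : ℝ, ord n ≤ u → u ≤ ord (n + m) → 1 ≤ Ft C H T m u := fun n hn => by
    obtain ⟨a1, a2, a3, a4, a5⟩ := hF n hn
    exact hkey T hTT1 m hm n a1 (by linarith) (by linarith) a4 a5
  have hΦc : Continuous (Ft C H T m) := Ft_cont _ _ _ _
  have hΦ0 : ∀ u, 0 ≤ Ft C H T m u := Ft_nonneg hC0 hL0 hmp
  by_cases hne : F.Nonempty
  swap
  · rw [Finset.not_nonempty_iff_eq_empty] at hne
    rw [hne, Finset.card_empty, Nat.cast_zero]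
    positivity
  obtain ⟨n1, hn1⟩ := hne
  have hV : T + 6 * Real.log T ≤ 2 * T - 6 * Real.log T := by
    obtain ⟨a1, a2, a3, a4⟩ := hF n1 hn1
    have := SG.ord_mono a1 (by omega : n1 ≤ n1 + m)
    linarith
  have hΦi := hint T hTT2 m hm1 hmL hV
  clear hkey hint
  generalize Ft C H T m = Φ at hkey' hΦc hΦ0 hΦi
  have hh0 : 0 < 8 * Real.pi * m / Real.log T := by positivity
  have hlen : ∀ n ∈ F, κ * (8 * Real.pi * m / Real.log T) ≤ ord (n + m) - ord n := fun n hn => by
    obtain ⟨a1, a2, a3, a4, a5⟩ := hF n hn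
    refine a5.trans ?_
    rw [← tel]
    exact Finset.sum_le_sum fun i _ => bg_le (gap_nonneg a1 i)
  have hcount := LD.count_gen F (fun n => ord n)
    (fun n => ord (n + m) - κ * (8 * Real.pi * m / Real.log T) / 2)
    (T + 6 * Real.log T) (2 * T - 6 * Real.log T) (κ * (8 * Real.pi * m / Real.log T) / 2)
    (fun t => m * Φ t) hV (continuous_const.mul hΦc)
    (by positivity) (fun n hn => by
      obtain ⟨a1, a2, a3, a4, a5⟩ := hF n hn
      have := hlen n hn
      have hp : 0 < κ * (8 * Real.pi * m / Real.log T) := by positivity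
      refine ⟨by linarith, by linarith, ?_⟩
      linarith) (fun t ht1 ht2 => by
      have hp : 0 < κ * (8 * Real.pi * m / Real.log T) := by positivity
      by_cases hfe : (F.filter (fun n => ord n ≤ t ∧
          t ≤ ord (n + m) - κ * (8 * Real.pi * m / Real.log T) / 2)).Nonempty
      · obtain ⟨n2, hn2⟩ := hfe
        rw [Finset.mem_filter] at hn2
        obtain ⟨hn2F, b1, b2⟩ := hn2
        have h4 := hkey' n2 hn2F t b1 (by linarith)
        have h5 : (F.filter (fun n => ord n ≤ t ∧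
            t ≤ ord (n + m) - κ * (8 * Real.pi * m / Real.log T) / 2)).card ≤ m := by
          apply MS.overlap (t := t)
          intro n hn
          rw [Finset.mem_filter] at hn
          obtain ⟨hnF, b3, b4⟩ := hn
          exact ⟨(hF n hnF).1, by linarith, by linarith⟩
        calc _ ≤ (m : ℝ) * 1 := by rw [mul_one]; exact_mod_cast h5
          _ ≤ m * Φ t := by gcongr
      · rw [Finset.not_nonempty_iff_eq_empty] at hfe
        rw [hfe, Finset.card_empty, Nat.cast_zero]
        have := hΦ0 t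
        positivity)
  rw [intervalIntegral.integral_const_mul] at hcount
  have h8 : (F.card : ℝ) * (κ * (8 * Real.pi * m / Real.log T) / 2) ≤
      m * (K * (T * (1 / m + 1 / Real.log T))) :=
    hcount.trans (mul_le_mul_of_nonneg_left hΦi hmp.le)
  have h9 : (F.card : ℝ) ≤ 1 / (κ * (8 * Real.pi * m / Real.log T) / 2) *
      (m * (K * (T * (1 / m + 1 / Real.log T)))) := by
    rw [one_div_mul_eq_div, le_div_iff₀ (by positivity)]
    exact h8
  refine h9.trans (le_of_eq ?_)
  field_simp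
  ring

/-- windows with too much mass in the large gaps, normalised gaps -/
theorem ntail (RH : RiemannHypothesis) : ∃ C : ℝ, 1 ≤ C ∧ ∀ H : ℝ, 10 ≤ H → ∃ K : ℝ, ∃ N0 : ℕ,
    0 < K ∧ 3 ≤ N0 ∧ ∀ N : ℕ, N0 ≤ N → ∀ m : ℕ, (1 : ℝ) ≤ m → (m : ℝ) ≤ 1 / 8 * Real.log N →
      ({n : ℕ | 1 ≤ n ∧ n ≤ N ∧ (∑ i ∈ Finset.range m, dlt (n + i) ≤ 2 * m ∧
        C / H ^ 2 * m ≤ ∑ i ∈ Finset.range m, bg (8 * H) (dlt (n + i)))}.ncard : ℝ) ≤
        K * (N * (1 / m)) := by
  classical
  have hpi := Real.pi_pos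
  have hpi4 := Real.pi_lt_four
  obtain ⟨C, hC, hb⟩ := tblk RH
  obtain ⟨T2, hT2, hwin⟩ := win RH
  refine ⟨27648 * 8 * C, by linarith, fun H hH => ?_⟩
  obtain ⟨K, T1, hK, hT1, h⟩ := hb H hH
  obtain ⟨T3, hT3⟩ : ∃ T3 : ℝ, ∀ T : ℝ, T3 ≤ T → 6 ≤ Real.log T :=
    (Real.tendsto_log_atTop.eventually_ge_atTop _).exists_forall_of_atTop
  have hblock : ∀ T : ℝ, max (2 * T1) (max T2 T3) ≤ T → ∀ m : ℕ, (1 : ℝ) ≤ m →
      (m : ℝ) ≤ 1 / 2 * Real.log T →
      ({n : ℕ | 1 ≤ n ∧ T ≤ ord n ∧ ord n ≤ 3 / 2 * T ∧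
        (∑ i ∈ Finset.range m, dlt (n + i) ≤ 2 * m ∧
        27648 * 8 * C / H ^ 2 * m ≤ ∑ i ∈ Finset.range m, bg (8 * H) (dlt (n + i)))}.ncard : ℝ) ≤
        2 * K * (1 / m) * (T * Real.log T) := by
    intro T hT m hm hmL
    have hTT1 : 2 * T1 ≤ T := (le_max_left _ _).trans hT
    have hTT2 : T2 ≤ T := ((le_max_left _ _).trans (le_max_right _ _)).trans hT
    have hL6 := hT3 T (((le_max_right _ _).trans (le_max_right _ _)).trans hT)
    have hT100 : 100 ≤ T := hT2.trans hTT2
    have hT0 : 0 < T := by linarith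
    have hmp : (0 : ℝ) < m := by linarith
    have hm1 : 1 ≤ m := by exact_mod_cast hm
    have hw := hwin T hTT2 m (by linarith)
    have hLS1 : Real.log T ≤ Real.log (9 / 10 * T) + 1 := by
      have h1 : Real.log T = Real.log (10 / 9) + Real.log (9 / 10 * T) := by
        rw [← Real.log_mul (by norm_num) (by positivity)]
        congr 1
        ring
      have h2 := Real.log_le_sub_one_of_pos (show (0 : ℝ) < 10 / 9 by norm_num)
      linarith
    have hLS2 : Real.log (9 / 10 * T) ≤ Real.log T := Real.log_le_log (by positivity) (by linarith)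
    set S := 9 / 10 * T with hS
    have hS0 : 0 < S := by positivity
    set L := Real.log S with hL
    have hL0 : 0 < L := by linarith
    have hL5 : 5 ≤ L := by linarith
    have hmS : (m : ℝ) ≤ L := by linarith
    set B : Set ℕ := {n : ℕ | 1 ≤ n ∧ T ≤ ord n ∧ ord n ≤ 3 / 2 * T ∧
        (∑ i ∈ Finset.range m, dlt (n + i) ≤ 2 * m ∧
        27648 * 8 * C / H ^ 2 * m ≤ ∑ i ∈ Finset.range m, bg (8 * H) (dlt (n + i)))} with hB
    have hBfin : B.Finite := LG.GapAux.fin_ord (3 / 2 * T) B fun n hn => ⟨hn.1, hn.2.2.1⟩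
    rw [Set.ncard_eq_toFinset_card B hBfin]
    have h1 := h S (by linarith) m hm1 hmS hBfin.toFinset (fun n hn => by
      rw [Set.Finite.mem_toFinset] at hn
      obtain ⟨a1, a2, a3, a4, a5⟩ := hn
      obtain ⟨w1, w2, w3⟩ := hw n a1 a2 a3
      refine ⟨a1, w1, w2, ?_, ?_⟩
      · rw [← tel, le_div_iff₀ hL0, Finset.sum_mul]
        calc ∑ i ∈ Finset.range m, (ord (n + i + 1) - ord (n + i)) * L ≤
            ∑ i ∈ Finset.range m, 2 * Real.pi * dlt (n + i) := by
              refine Finset.sum_le_sum fun i hi => ?_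
              have := (w3 i (Finset.mem_range.1 hi)).2.1
              linarith
          _ = 2 * Real.pi * ∑ i ∈ Finset.range m, dlt (n + i) := by rw [Finset.mul_sum]
          _ ≤ 2 * Real.pi * (2 * m) := by gcongr
          _ ≤ _ := by nlinarith
      · have hterm : ∀ i ∈ Finset.range m, Real.pi / L * bg (8 * H) (dlt (n + i)) ≤
            bg (8 * Real.pi * H / L) (ord (n + i + 1) - ord (n + i)) := by
          intro i hi
          obtain ⟨v1, v2, v3⟩ := w3 i (Finset.mem_range.1 hi)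
          have v4 : Real.pi / L * dlt (n + i) ≤ ord (n + i + 1) - ord (n + i) := by
            have g1 : (L + 2) * (ord (n + i + 1) - ord (n + i)) ≤
                2 * L * (ord (n + i + 1) - ord (n + i)) := by
              apply mul_le_mul_of_nonneg_right _ v1
              linarith
            rw [div_mul_eq_mul_div, div_le_iff₀ hL0]
            linarith
          unfold bg
          by_cases hc : 8 * H < dlt (n + i)
          · have g2 : 8 * Real.pi * H / L < ord (n + i + 1) - ord (n + i) := by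
              refine lt_of_lt_of_le ?_ v4
              have : 8 * Real.pi * H / L = Real.pi / L * (8 * H) := by ring
              rw [this]
              apply mul_lt_mul_of_pos_left hc (by positivity)
            rw [if_pos hc, if_pos g2]
            exact v4
          · rw [if_neg hc, mul_zero]
            split_ifs
            · exact v1
            · exact le_rfl
        refine le_trans ?_ (Finset.sum_le_sum hterm)
        rw [← Finset.mul_sum]
        have g3 := mul_le_mul_of_nonneg_left a5 (show 0 ≤ Real.pi / L by positivity)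
        refine le_trans (le_of_eq ?_) g3
        ring)
    refine h1.trans ?_
    have e1 : 1 / L ≤ 1 / (m : ℝ) := one_div_le_one_div_of_le hmp hmS
    calc K * (1 / m + 1 / L) * (S * L) ≤ K * (1 / m + 1 / m) * (T * Real.log T) := by
          gcongr
          linarith
      _ = _ := by ring
  obtain ⟨K', N0, hK', hN0, h2⟩ := short
    (fun m n => ∑ i ∈ Finset.range m, dlt (n + i) ≤ 2 * m ∧
        27648 * 8 * C / H ^ 2 * m ≤ ∑ i ∈ Finset.range m, bg (8 * H) (dlt (n + i)))
    (2 * K) (max (2 * T1) (max T2 T3)) 1 (by positivity) (by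
      have : 2 * T1 ≤ max (2 * T1) (max T2 T3) := le_max_left _ _
      linarith) le_rfl hblock
  exact ⟨K', N0, hK', hN0, h2⟩

end Pool.Agent.TH800.DM
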