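import Pool.Agent.TH800.DM.Ky

/-! The tail of the gap distribution: the Selberg kernel. -/

open Complex Filter Topology Set MeasureTheory

namespace Pool.Agent.TH800.DM

open H370 (Zf)
open TC (om om_pos om_le_one om_cont)
open SG (ord NZ)
open MS (PX aa gau0 mem_PX)
open H370.A3 (ss ss_le ss_nonneg ss_cont ss_one ss_lip ss_zero)

/-- the weight -/
noncomputable def sl (H α : ℝ) : ℝ := ss (min (H * |α|) 1)

/-- length of the prime sum -/
noncomputable def NH (H L : ℝ) : ℕ := ⌊Real.exp (2 * (1 / H * L))⌋₊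

lemma sl_cont (H : ℝ) : Continuous (sl H) := by
  unfold sl
  exact ss_cont.comp (by fun_prop)

lemma sl_nonneg (H α : ℝ) : 0 ≤ sl H α := ss_nonneg (min_le_right _ _)

lemma sl_le {H : ℝ} (hH : 0 ≤ H) (α : ℝ) : |sl H α| ≤ 1 := by
  rw [abs_of_nonneg (sl_nonneg _ _)]
  exact ss_le (le_min (by positivity) zero_le_one)

lemma sl_zero {H α : ℝ} (hH : 0 < H) (h : 1 / H ≤ α) : sl H α = 0 := by
  have h0 : 0 ≤ α := (by positivity : 0 ≤ 1 / H).trans h
  unfold sl
  rw [abs_of_nonneg h0, min_eq_right, ss_one]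
  rw [div_le_iff₀ hH] at h
  linarith

lemma Kc_neg {H z : ℝ} (hH : 1 ≤ H) (hz : 2 * Real.pi * H < |z|) : Kc (sl H) z ≤ 0 := by
  have hH0 : 0 < H := by linarith
  have hpi := Real.pi_pos
  have hc : Continuous fun α => sl H α * Real.cos (α * z) := (sl_cont H).mul (by fun_prop)
  have h1 : 1 / H ≤ 1 := by rw [div_le_one hH0]; exact hH
  unfold Kc
  rw [← intervalIntegral.integral_add_adjacent_intervals (hc.intervalIntegrable 0 (1 / H))
    (hc.intervalIntegrable (1 / H) 1)]
  have e1 : ∫ α in (1 / H)..1, sl H α * Real.cos (α * z) = 0 := by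
    rw [intervalIntegral.integral_congr (g := fun _ => (0 : ℝ))]
    · simp
    · intro α hα
      rw [Set.uIcc_of_le h1] at hα
      show sl H α * Real.cos (α * z) = 0
      rw [sl_zero hH0 hα.1, zero_mul]
  have e2 := MS.ker_int hH0 one_pos z
  have e3 : ∫ u in (0 : ℝ)..(1 / H), H370.A3.ps H (u / 1) * Real.cos (u * z) =
      H * ∫ α in (0 : ℝ)..(1 / H), sl H α * Real.cos (α * z) := by
    rw [← intervalIntegral.integral_const_mul]
    refine intervalIntegral.integral_congr fun u _ => ?_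
    show H370.A3.ps H (u / 1) * Real.cos (u * z) = H * (sl H u * Real.cos (u * z))
    unfold H370.A3.ps sl
    rw [div_one]
    ring
  have e4 : MS.hk H 1 z ≤ 0 := MS.hk_neg hH0 one_pos (by rw [div_one]; exact hz)
  rw [e1, add_zero]
  rw [e3] at e2
  have e5 : H * ∫ α in (0 : ℝ)..(1 / H), sl H α * Real.cos (α * z) ≤ 0 := by
    rw [e2]
    linarith
  by_contra hcon
  push Not at hcon
  have := mul_pos hH0 hcon
  linarith

lemma Mm_low {H T : ℝ} (hH : 1 ≤ H) (hL : 4 * H ≤ Real.log T) : 1 / 12 ≤ Mm T (sl H) := by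
  have hL0 : 0 < Real.log T := by linarith
  have hL1 : 1 ≤ Real.log T := by linarith
  unfold Mm
  have hc : Continuous fun u : ℝ => sl H (u / Real.log T) * gau0 u :=
    ((sl_cont H).comp (by fun_prop)).mul MS.gau0_cont
  have h0 : ∫ u in (0 : ℝ)..1, sl H (u / Real.log T) * gau0 u ≤
      ∫ u in (0 : ℝ)..Real.log T, sl H (u / Real.log T) * gau0 u :=
    intervalIntegral.integral_mono_interval le_rfl zero_le_one hL1
      (Filter.Eventually.of_forall fun u => mul_nonneg (sl_nonneg _ _) (MS.gau0_pos _).le)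
      (hc.intervalIntegrable _ _)
  refine le_trans ?_ h0
  have h1 : ∫ u in (0 : ℝ)..1, (1 / 12 : ℝ) ≤ ∫ u in (0 : ℝ)..1, sl H (u / Real.log T) * gau0 u := by
    refine intervalIntegral.integral_mono_on zero_le_one (continuous_const.intervalIntegrable _ _)
      (hc.intervalIntegrable _ _) fun u hu => ?_
    have g1 : 1 / 2 ≤ sl H (u / Real.log T) := by
      unfold sl
      have g2 := ss_lip (min (H * |u / Real.log T|) 1) 0
      rw [ss_zero, sub_zero] at g2
      have g3 : 0 ≤ min (H * |u / Real.log T|) 1 := le_min (by positivity) zero_le_one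
      rw [abs_of_nonneg g3] at g2
      have g4 : min (H * |u / Real.log T|) 1 ≤ 1 / 4 := by
        refine (min_le_left _ _).trans ?_
        rw [abs_div, abs_of_nonneg hu.1, abs_of_pos hL0, ← mul_div_assoc, div_le_iff₀ hL0]
        have : H * u ≤ H * 1 := by
          apply mul_le_mul_of_nonneg_left hu.2
          linarith
        linarith
      have g5 := (abs_le.1 g2).1
      linarith
    have g2 : 1 / 6 ≤ gau0 u := by
      unfold MS.gau0
      have s1 : Real.sqrt (2 * Real.pi) ≤ 3 := by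
        rw [Real.sqrt_le_left (by norm_num)]
        have := Real.pi_lt_d2
        linarith
      have s0 := MS.s2pi
      have s2 : 1 / 2 ≤ Real.exp (-u ^ 2 / 2) := by
        have := Real.add_one_le_exp (-u ^ 2 / 2)
        have : u ^ 2 ≤ 1 := by
          rw [sq_le_one_iff₀ hu.1]
          exact hu.2
        linarith
      have s3 : 1 / 3 ≤ 1 / Real.sqrt (2 * Real.pi) := one_div_le_one_div_of_le s0 s1
      calc (1 : ℝ) / 6 = 1 / 3 * (1 / 2) := by norm_num
        _ ≤ _ := by gcongr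
    calc (1 : ℝ) / 12 = 1 / 2 * (1 / 6) := by norm_num
      _ ≤ _ := by gcongr
  rw [intervalIntegral.integral_const, smul_eq_mul] at h1
  linarith

/-- in the middle of a large gap the sum over the zeros is nonpositive -/
lemma Zs_neg (RH : RiemannHypothesis) {T H t : ℝ} (hT : 1 < T) (hH : 1 ≤ H) {n : ℕ} (hn : 1 ≤ n)
    (h1 : ord n + 2 * Real.pi * H / Real.log T < t)
    (h2 : t < ord (n + 1) - 2 * Real.pi * H / Real.log T) : Zs T t (sl H) ≤ 0 := by
  have hL : 0 < Real.log T := Real.log_pos hT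
  have hpi := Real.pi_pos
  have e : Zs T t (sl H) = ∑ j ∈ Finset.Ioc (NZ T) (NZ (2 * T)),
      Real.exp (-(ord j - t) ^ 2 / 2) * Kc (sl H) (Real.log T * (ord j - t)) := by
    unfold Zs
    rw [← sum_idx RH hT.le (fun x => Real.exp (-(x - t) ^ 2 / 2) *
      Kc (sl H) (Real.log T * (x - t)))]
    refine Finset.sum_congr rfl fun s _ => ?_
    ring
  rw [e]
  apply Finset.sum_nonpos
  intro j hj
  rw [Finset.mem_Ioc] at hj
  have hj1 : 1 ≤ j := by omega
  apply mul_nonpos_of_nonneg_of_nonpos (Real.exp_pos _).le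
  apply Kc_neg hH
  rw [abs_mul, abs_of_pos hL]
  have h3 : 2 * Real.pi * H / Real.log T < |ord j - t| := by
    rcases le_or_gt j n with hjn | hjn
    · have := SG.ord_mono hj1 hjn
      rw [abs_sub_comm]
      exact lt_of_lt_of_le (by linarith) (le_abs_self _)
    · have := SG.ord_mono (by omega : 1 ≤ n + 1) (by omega : n + 1 ≤ j)
      exact lt_of_lt_of_le (by linarith) (le_abs_self _)
  rw [div_lt_iff₀ hL] at h3
  linarith

/-- the local square function -/
noncomputable def gH (H T t : ℝ) : ℝ :=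
  ‖Fs (PX (NH H (Real.log T))) (ac T (sl H)) t‖ ^ 2 + Rr T (sl H) (NH H (Real.log T)) t ^ 2

lemma gH_cont (H T : ℝ) : Continuous (gH H T) := by
  unfold gH
  exact ((Fs_cont _ _).norm.pow 2).add ((Rr_cont _ _ _).pow 2)

lemma gH_nonneg (H T t : ℝ) : 0 ≤ gH H T t := by unfold gH; positivity

/-- large gaps are seen by the prime sum -/
theorem gap_low (RH : RiemannHypothesis) (H : ℝ) (hH : 1 ≤ H) : ∃ T0 : ℝ, 10 ≤ T0 ∧
    ∀ T : ℝ, T0 ≤ T → ∀ (t : ℝ) (n : ℕ), 1 ≤ n → T + Real.log T ≤ t → t ≤ 2 * T - Real.log T →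
    ord n + 2 * Real.pi * H / Real.log T < t → t < ord (n + 1) - 2 * Real.pi * H / Real.log T →
    1 / 1152 ≤ gH H T t := by
  have hH0 : 0 < H := by linarith
  obtain ⟨C1, T1, hC1, hT1, h1⟩ := ex1 (MS.rhs_of RH)
  obtain ⟨C2, hC2, h2⟩ := ex2 (1 / H) (by positivity)
  obtain ⟨T8, hT8⟩ : ∃ T8 : ℝ, ∀ T : ℝ, T8 ≤ T → max (4 * H) (24 * (C1 + C2)) ≤ Real.log T :=
    (Real.tendsto_log_atTop.eventually_ge_atTop _).exists_forall_of_atTop
  refine ⟨max T1 T8, hT1.trans (le_max_left _ _), fun T hT t n hn ht1 ht2 ht3 ht4 => ?_⟩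
  have hTT1 : T1 ≤ T := (le_max_left _ _).trans hT
  have hL8 := hT8 T ((le_max_right _ _).trans hT)
  have hT10 : 10 ≤ T := hT1.trans hTT1
  have hL4 : 4 * H ≤ Real.log T := (le_max_left _ _).trans hL8
  have hLC : 24 * (C1 + C2) ≤ Real.log T := (le_max_right _ _).trans hL8
  have hL : 0 < Real.log T := by linarith
  have e1 := h1 T hTT1 (sl H) 1 (sl_cont H) (sl_le hH0.le) t ht1 ht2
  have e2 := h2 T hT10 (sl H) 1 (sl_le hH0.le) (fun α hα => sl_zero hH0 hα) t
  have e3 := Mm_low hH hL4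
  have e4 := Zs_neg RH (by linarith) hH hn ht3 ht4
  change |(SP.ps T t (Ww T (sl H))).re - (Fs (PX (NH H (Real.log T))) (ac T (sl H)) t).re| ≤
    Rr T (sl H) (NH H (Real.log T)) t + C2 * (1 / Real.log T) at e2
  have e5 : C1 * (1 / Real.log T) + C2 * (1 / Real.log T) ≤ 1 / 24 := by
    have : C1 * (1 / Real.log T) + C2 * (1 / Real.log T) = (C1 + C2) / Real.log T := by ring
    rw [this, div_le_iff₀ hL]
    linarith
  have e6 := (abs_le.1 e1).1
  have e7 := (abs_le.1 e2).2
  have e8 : (Fs (PX (NH H (Real.log T))) (ac T (sl H)) t).re ≤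
      ‖Fs (PX (NH H (Real.log T))) (ac T (sl H)) t‖ := Complex.re_le_norm _
  have e9 : 1 / 24 ≤ ‖Fs (PX (NH H (Real.log T))) (ac T (sl H)) t‖ +
      Rr T (sl H) (NH H (Real.log T)) t := by linarith
  unfold gH
  nlinarith [sq_nonneg (‖Fs (PX (NH H (Real.log T))) (ac T (sl H)) t‖ -
    Rr T (sl H) (NH H (Real.log T)) t)]

end Pool.Agent.TH800.DM
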