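import Pool.Agent.TH800.DM.Tl

/-! The tail of the gap distribution: second moments. -/

open Complex Filter Topology Set MeasureTheory

namespace Pool.Agent.TH800.DM

open H370 (Zf)
open TC (om om_pos om_le_one om_cont)
open SG (ord NZ)
open MS (PX aa gau0 mem_PX)

lemma NH_one {H L : ℝ} (hH : 0 < H) (hL : 0 < L) : 1 ≤ NH H L := by
  apply Nat.le_floor
  push_cast
  rw [Real.one_le_exp_iff]
  positivity

lemma NH_log {H L : ℝ} (hH : 0 < H) (hL : 0 < L) : Real.log (NH H L) ≤ 2 / H * L := by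
  have h1 : (NH H L : ℝ) ≤ Real.exp (2 * (1 / H * L)) := Nat.floor_le (Real.exp_pos _).le
  have h2 : (0 : ℝ) < NH H L := by exact_mod_cast NH_one hH hL
  have := Real.log_le_log h2 h1
  rw [Real.log_exp] at this
  refine this.trans (le_of_eq ?_)
  ring

lemma NH_pow {H T : ℝ} (hH : 10 ≤ H) (hT : 1 < T) : (NH H (Real.log T) : ℝ) ^ 5 ≤ T := by
  have hL : 0 < Real.log T := Real.log_pos hT
  have h1 : (NH H (Real.log T) : ℝ) ≤ Real.exp (2 * (1 / H * Real.log T)) :=
    Nat.floor_le (Real.exp_pos _).le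
  calc (NH H (Real.log T) : ℝ) ^ 5 ≤ Real.exp (2 * (1 / H * Real.log T)) ^ 5 := by gcongr
    _ ≤ Real.exp (Real.log T) := by
        rw [← Real.exp_nat_mul]
        apply Real.exp_le_exp.2
        push_cast
        have : 1 / H ≤ 1 / 10 := one_div_le_one_div_of_le (by norm_num) hH
        have h3 : 1 / H * Real.log T ≤ 1 / 10 * Real.log T := by gcongr
        linarith
    _ = T := Real.exp_log (by linarith)

lemma ach_le {H T : ℝ} (hH : 0 ≤ H) (hT : 1 < T) (p : ℕ) :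
    |ac T (sl H) p| ≤ 1 / Real.log T * aa p := by
  unfold ac
  rw [abs_mul, abs_of_nonneg (MS.aa_nonneg p), mul_comm]
  exact mul_le_mul_of_nonneg_right (cw_le hT (sl_le hH) _) (MS.aa_nonneg p)

lemma ach_sum {H T : ℝ} (hH : 10 ≤ H) (hT : 1 < T) (hL : 2 ≤ Real.log T) :
    ∑ p ∈ PX (NH H (Real.log T)), |ac T (sl H) p| ≤ T := by
  have hL0 : 0 < Real.log T := by linarith
  have hN1r : (1 : ℝ) ≤ NH H (Real.log T) := by exact_mod_cast NH_one (by linarith) hL0
  have hN5 := NH_pow hH hT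
  have hle := ach_le (H := H) (by linarith) hT
  generalize NH H (Real.log T) = N at hN1r hN5
  calc ∑ p ∈ PX N, |ac T (sl H) p| ≤ ∑ p ∈ PX N, (N : ℝ) := by
        refine Finset.sum_le_sum fun p hp => (hle p).trans ?_
        have hpp := (mem_PX.1 hp).1
        have hp1 : (1 : ℝ) ≤ p := by exact_mod_cast hpp.one_lt.le
        have g1 : aa p ≤ p := by
          unfold MS.aa
          have := Real.log_le_sub_one_of_pos (show (0 : ℝ) < p by linarith)
          refine (div_le_self (Real.log_natCast_nonneg p) ?_).trans (by linarith)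
          rw [Real.one_le_sqrt]
          exact hp1
        have g2 : (p : ℝ) ≤ N := by exact_mod_cast (mem_PX.1 hp).2
        have g3 : 1 / Real.log T ≤ 1 := by rw [div_le_one hL0]; linarith
        have g4 := MS.aa_nonneg p
        calc 1 / Real.log T * aa p ≤ 1 * N := mul_le_mul g3 (g1.trans g2) g4 zero_le_one
          _ = N := one_mul _
    _ ≤ (N : ℝ) * N := by
        rw [Finset.sum_const, nsmul_eq_mul]
        apply mul_le_mul_of_nonneg_right _ (by linarith)
        have : (PX N).card ≤ N := by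
          unfold MS.PX
          refine (Finset.card_filter_le _ _).trans ?_
          rw [Nat.card_Icc]
          omega
        exact_mod_cast this
    _ = (N : ℝ) ^ 2 := by ring
    _ ≤ (N : ℝ) ^ 5 := pow_le_pow_right₀ hN1r (by norm_num)
    _ ≤ T := hN5

/-- size of the coefficients -/
theorem ach_sq : ∃ C : ℝ, 1 ≤ C ∧ ∀ H : ℝ, 10 ≤ H → ∀ T : ℝ, 1 < T → H ≤ Real.log T →
    ∑ p ∈ PX (NH H (Real.log T)), ac T (sl H) p ^ 2 ≤ C / H ^ 2 := by
  obtain ⟨C, hC, h⟩ := MS.sum_aa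
  refine ⟨2 + 3 * C, by linarith, fun H hH T hT hLH => ?_⟩
  have hH0 : 0 < H := by linarith
  have hL0 : 0 < Real.log T := Real.log_pos hT
  have h1 := (abs_le.1 (h (NH H (Real.log T)) (NH_one hH0 hL0))).2
  have hlN := Real.log_natCast_nonneg (NH H (Real.log T))
  have hl2 := NH_log hH0 hL0
  have hle := ach_le (H := H) (by linarith) hT
  generalize NH H (Real.log T) = N at h1 hlN hl2
  set L := Real.log T with hL
  set y := L / H with hy
  have hy1 : 1 ≤ y := by rw [hy, le_div_iff₀ hH0]; linarith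
  have hl3 : Real.log N ≤ 2 * y := by
    refine hl2.trans (le_of_eq ?_)
    rw [hy]; ring
  have h2 : ∑ p ∈ PX N, aa p ^ 2 ≤ (2 + 3 * C) * y ^ 2 := by
    have a1 : Real.log N ^ 2 ≤ (2 * y) ^ 2 := pow_le_pow_left₀ hlN hl3 2
    have a2 : C * (Real.log N + 1) ≤ C * (3 * y ^ 2) := by
      apply mul_le_mul_of_nonneg_left _ hC.le
      nlinarith
    linarith
  calc ∑ p ∈ PX N, ac T (sl H) p ^ 2 ≤ ∑ p ∈ PX N, (1 / L) ^ 2 * aa p ^ 2 := by
        refine Finset.sum_le_sum fun p _ => ?_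
        have := hle p
        have h3 := pow_le_pow_left₀ (abs_nonneg _) this 2
        rw [sq_abs, mul_pow] at h3
        exact h3
    _ = (1 / L) ^ 2 * ∑ p ∈ PX N, aa p ^ 2 := by rw [Finset.mul_sum]
    _ ≤ (1 / L) ^ 2 * ((2 + 3 * C) * y ^ 2) := by gcongr
    _ = _ := by rw [hy]; field_simp

/-- mean value of the off-diagonal terms -/
theorem odh_int : ∃ C T0 : ℝ, 0 < C ∧ 10 ≤ T0 ∧ ∀ H : ℝ, 10 ≤ H → ∀ T : ℝ, T0 ≤ T →
    H ≤ Real.log T → ∀ h : ℝ, 0 < h → h ≤ 30 →
    ∫ u in T..(2 * T), ‖OD (PX (NH H (Real.log T))) (ac T (sl H)) h u‖ ^ 2 ≤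
      C * (T * (1 / (Real.log T * h) + 1 / Real.log T)) := by
  obtain ⟨C1, hC1, hsq⟩ := ach_sq
  obtain ⟨C7, hC7, h7⟩ := gsumK
  obtain ⟨T7, hT7, htiny⟩ := tiny
  refine ⟨4 * (C1 * (C7 * 30) + 1), T7, by positivity, hT7, fun H hH T hT hLH h hh0 hh1 => ?_⟩
  have hH0 : 0 < H := by linarith
  have hT10 : 10 ≤ T := hT7.trans hT
  have hTpos : 0 < T := by linarith
  have hT1 : 1 < T := by linarith
  have hN5 := NH_pow hH hT1
  have hSup := hsq H hH T hT1 hLH
  have hA := ach_sum hH hT1 (by linarith)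
  have hK : ∀ p ∈ PX (NH H (Real.log T)), |ac T (sl H) p| ≤ 1 / Real.log T * aa p := fun p _ =>
    ach_le (by linarith) hT1 p
  have hLpos : 0 < Real.log T := by linarith
  have hLT : Real.log T ≤ T := by
    have := Real.log_le_sub_one_of_pos hTpos
    linarith
  have hN1 := NH_one hH0 hLpos
  have hlogN := NH_log hH0 hLpos
  generalize NH H (Real.log T) = N at hN5 hSup hA hK hN1 hlogN
  generalize ac T (sl H) = a at hSup hA hK
  have htin := htiny T hT N hN1 hN5
  set L := Real.log T with hL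
  have hN1r : (1 : ℝ) ≤ N := by exact_mod_cast hN1
  have hN0 : (0 : ℝ) < N := by linarith
  have hS1 : ∑ p ∈ PX N, a p ^ 2 ≤ C1 := by
    refine hSup.trans ?_
    apply div_le_self (by linarith)
    nlinarith
  have hlogN2 : Real.log N ≤ L := by
    refine hlogN.trans ?_
    have : 2 / H ≤ 1 := by rw [div_le_one hH0]; linarith
    calc 2 / H * L ≤ 1 * L := by gcongr
      _ = L := one_mul _
  have hB : ∀ v, ∑ p ∈ PX N, a p ^ 2 * Real.exp (-(h ^ 2 * (Real.log p - v) ^ 2)) ≤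
      C7 * 30 * (1 / (L * h)) := by
    intro v
    set h' := min h 1 with hh'
    have hh'0 : 0 < h' := lt_min hh0 one_pos
    have hh'h : h' ≤ h := min_le_left _ _
    have hh'3 : h ≤ 30 * h' := by
      rcases le_total h 1 with h3 | h3
      · rw [hh', min_eq_left h3]
        linarith
      · rw [hh', min_eq_right h3]
        linarith
    have g1 : ∑ p ∈ PX N, a p ^ 2 * Real.exp (-(h ^ 2 * (Real.log p - v) ^ 2)) ≤
        ∑ p ∈ PX N, a p ^ 2 * Real.exp (-(h' ^ 2 * (Real.log p - v) ^ 2)) := by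
      refine Finset.sum_le_sum fun p _ => ?_
      apply mul_le_mul_of_nonneg_left _ (sq_nonneg _)
      apply Real.exp_le_exp.2
      have : h' ^ 2 * (Real.log p - v) ^ 2 ≤ h ^ 2 * (Real.log p - v) ^ 2 := by gcongr
      linarith
    refine g1.trans ((h7 N a (1 / L) v h' hN1 (by positivity) hh'0 (min_le_right _ _) hK).trans ?_)
    rw [mul_assoc]
    apply mul_le_mul_of_nonneg_left _ hC7.le
    calc (1 / L) ^ 2 * Real.log N / h' ≤ (1 / L) ^ 2 * L / h' := by gcongr
      _ = 1 / (L * h') := by field_simp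
      _ ≤ 1 / (L * (h / 30)) := by
          apply one_div_le_one_div_of_le (by positivity)
          apply mul_le_mul_of_nonneg_left _ hLpos.le
          linarith
      _ = _ := by field_simp
  have hod := od_ms (PX N) (fun n hn => (mem_PX.1 hn).1.one_lt.le) a h T N hTpos hN0
    (fun n hn => by exact_mod_cast (mem_PX.1 hn).2)
  refine hod.trans ?_
  have hco := co_P N a h (C7 * 30 * (1 / (L * h))) hB
  have g2 : (∑ n ∈ PX N, |a n|) ^ 4 * Real.exp (-(T ^ 2 * (1 / (N : ℝ) ^ 2) ^ 2) / 2) ≤ 1 / L := by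
    have e1 : Real.exp (-(T ^ 2 * (1 / (N : ℝ) ^ 2) ^ 2) / 2) ≤
        Real.exp (-(T ^ 2 * (1 / ((N : ℝ) ^ 2) ^ 2) ^ 2) / 2) := by
      apply Real.exp_le_exp.2
      have e2 : 1 / ((N : ℝ) ^ 2) ^ 2 ≤ 1 / (N : ℝ) ^ 2 := by
        apply one_div_le_one_div_of_le (by positivity)
        have : 1 ≤ (N : ℝ) ^ 2 := one_le_pow₀ hN1r
        nlinarith
      have e3 : (1 / ((N : ℝ) ^ 2) ^ 2) ^ 2 ≤ (1 / (N : ℝ) ^ 2) ^ 2 := by gcongr
      have e4 : T ^ 2 * (1 / ((N : ℝ) ^ 2) ^ 2) ^ 2 ≤ T ^ 2 * (1 / (N : ℝ) ^ 2) ^ 2 := by gcongr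
      linarith
    have e5 : (∑ n ∈ PX N, |a n|) ^ 4 ≤ T ^ 4 := by
      have : 0 ≤ ∑ n ∈ PX N, |a n| := Finset.sum_nonneg fun _ _ => abs_nonneg _
      gcongr
    have e6 : T ^ 4 ≤ T ^ 8 := pow_le_pow_right₀ (by linarith) (by norm_num)
    rw [le_div_iff₀ hLpos]
    refine le_trans ?_ htin
    calc (∑ n ∈ PX N, |a n|) ^ 4 * Real.exp (-(T ^ 2 * (1 / (N : ℝ) ^ 2) ^ 2) / 2) * L ≤
        T ^ 8 * Real.exp (-(T ^ 2 * (1 / ((N : ℝ) ^ 2) ^ 2) ^ 2) / 2) * T := by
          have := e5.trans e6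
          gcongr
      _ = _ := by ring
  have g3 : (∑ p ∈ PX N, a p ^ 2) * (C7 * 30 * (1 / (L * h))) ≤
      C1 * (C7 * 30) * (1 / (L * h)) := by
    calc _ ≤ C1 * (C7 * 30 * (1 / (L * h))) := by gcongr
      _ = _ := by ring
  have p1 : 0 ≤ C1 * (C7 * 30) * (1 / L) := by positivity
  have p2 : 0 ≤ 1 / (L * h) := by positivity
  calc _ ≤ 4 * T * ((C1 * (C7 * 30) + 1) * (1 / (L * h) + 1 / L)) := by
        apply mul_le_mul_of_nonneg_left _ (by positivity)
        nlinarith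
    _ = _ := by ring

end Pool.Agent.TH800.DM
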