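import Pool.Agent.TH800.DM.Sm
import Pool.Agent.TH800.DM.Ix

/-! Window averages and the coefficients in a block. -/

open Complex Filter Topology Set MeasureTheory

namespace Pool.Agent.TH800.DM

open TC (om om_pos om_le_one om_cont)
open SG (ord NZ)
open MS (PX aa gau0 mem_PX)

/-- window averages -/
noncomputable def Wa (g : ℝ → ℝ) (δ u : ℝ) : ℝ := ∫ x in (-δ)..δ, g (u + x)

lemma Wa_eq (g : ℝ → ℝ) (δ u : ℝ) : Wa g δ u = ∫ t in (u - δ)..(u + δ), g t := by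
  unfold Wa
  rw [intervalIntegral.integral_comp_add_left]
  congr 1

lemma Wa_cont {g : ℝ → ℝ} (hg : Continuous g) (δ : ℝ) : Continuous (Wa g δ) := by
  unfold Wa
  apply intervalIntegral.continuous_parametric_intervalIntegral_of_continuous' _ (-δ) δ
  show Continuous fun p : ℝ × ℝ => g (p.1 + p.2)
  exact hg.comp (by fun_prop)

lemma Wa_int {g : ℝ → ℝ} (hg : Continuous g) (hg0 : ∀ t, 0 ≤ g t) {δ a b A B : ℝ} (hδ : 0 ≤ δ)
    (hab : a ≤ b) (hA : A ≤ a - δ) (hB : b + δ ≤ B) :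
    ∫ u in a..b, Wa g δ u ≤ 2 * δ * ∫ t in A..B, g t := by
  unfold Wa
  have hc : Continuous (Function.uncurry fun u x : ℝ => g (u + x)) := by
    show Continuous fun p : ℝ × ℝ => g (p.1 + p.2)
    exact hg.comp (by fun_prop)
  rw [MS.swapI hab (by linarith) hc]
  have h1 : ∀ x ∈ Set.Icc (-δ) δ, ∫ u in a..b, g (u + x) ≤ ∫ t in A..B, g t := by
    intro x hx
    rw [intervalIntegral.integral_comp_add_right]
    exact intervalIntegral.integral_mono_interval (by linarith [hx.1]) (by linarith)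
      (by linarith [hx.2]) (Filter.Eventually.of_forall fun t => hg0 t) (hg.intervalIntegrable _ _)
  have hc2 : Continuous fun x => ∫ u in a..b, g (u + x) := by
    apply intervalIntegral.continuous_parametric_intervalIntegral_of_continuous' _ a b
    show Continuous fun p : ℝ × ℝ => g (p.2 + p.1)
    exact hg.comp (by fun_prop)
  calc _ ≤ ∫ x in (-δ)..δ, ∫ t in A..B, g t :=
        intervalIntegral.integral_mono_on (by linarith) (hc2.intervalIntegrable _ _)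
          (continuous_const.intervalIntegrable _ _) h1
    _ = _ := by
        rw [intervalIntegral.integral_const, smul_eq_mul]
        ring

lemma Wa_nonneg {g : ℝ → ℝ} (hg : ∀ t, 0 ≤ g t) {δ : ℝ} (hδ : 0 ≤ δ) (u : ℝ) : 0 ≤ Wa g δ u :=
  intervalIntegral.integral_nonneg (by linarith) fun x _ => hg _

/-- superpolynomial decay used for the near diagonal terms -/
lemma tiny : ∃ T0 : ℝ, 10 ≤ T0 ∧ ∀ T : ℝ, T0 ≤ T → ∀ N : ℕ, 1 ≤ N →
    (N : ℝ) ^ 5 ≤ T → T ^ 9 * Real.exp (-(T ^ 2 * (1 / ((N : ℝ) ^ 2) ^ 2) ^ 2) / 2) ≤ 1 := by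
  obtain ⟨x0, hx0⟩ : ∃ x0 : ℝ, ∀ x : ℝ, x0 ≤ x → x ^ 45 * Real.exp (-x) ≤ 1 / 2 ^ 45 :=
    ((Real.tendsto_pow_mul_exp_neg_atTop_nhds_zero 45).eventually_le_const
      (by positivity)).exists_forall_of_atTop
  refine ⟨max 10 ((2 * max x0 1) ^ 5), le_max_left _ _, fun T hT N hN hNT => ?_⟩
  have hT10 : 10 ≤ T := (le_max_left _ _).trans hT
  have hT1 : (2 * max x0 1) ^ 5 ≤ T := (le_max_right _ _).trans hT
  have hT0 : 0 < T := by linarith
  set y := T ^ (1 / 5 : ℝ) with hy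
  have hy0 : 0 < y := Real.rpow_pos_of_pos hT0 _
  have hy5 : y ^ 5 = T := by
    rw [hy, ← Real.rpow_natCast, ← Real.rpow_mul hT0.le]
    norm_num
  have hNy : (N : ℝ) ≤ y := by
    rw [← hy5] at hNT
    exact le_of_pow_le_pow_left₀ (by norm_num) hy0.le hNT
  have hN1 : (1 : ℝ) ≤ N := by exact_mod_cast hN
  have hy1 : 1 ≤ y := hN1.trans hNy
  have hxy : 2 * max x0 1 ≤ y := by
    rw [← hy5] at hT1
    exact le_of_pow_le_pow_left₀ (by norm_num) hy0.le hT1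
  have h1 : y ^ 2 ≤ T ^ 2 * (1 / ((N : ℝ) ^ 2) ^ 2) ^ 2 := by
    have h2 : ((N : ℝ) ^ 2) ^ 2 ≤ y ^ 4 := by
      calc ((N : ℝ) ^ 2) ^ 2 = (N : ℝ) ^ 4 := by ring
        _ ≤ y ^ 4 := by gcongr
    have h3 : 1 / y ^ 4 ≤ 1 / ((N : ℝ) ^ 2) ^ 2 := one_div_le_one_div_of_le (by positivity) h2
    have h4 : (1 / y ^ 4) ^ 2 ≤ (1 / ((N : ℝ) ^ 2) ^ 2) ^ 2 := by gcongr
    calc y ^ 2 = (y ^ 5) ^ 2 * (1 / y ^ 4) ^ 2 := by field_simp
      _ ≤ T ^ 2 * (1 / ((N : ℝ) ^ 2) ^ 2) ^ 2 := by rw [hy5]; gcongr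
  have h5 : y / 2 ≤ y ^ 2 / 2 := by nlinarith
  have h6 : Real.exp (-(T ^ 2 * (1 / ((N : ℝ) ^ 2) ^ 2) ^ 2) / 2) ≤ Real.exp (-(y / 2)) := by
    apply Real.exp_le_exp.2
    linarith
  have h7 := hx0 (y / 2) (by
    have := le_max_left x0 1
    linarith)
  calc T ^ 9 * Real.exp (-(T ^ 2 * (1 / ((N : ℝ) ^ 2) ^ 2) ^ 2) / 2) ≤
      T ^ 9 * Real.exp (-(y / 2)) := by gcongr
    _ = 2 ^ 45 * ((y / 2) ^ 45 * Real.exp (-(y / 2))) := by
        rw [← hy5]
        ring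
    _ ≤ 2 ^ 45 * (1 / 2 ^ 45) := by gcongr
    _ = 1 := by norm_num

/-- length of the prime sum -/
noncomputable def Nn (L : ℝ) : ℕ := ⌊Real.exp (2 * (1 / 10 * L))⌋₊

lemma Nn_one {L : ℝ} (hL : 0 < L) : 1 ≤ Nn L := by
  apply Nat.le_floor
  push_cast
  rw [Real.one_le_exp_iff]
  positivity

lemma Nn_log {L : ℝ} (hL : 0 < L) : Real.log (Nn L) ≤ L / 5 := by
  have h1 : (Nn L : ℝ) ≤ Real.exp (2 * (1 / 10 * L)) := Nat.floor_le (Real.exp_pos _).le
  have h2 : (0 : ℝ) < Nn L := by exact_mod_cast Nn_one hL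
  have := Real.log_le_log h2 h1
  rw [Real.log_exp] at this
  linarith

lemma Nn_pow {T : ℝ} (hT : 1 < T) : (Nn (Real.log T) : ℝ) ^ 5 ≤ T := by
  have h1 : (Nn (Real.log T) : ℝ) ≤ Real.exp (2 * (1 / 10 * Real.log T)) :=
    Nat.floor_le (Real.exp_pos _).le
  calc (Nn (Real.log T) : ℝ) ^ 5 ≤ Real.exp (2 * (1 / 10 * Real.log T)) ^ 5 := by gcongr
    _ = T := by
        rw [← Real.exp_nat_mul]
        have : ((5 : ℕ) : ℝ) * (2 * (1 / 10 * Real.log T)) = Real.log T := by push_cast; ring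
        rw [this, Real.exp_log (by linarith)]

lemma ac_le {T : ℝ} (hT : 1 < T) (p : ℕ) : |ac T psi p| ≤ 2 / Real.log T * aa p := by
  unfold ac
  rw [abs_mul, abs_of_nonneg (MS.aa_nonneg p), mul_comm]
  exact mul_le_mul_of_nonneg_right (cw_le hT psi_le _) (MS.aa_nonneg p)

lemma ac_sum {T : ℝ} (hT : 1 < T) (hL : 2 ≤ Real.log T) :
    ∑ p ∈ PX (Nn (Real.log T)), |ac T psi p| ≤ T := by
  set N := Nn (Real.log T) with hN
  have hL0 : 0 < Real.log T := by linarith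
  have hN1r : (1 : ℝ) ≤ N := by exact_mod_cast Nn_one hL0
  calc ∑ p ∈ PX N, |ac T psi p| ≤ ∑ p ∈ PX N, (N : ℝ) := by
        refine Finset.sum_le_sum fun p hp => (ac_le hT p).trans ?_
        have hpp := (mem_PX.1 hp).1
        have hp1 : (1 : ℝ) ≤ p := by exact_mod_cast hpp.one_lt.le
        have g1 : aa p ≤ p := by
          unfold MS.aa
          have := Real.log_le_sub_one_of_pos (show (0 : ℝ) < p by linarith)
          refine (div_le_self (Real.log_natCast_nonneg p) ?_).trans (by linarith)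
          rw [Real.one_le_sqrt]
          exact hp1
        have g2 : (p : ℝ) ≤ N := by exact_mod_cast (mem_PX.1 hp).2
        have g3 : 2 / Real.log T ≤ 1 := by rw [div_le_one hL0]; linarith
        have g4 := MS.aa_nonneg p
        calc 2 / Real.log T * aa p ≤ 1 * N := mul_le_mul g3 (g1.trans g2) g4 zero_le_one
          _ = N := one_mul _
    _ ≤ (N : ℝ) * N := by
        rw [Finset.sum_const, nsmul_eq_mul]
        apply mul_le_mul_of_nonneg_right _ (by linarith)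
        have : (PX N).card ≤ N := by
          unfold MS.PX
          refine (Finset.card_filter_le _ _).trans ?_
          rw [Nat.card_Icc]
          omega
        exact_mod_cast this
    _ = (N : ℝ) ^ 2 := by ring
    _ ≤ (N : ℝ) ^ 5 := pow_le_pow_right₀ hN1r (by norm_num)
    _ ≤ T := Nn_pow hT

/-- the coefficients -/
theorem coef : ∃ s0 s1 L0 : ℝ, 0 < s0 ∧ s0 ≤ s1 ∧ 10 ≤ L0 ∧ ∀ T : ℝ, 1 < T → L0 ≤ Real.log T →
    s0 ≤ ∑ p ∈ PX (Nn (Real.log T)), ac T psi p ^ 2 ∧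
    ∑ p ∈ PX (Nn (Real.log T)), ac T psi p ^ 2 ≤ s1 := by
  obtain ⟨s0, Ls, hs0, hlow⟩ := sum_low
  obtain ⟨Cu, hCu, hup⟩ := sum_up
  refine ⟨s0, max s0 (Cu * 2 ^ 2), max 10 Ls, hs0, le_max_left _ _, le_max_left _ _,
    fun T hT hL => ⟨hlow T ((le_max_right _ _).trans hL), ?_⟩⟩
  have hL10 : 10 ≤ Real.log T := (le_max_left _ _).trans hL
  have hT10 : 10 ≤ T := by
    have := Real.log_le_sub_one_of_pos (show 0 < T by linarith)
    linarith
  refine (hup T psi 2 (Nn (Real.log T)) hT10 (Nn_one (by linarith)) ?_ psi_le).trans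
    (le_max_right _ _)
  have := Nn_log (show 0 < Real.log T by linarith)
  linarith

/-- mean value of the excluded quantities -/
theorem bd_int : ∃ C T0 : ℝ, 0 < C ∧ 10 ≤ T0 ∧ ∀ T : ℝ, T0 ≤ T → ∀ h : ℝ, 0 < h → h ≤ 1 →
    ∫ u in T..(2 * T), Bd (Nn (Real.log T)) (ac T psi) h u ≤
      C * (T * (1 / (Real.log T * h) + 1 / Real.log T)) := by
  obtain ⟨s0, s1, L0, hs0, h01, hL0, hcoef⟩ := coef
  obtain ⟨C7, hC7, h7⟩ := gsumK
  obtain ⟨T7, hT7, htiny⟩ := tiny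
  obtain ⟨T8, hT8⟩ : ∃ T8 : ℝ, ∀ T : ℝ, T8 ≤ T → L0 ≤ Real.log T :=
    (Real.tendsto_log_atTop.eventually_ge_atTop _).exists_forall_of_atTop
  have hs1 : 0 < s1 := by linarith
  refine ⟨4 * ((3 * s1 + 20 * s1 ^ 3) * C7 + 3), max T7 T8, by positivity,
    hT7.trans (le_max_left _ _), fun T hT h hh0 hh1 => ?_⟩
  have hTT7 : T7 ≤ T := (le_max_left _ _).trans hT
  have hTL := hT8 T ((le_max_right _ _).trans hT)
  have hT10 : 10 ≤ T := hT7.trans hTT7
  have hTpos : 0 < T := by linarith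
  have hT1 : 1 < T := by linarith
  have hN5 := Nn_pow hT1
  obtain ⟨-, hSup⟩ := hcoef T hT1 hTL
  have hA := ac_sum hT1 (by linarith)
  have hK : ∀ p ∈ PX (Nn (Real.log T)), |ac T psi p| ≤ 2 / Real.log T * aa p := fun p _ =>
    ac_le hT1 p
  set L := Real.log T with hL
  have hLpos : 0 < L := by linarith
  have hN1 := Nn_one hLpos
  have hlogN := Nn_log hLpos
  set N := Nn L with hN
  have hB : ∀ v, ∑ p ∈ PX N, ac T psi p ^ 2 * Real.exp (-(h ^ 2 * (Real.log p - v) ^ 2)) ≤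
      C7 * (1 / (L * h)) := by
    intro v
    refine (h7 N (ac T psi) (2 / L) v h hN1 (by positivity) hh0 hh1 hK).trans ?_
    apply mul_le_mul_of_nonneg_left _ hC7.le
    calc (2 / L) ^ 2 * Real.log N / h ≤ (2 / L) ^ 2 * (L / 5) / h := by gcongr
      _ = 4 / 5 * (1 / (L * h)) := by field_simp; norm_num
      _ ≤ 1 * (1 / (L * h)) := by gcongr; norm_num
      _ = _ := one_mul _
  have hBd := Bd_ms N hN1 (ac T psi) h (C7 * (1 / (L * h))) T hTpos (by positivity) hB s1 T hSup hA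
    (by linarith)
  have htin := htiny T hTT7 N hN1 hN5
  refine hBd.trans ?_
  have g1 : 3 * T ^ 8 * Real.exp (-(T ^ 2 * (1 / ((N : ℝ) ^ 2) ^ 2) ^ 2) / 2) ≤ 3 * (1 / L) := by
    rw [mul_assoc]
    apply mul_le_mul_of_nonneg_left _ (by norm_num)
    rw [le_div_iff₀ hLpos]
    refine le_trans ?_ htin
    have hLT : L ≤ T := by
      have := Real.log_le_sub_one_of_pos hTpos
      linarith
    calc T ^ 8 * Real.exp (-(T ^ 2 * (1 / ((N : ℝ) ^ 2) ^ 2) ^ 2) / 2) * L ≤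
        T ^ 8 * Real.exp (-(T ^ 2 * (1 / ((N : ℝ) ^ 2) ^ 2) ^ 2) / 2) * T := by gcongr
      _ = _ := by ring
  have p1 : 0 ≤ (3 * s1 + 20 * s1 ^ 3) * C7 * (1 / L) := by positivity
  have p2 : 0 ≤ 3 * (1 / (L * h)) := by positivity
  calc _ ≤ 4 * T * (((3 * s1 + 20 * s1 ^ 3) * C7 + 3) * (1 / (L * h) + 1 / L)) := by
        apply mul_le_mul_of_nonneg_left _ (by positivity)
        nlinarith
    _ = _ := by ring

end Pool.Agent.TH800.DM
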